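import Pool.Agent.H18.D2.Aj
import Pool.Agent.H57.AVG.Prg
import Pool.Agent.H50.K2.Piece
import Pool.Agent.H64.LV.OfAd

/-!
# The codes of a polynomial of the line from its values

`pol_few`: for a family of polynomials on the lines, whose values at the time of the sample are few
bits given a function `c` of the line and the time, all coefficients are few bits given `c` and the
time.
-/

set_option autoImplicit false

namespace Pool.V0S

open Finset Real MvPolynomial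
open Pool.Agent.H49.Ent Pool.Agent.H32.Dense Pool.STK Pool.KA Pool.KSAT Pool.K2S Pool.PB Pool.GEN
open Pool.S6C Pool.LA91 Pool.OWN68 Pool.AJ18
open Pool.PB.Trl (rt rt_mem t_rt)

variable {m J : ℕ}

theorem fl_near {x y D : ℝ} (h : |x - y| ≤ D) : |((⌊x⌋ : ℤ) : ℝ) - (⌊y⌋ : ℤ)| ≤ D + 1 := by
  rw [abs_le] at h ⊢
  have h1 := Int.floor_le x
  have h2 := Int.lt_floor_add_one x
  have h3 := Int.floor_le y
  have h4 := Int.lt_floor_add_one y
  constructor <;> linarith [h.1, h.2]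

/-- The parameter of the window from the time in it. -/
theorem uw_rt (F : Fam m J) {w : ℕ} (hw : w ≤ J) (ω : F.Ω) : uw F w ω = 2 * rt F w ω - 1 := by
  have h1 := t_mid F hw ω
  have h2 := t_rt F hw ω
  have h3 : mid F w (slam F w ω) none = (((slam F w ω).2.2 : ℝ) + 1 / 2) / 2 ^ w := rfl
  rw [h3, h2] at h1
  have p : (0 : ℝ) < 2 ^ w := by positivity
  rw [pow_succ] at h1
  field_simp at h1
  linarith

/-- Subevents of a fixed part. -/
theorem CH_part {F : Fam m J} {A B : F.Ω → Prop} (hA : 0 < Pe F.p A) (hB : Sub B A) {c₀ : ℝ}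
    (hc₀ : 0 < c₀) (hm : c₀ * Pe F.p A ≤ Pe F.p B) {S T : Type} (X : F.Ω → S) (Y : F.Ω → T) :
    CH (Pool.Agent.H49.Ent.cond F.p B True) X Y ≤
      CH (Pool.Agent.H49.Ent.cond F.p A True) X Y / c₀ := by
  have h0 := (isLaw_cond F.isLaw hA).nonneg
  have h1 := Piece.CH_sub F.isLaw hB hA X Y
  have hPB : 0 < Pe F.p B := lt_of_lt_of_le (by positivity) hm
  have h2 := CH_nonneg h0 X Y
  have h3 := CH_nonneg (isLaw_cond F.isLaw hPB).nonneg X Y
  rw [le_div_iff₀ hc₀]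
  have h4 : c₀ * Pe F.p A * CH (Pool.Agent.H49.Ent.cond F.p B True) X Y ≤
      Pe F.p A * CH (Pool.Agent.H49.Ent.cond F.p A True) X Y :=
    le_trans (mul_le_mul_of_nonneg_right hm h3) h1
  have h5 : Pe F.p A * (CH (Pool.Agent.H49.Ent.cond F.p B True) X Y * c₀) ≤
      Pe F.p A * CH (Pool.Agent.H49.Ent.cond F.p A True) X Y := by
    calc _ = c₀ * Pe F.p A * CH (Pool.Agent.H49.Ent.cond F.p B True) X Y := by ring
      _ ≤ _ := h4
  exact le_of_mul_le_mul_left h5 hA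

/-- The family in the parameter of the window, in units. -/
noncomputable def rsc (F : Fam m J) (σ : ℝ) (f : LnT F → Polynomial ℝ) (x : LnT F) :
    Polynomial ℝ :=
  Polynomial.C σ * (f x).comp (Polynomial.C (1 / 2) * Polynomial.X + Polynomial.C (1 / 2))

theorem rsc_deg (F : Fam m J) (σ : ℝ) {f : LnT F → Polynomial ℝ} {D : ℕ}
    (hf : ∀ x, (f x).natDegree ≤ D) (x : LnT F) : (rsc F σ f x).natDegree ≤ D := by
  unfold rsc
  refine (Polynomial.natDegree_C_mul_le _ _).trans (Polynomial.natDegree_comp_le.trans ?_)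
  have h1 : (Polynomial.C (1 / 2) * Polynomial.X + Polynomial.C (1 / 2) :
      Polynomial ℝ).natDegree ≤ 1 := Polynomial.natDegree_linear_le
  calc _ ≤ D * 1 := Nat.mul_le_mul (hf x) h1
    _ = D := mul_one D

theorem rsc_eval (F : Fam m J) (σ : ℝ) (f : LnT F → Polynomial ℝ) (x : LnT F) (u : ℝ) :
    (rsc F σ f x).eval u = σ * (f x).eval ((u + 1) / 2) := by
  unfold rsc
  rw [Polynomial.eval_mul, Polynomial.eval_C, Polynomial.eval_comp]
  simp only [Polynomial.eval_add, Polynomial.eval_mul, Polynomial.eval_C, Polynomial.eval_X]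
  congr 2
  ring

theorem rsc_back (F : Fam m J) (σ : ℝ) (f : LnT F → Polynomial ℝ) (x : LnT F) :
    (rsc F σ f x).comp (Polynomial.C 2 * Polynomial.X - Polynomial.C 1) =
      Polynomial.C σ * f x := by
  unfold rsc
  rw [Polynomial.mul_comp, Polynomial.C_comp, Polynomial.comp_assoc]
  congr 1
  have e : (Polynomial.C (1 / 2) * Polynomial.X + Polynomial.C (1 / 2) : Polynomial ℝ).comp
      (Polynomial.C 2 * Polynomial.X - Polynomial.C 1) = Polynomial.X := by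
    simp only [Polynomial.add_comp, Polynomial.mul_comp, Polynomial.C_comp, Polynomial.X_comp]
    rw [mul_sub, ← mul_assoc, ← Polynomial.C_mul, ← Polynomial.C_mul]
    norm_num
  rw [e, Polynomial.comp_X]

theorem rsc_pj0 (F : Fam m J) (σ : ℝ) (f : LnT F → Polynomial ℝ) {w : ℕ} (hw : w ≤ J) (ω : F.Ω) :
    pj F (rsc F σ f) w 0 ω = σ * (f (slam F w ω)).eval (rt F w ω) := by
  unfold pj
  rw [Function.iterate_zero, id_eq, rsc_eval, uw_rt F hw]
  congr 2
  ring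

/-- The coefficients from those in the parameter of the window. -/
theorem rsc_coef (D : ℕ) : ∃ C : ℝ, 0 ≤ C ∧ ∀ {m J : ℕ} (F : Fam m J) (σ : ℝ)
    (f : LnT F → Polynomial ℝ) (x y : LnT F) (s : ℝ), (∀ x, (f x).natDegree ≤ D) →
    (∀ i ≤ D, |(rsc F σ f x).coeff i - (rsc F σ f y).coeff i| ≤ s) →
    ∀ i ≤ D, |σ * (f x).coeff i - σ * (f y).coeff i| ≤ C * s := by
  obtain ⟨C, hC, hb⟩ := KAL.TAY.coef_bound D
  refine ⟨C * (D + 1), by positivity, ?_⟩
  intro m J F σ f x y s hf hs i hi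
  have hs0 : 0 ≤ s := (abs_nonneg _).trans (hs i hi)
  obtain ⟨P, hP⟩ : ∃ P : Polynomial ℝ, P = rsc F σ f x - rsc F σ f y := ⟨_, rfl⟩
  have hPd : P.natDegree ≤ D := by
    rw [hP]
    exact (Polynomial.natDegree_sub_le _ _).trans (max_le (rsc_deg F σ hf x) (rsc_deg F σ hf y))
  have hPc : ∀ j, |P.coeff j| ≤ s := fun j => by
    rcases le_or_gt j D with hj | hj
    · rw [hP, Polynomial.coeff_sub]
      exact hs j hj
    · rw [Polynomial.coeff_eq_zero_of_natDegree_lt (lt_of_le_of_lt hPd hj), abs_zero]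
      exact hs0
  obtain ⟨Q, hQ⟩ : ∃ Q : Polynomial ℝ, Q = Polynomial.C σ * f x - Polynomial.C σ * f y :=
    ⟨_, rfl⟩
  have hQd : Q.natDegree ≤ D := by
    rw [hQ]
    exact (Polynomial.natDegree_sub_le _ _).trans (max_le
      ((Polynomial.natDegree_C_mul_le _ _).trans (hf x))
      ((Polynomial.natDegree_C_mul_le _ _).trans (hf y)))
  have hQP : Q = P.comp (Polynomial.C 2 * Polynomial.X - Polynomial.C 1) := by
    rw [hQ, hP, Polynomial.sub_comp, rsc_back, rsc_back]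
  have h1 := hb Q ((D + 1) * s) hQd (fun t h0 h1 => by
    rw [hQP, Polynomial.eval_comp]
    simp only [Polynomial.eval_sub, Polynomial.eval_mul, Polynomial.eval_C, Polynomial.eval_X]
    have hu : |2 * t - 1| ≤ 1 := by
      rw [abs_le]
      constructor <;> linarith
    have hdeg : P.natDegree < D + 1 := by omega
    rw [Polynomial.eval_eq_sum_range' hdeg]
    refine (Finset.abs_sum_le_sum_abs _ _).trans ((Finset.sum_le_sum (g := fun _ => s)
      fun j _ => ?_).trans (le_of_eq ?_))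
    · rw [abs_mul, abs_pow]
      calc |P.coeff j| * |2 * t - 1| ^ j ≤ s * 1 :=
            mul_le_mul (hPc j) (pow_le_one₀ (abs_nonneg _) hu) (by positivity) hs0
        _ = s := mul_one s
    · rw [Finset.sum_const, Finset.card_range, nsmul_eq_mul]
      push_cast
      ring) i hi
  rw [hQ, Polynomial.coeff_sub, Polynomial.coeff_C_mul, Polynomial.coeff_C_mul] at h1
  calc _ ≤ C * ((D + 1) * s) := h1
    _ = _ := by ring

/-- **The codes of a polynomial of the line from its values**, given a function of the line. -/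
theorem pol_few (D : ℕ) (hD : 1 ≤ D) {ε : ℝ} (hε : 0 < ε) : ∃ δ : ℝ, 0 < δ ∧
    ∀ {w μ : ℝ} (_ : 0 ≤ w) (_ : 0 < μ) (_ : w + μ ≤ 1), ∃ J₀ : ℕ, ∀ J ≥ J₀, ∀ {m : ℕ}
      (F : Fam m J) (A : F.Ω → Prop) (_ : 0 < Pe F.p A) (f : LnT F → Polynomial ℝ) {𝒞 : Type}
      (c : LnT F → 𝒞) (σ : ℝ), (∀ x, (f x).natDegree ≤ D) →
      (∀ x (u : ℝ), 0 ≤ u → u ≤ 1 → |σ * (f x).eval u| ≤ 2 ^ (μ * J)) →
      (J : ℝ) * Real.log 2 - δ * μ * J ≤
        CH (Pool.Agent.H49.Ent.cond F.p A True) F.T (fun ω => (F.l ω, F.Z ω)) →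
      CH (Pool.Agent.H49.Ent.cond F.p A True)
        (fun ω => ⌊σ * (f (slam F ⌊w * J⌋₊ ω)).eval (rt F ⌊w * J⌋₊ ω)⌋)
        (fun ω => (c (slam F ⌊w * J⌋₊ ω), F.W ω)) ≤ δ * μ * J →
      CH (Pool.Agent.H49.Ent.cond F.p A True)
        (fun ω (j : Fin (D + 1)) => ⌊σ * (f (slam F ⌊w * J⌋₊ ω)).coeff j⌋)
        (fun ω => (c (slam F ⌊w * J⌋₊ ω), F.W ω)) ≤ ε * μ * J := by
  obtain ⟨ε', hε'⟩ : ∃ ε' : ℝ, ε' = ε / (2 * (D + 2)) := ⟨_, rfl⟩
  have hε0 : 0 < ε' := by rw [hε']; positivity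
  have hεe : ε' * (D + 2) = ε / 2 := by
    rw [hε']
    field_simp
  obtain ⟨δ₁, hδ₁, c₀, hc₀, N₀, hN₀, H⟩ := all_jets D hD one_pos le_rfl hε0
  obtain ⟨C₁, hC₁, hb⟩ := KAL.TAY.coef_bound D
  obtain ⟨C₂, hC₂, hder⟩ := der_small D
  obtain ⟨C₃, hC₃, hcoef⟩ := rsc_coef D
  obtain ⟨δ, hδ⟩ : ∃ δ : ℝ, δ = min (δ₁ / 2) (c₀ * δ₁ / 2) := ⟨_, rfl⟩
  have hδ0 : 0 < δ := by rw [hδ]; exact lt_min (by positivity) (by positivity)
  have hδa : δ ≤ δ₁ / 2 := by rw [hδ]; exact min_le_left _ _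
  have hδb : δ ≤ c₀ * δ₁ / 2 := by rw [hδ]; exact min_le_right _ _
  refine ⟨δ, hδ0, ?_⟩
  intro w μ hw hμ hwμ
  obtain ⟨J₁, H⟩ := H (w := w) (μ := μ) hw hμ hwμ
  obtain ⟨c₅, hc₅⟩ : ∃ c₅ : ℝ, c₅ = Real.log 5 := ⟨_, rfl⟩
  obtain ⟨c₆, hc₆⟩ : ∃ c₆ : ℝ, c₆ = Real.log (2 * (2 * (C₂ * (C₁ + 1)) + 1) + 1) := ⟨_, rfl⟩
  obtain ⟨c₇, hc₇⟩ : ∃ c₇ : ℝ, c₇ = Real.log (2 * C₃ + 3) := ⟨_, rfl⟩
  have hc5 : 0 ≤ c₅ := by rw [hc₅]; exact Real.log_nonneg (by norm_num)
  have hc6 : 0 ≤ c₆ := by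
    rw [hc₆]
    refine Real.log_nonneg ?_
    have : 0 ≤ C₂ * (C₁ + 1) := by positivity
    linarith
  have hc7 : 0 ≤ c₇ := by rw [hc₇]; exact Real.log_nonneg (by linarith)
  obtain ⟨J₂, hJ₂⟩ := exists_nat_ge (2 * (c₅ + c₆) / (δ₁ * μ) + 2 * (D + 1) * c₇ / (ε * μ))
  refine ⟨max J₁ J₂, ?_⟩
  intro J hJ m F A hA f 𝒞 c σ hf hsz htim hval
  have hJ0 : (0 : ℝ) ≤ J := Nat.cast_nonneg J
  have hJ2 : (J₂ : ℝ) ≤ J := by exact_mod_cast (le_max_right _ _).trans hJ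
  have k1 : 0 ≤ 2 * (c₅ + c₆) / (δ₁ * μ) := by positivity
  have k2 : 0 ≤ 2 * (D + 1) * c₇ / (ε * μ) := by positivity
  have k3 : c₅ + c₆ ≤ δ₁ / 2 * μ * J := by
    have h1 : 2 * (c₅ + c₆) / (δ₁ * μ) ≤ J := by linarith
    rw [div_le_iff₀ (by positivity)] at h1
    linarith
  have k4 : (D + 1) * c₇ ≤ ε / 2 * μ * J := by
    have h1 : 2 * (D + 1) * c₇ / (ε * μ) ≤ J := by linarith
    rw [div_le_iff₀ (by positivity)] at h1
    linarith
  obtain ⟨W, hW⟩ : ∃ W : ℕ, W = ⌊w * J⌋₊ := ⟨_, rfl⟩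
  have hWJ : W ≤ J := by
    rw [hW]
    refine Nat.floor_le_of_le ?_
    have : w * J ≤ 1 * J := mul_le_mul_of_nonneg_right (by linarith) hJ0
    linarith
  have hHJ := H J ((le_max_left _ _).trans hJ) F A hA (rsc F σ f) c
    (fun ω => (c (slam F ⌊w * J⌋₊ ω), F.W ω))
  rw [← hW] at hHJ hval ⊢
  have hq := isLaw_cond F.isLaw hA
  have h0 := hq.nonneg
  obtain ⟨Y, hY⟩ : ∃ Y : F.Ω → 𝒞 × (ℕ × F.ζ), Y = fun ω => (c (slam F W ω), F.W ω) := ⟨_, rfl⟩
  rw [← hY] at hHJ hval ⊢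
  have hδμ : δ * μ * J ≤ δ₁ / 2 * μ * J := by gcongr
  have hδ1 : δ₁ / 2 * μ * J ≤ δ₁ * μ * J := by
    have : 0 ≤ δ₁ / 2 * μ * J := by positivity
    linarith
  have key := hHJ ⟨rsc_deg F σ hf, by linarith, ?_, ?_, ?_, ?_⟩ ?_
  · -- the conclusion
    obtain ⟨s, hs⟩ : ∃ s : ℝ, s = 2 ^ (ε' * μ * J) := ⟨_, rfl⟩
    have hs1 : 1 ≤ s := by rw [hs]; exact Real.one_le_rpow one_le_two (by positivity)
    have hs0 : 0 < s := by linarith
    rw [← hs] at key
    obtain ⟨Kc, hKc⟩ : ∃ Kc : F.Ω → (Fin (D + 1) → ℤ) × (Fin (D + 1) → ℤ), Kc = fun ω =>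
      (fun j : Fin (D + 1) => ⌊pj F (rsc F σ f) W j ω / s⌋,
        fun j : Fin (D + 1) => ⌊(rsc F σ f (slam F W ω)).coeff j / s⌋) := ⟨_, rfl⟩
    rw [← hKc] at key
    have g1 := CH_le_add h0 (fun ω (j : Fin (D + 1)) => ⌊σ * (f (slam F W ω)).coeff j⌋) Kc Y
    have g2 := Pool.LV64.CH_pi h0 (fun ω => (Kc ω, Y ω)) (e := Real.log (2 * (C₃ * s + 1) + 1))
      (D + 1) (fun ω (j : Fin (D + 1)) => ⌊σ * (f (slam F W ω)).coeff j⌋) (fun j => by
        refine Pool.AVG71.CH_pair_int hq _ _ (by positivity) fun ω ν hω hν e => ?_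
        refine fl_near ?_
        refine hcoef F σ f _ _ s hf (fun i hi => ?_) j (by omega)
        have e1 := (Prod.ext_iff.mp e).1
        rw [hKc] at e1
        have e2 := congrFun (Prod.ext_iff.mp e1).2 (⟨i, by omega⟩ : Fin (D + 1))
        exact of_floor_div hs0 e2)
    have g3 : Real.log (2 * (C₃ * s + 1) + 1) ≤ c₇ + ε' * μ * J := by
      have a1 : 2 * (C₃ * s + 1) + 1 ≤ (2 * C₃ + 3) * s := by nlinarith
      refine (Real.log_le_log (by positivity) a1).trans ?_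
      rw [Real.log_mul (by positivity) (by positivity), ← hc₇, hs, Real.log_rpow two_pos]
      have a2 : Real.log 2 ≤ 1 := by
        have := Real.log_two_lt_d9
        linarith
      have a3 : ε' * μ * J * Real.log 2 ≤ ε' * μ * J * 1 :=
        mul_le_mul_of_nonneg_left a2 (by positivity)
      linarith
    have g4 : ((D + 1 : ℕ) : ℝ) * Real.log (2 * (C₃ * s + 1) + 1) ≤
        (D + 1) * (c₇ + ε' * μ * J) := by
      push_cast
      exact mul_le_mul_of_nonneg_left g3 (by positivity)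
    have g5 : ε' * μ * J + (D + 1) * (ε' * μ * J) = ε / 2 * μ * J := by
      have : ε' * μ * J + (D + 1) * (ε' * μ * J) = ε' * (D + 2) * μ * J := by ring
      rw [this, hεe]
    have g6 : ε / 2 * μ * J + ε / 2 * μ * J = ε * μ * J := by ring
    linarith
  · -- key
    intro ω ν _ _ e
    rw [hY] at e
    have e1 : F.W ω = F.W ν := (Prod.ext_iff.mp e).2
    exact ⟨(Prod.ext_iff.mp e1).1, (Prod.ext_iff.mp e1).2⟩
  · -- ctx
    rw [CH_eq_zero h0 fun ω ν _ _ e => by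
      rw [hY] at e
      exact (Prod.ext_iff.mp e).1]
    positivity
  · -- hgt
    have e1 : (fun ω => ⌊pj F (rsc F σ f) W 0 ω⌋) =
        fun ω => ⌊σ * (f (slam F W ω)).eval (rt F W ω)⌋ := by
      funext ω
      rw [rsc_pj0 F σ f hWJ]
    rw [e1]
    linarith
  · -- natural sizes
    intro j hj hj0
    have hs0 : (0 : ℝ) < 2 ^ (μ * J) := Real.rpow_pos_of_pos two_pos _
    refine le_trans (Pool.AVG71.CH_pair_int hq _ _ (D := 2 * (C₂ * (C₁ + 1)) + 1)
      (by positivity) fun ω ν _ _ _ => fl_near ?_) (by rw [← hc₆]; linarith)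
    have hB : ∀ ω : F.Ω, |pj F (rsc F σ f) W j ω / 2 ^ (μ * J)| ≤ C₂ * (C₁ + 1) := by
      intro ω
      rw [abs_div, abs_of_pos hs0, div_le_iff₀ hs0]
      unfold pj
      have h2 := hder (rsc F σ f (slam F W ω)) j (uw F W ω) ((C₁ + 1) * 2 ^ (μ * J))
        (rsc_deg F σ hf _) (uw_abs F W ω) (fun i _ => by
          rcases le_or_gt i D with hi | hi
          · refine (hb _ _ (rsc_deg F σ hf _) (fun t t0 t1 => ?_) i hi).trans
              (mul_le_mul_of_nonneg_right (by linarith) hs0.le)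
            rw [rsc_eval]
            exact hsz _ _ (by linarith) (by linarith)
          · rw [Polynomial.coeff_eq_zero_of_natDegree_lt
              (lt_of_le_of_lt (rsc_deg F σ hf _) hi), abs_zero]
            positivity)
      linarith
    have a1 := hB ω
    have a2 := hB ν
    rw [abs_le] at a1 a2 ⊢
    constructor <;> linarith [a1.1, a1.2, a2.1, a2.2]
  · -- the rows
    intro B hB hm i j hij hj
    have hPB : 0 < Pe F.p B := lt_of_lt_of_le (by positivity) hm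
    have hBl : IsLaw (Pool.Agent.H49.Ent.cond F.p B True) := isLaw_cond F.isLaw hPB
    have hB0 := hBl.nonneg
    obtain ⟨s, hs⟩ : ∃ s : ℝ, s = 2 ^ ((μ * i / N₀) * J) := ⟨_, rfl⟩
    have hs1 : 1 ≤ s := by rw [hs]; exact Real.one_le_rpow one_le_two (by positivity)
    have hs0 : 0 < s := by linarith
    have e1 := CH_le_add hB0 (fun ω => ⌊pj F (rsc F σ f) W 0 ω / s⌋)
      (fun ω => ⌊pj F (rsc F σ f) W 0 ω⌋) Y
    have e2 : CH (Pool.Agent.H49.Ent.cond F.p B True) (fun ω => ⌊pj F (rsc F σ f) W 0 ω / s⌋)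
        (fun ω => (⌊pj F (rsc F σ f) W 0 ω⌋, Y ω)) ≤ Real.log (2 * 2 + 1) := by
      refine Pool.AVG71.CH_pair_int hBl _ _ (by norm_num) fun ω ν _ _ e => ?_
      have e3 : ⌊pj F (rsc F σ f) W 0 ω⌋ = ⌊pj F (rsc F σ f) W 0 ν⌋ := (Prod.ext_iff.mp e).1
      have e4 : |pj F (rsc F σ f) W 0 ω / s - pj F (rsc F σ f) W 0 ν / s| ≤ 1 := by
        rw [← sub_div, abs_div, abs_of_pos hs0, div_le_one hs0]
        have a1 := Int.floor_le (pj F (rsc F σ f) W 0 ω)
        have a2 := Int.lt_floor_add_one (pj F (rsc F σ f) W 0 ω)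
        have a3 := Int.floor_le (pj F (rsc F σ f) W 0 ν)
        have a4 := Int.lt_floor_add_one (pj F (rsc F σ f) W 0 ν)
        rw [e3] at a1 a2
        rw [abs_le]
        constructor <;> linarith
      have e5 := fl_near e4
      linarith
    have e3 := CH_part hA hB hc₀ hm (fun ω => ⌊pj F (rsc F σ f) W 0 ω⌋) Y
    have e4 : (fun ω => ⌊pj F (rsc F σ f) W 0 ω⌋) =
        fun ω => ⌊σ * (f (slam F W ω)).eval (rt F W ω)⌋ := by
      funext ω
      rw [rsc_pj0 F σ f hWJ]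
    have e5 : CH (Pool.Agent.H49.Ent.cond F.p A True) (fun ω => ⌊pj F (rsc F σ f) W 0 ω⌋) Y / c₀ ≤
        δ₁ / 2 * μ * J := by
      rw [div_le_iff₀ hc₀, e4]
      refine hval.trans ?_
      have a1 : δ * (μ * J) ≤ c₀ * δ₁ / 2 * (μ * J) :=
        mul_le_mul_of_nonneg_right hδb (by positivity)
      linarith
    have e6 : CH (Pool.Agent.H49.Ent.cond F.p B True)
        (fun ω => ⌊pj F (rsc F σ f) W 0 ω / s⌋)
        (fun ω => (⌊pj F (rsc F σ f) W 0 ω / 2 ^ ((μ * j / N₀) * J)⌋, (c (slam F W ω), F.W ω))) ≤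
        CH (Pool.Agent.H49.Ent.cond F.p B True) (fun ω => ⌊pj F (rsc F σ f) W 0 ω / s⌋) Y :=
      CH_mono_cond hB0 fun ω ν _ _ e => by
        rw [hY]
        exact (Prod.ext_iff.mp e).2
    rw [← hs]
    have e7 : Real.log (2 * 2 + 1) = c₅ := by rw [hc₅]; norm_num
    rw [e7] at e2
    have e8 : ((1 - 1) * (μ * j / N₀ - μ * i / N₀) * Real.log 2 + δ₁ * μ) * J = δ₁ * μ * J := by
      ring
    rw [e8]
    have e9 : δ₁ / 2 * μ * J + δ₁ / 2 * μ * J = δ₁ * μ * J := by ring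
    linarith

end Pool.V0S
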