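import Pool.Agent.H87.V0S.Sd

/-!
# The gradients of the target over followers

`tpC`, `TVC`: the targets: the target `i0` is that of `tpE`, the others are near digits of followers.
`Cch`: the charts of the places `≤ i` of a window and of the frame. `grtC_of`: the field `GrTC` of the
class theorem.
-/

set_option autoImplicit false

namespace Pool.V0S

open Finset Real MvPolynomial
open Pool.Agent.H49.Ent Pool.Agent.H32.Dense
open Pool.STK hiding pr2
open Pool.KA Pool.KSAT Pool.K2S Pool.PB Pool.S6C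
open Pool.GEN Pool.CHT Pool.CHX Pool.ISO Pool.LA91 Pool.AVG71 Pool.AVG5 Pool.D2F2 Pool.AVG57
open Pool.AVG66 Pool.VP83
open Pool.D2R (hgt gnh WinB)
open Pool.PB.Trl (rt rt_mem t_rt)

variable {m J : ℕ}

/-- **The paths of the targets.** -/
noncomputable def tpC (F : Fam m J) (c : ℕ → Fin m) (k i q w Wm K Km YM : ℕ) (N γ : ℕ → ℕ)
    (H : LnT F → ℕ → MvPolynomial (Option (Fin m)) ℝ) (mu : LnT F → ℕ → Polynomial ℝ) {C : ℕ}
    (i0 : Fin C) (lf nv : Fin C → ℕ) (W : ℕ) (ω : F.Ω) (v : Fin C) : Polynomial ℝ :=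
  if v = i0 then tpE F c k i q w Wm K Km YM N γ H mu W ω else
    Polynomial.C (2 ^ (γ (lf v) + nv v)) *
      dv W (fun s (_ : Fin m) => H (upw w W s) (lf v)) (c (lf v)) (slam F W ω)

/-- **The values of the targets.** -/
noncomputable def TVC (F : Fam m J) (c : ℕ → Fin m) (k i q w Wm K Km YM : ℕ) (N γ : ℕ → ℕ)
    (H : LnT F → ℕ → MvPolynomial (Option (Fin m)) ℝ) (mu : LnT F → ℕ → Polynomial ℝ)
    (G₀ : PtT F → ℕ → MvPolynomial (Option (Fin m)) ℝ) {C : ℕ}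
    (i0 : Fin C) (lf nv : Fin C → ℕ) (ω : F.Ω) (v : Fin C) : ℝ :=
  if v = i0 then TVE F c k i q w Wm K Km YM N γ H mu G₀ ω else
    2 ^ (γ (lf v) + nv v) * hgt F c G₀ ω (lf v)

/-- **The charts** of the places `≤ i`. -/
noncomputable def Cch (F : Fam m J) (i : ℕ) (G' G₁ : PtT F → ℕ → MvPolynomial (Option (Fin m)) ℝ)
    (ω : F.Ω) : (ℕ → MvPolynomial (Option (Fin m)) ℝ) × (ℕ → MvPolynomial (Option (Fin m)) ℝ) :=
  (fun l => if l ≤ i then G' (ptr F J ω) l else 0, fun l => if l ≤ i then G₁ (ptr F J ω) l else 0)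

section

variable {F : Fam m J} {c : ℕ → Fin m} {k i q w Wm W K Km YM D : ℕ} {N γ : ℕ → ℕ}
  {H : LnT F → ℕ → MvPolynomial (Option (Fin m)) ℝ} {mu : LnT F → ℕ → Polynomial ℝ}
  {G₀ : PtT F → ℕ → MvPolynomial (Option (Fin m)) ℝ} {C : ℕ} {i0 : Fin C} {lf nv : Fin C → ℕ}

theorem tpC_slam (p : F.Ω → ℝ) (hw : w ≤ W) (hwm : Wm ≤ W) (hW : W ≤ J) :
    Det p (slam F W) (tpC F c k i q w Wm K Km YM N γ H mu i0 lf nv W) := by
  intro ω ν hω hν e
  funext v
  unfold tpC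
  rw [tpE_slam p hw hwm hW ω ν hω hν e, e]

theorem tpC_deg (hw : w ≤ W) (hW : W ≤ J) (hH : ∀ s l, (H s l).totalDegree ≤ D)
    (hK : D + 1 ≤ K) (ω : F.Ω) (v : Fin C) :
    (tpC F c k i q w Wm K Km YM N γ H mu i0 lf nv W ω v).natDegree ≤ Km + K := by
  unfold tpC
  split_ifs
  · exact tpE_deg hw hW hH hK ω
  · exact (Polynomial.natDegree_C_mul_le _ _).trans (((natDegree_dv W
      (G := fun s (_ : Fin m) => H (upw w W s) (lf v)) (fun s _ => hH _ _) _ _).trans hK).trans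
        (by omega))

theorem tpC_eval (hw : w ≤ W) (hwm : Wm ≤ W) (hW : W ≤ J) {ω : F.Ω}
    (hc : ∀ l, k ≤ l → l ≤ i → G₀ (ptr F J ω) l = H (slam F w ω) l) (hki : k ≤ i)
    (hlf : ∀ v, v ≠ i0 → k ≤ lf v ∧ lf v < i) (v : Fin C) :
    (tpC F c k i q w Wm K Km YM N γ H mu i0 lf nv W ω v).eval (rt F W ω) =
      TVC F c k i q w Wm K Km YM N γ H mu G₀ i0 lf nv ω v := by
  unfold tpC TVC
  split_ifs with h
  · exact tpE_eval hw hwm hW hc hki
  · rw [dvW_ojet hw hW, hgt_ojet (hw.trans hW) (hc _ (hlf v h).1 (hlf v h).2.le)]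

theorem cch_of {G' G₁ : PtT F → ℕ → MvPolynomial (Option (Fin m)) ℝ} {ω ν : F.Ω}
    (e : Cch F i G' G₁ ω = Cch F i G' G₁ ν) :
    (∀ l ≤ i, G' (ptr F J ω) l = G' (ptr F J ν) l) ∧
      ∀ l ≤ i, G₁ (ptr F J ω) l = G₁ (ptr F J ν) l := by
  obtain ⟨e1, e2⟩ := Prod.ext_iff.mp e
  constructor
  · intro l hl
    have h := congrFun e1 l
    unfold Cch at h
    simpa only [hl, if_true] using h
  · intro l hl
    have h := congrFun e2 l
    unfold Cch at h
    simpa only [hl, if_true] using h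

end

/-- **The gradients of the target over followers.** -/
theorem grtC_of (D r : ℕ) : ∃ C : ℕ, 1 ≤ C ∧ ∀ {m J : ℕ} {F : Fam m J} {c : ℕ → Fin m}
    {Dr N M : ℕ} {C₀ a Eb ηm : ℝ} {o η σ : ℕ → ℝ} {lv b : ℕ → ℕ → ℝ}
    {κ : ℝ} {z : ℕ → ℕ → ℕ} {B : F.Ω → Prop} {g₀ : ℕ → ℕ → ℕ}
    {G : ℕ → PtT F → ℕ → MvPolynomial (Option (Fin m)) ℝ}
    {H : ℕ → LnT F → ℕ → MvPolynomial (Option (Fin m)) ℝ}
    (_ : WinB F c r D Dr N M C₀ a Eb ηm o η σ lv b κ z B g₀ G H)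
    {G' : PtT F → ℕ → MvPolynomial (Option (Fin m)) ℝ} {κ' : F.Ω → ℕ → ℝ}
    {f jj : ℕ → ℕ} {n ks k i q Xp Y : ℕ} {s σ' : ℝ},
    Frm F c k i D Y B (G (f 0)) (g₀ (f 0)) ⌊o (f 0) * J⌋₊ G' κ' →
    Set.InjOn c (Set.Iio (r + 1)) → i ≤ r → k ≤ i → WDs o lv z J N M f jj n k i Y s σ' →
    C₀ * (ηm * J) ≤ Y → 3 ≤ Y → C * Y ≤ q → ks ≤ n →
    s * ((o (f n) - o (f 0)) * J) ≤ q + Y → (q : ℝ) ≤ s * ((o (f n) - o (f 0)) * J) + Y →
    (q : ℝ) + Xp ≤ σ' * ((o (f n) - o (f 0)) * J) + Y → Xp ≤ q + Y →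
    (Xp : ℝ) ≤ s * ((o (f ks) - o (f 0)) * J) + Y →
    (Xp : ℝ) ≤ (σ' - s) * ((o (f ks) - o (f 0)) * J) + Y →
    ∀ {W₀ Wm K Km YM X : ℕ} {Nl : ℕ → ℕ} {Hl : LnT F → ℕ → MvPolynomial (Option (Fin m)) ℝ}
      {mu : LnT F → ℕ → Polynomial ℝ} {Cn : ℕ} {Xt : Fin Cn → ℕ} {i0 : Fin Cn}
      {lf nv : Fin Cn → ℕ} {A : F.Ω → Prop}, W₀ ≤ J → Wm ≤ J → Sub A B →
      (∀ v, v ≠ i0 → k ≤ lf v ∧ lf v < i ∧ Xt v + nv v ≤ q + Y) → Xt i0 = Xp → Xp ≤ X →
      (∀ ω, A ω → ∀ l, k ≤ l → l < i → |gnh F c i (g₀ (f 0)) G' (G (f n)) ω l -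
        (mcE F Wm Km YM mu l ω).eval (rt F Wm ω)| ≤ 2 ^ Y / 2 ^ Xp) →
      GrTC F c k q X (g₀ (f 0)) (2 ^ (C * Y)) A G' Xt i0
        (fun ω (j : Fin k) => gnh F c i (g₀ (f 0)) G' (G (f n)) ω (j : ℕ) / 2 ^ (X - Xp))
        (TVC F c k i q W₀ Wm K Km YM Nl (g₀ (f 0)) Hl mu G' i0 lf nv)
        (sdE F c k i W₀ Wm K Km YM Nl Hl mu) (Cch F i G' (G (f ks))) (Cch F i G' (G (f n))) := by
  obtain ⟨C, hC, hga⟩ := gnh_all D r
  obtain ⟨C', hC', hgn⟩ := gfq_nx D r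
  refine ⟨2 * C + C' + 3, by omega, ?_⟩
  intro m J F c Dr N M C₀ a Eb ηm o η σ lv b κ z B g₀ G H W G' κ' f jj n ks k i q Xp Y s σ' T
    hc hi hki V hY hY3 hCq hks hq1 hq1' hqX hXq hX1 hX2 W₀ Wm K Km YM X Nl Hl mu Cn Xt i0 lf nv A
    hW₀ hWm hAB hlf hx0 hXX hmu
  have hY3R : (3 : ℝ) ≤ Y := by exact_mod_cast hY3
  have hXqR : (Xp : ℝ) ≤ q + Y := by exact_mod_cast hXq
  have hs0 := V.s0
  have hsσ := V.sσ
  have hq2 : 2 ≤ q := by nlinarith
  have hCYq : C' * Y ≤ q := le_trans (Nat.mul_le_mul_right Y (by omega)) hCq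
  have h2Y : C₀ * (ηm * J) ≤ (2 * Y : ℕ) := by push_cast; linarith
  have c1 := hga W (G' := G') (κ' := κ') (f := f) (jj := jj) (n := n) (ks := ks) (k := k) (i := i)
    (q := q) (X := Xp) (Y := Y) (s := s) (σ' := σ') T hc hi hki V hY hY3 hks hq2 hq1 hX1 hX2
  have c2 := hga W (G' := G') (κ' := κ') (f := f) (jj := jj) (n := n) (ks := n) (k := k) (i := i)
    (q := q) (X := Xp) (Y := 2 * Y) (s := s) (σ' := σ') (T.mono (by omega)) hc hi hki
    (V.mono (by omega)) h2Y (by omega) le_rfl hq2 (by push_cast; linarith)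
    (by push_cast; linarith) (by push_cast; linarith)
  have c3 := hgn W (G' := G') (κ' := κ') (f := f) (jj := jj) (n := n) (k := k) (i := i)
    (q := q) (X := Xp) (Y := Y) (Y₃ := Y) (s := s) (σ' := σ') T hc hi hki V hY hY3 hCYq hq1 hq1'
    hqX hXq
  have m1 : (2 : ℝ) ^ (C * Y) ≤ 2 ^ ((2 * C + C' + 3) * Y) :=
    pow_le_pow_right₀ (by norm_num) (Nat.mul_le_mul_right Y (by omega))
  have m2 : (2 : ℝ) ^ (C * (2 * Y)) ≤ 2 ^ ((2 * C + C' + 3) * Y) :=
    pow_le_pow_right₀ (by norm_num) (by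
      rw [show C * (2 * Y) = 2 * C * Y by ring]
      exact Nat.mul_le_mul_right Y (by omega))
  have m3 : (2 : ℝ) ^ (C' * Y + Y) ≤ 2 ^ ((2 * C + C' + 3) * Y) :=
    pow_le_pow_right₀ (by norm_num) (by
      rw [show C' * Y + Y = (C' + 1) * Y by ring]
      exact Nat.mul_le_mul_right Y (by omega))
  obtain ⟨d, hd⟩ : ∃ d, X = Xp + d := ⟨X - Xp, by omega⟩
  have hd' : X - Xp = d := by omega
  have hd0 : (0 : ℝ) < 2 ^ d := by positivity
  have hd1 : (1 : ℝ) ≤ 2 ^ d := one_le_pow₀ (by norm_num)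
  have hdv : ∀ {x y u v : ℝ}, |x - y| ≤ u / 2 ^ Xp → u ≤ v →
      |x / 2 ^ d - y / 2 ^ d| ≤ v / 2 ^ X := by
    intro x y u v h1 h2
    rw [← sub_div, abs_div, abs_of_pos hd0, hd, pow_add, ← div_div]
    exact div_le_div_of_nonneg_right (h1.trans (div_le_div_of_nonneg_right h2 (by positivity)))
      hd0.le
  rw [hd']
  exact
    { U0 := by positivity
      bm := fun ω hω j => by
        have h1 := (c1.1 ω (hAB ω hω) j (by have := j.isLt; omega)).trans m1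
        rw [abs_div, abs_of_pos hd0, div_le_iff₀ hd0]
        exact h1.trans (le_mul_of_one_le_right (by positivity) hd1)
      bj := fun ω ν hω hν ht _ hj hV j => by
        obtain ⟨e1, e2⟩ := cch_of hj
        exact hdv (c1.2 ω ν (hAB ω hω) (hAB ν hν) ht e1 e2 hV j (by have := j.isLt; omega)) m1
      bx := fun ω ν hω hν ht _ hj hV j => by
        obtain ⟨e1, e2⟩ := cch_of hj
        exact hdv (c2.2 ω ν (hAB ω hω) (hAB ν hν) ht e1 e2 hV j (by have := j.isLt; omega)) m2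
      nx := fun ω ν hω hν ht hsd hj hV v => by
        obtain ⟨e1, e2⟩ := cch_of hj
        obtain ⟨g1, g2⟩ := c3 ω ν (hAB ω hω) (hAB ν hν) ht e1 e2 hV
        by_cases hv : v = i0
        · rw [hv, hx0]
          have g3 := g2 (fun l => (mcE F Wm Km YM mu l ω).eval (rt F Wm ω))
            (fun l hl hli => hmu ω hω l hl hli)
          have e3 : TVC F c k i q W₀ Wm K Km YM Nl (g₀ (f 0)) Hl mu G' i0 lf nv ω i0 -
              TVC F c k i q W₀ Wm K Km YM Nl (g₀ (f 0)) Hl mu G' i0 lf nv ν i0 =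
              2 ^ (g₀ (f 0) i + q) * ((hgt F c G' ω i - hgt F c G' ν i) -
                ∑ l ∈ Finset.Ico k i, 2 ^ g₀ (f 0) l / 2 ^ g₀ (f 0) i *
                  (mcE F Wm Km YM mu l ω).eval (rt F Wm ω) *
                    (hgt F c G' ω l - hgt F c G' ν l)) := by
            unfold TVC
            rw [if_pos rfl, if_pos rfl]
            exact TVE_sub hW₀ hWm ht hsd
          have e4 : 2 ^ X * ∑ j : Fin k, Pool.V0S.ggC i0 (fun ω (j : Fin k) =>
              gnh F c i (g₀ (f 0)) G' (G (f n)) ω (j : ℕ) / 2 ^ d) ω i0 j *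
              (2 ^ (g₀ (f 0) j + q) * (hgt F c G' ω j - hgt F c G' ν j)) =
              2 ^ Xp * ∑ j ∈ Finset.range k, gnh F c i (g₀ (f 0)) G' (G (f n)) ω j *
                (2 ^ (g₀ (f 0) j + q) * (hgt F c G' ω j - hgt F c G' ν j)) := by
            rw [← Fin.sum_univ_eq_sum_range (fun j => gnh F c i (g₀ (f 0)) G' (G (f n)) ω j *
                (2 ^ (g₀ (f 0) j + q) * (hgt F c G' ω j - hgt F c G' ν j))) k, Finset.mul_sum,
              Finset.mul_sum]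
            refine Finset.sum_congr rfl fun j _ => ?_
            unfold ggC
            rw [if_pos rfl, hd, pow_add]
            field_simp
          rw [e3, e4]
          exact g3.trans m3
        · obtain ⟨k1, k2, k3⟩ := hlf v hv
          have e4 : ∑ j : Fin k, Pool.V0S.ggC i0 (fun ω (j : Fin k) =>
              gnh F c i (g₀ (f 0)) G' (G (f n)) ω (j : ℕ) / 2 ^ d) ω v j *
              (2 ^ (g₀ (f 0) j + q) * (hgt F c G' ω j - hgt F c G' ν j)) = 0 := by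
            refine Finset.sum_eq_zero fun j _ => ?_
            unfold ggC
            rw [if_neg hv, zero_mul]
          rw [e4, mul_zero, sub_zero]
          unfold TVC
          rw [if_neg hv, if_neg hv, ← mul_sub, ← mul_assoc, abs_mul,
            abs_of_pos (by positivity : (0 : ℝ) < 2 ^ Xt v * 2 ^ (g₀ (f 0) (lf v) + nv v))]
          refine (mul_le_mul_of_nonneg_left (g1 _ k2) (by positivity)).trans ?_
          rw [mul_div_assoc', div_le_iff₀ (by positivity)]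
          refine le_trans (le_of_eq (?_ : _ = (2 : ℝ) ^ (Xt v + nv v + g₀ (f 0) (lf v) +
            C' * Y))) ?_
          · simp only [pow_add]
            ring
          · rw [← pow_add]
            refine pow_le_pow_right₀ (by norm_num) ?_
            have h1 : (2 * C + C' + 3) * Y = 2 * C * Y + C' * Y + 3 * Y := by ring
            rw [h1]
            omega }

end Pool.V0S
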