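import Pool.Agent.H87.V0S.Vb
import Pool.Agent.H44.V0F.Cla

/-!
# The contact coordinates alone, class level

`VB.of2`: `VB` from free velocities, full digits and counts at two distances, the deep path at the
larger one. `VBN`: the numbers. `v0b_fam`: `VB` over the canonical records, on all large events.
-/

set_option autoImplicit false

namespace Pool.V0S

open Finset Real MvPolynomial
open Pool.Agent.H49.Ent Pool.Agent.H32.Dense
open Pool.STK hiding pr2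
open Pool.KA Pool.KSAT Pool.K2S Pool.PB Pool.S6C
open Pool.GEN Pool.CHT Pool.CHX Pool.ISO Pool.LA91 Pool.AVG71 Pool.AVG5 Pool.D2F2 Pool.AVG57
open Pool.RCD Pool.AVG96 Pool.OWN68 Pool.V0F
open Pool.PB.Trl (rt rt_mem t_rt)
open Pool.GRD (LbP)
open Pool.AJW (CfB)
open Pool.KVA (MI)

section

variable {Ω : Type} [Fintype Ω] {p : Ω → ℝ}

variable {ζ ρ₂ ρ₃ ρ₄ υ ξ₁ ξ₂ ξ₃ ξ₄ ξ₅ ξ₆ : Type} {zw : Ω → ζ} {Re : Ω → ρ₂} {Ra : Ω → ρ₃}
  {R' : Ω → ρ₄} {y : Ω → υ} {Xq : Ω → ξ₁} {Xp : Ω → ξ₂} {Uq : Ω → ξ₃} {Up : Ω → ξ₄} {Xe : Ω → ξ₅}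
  {Ue : Ω → ξ₆} {Fv Fe κ : ℝ}

/-- The deep path from the data at a larger distance. -/
theorem VB.of2 (h0 : ∀ ω, 0 ≤ p ω) (hk : 0 ≤ κ) (za : CH p zw Ra ≤ κ) (ar : CH p Ra R' ≤ κ)
    (re : CH p R' Re ≤ κ) (uq : CH p Uq Up ≤ κ) (ue : CH p Up Ue ≤ κ)
    (fr : CH p Up (fun ω => (zw ω, y ω)) ≤ CH p Up (fun ω => (R' ω, y ω)) + κ)
    (fe : CH p Ue (fun ω => (zw ω, y ω)) ≤ CH p Ue (fun ω => (Re ω, y ω)) + κ)
    (fa : Fv - κ ≤ CH p Xp (fun ω => (Xq ω, (Ra ω, y ω))))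
    (ff : Fe - κ ≤ CH p Xe (fun ω => (Xp ω, (R' ω, y ω))))
    (cn : CH p Xp (fun ω => (Xq ω, (zw ω, y ω))) ≤ Fv + κ)
    (ce : CH p Xe (fun ω => (Xp ω, (zw ω, y ω))) ≤ Fe + κ)
    (qp : CH p Xq (fun ω => (Xp ω, (zw ω, y ω))) ≤ κ)
    (qe : CH p Xp (fun ω => (Xe ω, (zw ω, y ω))) ≤ κ)
    (px : CH p Xp (fun ω => (R' ω, y ω)) ≤ κ) (pe : CH p Xe (fun ω => (Re ω, y ω)) ≤ κ) :
    VB p zw Ra R' y Xq Xp Uq Up (fun ω => (Xe ω, Ue ω)) Fv (50 * κ) := by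
  have zr : CH p zw R' ≤ 2 * κ := by
    have := CH_tr h0 zw (A := Ra) (W := R') (W' := Ra) ar za fun _ _ _ _ e =>
      (Prod.ext_iff.mp e).1
    linarith
  have u0 : ∀ {α : Type} (Z : Ω → α), CH p (fun _ : Ω => ()) Z ≤ 2 * κ := fun Z => by
    rw [CH_eq_zero h0 (fun _ _ _ _ _ => rfl)]
    linarith
  have x0 : ∀ {α : Type} (Z : Ω → α), CH p Xe (fun ω => (Xe ω, Z ω)) = 0 := fun Z =>
    CH_eq_zero h0 fun _ _ _ _ e => (Prod.ext_iff.mp e).1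
  have V : VLaw2 p zw R' R' Re y Xp Xe Up Ue (fun _ => ()) (fun _ => ()) Xe Fe 0 (2 * κ) := by
    refine ⟨h0, by linarith, zr, zr, by linarith, by linarith, by linarith, by linarith,
      by linarith, by linarith, by linarith, by linarith, by linarith, u0 _, u0 _, ?_, ?_, ?_, ?_⟩
    · have h1 := u0 (fun ω => ((), (Xe ω, (zw ω, y ω))))
      have h2 := CH_nonneg h0 (fun _ : Ω => ()) (fun ω => (Xe ω, (R' ω, y ω)))
      rw [CH_eq_zero h0 (fun _ _ _ _ _ => rfl)]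
      linarith
    · rw [x0]
      linarith
    · rw [x0]
      linarith
    · rw [x0]
      linarith
  have M := V.mx
  rw [Pool.AVG71.MI_eq' h0] at M
  have m1 : CH p (fun ω => (Xe ω, Ue ω)) (fun ω => (R' ω, ((Xp ω, Up ω), (zw ω, y ω)))) ≤
      CH p (fun ω => (Xe ω, Ue ω)) (fun ω => ((Xp ω, Up ω), (R' ω, y ω))) := CH_mono_cond h0
    fun ω ν _ _ e => by
      simp only [Prod.mk.injEq] at e ⊢
      tauto
  have p1 : CH p Up (fun ω => ((Xe ω, Ue ω), (zw ω, y ω))) ≤ κ := le_trans (CH_mono_cond h0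
    fun ω ν _ _ e => (Prod.ext_iff.mp (Prod.ext_iff.mp e).1).2) ue
  have p2 : CH p Xp (fun ω => ((Xe ω, Ue ω), (zw ω, y ω))) ≤ κ := le_trans (CH_mono_cond h0
    fun ω ν _ _ e => by
      simp only [Prod.mk.injEq] at e ⊢
      tauto) qe
  have p3 : CH p Uq (fun ω => ((Xe ω, Ue ω), (zw ω, y ω))) ≤ κ + κ :=
    CH_tr h0 Uq (A := Up) (W' := Up) p1 uq fun _ _ _ _ e => (Prod.ext_iff.mp e).1
  have p4 : CH p Xq (fun ω => ((Xe ω, Ue ω), (zw ω, y ω))) ≤ κ + κ :=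
    CH_tr h0 Xq (A := Xp) (W' := fun ω => (Xp ω, (zw ω, y ω))) p2 qp fun ω ν _ _ e => by
      simp only [Prod.mk.injEq] at e ⊢
      tauto
  have p5 := CH_subadd h0 Xp Up (fun ω => ((Xe ω, Ue ω), (zw ω, y ω)))
  have p6 := CH_subadd h0 Xq Uq (fun ω => ((Xe ω, Ue ω), (zw ω, y ω)))
  exact ⟨h0, by linarith, by linarith, by linarith, by linarith, by linarith, by linarith,
    by linarith, by linarith, by linarith, by linarith, by linarith, by linarith⟩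

end

/-- **The numbers**: the windows `w ≤ w₁ ≤ a ≤ x' ≤ x''` and the digits. -/
structure VBN (r : ℕ) (sn : ℕ → ℝ → ℝ) (G : Set ℝ) (b o φ : ℝ) (nn nf ne : ℕ → ℝ)
    (w w₁ a x' x'' Δ : ℝ) : Prop where
  aG : a ∈ G
  xG : x' ∈ G
  eG : x'' ∈ G
  bw : b ≤ w
  ww : w ≤ w₁
  wa : w₁ ≤ a
  ax : a ≤ x'
  xe : x' ≤ x''
  eo : x'' ≤ o
  nn0 : ∀ i < r, sn i a ≤ nn i
  nnf : ∀ i < r, nn i ≤ nf i
  nf0 : ∀ i < r, sn i x' ≤ nf i
  nfΔ : ∀ i < r, nf i ≤ sn i x' + Δ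
  nfe : ∀ i < r, nf i ≤ ne i
  ne0 : ∀ i < r, sn i x'' ≤ ne i
  neΔ : ∀ i < r, ne i ≤ sn i x'' + Δ
  ne1 : ∀ i < r, ne i ≤ 1
  tpf : Tp r sn b φ nf
  tpe : Tp r sn b φ ne

variable {m : ℕ}

/-- **The contact coordinates** over the canonical records, on all large events. -/
theorem v0b_fam {S : PCl m} {c : ℕ → Fin m} {r D : ℕ} {sn sp : ℕ → ℝ → ℝ} {G : Set ℝ}
    {b o φ : ℝ} (L : Lad S c r sn G b o φ) {nn nf ne : ℕ → ℝ} {w w₁ a x' x'' Δ : ℝ}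
    (N : VBN r sn G b o φ nn nf ne w w₁ a x' x'' Δ) {P Pe' : ℕ → ℝ} {κf : ℝ}
    (hfr : FrI S c r sp b (fun i : Fin r => P i) w₁ x' κf)
    (hfe : FrI S c r sp b (fun i : Fin r => Pe' i) w₁ x'' κf) (hκf : 0 ≤ κf)
    (hPe : ∀ i < r, P i ≤ Pe' i) (hsp : ∀ i < r, sp i b ≤ sn i b - φ) {ε : ℝ} (hε : 0 < ε)
    (Ec : ℝ) :
    Bas S (fun J F A => ∀ Hb Hw H : LnT F → ℕ → MvPolynomial (Option (Fin m)) ℝ,
      LD F c r D b w φ Ec sn A Hb Hw H → ∀ (Pn : ℕ → ℝ), (∀ l < r, Pn l * J ≤ P l * J) →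
      ∀ κ' : ℝ, 50 * ((r * Δ + 20 * (r : ℝ) ^ 2 * φ + κf + ε) * J + r * Real.log 5) ≤ κ' →
      VB (Pool.Agent.H49.Ent.cond F.p A True) (cR F A w₁) (cR F A a) (cR F A x') F.W
        (jh F c r ⌊w * J⌋₊ H nn) (jh F c r ⌊w * J⌋₊ H nf) (jv F c r ⌊w * J⌋₊ H Pn)
        (jv F c r ⌊w * J⌋₊ H P)
        (fun ω => (jh F c r ⌊w * J⌋₊ H ne ω, jv F c r ⌊w * J⌋₊ H Pe' ω))
        ((∑ i ∈ range r, (nf i - nn i)) * Real.log 2 * J) κ') := by
  have hφ := L.φ0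
  have hr0 : (0 : ℝ) ≤ r := Nat.cast_nonneg r
  have hrφ : 0 ≤ (r : ℝ) * φ := by positivity
  have hl2 : 0 < Real.log 2 := Real.log_pos one_lt_two
  have hl5 : 0 < Real.log 5 := Real.log_pos (by norm_num)
  have hl2' : Real.log 2 ≤ 1 := by
    have := Real.log_two_lt_d9
    linarith
  have ho1 : o ≤ 1 := L.o1.le
  have he1 : x'' ≤ 1 := N.eo.trans ho1
  have hx1 : x' ≤ 1 := N.xe.trans he1
  have ha1 : a ≤ 1 := N.ax.trans hx1
  have hba : b ≤ a := N.bw.trans (N.ww.trans N.wa)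
  have hbx : b ≤ x' := hba.trans N.ax
  have hbe : b ≤ x'' := hbx.trans N.xe
  have hxo : x' ≤ o := N.xe.trans N.eo
  have hao : a ≤ o := N.ax.trans hxo
  have hb0 : 0 ≤ b := L.b0
  have hb1 : b ≤ 1 := hba.trans ha1
  have hf : ∀ (J : ℕ) (F : Fam m J), ∃ χ : PtT F → PtT F, ∀ ω, ptr F J ω = χ (ptr F J ω) :=
    fun J F => ⟨fun x => x, fun _ => rfl⟩
  obtain ⟨η, hη⟩ : ∃ η : ℝ, η = ε / 16 := ⟨_, rfl⟩
  have hη0 : 0 < η := by rw [hη]; positivity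
  have hnf1 : ∀ i < r, nf i ≤ 1 := fun i hi => (N.nfe i hi).trans (N.ne1 i hi)
  -- the classes
  have c1 := fup L N.aG hba hao (p := fun l => sn l b - φ) (fun i _ => le_rfl) (q := nn) (n := nf)
    (fun i hi => ⟨N.nn0 i hi, N.nnf i hi, hnf1 i hi⟩) N.tpf η hη0
  have c2 := fup L N.xG hbx hxo (p := fun l => sn l b - φ) (fun i _ => le_rfl) (q := nf) (n := ne)
    (fun i hi => ⟨N.nf0 i hi, N.nfe i hi, N.ne1 i hi⟩) N.tpe η hη0
  have c3 := lad_fewC_heights (f := fun J F => ptr F J) (y := fun _ F => F.W) L hf kn_W N.xG hbx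
    hxo le_rfl hx1 (p := fun l => sn l b - φ) (fun i _ => le_rfl) N.nf0
  have c4 := lad_fewC_heights (f := fun J F => ptr F J) (y := fun _ F => F.W) L hf kn_W N.eG hbe
    N.eo le_rfl he1 (p := fun l => sn l b - φ) (fun i _ => le_rfl) N.ne0
  obtain ⟨k1, hk1, e1, he1', H1⟩ := c1
  obtain ⟨k2, hk2, e2, he2, H2⟩ := c2
  obtain ⟨e3, he3, H3⟩ := c3.mx L.pos η hη0
  obtain ⟨e4, he4, H4⟩ := c4.mx L.pos η hη0
  obtain ⟨k5, hk5, e5, he5, H5⟩ := hfr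
  obtain ⟨k6, hk6, e6, he6, H6⟩ := hfe
  obtain ⟨k, hk, l1, l2, l5, l6, lη⟩ : ∃ k : ℝ, 0 < k ∧ k ≤ k1 ∧ k ≤ k2 ∧ k ≤ k5 ∧ k ≤ k6 ∧
      k ≤ η / 2 := by
    refine ⟨min (min k1 k2) (min (min k5 k6) (η / 2)), by positivity, ?_, ?_, ?_, ?_, ?_⟩
    · exact (min_le_left _ _).trans (min_le_left _ _)
    · exact (min_le_left _ _).trans (min_le_right _ _)
    · exact (min_le_right _ _).trans ((min_le_left _ _).trans (min_le_left _ _))
    · exact (min_le_right _ _).trans ((min_le_left _ _).trans (min_le_right _ _))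
    · exact (min_le_right _ _).trans (min_le_right _ _)
  obtain ⟨Ma, Ja, hMa⟩ := ld_jh m D r nn (E := Ec) hb0 hb1
  obtain ⟨Mb, Jb, hMb⟩ := ld_jh m D r nf (E := Ec) hb0 hb1
  obtain ⟨Mc, Jc, hMc⟩ := ld_jh m D r ne (E := Ec) hb0 hb1
  obtain ⟨Md, Jd, hMd⟩ := ld_jv m D r P (E := Ec) hb0 hb1
  obtain ⟨Me, Je, hMe⟩ := ld_jv m D r Pe' (E := Ec) hb0 hb1
  obtain ⟨M, hM⟩ : ∃ M : ℕ, M = Ma + Mb + Mc + Md + Me := ⟨_, rfl⟩
  obtain ⟨J₁, hJ₁⟩ := exists_nat_gt (1 / η)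
  refine Bas.mono (Ja + Jb + Jc + Jd + Je + J₁) ((((H1 M).and (H2 M)).and
    ((H3 M).and (H4 M))).and (((H5 M).and (H6 M)).and (pos_bas L.pos))) ?_
  rintro J hJ F A ⟨⟨⟨H1, H2⟩, H3, H4⟩, ⟨H5, H6⟩, hA⟩ Hb Hw H LDh Pn hPn κ' hκ'
  have hcl := isLaw_cond F.isLaw hA
  have h0 := hcl.nonneg
  have hJ0 : (0 : ℝ) ≤ J := Nat.cast_nonneg J
  have hηJ0 : 0 ≤ η * J := by positivity
  have hkJ : k * J ≤ η / 2 * J := mul_le_mul_of_nonneg_right lη hJ0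
  have hkJ0 : 0 ≤ k * J := by positivity
  have hΔ0 : 0 ≤ r * Δ := by
    rcases Nat.eq_zero_or_pos r with h | h
    · rw [h]
      simp
    · have h1 := N.nf0 0 h
      have h2 := N.nfΔ 0 h
      have : 0 ≤ Δ := by linarith
      positivity
  have hrΔJ : 0 ≤ r * Δ * J := mul_nonneg hΔ0 hJ0
  have hφJ : 0 ≤ 20 * (r : ℝ) ^ 2 * φ * J := by positivity
  have hκfJ : 0 ≤ κf * J := by positivity
  have hr5 : 0 ≤ r * Real.log 5 := by positivity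
  obtain ⟨κ, hκ⟩ : ∃ κ : ℝ, κ = (r * Δ + 20 * (r : ℝ) ^ 2 * φ + κf + ε) * J + r * Real.log 5 :=
    ⟨_, rfl⟩
  rw [← hκ] at hκ'
  have hκe : κ = r * Δ * J + 20 * (r : ℝ) ^ 2 * φ * J + κf * J + 16 * (η * J) +
      r * Real.log 5 := by
    rw [hκ, hη]
    ring
  have q1 := hMa M (by omega) J (by omega) LDh e1 he1'.le
  have q1' := hMb M (by omega) J (by omega) LDh e1 he1'.le
  have q2 := hMb M (by omega) J (by omega) LDh e2 he2.le
  have q2' := hMc M (by omega) J (by omega) LDh e2 he2.le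
  have q3 := hMb M (by omega) J (by omega) LDh e3 he3.le
  have q4 := hMc M (by omega) J (by omega) LDh e4 he4.le
  have q5 := hMd M (by omega) J (by omega) LDh hsp e5 he5.le
  have q6 := hMe M (by omega) J (by omega) LDh hsp e6 he6.le
  -- the canonical records
  have zw : Mx (fun J F => ptr F J) (vg w₁) k F A (cR F A w₁) := mx_cR hA w₁ hk.le
  have za : Mx (fun J F => ptr F J) (vg a) k F A (cR F A a) := mx_cR hA a hk.le
  have zx : Mx (fun J F => ptr F J) (vg x') k F A (cR F A x') := mx_cR hA x' hk.le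
  have ze : Mx (fun J F => ptr F J) (vg x'') k F A (cR F A x'') := mx_cR hA x'' hk.le
  have d1 := mx_before za N.wa ha1 zw.1
  have d2 := mx_before zx N.ax hx1 za.1
  have d3 := mx_before ze N.xe he1 zx.1
  -- the entropies
  have a1 := H1 _ (cR F A a) (za.le' l1) _ _ q1' q1
  have a2 := H2 _ (cR F A x') (zx.le' l2) _ _ q2' q2
  have a3 := H3 _ (cR F A x') (zx.le' (lη.trans (by linarith))) (fun _ => ()) _
    (fun ω _ => rfl) q3
  have a4 := H4 _ (cR F A x'') (ze.le' (lη.trans (by linarith))) (fun _ => ()) _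
    (fun ω _ => rfl) q4
  have a5 := H5 _ (cR F A w₁) _ (cR F A x') (zw.le' l5) (zx.le' l5) _ q5
  have a6 := H6 _ (cR F A w₁) _ (cR F A x'') (zw.le' l6) (ze.le' l6) _ q6
  have hls : 20 * (r : ℝ) ^ 2 * φ * Real.log 2 * J ≤ 20 * (r : ℝ) ^ 2 * φ * J := by
    have : 20 * (r : ℝ) ^ 2 * φ * J * Real.log 2 ≤ 20 * (r : ℝ) ^ 2 * φ * J * 1 :=
      mul_le_mul_of_nonneg_left hl2' hφJ
    linarith
  have hpx : ∀ {n : ℕ → ℝ} {x : ℝ}, (∀ i < r, sn i x ≤ n i) → (∀ i < r, n i ≤ sn i x + Δ) →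
      (∑ i ∈ range r, (n i - sn i x + 8 * ((i : ℝ) + 1) * φ) * Real.log 2) * J ≤
      r * Δ * J + 20 * (r : ℝ) ^ 2 * φ * J := by
    intro n x hn0 hnΔ
    have s1 : ∑ i ∈ range r, (n i - sn i x + 8 * ((i : ℝ) + 1) * φ) * Real.log 2 ≤
        ∑ i ∈ range r, (Δ + 8 * ((i : ℝ) + 1) * φ) := by
      refine Finset.sum_le_sum fun i hi => ?_
      rw [mem_range] at hi
      have e1 := hn0 i hi
      have e2 := hnΔ i hi
      have e3 : 0 ≤ 8 * ((i : ℝ) + 1) * φ := by positivity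
      have e4 : (n i - sn i x + 8 * ((i : ℝ) + 1) * φ) * Real.log 2 ≤
          (n i - sn i x + 8 * ((i : ℝ) + 1) * φ) * 1 :=
        mul_le_mul_of_nonneg_left hl2' (by linarith)
      linarith
    have s2 := sum_loss r hφ.le
    have s3 : ∑ i ∈ range r, (Δ + 8 * ((i : ℝ) + 1) * φ) =
        r * Δ + ∑ i ∈ range r, 8 * ((i : ℝ) + 1) * φ := by
      rw [Finset.sum_add_distrib, Finset.sum_const, card_range, nsmul_eq_mul]
    have s4 := mul_le_mul_of_nonneg_right (s1.trans (s3.le.trans (add_le_add le_rfl s2))) hJ0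
    linarith
  have p3 := hpx N.nf0 N.nfΔ
  have p4 := hpx N.ne0 N.neΔ
  have b3 : CH (Pool.Agent.H49.Ent.cond F.p A True) (jh F c r ⌊w * J⌋₊ H nf)
      (fun ω => (cR F A x' ω, F.W ω)) ≤
      CH (Pool.Agent.H49.Ent.cond F.p A True) (jh F c r ⌊w * J⌋₊ H nf)
        (fun ω => ((), (cR F A x' ω, F.W ω))) :=
    CH_mono_cond h0 fun ω ω' _ _ hh => Prod.ext rfl hh
  have b4 : CH (Pool.Agent.H49.Ent.cond F.p A True) (jh F c r ⌊w * J⌋₊ H ne)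
      (fun ω => (cR F A x'' ω, F.W ω)) ≤
      CH (Pool.Agent.H49.Ent.cond F.p A True) (jh F c r ⌊w * J⌋₊ H ne)
        (fun ω => ((), (cR F A x'' ω, F.W ω))) :=
    CH_mono_cond h0 fun ω ω' _ _ hh => Prod.ext rfl hh
  have g1 := CH_jhs hcl (F := F) (c := c) (r := r) (w := ⌊w * J⌋₊) (H := H) (n := nn) (n' := nf)
    N.nnf (fun ω => (jh F c r ⌊w * J⌋₊ H nn ω, (cR F A w₁ ω, F.W ω)))
    (fun ω ν _ _ e => (Prod.ext_iff.mp e).1)
  have g2 := CH_jhs hcl (F := F) (c := c) (r := r) (w := ⌊w * J⌋₊) (H := H) (n := nf) (n' := ne)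
    N.nfe (fun ω => (jh F c r ⌊w * J⌋₊ H nf ω, (cR F A w₁ ω, F.W ω)))
    (fun ω ν _ _ e => (Prod.ext_iff.mp e).1)
  have g3 := CH_jh hcl (F := F) (c := c) (r := r) (w := ⌊w * J⌋₊) (H := H) (n := nf) (n' := nn)
    (d := 0) (fun l hl => by
      have := mul_le_mul_of_nonneg_right (N.nnf l hl) hJ0
      linarith) le_rfl (fun ω => (jh F c r ⌊w * J⌋₊ H nf ω, (cR F A w₁ ω, F.W ω)))
    (fun ω ν _ _ e => (Prod.ext_iff.mp e).1)
  have g4 := CH_jh hcl (F := F) (c := c) (r := r) (w := ⌊w * J⌋₊) (H := H) (n := ne) (n' := nf)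
    (d := 0) (fun l hl => by
      have := mul_le_mul_of_nonneg_right (N.nfe l hl) hJ0
      linarith) le_rfl (fun ω => (jh F c r ⌊w * J⌋₊ H ne ω, (cR F A w₁ ω, F.W ω)))
    (fun ω ν _ _ e => (Prod.ext_iff.mp e).1)
  have g5 := CH_jv hcl (F := F) (c := c) (r := r) (w := ⌊w * J⌋₊) (H := H) (n := P) (n' := Pn)
    (d := 0) (fun l hl => by
      have := hPn l hl
      linarith) le_rfl (jv F c r ⌊w * J⌋₊ H P) (fun _ _ _ _ e => e)
  have g6 := CH_jv hcl (F := F) (c := c) (r := r) (w := ⌊w * J⌋₊) (H := H) (n := Pe') (n' := P)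
    (d := 0) (fun l hl => by
      have := mul_le_mul_of_nonneg_right (hPe l hl) hJ0
      linarith) le_rfl (jv F c r ⌊w * J⌋₊ H Pe') (fun _ _ _ _ e => e)
  rw [zero_mul, zero_add] at g3 g4 g5 g6
  have F1 : ((∑ i ∈ range r, (nf i - nn i)) - 20 * (r : ℝ) ^ 2 * φ) * Real.log 2 * J - η * J =
      (∑ i ∈ range r, (nf i - nn i)) * Real.log 2 * J - 20 * (r : ℝ) ^ 2 * φ * Real.log 2 * J -
        η * J := by ring
  have F2 : ((∑ i ∈ range r, (ne i - nf i)) - 20 * (r : ℝ) ^ 2 * φ) * Real.log 2 * J - η * J =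
      (∑ i ∈ range r, (ne i - nf i)) * Real.log 2 * J - 20 * (r : ℝ) ^ 2 * φ * Real.log 2 * J -
        η * J := by ring
  rw [F1] at a1
  rw [F2] at a2
  refine (VB.of2 (Re := cR F A x'') (Fe := (∑ i ∈ range r, (ne i - nf i)) * Real.log 2 * J)
    (κ := κ) h0 (by linarith) (by linarith) (by linarith) (by linarith) (by linarith)
    (by linarith) (by linarith) (by linarith) (by linarith) (by linarith) (by linarith)
    (by linarith) (by linarith) (by linarith) (by linarith) (by linarith)).mono hκ'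

end Pool.V0S
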