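import Pool.Agent.H83.VG.S
import Pool.Agent.H87.V0S.Vbf

/-!
# A target with an arbitrary path and a side path: the class theorem, statement

`PW`: the windows and the room. `PEv`: the inputs on one event: `TV` the value of the target at the
sample, `tp W` its path in the window `W` (a polynomial, function of the line), `sd` the side path (any
function of the line), `gg` the gradients in the directions of the contact coordinates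
`c 0, …, c (k - 1)`. `V0pStmt`: the gradients are closed.
-/

set_option autoImplicit false

namespace Pool.V0S

open Finset Real MvPolynomial
open Pool.Agent.H49.Ent Pool.Agent.H32.Dense
open Pool.STK hiding pr2
open Pool.KA Pool.KSAT Pool.K2S Pool.PB Pool.S6C
open Pool.GEN Pool.CHT Pool.CHX Pool.ISO Pool.LA91 Pool.AVG71 Pool.AVG5 Pool.D2F2 Pool.AVG57
open Pool.RCD Pool.AVG96 Pool.V0F
open Pool.D2R (hgt)
open Pool.BFL (Pb)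
open Pool.KVA (MI)
open Pool.PB.Trl (rt)

/-- **The windows and the room.** `w`: the window of the frame, `u`: the unit, `q = u`; `j`, `x`: the
windows of the charts, `a`: the window of the near path (`a - w = u`), `x'`: the window of the far
path, `x''`: the window of the deep path. -/
structure PW (k : ℕ) (sn : ℕ → ℝ → ℝ) (G : Set ℝ) (b o φ w u y T Λ : ℝ) (w₁ : ℚ)
    (j x a x' x'' : ℝ) : Prop where
  u0 : 0 < u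
  yφ : ((k : ℝ) + 3) * φ ≤ y
  wG : w ∈ G
  jG : j ∈ G
  xG : x ∈ G
  aG : a ∈ G
  xG' : x' ∈ G
  xG'' : x'' ∈ G
  hw1 : w ≤ w₁
  hw2 : (w₁ : ℝ) ≤ w + φ
  wj : w₁ ≤ j
  jx : j ≤ x
  xa : x ≤ a
  ha : |a - (w + u)| ≤ φ
  hx' : |x' - (w + T * u)| ≤ φ
  hx'' : |x'' - (w + 3 * T * u)| ≤ φ
  bw : b + Λ * u ≤ w
  wo : w + Λ * u ≤ o
  o1 : o + Λ * u ≤ 1
  b0 : Λ * u ≤ b
  lb : ∀ l < k, Λ * u ≤ sn l b ∧ sn l o + Λ * u ≤ 1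

/-- The near path of the contact coordinates. -/
noncomputable def nrP {m J : ℕ} (F : Fam m J) (c : ℕ → Fin m) (k : ℕ) (sn : ℕ → ℝ → ℝ)
    (H : LnT F → ℕ → MvPolynomial (Option (Fin m)) ℝ) (w d : ℝ) (ω : F.Ω) :=
  (jh F c k ⌊w * J⌋₊ H (fun l => sn l w + d) ω, jv F c k ⌊w * J⌋₊ H (fun l => sn l w - w + d) ω)

/-- **The gradients of the target** in terms of its values: for samples with the same time, side path
and charts, and near heights of the contact coordinates. -/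
structure GrT {m J : ℕ} (F : Fam m J) (c : ℕ → Fin m) (k q X : ℕ) (γ : ℕ → ℕ) (U : ℝ)
    (B : F.Ω → Prop) (G₀ : PtT F → ℕ → MvPolynomial (Option (Fin m)) ℝ) (gg : F.Ω → Fin k → ℝ)
    (TV : F.Ω → ℝ) {σ χ₁ χ₂ : Type} (sd : F.Ω → σ) (Cj : F.Ω → χ₁) (Cx : F.Ω → χ₂) : Prop where
  U0 : 0 ≤ U
  bm : ∀ ω, B ω → ∀ j, |gg ω j| ≤ U
  bj : ∀ ω ν, B ω → B ν → F.t ω = F.t ν → sd ω = sd ν → Cj ω = Cj ν →
    (∀ j < k, |hgt F c G₀ ω j - hgt F c G₀ ν j| ≤ 2 ^ 2 / 2 ^ (γ j + q)) →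
    ∀ j, |gg ω j - gg ν j| ≤ U / 2 ^ X
  bx : ∀ ω ν, B ω → B ν → F.t ω = F.t ν → sd ω = sd ν → Cx ω = Cx ν →
    (∀ j < k, |hgt F c G₀ ω j - hgt F c G₀ ν j| ≤ 2 ^ 2 / 2 ^ (γ j + q)) →
    ∀ j, |gg ω j - gg ν j| ≤ U / 2 ^ X
  nx : ∀ ω ν, B ω → B ν → F.t ω = F.t ν → sd ω = sd ν → Cx ω = Cx ν →
    (∀ j < k, |hgt F c G₀ ω j - hgt F c G₀ ν j| ≤ 2 ^ 2 / 2 ^ (γ j + q)) →
    |2 ^ X * (TV ω - TV ν) - 2 ^ X * ∑ j : Fin k, gg ω j *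
      (2 ^ (γ j + q) * (hgt F c G₀ ω j - hgt F c G₀ ν j))| ≤ U

/-- **The inputs on one event.** `sn l w`: the digits of the heights of the contact coordinates at `w`;
`q`, `q + X`: the near and far digits. -/
structure PEv {m J : ℕ} (F : Fam m J) (c : ℕ → Fin m) (k D' K q X Cg : ℕ) (sn : ℕ → ℝ → ℝ)
    (w u y φ ξ T : ℝ) (w₁ : ℚ) (j x a h π₀ δ : ℝ) (A : F.Ω → Prop)
    (G₀ : PtT F → ℕ → MvPolynomial (Option (Fin m)) ℝ)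
    (H : LnT F → ℕ → MvPolynomial (Option (Fin m)) ℝ) (γ : ℕ → ℕ) (gg : F.Ω → Fin k → ℝ)
    (TV : F.Ω → ℝ) (tp : ℕ → F.Ω → Polynomial ℝ) {χ₁ χ₂ σ : Type} (Cj : F.Ω → χ₁)
    (Cx : F.Ω → χ₂) (sd : F.Ω → σ) : Prop where
  deg : ∀ s l, (H s l).totalDegree ≤ D'
  /-- the labels are closed -/
  cl : ∀ ω, A ω → ∀ l < k, G₀ (ptr F J ω) l = H (slam F ⌊w * J⌋₊ ω) l
  γb : ∀ l < k, (sn l w - φ) * J ≤ γ l ∧ (γ l : ℝ) ≤ sn l w * J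
  /-- the path of the target and the side path are functions of the line -/
  tL : ∀ W : ℕ, ⌊(w₁ : ℝ) * J⌋₊ ≤ W → W ≤ J →
    Det (Pool.Agent.H49.Ent.cond F.p A True) (slam F W) (tp W)
  dP : ∀ W : ℕ, ∀ ω, A ω → (tp W ω).natDegree ≤ K
  tv : ∀ W : ℕ, ⌊(w₁ : ℝ) * J⌋₊ ≤ W → W ≤ J → ∀ ω, A ω → (tp W ω).eval (rt F W ω) = TV ω
  sL : Det (Pool.Agent.H49.Ent.cond F.p A True) (slam F ⌊(w₁ : ℝ) * J⌋₊) sd
  /-- the gradients -/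
  grd : GrT F c k q X γ (2 ^ (Cg * (⌈1000 * y * J⌉₊ + 3))) A G₀ gg TV sd Cj Cx
  hj : Det (Pool.Agent.H49.Ent.cond F.p A True) (cR F A j) Cj
  hx : Det (Pool.Agent.H49.Ent.cond F.p A True) (cR F A x) Cx
  /-- the side path is few bits given the near path and the record at `a` -/
  sa : CH (Pool.Agent.H49.Ent.cond F.p A True) sd
    (fun ω => (nrP F c k sn H w (u + 100 * y) ω, (cR F A a ω, F.W ω))) ≤ δ * u * J
  /-- no look-ahead over the deep path -/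
  nl : ∀ ne Pe' : ℕ → ℝ, (∀ l < k, sn l w + 3 * T * u ≤ ne l ∧ ne l ≤ sn l w + 3 * T * u + 100 * y ∧
      sn l w - w + 3 * T * u ≤ Pe' l ∧ Pe' l ≤ sn l w - w + (3 * T + k + 2) * u) →
    MI (Pool.Agent.H49.Ent.cond F.p A True) (cR F A j) (fun ω => ⌊(2 : ℝ) ^ X * TV ω⌋)
      (fun ω => (⌊TV ω⌋, (sd ω, ((jh F c k ⌊w * J⌋₊ H ne ω, jv F c k ⌊w * J⌋₊ H Pe' ω),
        (cR F A w₁ ω, F.W ω))))) ≤ δ * u * J
  /-- the codes of order `≥ 1` of the target, over the far path -/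
  dj : ∀ W : ℕ, ⌊(w₁ : ℝ) * J⌋₊ ≤ W → (W : ℝ) ≤ (w + 2 * φ) * J →
    CH (Pool.Agent.H49.Ent.cond F.p A True)
      (fun ω (i : Fin K) => ⌊(2 : ℝ) ^ X * (tp W ω).coeff i.succ⌋)
      (fun ω => (nrP F c k sn H w (T * u) ω, (sd ω, (cR F A w₁ ω, F.W ω)))) ≤ δ * u * J
  /-- the near codes of the target, over the near path and the record at `x` -/
  jt : ∀ W : ℕ, ⌊(w₁ : ℝ) * J⌋₊ ≤ W → (W : ℝ) ≤ (w + 2 * φ) * J →
    CH (Pool.Agent.H49.Ent.cond F.p A True)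
      (fun ω (i : Fin (K + 1)) => ⌊(2 : ℝ) ^ X * (tp W ω).coeff i⌋ / 2 ^ X)
      (fun ω => (nrP F c k sn H w (u + 100 * y) ω, (sd ω, (cR F A x ω, F.W ω)))) ≤ δ * u * J
  /-- the rows -/
  row : ∀ B : F.Ω → Prop, Sub B A → π₀ * Pe F.p A ≤ Pe F.p B →
    CH (Pool.Agent.H49.Ent.cond F.p B True) (fun ω => ⌊(2 : ℝ) ^ X * TV ω⌋)
      (fun ω => (⌊TV ω⌋, (Vv F c k ⌊w * J⌋₊ H (fun l => ((γ l + q + X : ℕ) : ℝ)) ω,
        (sd ω, (cR F A w₁ ω, F.W ω))))) ≤ ((1 - h) * ξ * u * Real.log 2 + δ * u) * J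

/-- **(V0P)** The class theorem: the contact coordinates `c 0, …, c (k - 1)` over the charts of `b`, a
target with any path of the line, any side path. -/
def V0pStmt : Prop := ∀ (D D' k K : ℕ) (h x₀ ξ ε : ℝ), 1 ≤ D → D ≤ D' → D' + 1 ≤ K → 1 ≤ k →
  0 < h → h ≤ 1 → 0 < x₀ → x₀ < h → 0 < ξ → ξ ≤ 1 → 0 < ε →
  ∃ π₀ δ₀ T₀ : ℝ, 0 < π₀ ∧ 0 < δ₀ ∧ ∀ T : ℝ, T₀ ≤ T → ∃ Λ : ℝ, 1 ≤ Λ ∧ ∀ Cg : ℕ,
  ∃ φ₀ : ℝ, 0 < φ₀ ∧
  ∀ {m : ℕ} {S : PCl m} {c : ℕ → Fin m} {sn : ℕ → ℝ → ℝ} {G : Set ℝ} {b o φ : ℝ},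
    Lad S c k sn G b o φ → ∀ {w u y j x a x' x'' : ℝ} {w₁ : ℚ} {sp : ℕ → ℝ → ℝ}, y ≤ φ₀ * u →
    PW k sn G b o φ w u y T Λ w₁ j x a x' x'' →
    -- free velocities
    (∀ i < k, sp i b ≤ sn i b - φ) →
    (∀ (P : Fin k → ℚ) (xe : ℝ), xe = x' ∨ xe = x'' →
      (∀ i : Fin k, sn i w - w + u ≤ P i ∧ (P i : ℝ) ≤ sn i w - w + Λ * u) →
      (∀ l i : Fin k, l < i → (P i : ℝ) - (sn i w - w) + u / 2 ≤ P l - (sn l w - w)) →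
      FrI S c k sp b (fun i => (P i : ℝ)) w₁ xe (φ₀ * u)) →
    -- the records
    (∃ η : ℝ, RNum S (fun J F => ptr F J) (vg (w₁ : ℝ)) η) →
    ∀ E : ℝ, Bas S (fun J F A => ∀ (G₀ : PtT F → ℕ → MvPolynomial (Option (Fin m)) ℝ)
      (Hb Hw H₀ H : LnT F → ℕ → MvPolynomial (Option (Fin m)) ℝ) (γ : ℕ → ℕ)
      (gg : F.Ω → Fin k → ℝ) (TV : F.Ω → ℝ) (tp : ℕ → F.Ω → Polynomial ℝ) (χ₁ χ₂ σ : Type)
      (Cj : F.Ω → χ₁) (Cx : F.Ω → χ₂) (sd : F.Ω → σ),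
      LD F c k D b w φ E sn A Hb Hw H₀ →
      (∀ ω, ∀ l < k, H (slam F ⌊w * J⌋₊ ω) l = Hb (slam F ⌊b * J⌋₊ ω) l) →
      PEv F c k D' K ⌊(u + 500 * y) * J⌋₊ ⌊ξ * u * J⌋₊ Cg sn w u y φ ξ T w₁ j x a h π₀ δ₀ A G₀ H γ
        gg TV tp Cj Cx sd →
      ∃ (W : ℕ) (mu : LnT F → Fin k → Polynomial ℝ), ⌊(w₁ : ℝ) * J⌋₊ ≤ W ∧
        (W : ℝ) ≤ (w + 2 * φ) * J ∧ (∀ s i, (mu s i).natDegree ≤ K) ∧
        Pb (Pool.Agent.H49.Ent.cond F.p A True) (fun ω => ∃ i : Fin k,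
          (2 : ℝ) ^ (-(x₀ * ⌊ξ * u * J⌋₊)) <
            |gg ω i - (mu (slam F W ω) i).eval (rt F W ω)|) ≤ ε)

end Pool.V0S
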