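import Pool.Agent.H87.V0S.Vb
import Pool.Agent.H87.V0S.Plf
import Pool.Agent.H66.AVG.Rln
import Pool.Agent.H83.OWN.Lbc

/-!
# Near codes from far codes

`vbm`: a variable which is few bits given the near path and a late record, and few bits given the far
path, is few bits given the near path, if the late record says nothing about the far path. `nd_codes`:
the codes of order `≥ 1` of a path are few bits given the near path, if its derivative at the time of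
the sample is few bits given the near path and a late record, and the codes are few bits given the far
path.
-/

set_option autoImplicit false

namespace Pool.V0S

open Finset Real MvPolynomial
open Pool.Agent.H49.Ent Pool.Agent.H32.Dense Pool.STK Pool.KA Pool.KSAT Pool.K2S Pool.PB Pool.GEN
open Pool.S6C Pool.LA91 Pool.OWN68 Pool.AJ18 Pool.AVG71
open Pool.PB.Trl (rt rt_mem t_rt)
open Pool.KVA (MI)

section

variable {Ω : Type} [Fintype Ω] {p : Ω → ℝ}

theorem mi_sym {α β γ : Type} (h0 : ∀ ω, 0 ≤ p ω) (X : Ω → α) (Y : Ω → β) (Z : Ω → γ) :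
    MI p X Y Z = MI p Y X Z := by
  have h1 : CH p (fun ω => (X ω, Y ω)) Z = CH p (fun ω => (Y ω, X ω)) Z := by
    refine le_antisymm (CH_mono_left h0 fun ω ν _ _ e => ?_)
      (CH_mono_left h0 fun ω ν _ _ e => ?_) <;>
    · simp only [Prod.mk.injEq] at e ⊢
      tauto
  unfold MI
  rw [h1]
  ring

/-- The information of a function. -/
theorem MI_le_of {α β γ δ : Type} (h0 : ∀ ω, 0 ≤ p ω) (X : Ω → α) (R : Ω → β) (V : Ω → γ)
    (Z : Ω → δ) : MI p X V Z ≤ MI p R V Z + CH p X (fun ω => (R ω, Z ω)) := by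
  have h3 := CH_le_add h0 V X (fun ω => (R ω, Z ω))
  have h4 : CH p V (fun ω => (X ω, (R ω, Z ω))) ≤ CH p V (fun ω => (X ω, Z ω)) :=
    CH_mono_cond h0 fun ω ν _ _ e => by
      simp only [Prod.mk.injEq] at e ⊢
      exact ⟨e.1, e.2.2⟩
  rw [mi_sym h0 X V Z, mi_sym h0 R V Z, Pool.M5.MI_eq h0, Pool.M5.MI_eq h0]
  linarith

/-- **From the far path and a late record to the near path.** -/
theorem vbm {α ρ ν β γ : Type} (h0 : ∀ ω, 0 ≤ p ω) {X : Ω → α} {Ra : Ω → ρ} {Vn : Ω → ν}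
    {Vf : Ω → β} {C : Ω → γ} {e₁ e₂ e₃ : ℝ} (h1 : CH p X (fun ω => (Vn ω, (Ra ω, C ω))) ≤ e₁)
    (h2 : CH p X (fun ω => (Vf ω, C ω)) ≤ e₂) (h3 : MI p Ra Vf (fun ω => (Vn ω, C ω)) ≤ e₃) :
    CH p X (fun ω => (Vn ω, C ω)) ≤ e₁ + e₂ + e₃ := by
  have a1 := MI_le_of h0 X Ra Vf (fun ω => (Vn ω, C ω))
  have a2 := Pool.M5.MI_eq h0 X Vf (fun ω => (Vn ω, C ω))
  have a3 : CH p X (fun ω => (Vf ω, (Vn ω, C ω))) ≤ CH p X (fun ω => (Vf ω, C ω)) :=
    CH_mono_cond h0 fun ω ν _ _ e => by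
      simp only [Prod.mk.injEq] at e ⊢
      exact ⟨e.1, e.2.2⟩
  have a4 : CH p X (fun ω => (Ra ω, (Vn ω, C ω))) ≤ CH p X (fun ω => (Vn ω, (Ra ω, C ω))) :=
    CH_mono_cond h0 fun ω ν _ _ e => by
      simp only [Prod.mk.injEq] at e ⊢
      exact ⟨e.2.1, e.1, e.2.2⟩
  linarith

/-- A function of the line on the whole space. -/
theorem det_ext {α β : Type} {Y : Ω → α} {Z : Ω → β} (h : Det p Y Z) :
    ∃ f : α → Option β, ∀ ω, 0 < p ω → f (Y ω) = some (Z ω) := by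
  classical
  refine ⟨fun x => if hx : ∃ ω, 0 < p ω ∧ Y ω = x then some (Z hx.choose) else none,
    fun ω hω => ?_⟩
  have hx : ∃ ν, 0 < p ν ∧ Y ν = Y ω := ⟨ω, hω, rfl⟩
  simp only [dif_pos hx]
  rw [h _ ω hx.choose_spec.1 hω hx.choose_spec.2]

/-- A vector of near integers. -/
theorem ch_vecn (hp : IsLaw p) {γ : Type} {n : ℕ} (X : Ω → Fin n → ℤ) (W : Ω → γ) {D : ℝ}
    (hD : 0 ≤ D) (h : ∀ ω ν, 0 < p ω → 0 < p ν → W ω = W ν → ∀ i, |(X ω i : ℝ) - X ν i| ≤ D) :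
    CH p X W ≤ n * Real.log (2 * D + 1) := by
  have h1 := Pool.OWN83.ch_vecs hp.nonneg W n X (fun _ => Real.log (2 * D + 1)) fun i =>
    CH_pair_int hp (fun ω => X ω i) W hD fun ω ν a b e => h ω ν a b e i
  rw [Finset.sum_const, Finset.card_univ, Fintype.card_fin, nsmul_eq_mul] at h1
  exact h1

end

/-! ### The derivative -/

theorem der_coeff_near {K : ℕ} {P Q : Polynomial ℝ}
    (h : ∀ i : Fin K, ⌊P.coeff (i : ℕ).succ⌋ = ⌊Q.coeff (i : ℕ).succ⌋) (hP : P.natDegree ≤ K)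
    (hQ : Q.natDegree ≤ K) (a : ℕ) : |(P.derivative - Q.derivative).coeff a| ≤ K := by
  rw [Polynomial.coeff_sub, Polynomial.coeff_derivative, Polynomial.coeff_derivative]
  rcases Nat.lt_or_ge a K with ha | ha
  · have h1 := h ⟨a, ha⟩
    simp only [Nat.succ_eq_add_one] at h1
    have f1 := Int.floor_le (P.coeff (a + 1))
    have f2 := Int.lt_floor_add_one (P.coeff (a + 1))
    have f3 := Int.floor_le (Q.coeff (a + 1))
    have f4 := Int.lt_floor_add_one (Q.coeff (a + 1))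
    rw [h1] at f1 f2
    have h2 : |P.coeff (a + 1) - Q.coeff (a + 1)| ≤ 1 := by
      rw [abs_le]
      constructor <;> linarith
    rw [← sub_mul, abs_mul]
    have h3 : |(a : ℝ) + 1| ≤ K := by
      rw [abs_of_nonneg (by positivity)]
      exact_mod_cast ha
    calc _ ≤ 1 * (K : ℝ) := mul_le_mul h2 h3 (abs_nonneg _) (by norm_num)
      _ = K := one_mul _
  · rw [Polynomial.coeff_eq_zero_of_natDegree_lt (by omega),
      Polynomial.coeff_eq_zero_of_natDegree_lt (p := Q) (by omega)]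
    simp

theorem der_deg {K : ℕ} {P : Polynomial ℝ} (hP : P.natDegree ≤ K) :
    P.derivative.natDegree ≤ K := (Polynomial.natDegree_derivative_le P).trans (by omega)

variable {m J : ℕ}

/-- **The near codes of a path from its far codes and its natural velocity.** -/
theorem nd_codes (K : ℕ) (hK : 1 ≤ K) {ε : ℝ} (hε : 0 < ε) : ∃ δ : ℝ, 0 < δ ∧
    ∀ {w μ : ℝ} (_ : 0 ≤ w) (_ : 0 < μ) (_ : w + 2 * μ ≤ 1), ∃ J₀ : ℕ, ∀ J ≥ J₀, ∀ {m : ℕ}
      (F : Fam m J) (A : F.Ω → Prop) (_ : 0 < Pe F.p A) {tp : F.Ω → Polynomial ℝ}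
      {ν ν' β ρ γ : Type} {Vn : F.Ω → ν} {Vc : F.Ω → ν'} {Vf : F.Ω → β} {Ra : F.Ω → ρ}
      {C : F.Ω → γ} {e : ℝ},
      Det (Pool.Agent.H49.Ent.cond F.p A True) (slam F ⌊w * J⌋₊) tp →
      Det (Pool.Agent.H49.Ent.cond F.p A True) (slam F ⌊w * J⌋₊) Vc →
      Det (Pool.Agent.H49.Ent.cond F.p A True) (slam F ⌊w * J⌋₊) C →
      (∀ ω, A ω → (tp ω).natDegree ≤ K) →
      (∀ ω, A ω → ∀ a, |(tp ω).coeff a| ≤ 2 ^ (μ * J)) →
      (J : ℝ) * Real.log 2 - δ * μ * J ≤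
        CH (Pool.Agent.H49.Ent.cond F.p A True) F.T (fun ω => (F.l ω, F.Z ω)) →
      -- the velocity is natural
      CH (Pool.Agent.H49.Ent.cond F.p A True)
        (fun ω => ⌊(tp ω).derivative.eval (rt F ⌊w * J⌋₊ ω)⌋)
        (fun ω => (Vn ω, (Ra ω, (C ω, F.W ω)))) ≤ e →
      -- the codes over the far path
      CH (Pool.Agent.H49.Ent.cond F.p A True)
        (fun ω (i : Fin K) => ⌊(tp ω).coeff (i : ℕ).succ⌋)
        (fun ω => (Vf ω, (C ω, F.W ω))) ≤ e →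
      MI (Pool.Agent.H49.Ent.cond F.p A True) Ra Vf (fun ω => (Vn ω, (C ω, F.W ω))) ≤ e →
      CH (Pool.Agent.H49.Ent.cond F.p A True) Vn (fun ω => (Vc ω, F.W ω)) ≤ e →
      4 * e ≤ δ * μ * J →
      CH (Pool.Agent.H49.Ent.cond F.p A True)
        (fun ω (i : Fin K) => ⌊(tp ω).coeff (i : ℕ).succ⌋)
        (fun ω => (Vc ω, (C ω, F.W ω))) ≤ ε * μ * J := by
  classical
  obtain ⟨δ₀, hδ₀, H⟩ := pol_few K hK (ε := ε / 4) (by positivity)
  obtain ⟨c₁, hc₁⟩ : ∃ c₁ : ℝ, c₁ = Real.log (2 * ((K + 1) * K + 1) + 1) := ⟨_, rfl⟩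
  obtain ⟨c₂, hc₂⟩ : ∃ c₂ : ℝ, c₂ = K * Real.log (2 * 2 + 1) := ⟨_, rfl⟩
  have hK0 : (0 : ℝ) ≤ K := Nat.cast_nonneg K
  have hc10 : 0 ≤ c₁ := by
    rw [hc₁]
    refine Real.log_nonneg ?_
    have : (0 : ℝ) ≤ (K + 1) * K := by positivity
    linarith
  have hc20 : 0 ≤ c₂ := by
    rw [hc₂]
    exact mul_nonneg hK0 (Real.log_nonneg (by norm_num))
  refine ⟨δ₀, hδ₀, ?_⟩
  intro w μ hw hμ hwμ
  obtain ⟨J₁, H⟩ := H (w := w) (μ := 2 * μ) hw (by positivity) hwμ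
  obtain ⟨J₂, hJ₂⟩ := exists_nat_ge (c₁ / (δ₀ * μ) + c₂ / (ε / 2 * μ) +
    ((K + 1) * ((K : ℝ) + 1)) / (μ * Real.log 2))
  refine ⟨max J₁ J₂, ?_⟩
  intro J hJ m F A hA tp ν ν' β ρ γ Vn Vc Vf Ra C e hdt hdv hdc hdeg hbd htim hnat hfar hmi hvc he
  have hl2 : 0 < Real.log 2 := Real.log_pos one_lt_two
  have hJ0 : (0 : ℝ) ≤ J := Nat.cast_nonneg J
  have hJ2 : (J₂ : ℝ) ≤ J := by exact_mod_cast (le_max_right _ _).trans hJ
  have k1 : 0 ≤ c₁ / (δ₀ * μ) := by positivity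
  have k2 : 0 ≤ c₂ / (ε / 2 * μ) := by positivity
  have k3 : 0 ≤ ((K + 1) * ((K : ℝ) + 1)) / (μ * Real.log 2) := by positivity
  have j1 : c₁ ≤ δ₀ * μ * J := by
    have h1 : c₁ / (δ₀ * μ) ≤ J := by linarith
    rwa [div_le_iff₀ (by positivity), mul_comm] at h1
  have j2 : c₂ ≤ ε / 2 * μ * J := by
    have h1 : c₂ / (ε / 2 * μ) ≤ J := by linarith
    rwa [div_le_iff₀ (by positivity), mul_comm] at h1
  have j3 : ((K + 1) * ((K : ℝ) + 1)) ≤ 2 ^ (μ * J) := by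
    have h1 : ((K + 1) * ((K : ℝ) + 1)) / (μ * Real.log 2) ≤ J := by linarith
    rw [div_le_iff₀ (by positivity)] at h1
    have h2 : (2 : ℝ) ^ (μ * J) = Real.exp (Real.log 2 * (μ * J)) := by
      rw [Real.rpow_def_of_pos two_pos]
    rw [h2]
    have h3 := Real.add_one_le_exp (Real.log 2 * (μ * J))
    nlinarith
  have hcl := isLaw_cond F.isLaw hA
  have h0 := hcl.nonneg
  have hsup : ∀ ω, 0 < Pool.Agent.H49.Ent.cond F.p A True ω → A ω := fun ω hω => of_cond_pos hω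
  obtain ⟨p, hp⟩ : ∃ p, p = Pool.Agent.H49.Ent.cond F.p A True := ⟨_, rfl⟩
  rw [← hp] at hdt hdv hdc htim hnat hfar hmi hvc hcl h0 hsup
  obtain ⟨W, hW⟩ : ∃ W : ℕ, W = ⌊w * J⌋₊ := ⟨_, rfl⟩
  rw [← hW] at hdt hdv hdc hnat
  have hth : ∀ ω, 0 ≤ rt F W ω ∧ rt F W ω ≤ 1 := rt_mem F W
  have hrt : ∀ {ω ν : F.Ω}, F.W ω = F.W ν → rt F W ω = rt F W ν := by
    intro ω ν h
    have h1 : F.T ω = F.T ν := (Prod.ext_iff.mp h).1
    unfold rt
    rw [h1]
  -- the velocity over the far path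
  have a1 : CH p (fun ω => ⌊(tp ω).derivative.eval (rt F W ω)⌋)
      (fun ω => (Vf ω, (C ω, F.W ω))) ≤ e + c₁ := by
    have b1 := CH_le_add h0 (fun ω => ⌊(tp ω).derivative.eval (rt F W ω)⌋)
      (fun ω (i : Fin K) => ⌊(tp ω).coeff (i : ℕ).succ⌋) (fun ω => (Vf ω, (C ω, F.W ω)))
    have b2 := CH_pair_int hcl (fun ω => ⌊(tp ω).derivative.eval (rt F W ω)⌋)
      (fun ω => ((fun i : Fin K => ⌊(tp ω).coeff (i : ℕ).succ⌋), (Vf ω, (C ω, F.W ω))))
      (D := (K + 1) * K + 1) (by positivity) fun ω ν hω hν ee => by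
        simp only [Prod.mk.injEq] at ee
        obtain ⟨e1, -, -, e4⟩ := ee
        refine fl_near ?_
        rw [← hrt e4, ← Polynomial.eval_sub]
        exact Pool.AVG66.eval_le_of ((Polynomial.natDegree_sub_le _ _).trans
          (max_le (der_deg (hdeg ω (hsup ω hω))) (der_deg (hdeg ν (hsup ν hν))))) (hth ω)
          (der_coeff_near (fun i => congrFun e1 i) (hdeg ω (hsup ω hω)) (hdeg ν (hsup ν hν)))
    rw [hc₁]
    linarith
  -- the velocity over the near path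
  have a2 := vbm h0 hnat a1 hmi
  have a3 : CH p (fun ω => ⌊(tp ω).derivative.eval (rt F W ω)⌋)
      (fun ω => (Vc ω, (C ω, F.W ω))) ≤ e + (e + c₁) + e + e := by
    have b1 := CH_le_add h0 (fun ω => ⌊(tp ω).derivative.eval (rt F W ω)⌋) Vn
      (fun ω => (Vc ω, (C ω, F.W ω)))
    have b2 : CH p Vn (fun ω => (Vc ω, (C ω, F.W ω))) ≤ CH p Vn (fun ω => (Vc ω, F.W ω)) :=
      CH_mono_cond h0 fun ω ν _ _ e => by
        simp only [Prod.mk.injEq] at e ⊢
        exact ⟨e.1, e.2.2⟩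
    have b3 : CH p (fun ω => ⌊(tp ω).derivative.eval (rt F W ω)⌋)
        (fun ω => (Vn ω, (Vc ω, (C ω, F.W ω)))) ≤
        CH p (fun ω => ⌊(tp ω).derivative.eval (rt F W ω)⌋) (fun ω => (Vn ω, (C ω, F.W ω))) :=
      CH_mono_cond h0 fun ω ν _ _ e => by
        simp only [Prod.mk.injEq] at e ⊢
        exact ⟨e.1, e.2.2⟩
    linarith
  -- functions of the line
  obtain ⟨ft, hft⟩ := det_ext hdt
  obtain ⟨fc, hfc⟩ := det_ext (p := p) (Y := slam F W) (Z := fun ω => (Vc ω, C ω))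
    fun ω ν a b e => Prod.ext (hdv ω ν a b e) (hdc ω ν a b e)
  obtain ⟨f, hf⟩ : ∃ f : LnT F → Polynomial ℝ, f = fun x =>
      if ∃ ω, 0 < p ω ∧ slam F W ω = x then ((ft x).getD 0).derivative else 0 := ⟨_, rfl⟩
  have hfe : ∀ ω, 0 < p ω → f (slam F W ω) = (tp ω).derivative := by
    intro ω hω
    rw [hf]
    simp only
    rw [if_pos ⟨ω, hω, rfl⟩, hft ω hω]
    rfl
  have hfd : ∀ x, (f x).natDegree ≤ K := by
    intro x
    by_cases hx : ∃ ω, 0 < p ω ∧ slam F W ω = x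
    · obtain ⟨ω, hω, rfl⟩ := hx
      rw [hfe ω hω]
      exact der_deg (hdeg ω (hsup ω hω))
    · rw [hf]
      simp only
      rw [if_neg hx]
      simp
  have hfb : ∀ x (u : ℝ), 0 ≤ u → u ≤ 1 → |1 * (f x).eval u| ≤ 2 ^ (2 * μ * J) := by
    intro x u hu0 hu1
    rw [one_mul]
    by_cases hx : ∃ ω, 0 < p ω ∧ slam F W ω = x
    · obtain ⟨ω, hω, rfl⟩ := hx
      rw [hfe ω hω]
      have b1 : ∀ a, |(tp ω).derivative.coeff a| ≤ ((K : ℝ) + 1) * 2 ^ (μ * J) := by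
        intro a
        rw [Polynomial.coeff_derivative]
        rcases Nat.lt_or_ge a K with ha | ha
        · rw [abs_mul, mul_comm]
          refine mul_le_mul ?_ (hbd ω (hsup ω hω) _) (abs_nonneg _) (by positivity)
          rw [abs_of_nonneg (by positivity)]
          have : (a : ℝ) ≤ K := by exact_mod_cast ha.le
          linarith
        · rw [Polynomial.coeff_eq_zero_of_natDegree_lt ((hdeg ω (hsup ω hω)).trans_lt
            (by omega))]
          simp only [zero_mul, abs_zero]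
          positivity
      refine (Pool.AVG66.eval_le_of (der_deg (hdeg ω (hsup ω hω))) ⟨hu0, hu1⟩ b1).trans ?_
      have b2 : (2 : ℝ) ^ (2 * μ * J) = 2 ^ (μ * J) * 2 ^ (μ * J) := by
        rw [← Real.rpow_add two_pos]
        ring_nf
      rw [b2, ← mul_assoc]
      exact mul_le_mul_of_nonneg_right j3 (by positivity)
    · rw [hf]
      simp only
      rw [if_neg hx]
      simp only [Polynomial.eval_zero, abs_zero]
      positivity
  have a4 := H J ((le_max_left _ _).trans hJ) F A hA f fc 1 hfd hfb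
    (by
      rw [← hp]
      refine le_trans ?_ htim
      have : 0 ≤ δ₀ * μ * J := by positivity
      linarith) (by
      rw [← hp, ← hW]
      have b1 : CH p (fun ω => ⌊1 * (f (slam F W ω)).eval (rt F W ω)⌋)
          (fun ω => (fc (slam F W ω), F.W ω)) ≤
          CH p (fun ω => ⌊(tp ω).derivative.eval (rt F W ω)⌋)
            (fun ω => (Vc ω, (C ω, F.W ω))) := by
        refine (CH_mono_left h0 fun ω ν hω hν e => ?_).trans (CH_mono_cond h0 fun ω ν hω hν e => ?_)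
        · have e1 := (Prod.ext_iff.mp e).1
          simp only at e1 ⊢
          rw [one_mul, one_mul, hfe ω hω, hfe ν hν]
          exact e1
        · simp only [Prod.mk.injEq] at e ⊢
          rw [hfc ω hω, hfc ν hν, Option.some.injEq, Prod.mk.injEq] at e
          exact ⟨e.1.1, e.1.2, e.2⟩
      refine b1.trans (a3.trans ?_)
      linarith)
  rw [← hp, ← hW] at a4
  -- the codes of the path
  have a5 := CH_le_add h0 (fun ω (i : Fin K) => ⌊(tp ω).coeff (i : ℕ).succ⌋)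
    (fun ω (j : Fin (K + 1)) => ⌊1 * (f (slam F W ω)).coeff j⌋) (fun ω => (Vc ω, (C ω, F.W ω)))
  have a6 : CH p (fun ω (j : Fin (K + 1)) => ⌊1 * (f (slam F W ω)).coeff j⌋)
      (fun ω => (Vc ω, (C ω, F.W ω))) ≤ ε / 4 * (2 * μ) * J := by
    refine le_trans (CH_mono_cond h0 fun ω ν hω hν e => ?_) a4
    simp only [Prod.mk.injEq] at e ⊢
    rw [hfc ω hω, hfc ν hν]
    exact ⟨by rw [e.1, e.2.1], e.2.2⟩
  have a7 : CH p (fun ω (i : Fin K) => ⌊(tp ω).coeff (i : ℕ).succ⌋)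
      (fun ω => ((fun (j : Fin (K + 1)) => ⌊1 * (f (slam F W ω)).coeff j⌋),
        (Vc ω, (C ω, F.W ω)))) ≤ c₂ := by
    rw [hc₂]
    refine ch_vecn hcl _ _ (by norm_num) fun ω ν hω hν e i => ?_
    have e1 := congrFun (Prod.ext_iff.mp e).1 ⟨i, by omega⟩
    simp only [one_mul] at e1
    rw [hfe ω hω, hfe ν hν, Polynomial.coeff_derivative, Polynomial.coeff_derivative] at e1
    have f1 := Int.floor_le ((tp ω).coeff ((i : ℕ) + 1) * (((i : ℕ) : ℝ) + 1))
    have f2 := Int.lt_floor_add_one ((tp ω).coeff ((i : ℕ) + 1) * (((i : ℕ) : ℝ) + 1))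
    have f3 := Int.floor_le ((tp ν).coeff ((i : ℕ) + 1) * (((i : ℕ) : ℝ) + 1))
    have f4 := Int.lt_floor_add_one ((tp ν).coeff ((i : ℕ) + 1) * (((i : ℕ) : ℝ) + 1))
    rw [e1] at f1 f2
    have h2 : |(tp ω).coeff (i : ℕ).succ - (tp ν).coeff (i : ℕ).succ| ≤ 1 := by
      have h3 : |((tp ω).coeff ((i : ℕ) + 1) - (tp ν).coeff ((i : ℕ) + 1)) *
          (((i : ℕ) : ℝ) + 1)| ≤ 1 := by
        rw [sub_mul, abs_le]
        constructor <;> linarith
      rw [abs_mul, abs_of_nonneg (show (0 : ℝ) ≤ ((i : ℕ) : ℝ) + 1 by positivity)] at h3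
      have h4 : (1 : ℝ) ≤ ((i : ℕ) : ℝ) + 1 := by
        have : (0 : ℝ) ≤ ((i : ℕ) : ℝ) := Nat.cast_nonneg _
        linarith
      exact (le_mul_of_one_le_right (abs_nonneg _) h4).trans h3
    have h3 := fl_near h2
    linarith
  rw [← hp]
  linarith

end Pool.V0S
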