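import Pool.Agent.H83.VT.Sheet

/-!
# The windows with a target above a follower, more than one contact coordinate: the parts

The place `v` (`2`, or `1`) of slope `s`, `1 < s`, is below the target of slope `σ`, `s < σ`; the
places of slope one are the others. Four ranges of the numbers: `RgN`: `s < {s} σ`; `RgI`: `s` is an
integer; `RgS`: `s < 2`, `{s} σ ≤ s`; `RgB`: `2 < s`, not an integer, `{s} σ ≤ s`. `VwP Φ`: the
windows with the numbers in the range `Φ` are void. `pTwo_gt`: `PTwo (a < b)` from the parts.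
-/

set_option autoImplicit false

namespace Pool.VT87

open Pool.Agent.H49.Ent Pool.Agent.H32.Dense Pool.STK Pool.KA Pool.KSAT Pool.K2S Pool.PB
open Pool.GEN Pool.PKG Pool.SW Pool.ALT Pool.ASM
open Pool.LA91 (sumQ HerQ aePG_sum her_sum)

/-- The slopes and the kind: the place 2 is below the target, the numbers in the range `Φ`. -/
def Nw2 (Φ : ℝ → ℝ → Prop) (k : Kg) (κ : ℕ → Kg) (Sl : ℕ → ℝ) : Prop :=
  κ 2 = k ∧ Sl 0 = 1 ∧ Sl 1 = 1 ∧ 1 < Sl 2 ∧ Sl 2 < Sl 3 ∧ Φ (Sl 2) (Sl 3)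

/-- The place 1 is below the target. -/
def Nw1 (Φ : ℝ → ℝ → Prop) (k : Kg) (κ : ℕ → Kg) (Sl : ℕ → ℝ) : Prop :=
  κ 1 = k ∧ Sl 0 = 1 ∧ Sl 2 = 1 ∧ 1 < Sl 1 ∧ Sl 1 < Sl 3 ∧ Φ (Sl 1) (Sl 3)

/-- **The windows with the numbers in the range `Φ` are void**: the place 2 of slope `s`; the place 1
of slope `s`, with closed labels of the place 2 over the place 0, and without. -/
structure VwP (Φ : ℝ → ℝ → Prop) : Prop where
  two : ∀ k : Kg, k = .thin ∨ k = .sta ∨ k = .stp → CavP 4 (Nw2 Φ k) (TruW 4)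
  one : ∀ k : Kg, k = .thin ∨ k = .sta → ∀ k₀ : ℕ, k₀ ≤ 1 →
    CavP 4 (Nw1 Φ k) fun S P θ c Pt r L T κ G g => Pool.SWP.SwQ 1 k₀ S P θ c Pt r L T κ G g

/-- `s < {s} σ`: more natural digits of the velocity than digits of the side path. -/
def RgN (s σ : ℝ) : Prop := s < Int.fract s * σ

/-- `s` is an integer. -/
def RgI (s _ : ℝ) : Prop := Int.fract s = 0

/-- `s < 2`, `{s} σ ≤ s`. -/
def RgS (s σ : ℝ) : Prop := s < 2 ∧ Int.fract s * σ ≤ s

/-- `2 < s` is not an integer, `{s} σ ≤ s`. -/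
def RgB (s σ : ℝ) : Prop := 2 < s ∧ Int.fract s ≠ 0 ∧ Int.fract s * σ ≤ s

/-- The four ranges. -/
theorem rg_all (s σ : ℝ) : ((RgN s σ ∨ RgI s σ) ∨ RgS s σ) ∨ RgB s σ := by
  unfold RgN RgI RgS RgB
  by_cases h0 : Int.fract s = 0
  · exact Or.inl (Or.inl (Or.inr h0))
  by_cases h1 : s < Int.fract s * σ
  · exact Or.inl (Or.inl (Or.inl h1))
  push Not at h1
  rcases lt_trichotomy s 2 with h2 | h2 | h2
  · exact Or.inl (Or.inr ⟨h2, h1⟩)
  · exact absurd (by rw [h2]; exact Int.fract_ofNat 2) h0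
  · exact Or.inr ⟨h2, h0, h1⟩

theorem VwP.mono {Φ Φ' : ℝ → ℝ → Prop} (H : VwP Φ) (h : ∀ s σ, Φ' s σ → Φ s σ) : VwP Φ' where
  two := fun k hk => (H.two k hk).mono fun _ _ hx =>
    ⟨hx.1, hx.2.1, hx.2.2.1, hx.2.2.2.1, hx.2.2.2.2.1, h _ _ hx.2.2.2.2.2⟩
  one := fun k hk k₀ h0 => (H.one k hk k₀ h0).mono fun _ _ hx =>
    ⟨hx.1, hx.2.1, hx.2.2.1, hx.2.2.2.1, hx.2.2.2.2.1, h _ _ hx.2.2.2.2.2⟩

/-- Two ranges. -/
theorem VwP.num {Φ Φ' : ℝ → ℝ → Prop} (H : VwP Φ) (H' : VwP Φ') :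
    VwP fun s σ => Φ s σ ∨ Φ' s σ where
  two := fun k hk => ((H.two k hk).num (H'.two k hk)).mono fun _ _ hx => by
    obtain ⟨h1, h2, h3, h4, h5, h6⟩ := hx
    rcases h6 with h6 | h6
    · exact Or.inl ⟨h1, h2, h3, h4, h5, h6⟩
    · exact Or.inr ⟨h1, h2, h3, h4, h5, h6⟩
  one := fun k hk k₀ h0 => ((H.one k hk k₀ h0).num (H'.one k hk k₀ h0)).mono fun _ _ hx => by
    obtain ⟨h1, h2, h3, h4, h5, h6⟩ := hx
    rcases h6 with h6 | h6
    · exact Or.inl ⟨h1, h2, h3, h4, h5, h6⟩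
    · exact Or.inr ⟨h1, h2, h3, h4, h5, h6⟩

/-- The place 1: the two cases of the place 2. -/
theorem vw_one {Φ : ℝ → ℝ → Prop} (H : VwP Φ) {k : Kg} (hk : k = .thin ∨ k = .sta) :
    CavP 4 (Nw1 Φ k) (TruW 4) := by
  refine CavP.prp (Pool.SWP.aePG_sw 4) (Pool.SWP.her_sw 4) 1 ?_
  exact CavP.or (W := AndW (TruW 4) fun S P θ c Pt r L T κ G g =>
    ∃ k₀, Pool.SWP.SwQ 1 k₀ S P θ c Pt r L T κ G g)
    (fun S P θ c Pt r L T κ G g => Pool.SWP.SwQ 1 0 S P θ c Pt r L T κ G g)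
    ((H.one k hk 0 (by norm_num)).imp fun S P θ c Pt r L T κ G g hw => hw.2)
    ((H.one k hk 1 le_rfl).imp fun S P θ c Pt r L T κ G g hw => by
      obtain ⟨⟨-, k₀, hk⟩, h2⟩ := hw
      obtain ⟨h3, -⟩ := hk (by norm_num)
      rcases (show k₀ = 0 ∨ k₀ = 1 by omega) with rfl | rfl
      · exact absurd hk h2
      · exact hk)

/-- All numbers from the four ranges. -/
theorem vw_all (hN : VwP RgN) (hI : VwP RgI) (hS : VwP RgS) (hB : VwP RgB) :
    VwP fun _ _ => True :=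
  (((hN.num hI).num hS).num hB).mono fun s σ _ => rg_all s σ

/-- A kind at the place 2. -/
theorem vd_two (H : VwP fun _ _ => True) {k : Kg} (hk : k = .thin ∨ k = .sta ∨ k = .stp) :
    VdP (kg4 .one .one k .thin) (Nm2 2 1 (fun a b => a < b) k) :=
  Pool.VT83.cavP_vd (H.two k hk) fun _ h =>
    ⟨⟨rfl, h.s0, h.sj, h.sl, h.rel, trivial⟩, Pool.VT83.nm2_kgt hk h⟩

/-- A kind at the place 1. -/
theorem vd_one (H : VwP fun _ _ => True) {k : Kg} (hk : k = .thin ∨ k = .sta) :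
    VdP (kg4 .one k .one .thin) (Nm2 1 2 (fun a b => a < b) k) :=
  Pool.VT83.cavP_vd (vw_one H hk) fun _ h =>
    ⟨⟨rfl, h.s0, h.sj, h.sl, h.rel, trivial⟩, Pool.VT83.nm2_kgt' hk h⟩

/-- **`PTwo (a < b)` from the named parts.** -/
theorem pTwo_gt (hN : VwP RgN) (hI : VwP RgI) (hS : VwP RgS) (hB : VwP RgB) :
    PTwo fun a b => a < b where
  t2 := vd_two (vw_all hN hI hS hB) (by simp)
  s2 := vd_two (vw_all hN hI hS hB) (by simp)
  p2 := vd_two (vw_all hN hI hS hB) (by simp)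
  t1 := vd_one (vw_all hN hI hS hB) (by simp)
  s1 := vd_one (vw_all hN hI hS hB) (by simp)

end Pool.VT87
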