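import Pool.Agent.H44.V0F.Law2
import Pool.Agent.H14.S6.PRM
import Pool.Agent.H57.AVG.Prg

/-!
# Near digits of the base coordinates with a side path: the mutual informations

`VSide`: the inputs. `zw`, `Rj`, `Rx`, `Ra`, `R'`: records; `Xq`, `Xp`, `Uq`, `Up`: near and far
positions and velocities of the contact coordinates; `sd`: the near digits of the side path, few given
`Ra` and the near digits of the contact coordinates; `N1`, `N2`: near and far digits of the target;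
`Ye`: a deep path of the contact coordinates. `VSide.mx`, `VSide.mj`, `VSide.vf`: the fields of the
event theorem, with `sd` in the context. `VSide.of_V2`: the deep path as exact positions and deep
velocities. `nl_side`: the field `nl` from digits of the side path and of the target over the deep
path. `row_side`: the rows.
-/

set_option autoImplicit false

namespace Pool.V0S

open Finset Real
open Pool.Agent.H49.Ent Pool.Agent.H32.Dense Pool.STK Pool.M5 Pool.PRM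
open Pool.KVA (MI)
open Pool.V0F (VLaw2 CH_ge CH_tr)
open Pool.AVG57 (CH_pair_ctx MI_few)

section

variable {Ω : Type} [Fintype Ω] {p : Ω → ℝ}

variable {ζ ρ₁ ρ₂ ρ₃ ρ₄ υ ξ₁ ξ₂ ξ₃ ξ₄ σ ν₁ ν₂ ν₃ ν₄ η θ₁ θ₂ θ₃ : Type} {zw : Ω → ζ} {Rj : Ω → ρ₁}
  {Rx : Ω → ρ₂} {Ra : Ω → ρ₃} {R' : Ω → ρ₄} {y : Ω → υ} {Xq : Ω → ξ₁} {Xp : Ω → ξ₂} {Uq : Ω → ξ₃}
  {Up : Ω → ξ₄} {sd : Ω → σ} {N1 : Ω → ν₁} {N2 : Ω → ν₂} {Ye : Ω → η} {Fv κ : ℝ}

/-- **The inputs.** -/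
structure VSide (p : Ω → ℝ) (zw : Ω → ζ) (Rj : Ω → ρ₁) (Rx : Ω → ρ₂) (Ra : Ω → ρ₃) (R' : Ω → ρ₄)
    (y : Ω → υ) (Xq : Ω → ξ₁) (Xp : Ω → ξ₂) (Uq : Ω → ξ₃) (Up : Ω → ξ₄) (sd : Ω → σ) (N1 : Ω → ν₁)
    (N2 : Ω → ν₂) (Ye : Ω → η) (Fv κ : ℝ) : Prop where
  h0 : ∀ ω, 0 ≤ p ω
  κ0 : 0 ≤ κ
  zj : CH p zw Rj ≤ κ
  ja : CH p Rj Ra ≤ κ
  xa : CH p Rx Ra ≤ κ
  za : CH p zw Ra ≤ κ
  ar : CH p Ra R' ≤ κ
  uq : CH p Uq Up ≤ κ
  fr : CH p Up (fun ω => (zw ω, y ω)) ≤ CH p Up (fun ω => (R' ω, y ω)) + κ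
  fa : Fv - κ ≤ CH p Xp (fun ω => (Xq ω, (Ra ω, y ω)))
  cn : CH p Xp (fun ω => (Xq ω, (zw ω, y ω))) ≤ Fv + κ
  qp : CH p Xq (fun ω => (Xp ω, (zw ω, y ω))) ≤ κ
  px : CH p Xp (fun ω => (R' ω, y ω)) ≤ κ
  /-- the side path -/
  sa : CH p sd (fun ω => ((Xq ω, Uq ω), (Ra ω, y ω))) ≤ κ
  /-- the digits of the target -/
  n1 : CH p N1 (fun ω => ((Xq ω, Uq ω), (sd ω, (Ra ω, y ω)))) ≤ κ
  n2 : CH p N2 (fun ω => ((Xp ω, Up ω), (sd ω, (R' ω, y ω)))) ≤ κ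
  /-- the deep path of the contact coordinates -/
  ye : CH p Ye (fun ω => ((Xp ω, Up ω), (zw ω, y ω))) ≤
    CH p Ye (fun ω => ((Xp ω, Up ω), (R' ω, y ω))) + κ
  ep : CH p (fun ω => (Xp ω, Up ω)) (fun ω => (sd ω, (Ye ω, (zw ω, y ω)))) ≤ κ
  eq : CH p (fun ω => (Xq ω, Uq ω)) (fun ω => (sd ω, (Ye ω, (zw ω, y ω)))) ≤ κ
  /-- the digits of the target over the deep path -/
  nl : MI p Rj N2 (fun ω => (N1 ω, (sd ω, (Ye ω, (zw ω, y ω))))) ≤ κ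

/-- The mutual information, the condition first. -/
theorem MI_le_left (h0 : ∀ ω, 0 ≤ p ω) {α β γ δ : Type} (R : Ω → α) (X : Ω → β) (Z : Ω → γ)
    (W : Ω → δ) : MI p R X (fun ω => (Z ω, W ω)) ≤ MI p (fun ω => (Z ω, R ω)) X W := by
  have h1 := MI_chain_left h0 Z R X W
  have h2 := MI_nonneg h0 Z X W
  linarith

/-- More in the second place. -/
theorem MI_le_right (h0 : ∀ ω, 0 ≤ p ω) {α β γ δ : Type} (R : Ω → α) (X : Ω → β) (Z : Ω → γ)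
    (W : Ω → δ) : MI p R X W ≤ MI p R (fun ω => (Z ω, X ω)) W := by
  have h1 := MI_le_add h0 R X (fun ω => (Z ω, X ω)) W
  rw [CH_eq_zero h0 (X := X) (W := fun ω => ((Z ω, X ω), W ω))
    (fun ω ν _ _ e => (Prod.ext_iff.mp (Prod.ext_iff.mp e).1).2)] at h1
  linarith

namespace VSide

/-- The part of the contact coordinates. -/
theorem toV (h : VSide p zw Rj Rx Ra R' y Xq Xp Uq Up sd N1 N2 Ye Fv κ) :
    VLaw2 p zw Ra Ra R' y Xq Xp Uq Up (fun _ => ()) (fun _ => ()) Xp Fv 0 κ := by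
  have h0 := h.h0
  have hk := h.κ0
  have u0 : ∀ {α : Type} (Z : Ω → α), CH p (fun _ : Ω => ()) Z ≤ κ := fun Z => by
    rw [CH_eq_zero h0 (fun _ _ _ _ _ => rfl)]
    exact hk
  have x0 : ∀ {α : Type} (Z : Ω → α), CH p Xp (fun ω => (Xp ω, Z ω)) = 0 := fun Z =>
    CH_eq_zero h0 fun _ _ _ _ e => (Prod.ext_iff.mp e).1
  refine ⟨h0, hk, h.za, h.za, h.ar, h.ar, h.uq, h.fr, h.fa, h.fa, h.cn, h.qp, h.px, u0 _, u0 _, ?_,
    ?_, ?_, ?_⟩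
  · have h1 := u0 (fun ω => ((), (Xp ω, (zw ω, y ω))))
    have h2 := CH_nonneg h0 (fun _ : Ω => ()) (fun ω => (Xp ω, (Ra ω, y ω)))
    rw [CH_eq_zero h0 (fun _ _ _ _ _ => rfl)]
    linarith
  · rw [x0]
    exact hk
  · rw [x0]
    linarith
  · rw [x0]
    linarith

/-- The record at `a` does not see the far digits. -/
theorem ma (h : VSide p zw Rj Rx Ra R' y Xq Xp Uq Up sd N1 N2 Ye Fv κ) :
    MI p Ra (fun ω => (Xp ω, Up ω)) (fun ω => ((Xq ω, Uq ω), (zw ω, y ω))) ≤ 25 * κ := h.toV.mx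

/-- A variable which is few bits given the record at `a`. -/
theorem mf (h : VSide p zw Rj Rx Ra R' y Xq Xp Uq Up sd N1 N2 Ye Fv κ)
    {δ : Type} {D : Ω → δ} {e : ℝ} (hD : CH p D (fun ω => ((Xq ω, Uq ω), (Ra ω, y ω))) ≤ e) :
    MI p D (fun ω => (Xp ω, Up ω)) (fun ω => ((Xq ω, Uq ω), (zw ω, y ω))) ≤ 25 * κ + e := by
  have h0 := h.h0
  have h1 := MI_le_add' h0 D Ra (fun ω => (Xp ω, Up ω)) (fun ω => ((Xq ω, Uq ω), (zw ω, y ω)))
  have h2 : CH p D (fun ω => (Ra ω, ((Xq ω, Uq ω), (zw ω, y ω)))) ≤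
      CH p D (fun ω => ((Xq ω, Uq ω), (Ra ω, y ω))) := CH_mono_cond h0 fun ω ν _ _ e => by
    simp only [Prod.mk.injEq] at e ⊢
    tauto
  have h3 := h.ma
  linarith

/-- **The field `mx`.** -/
theorem mx (h : VSide p zw Rj Rx Ra R' y Xq Xp Uq Up sd N1 N2 Ye Fv κ) :
    MI p Rx (fun ω => (Xp ω, Up ω)) (fun ω => ((Xq ω, Uq ω), (zw ω, (sd ω, y ω)))) ≤ 27 * κ := by
  have h0 := h.h0
  have h1 := h.mf (D := fun ω => (sd ω, Rx ω)) (e := κ + κ) (by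
    refine (CH_subadd h0 sd Rx _).trans (add_le_add h.sa (le_trans (CH_mono_cond h0 ?_) h.xa))
    intro ω ν _ _ e
    simp only [Prod.mk.injEq] at e
    exact e.2.1)
  have h2 := MI_le_left h0 Rx (fun ω => (Xp ω, Up ω)) sd (fun ω => ((Xq ω, Uq ω), (zw ω, y ω)))
  have h3 := MI_few h0 Rx (fun ω => (Xp ω, Up ω)) (W := fun ω => ((Xq ω, Uq ω), (zw ω, (sd ω, y ω))))
    (W' := fun ω => (sd ω, ((Xq ω, Uq ω), (zw ω, y ω)))) (e₁ := 0) (e₂ := 0)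
    (le_of_eq (CH_eq_zero h0 fun ω ν _ _ e => by
      simp only [Prod.mk.injEq] at e ⊢
      tauto)) (le_of_eq (CH_eq_zero h0 fun ω ν _ _ e => by
      simp only [Prod.mk.injEq] at e ⊢
      tauto))
  linarith

/-- **The field `vf`**, for any digits `V` which the last record knows. -/
theorem vf (h : VSide p zw Rj Rx Ra R' y Xq Xp Uq Up sd N1 N2 Ye Fv κ)
    {ε : Type} {V : Ω → ε} {Fw : ℝ} (hV : CH p V (fun ω => (R' ω, y ω)) ≤ κ)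
    (hf : Fw - κ ≤ CH p V (fun ω => (Xq ω, (Ra ω, y ω)))) :
    Fw - 12 * κ ≤ CH p V (fun ω => ((Xq ω, Uq ω), (Rx ω, (sd ω, y ω)))) := by
  have h0 := h.h0
  have h1 := h.toV.vf hV hf
  -- `(Rx, sd)` few given `(Ra, Xq, Uq, y)`
  have h2 := CH_ge h0 V (fun ω => (sd ω, Rx ω)) (fun ω => ((Xq ω, Uq ω), (Ra ω, y ω)))
  have h3 : CH p (fun ω => (sd ω, Rx ω)) (fun ω => ((Xq ω, Uq ω), (Ra ω, y ω))) ≤ κ + κ := by
    refine (CH_subadd h0 sd Rx _).trans (add_le_add h.sa (le_trans (CH_mono_cond h0 ?_) h.xa))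
    intro ω ν _ _ e
    simp only [Prod.mk.injEq] at e
    exact e.2.1
  have h4 : CH p V (fun ω => ((sd ω, Rx ω), ((Xq ω, Uq ω), (Ra ω, y ω)))) ≤
      CH p V (fun ω => ((Xq ω, Uq ω), (Rx ω, (sd ω, y ω)))) := CH_mono_cond h0 fun ω ν _ _ e => by
    simp only [Prod.mk.injEq] at e ⊢
    tauto
  linarith

/-- The far digits of the contact coordinates, given the digits of the target. -/
theorem mj1 (h : VSide p zw Rj Rx Ra R' y Xq Xp Uq Up sd N1 N2 Ye Fv κ) :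
    MI p Rj (fun ω => (Xp ω, Up ω)) (fun ω => (((Xq ω, Uq ω), N1 ω), (zw ω, (sd ω, y ω)))) ≤
      28 * κ := by
  have h0 := h.h0
  obtain ⟨G, hG⟩ : ∃ G : Ω → _, G = fun ω => ((Xq ω, Uq ω), (Ra ω, y ω)) := ⟨_, rfl⟩
  have c1 : CH p (fun ω => (sd ω, Rj ω)) G ≤ κ + κ := by
    refine (CH_subadd h0 sd Rj _).trans (add_le_add (by rw [hG]; exact h.sa)
      (le_trans (CH_mono_cond h0 ?_) h.ja))
    intro ω ν _ _ e
    rw [hG] at e
    simp only [Prod.mk.injEq] at e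
    exact e.2.1
  have c2 : CH p N1 (fun ω => ((sd ω, Rj ω), G ω)) ≤ κ := le_trans (CH_mono_cond h0
    fun ω ν _ _ e => by
      rw [hG] at e
      simp only [Prod.mk.injEq] at e ⊢
      tauto) h.n1
  have c3 := CH_chain h0 N1 (fun ω => (sd ω, Rj ω)) G
  have h1 := h.mf (D := fun ω => (N1 ω, (sd ω, Rj ω))) (e := 3 * κ) (by
    rw [← hG]
    linarith)
  have h2 := MI_le_left h0 Rj (fun ω => (Xp ω, Up ω)) sd
    (fun ω => (N1 ω, ((Xq ω, Uq ω), (zw ω, y ω))))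
  have h3 := MI_le_left h0 (fun ω => (sd ω, Rj ω)) (fun ω => (Xp ω, Up ω)) N1
    (fun ω => ((Xq ω, Uq ω), (zw ω, y ω)))
  have h4 := MI_few h0 Rj (fun ω => (Xp ω, Up ω))
    (W := fun ω => (((Xq ω, Uq ω), N1 ω), (zw ω, (sd ω, y ω))))
    (W' := fun ω => (sd ω, (N1 ω, ((Xq ω, Uq ω), (zw ω, y ω))))) (e₁ := 0) (e₂ := 0)
    (le_of_eq (CH_eq_zero h0 fun ω ν _ _ e => by
      simp only [Prod.mk.injEq] at e ⊢
      tauto)) (le_of_eq (CH_eq_zero h0 fun ω ν _ _ e => by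
      simp only [Prod.mk.injEq] at e ⊢
      tauto))
  linarith

/-- Everything near is few bits given the last record and the far digits. -/
theorem near (h : VSide p zw Rj Rx Ra R' y Xq Xp Uq Up sd N1 N2 Ye Fv κ) :
    CH p (fun ω => ((N2 ω, N1 ω), (sd ω, ((Xq ω, Uq ω), zw ω))))
      (fun ω => ((Xp ω, Up ω), (R' ω, y ω))) ≤ 11 * κ := by
  have h0 := h.h0
  have hk := h.κ0
  obtain ⟨Z, hZ⟩ : ∃ Z : Ω → _, Z = fun ω => ((Xp ω, Up ω), (R' ω, y ω)) := ⟨_, rfl⟩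
  rw [← hZ]
  have a1 : CH p Ra Z ≤ κ := le_trans (CH_mono_cond h0 fun ω ν _ _ e => by
    rw [hZ] at e
    simp only [Prod.mk.injEq] at e
    exact e.2.1) h.ar
  have a2 : CH p zw Z ≤ κ + κ := CH_tr h0 zw (A := Ra) (W' := Ra) a1 h.za
    fun _ _ _ _ e => (Prod.ext_iff.mp e).1
  have a3 : CH p Uq Z ≤ κ := le_trans (CH_mono_cond h0 fun ω ν _ _ e => by
    rw [hZ] at e
    simp only [Prod.mk.injEq] at e
    exact e.1.2) h.uq
  have a4 : CH p Xq Z ≤ (κ + κ) + κ := CH_tr h0 Xq (A := zw)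
    (W' := fun ω => (Xp ω, (zw ω, y ω))) a2 h.qp fun ω ν _ _ e => by
      rw [hZ] at e
      simp only [Prod.mk.injEq] at e ⊢
      tauto
  -- `(Xq, Uq), zw`
  have b1 : CH p (fun ω => ((Xq ω, Uq ω), zw ω)) Z ≤ 6 * κ := by
    have c1 := CH_subadd h0 (fun ω => (Xq ω, Uq ω)) zw Z
    have c2 := CH_subadd h0 Xq Uq Z
    linarith
  -- `sd`
  have b2 : CH p sd (fun ω => (((Xq ω, Uq ω), zw ω), Z ω)) ≤ κ + κ := CH_tr h0 sd (A := Ra)
    (W' := fun ω => ((Xq ω, Uq ω), (Ra ω, y ω))) (le_trans (CH_mono_cond h0 fun ω ν _ _ e => by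
      exact (Prod.ext_iff.mp e).2) a1) h.sa fun ω ν _ _ e => by
      rw [hZ] at e
      simp only [Prod.mk.injEq] at e ⊢
      tauto
  have b3 := CH_chain h0 sd (fun ω => ((Xq ω, Uq ω), zw ω)) Z
  -- `N1`
  have b4 : CH p N1 (fun ω => ((sd ω, ((Xq ω, Uq ω), zw ω)), Z ω)) ≤ κ + κ := CH_tr h0 N1
    (A := Ra) (W' := fun ω => ((Xq ω, Uq ω), (sd ω, (Ra ω, y ω)))) (le_trans (CH_mono_cond h0
      fun ω ν _ _ e => by
      exact (Prod.ext_iff.mp e).2) a1) h.n1 fun ω ν _ _ e => by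
      rw [hZ] at e
      simp only [Prod.mk.injEq] at e ⊢
      tauto
  -- `N2`
  have b5 : CH p N2 (fun ω => ((sd ω, ((Xq ω, Uq ω), zw ω)), Z ω)) ≤ κ :=
    le_trans (CH_mono_cond h0 fun ω ν _ _ e => by
      rw [hZ] at e
      simp only [Prod.mk.injEq] at e ⊢
      tauto) h.n2
  have b6 := CH_subadd h0 N2 N1 (fun ω => ((sd ω, ((Xq ω, Uq ω), zw ω)), Z ω))
  have b7 := CH_chain h0 (fun ω => (N2 ω, N1 ω)) (fun ω => (sd ω, ((Xq ω, Uq ω), zw ω))) Z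
  linarith

/-- The digits of the target, given the far digits of the contact coordinates. -/
theorem mj2 (h : VSide p zw Rj Rx Ra R' y Xq Xp Uq Up sd N1 N2 Ye Fv κ) :
    MI p Rj N2 (fun ω => ((Xp ω, Up ω), (((Xq ω, Uq ω), N1 ω), (zw ω, (sd ω, y ω))))) ≤
      15 * κ := by
  have h0 := h.h0
  have hk := h.κ0
  obtain ⟨B, hB⟩ : ∃ B : Ω → _, B = fun ω => ((Xp ω, Up ω),
    (((Xq ω, Uq ω), N1 ω), (zw ω, (sd ω, y ω)))) := ⟨_, rfl⟩
  obtain ⟨C, hC⟩ : ∃ C : Ω → _, C = fun ω => (N1 ω, (sd ω, (Ye ω, (zw ω, y ω)))) := ⟨_, rfl⟩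
  obtain ⟨Z, hZ⟩ : ∃ Z : Ω → _, Z = fun ω => ((Xp ω, Up ω), (R' ω, y ω)) := ⟨_, rfl⟩
  have hn := h.nl
  have hnear := h.near
  rw [← hC, Pool.AVG71.MI_eq' h0] at hn
  rw [← hZ] at hnear
  rw [← hB, Pool.AVG71.MI_eq' h0]
  -- upper bound
  have u1 := CH_chain h0 N2 Ye B
  have u2 := CH_chain h0 Ye N2 B
  have u3 : CH p (fun ω => (N2 ω, Ye ω)) B = CH p (fun ω => (Ye ω, N2 ω)) B :=
    CH_congr h0 (fun ω ω' _ _ e => by
      simp only [Prod.mk.injEq] at e ⊢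
      tauto) (fun ω ω' _ _ e => by
      simp only [Prod.mk.injEq] at e ⊢
      tauto) (fun _ _ _ _ e => e) (fun _ _ _ _ e => e)
  have u4 : CH p N2 (fun ω => (Ye ω, B ω)) ≤ CH p N2 C := CH_mono_cond h0 fun ω ν _ _ e => by
    rw [hB] at e
    rw [hC]
    simp only [Prod.mk.injEq] at e ⊢
    tauto
  have u5 : CH p Ye B ≤ CH p Ye (fun ω => ((Xp ω, Up ω), (zw ω, y ω))) :=
    CH_mono_cond h0 fun ω ν _ _ e => by
      rw [hB] at e
      simp only [Prod.mk.injEq] at e ⊢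
      tauto
  have u6 := h.ye
  rw [← hZ] at u6
  have u7 := CH_ge h0 Ye (fun ω => ((N2 ω, N1 ω), (sd ω, ((Xq ω, Uq ω), zw ω)))) Z
  have u8 : CH p Ye (fun ω => (((N2 ω, N1 ω), (sd ω, ((Xq ω, Uq ω), zw ω))), Z ω)) ≤
      CH p Ye (fun ω => (N2 ω, B ω)) := CH_mono_cond h0 fun ω ν _ _ e => by
    rw [hZ] at e
    rw [hB]
    simp only [Prod.mk.injEq] at e ⊢
    tauto
  -- lower bound
  have l1 := CH_ge h0 N2 (fun ω => ((Xp ω, Up ω), (Xq ω, Uq ω))) (fun ω => (Rj ω, C ω))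
  have l2 : CH p N2 (fun ω => (((Xp ω, Up ω), (Xq ω, Uq ω)), (Rj ω, C ω))) ≤
      CH p N2 (fun ω => (Rj ω, B ω)) := CH_mono_cond h0 fun ω ν _ _ e => by
    rw [hC] at e
    rw [hB]
    simp only [Prod.mk.injEq] at e ⊢
    tauto
  have hCW : ∀ ω ν, (Rj ω, C ω) = (Rj ν, C ν) →
      (sd ω, (Ye ω, (zw ω, y ω))) = (sd ν, (Ye ν, (zw ν, y ν))) := by
    intro ω ν e
    rw [hC] at e
    simp only [Prod.mk.injEq] at e ⊢
    tauto
  have l3 : CH p (fun ω => ((Xp ω, Up ω), (Xq ω, Uq ω))) (fun ω => (Rj ω, C ω)) ≤ κ + κ := by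
    refine (CH_subadd h0 _ _ _).trans (add_le_add (le_trans (CH_mono_cond h0
      fun ω ν _ _ e => ?_) h.ep) (le_trans (CH_mono_cond h0 fun ω ν _ _ e => ?_) h.eq))
    · exact hCW ω ν e
    · exact hCW ω ν e
  linarith

/-- **The field `mj`.** -/
theorem mj (h : VSide p zw Rj Rx Ra R' y Xq Xp Uq Up sd N1 N2 Ye Fv κ) :
    MI p Rj (fun ω => ((Xp ω, Up ω), N2 ω))
      (fun ω => (((Xq ω, Uq ω), N1 ω), (zw ω, (sd ω, y ω)))) ≤ 43 * κ := by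
  rw [MI_chain_right h.h0]
  have h1 := h.mj1
  have h2 := h.mj2
  linarith

end VSide

/-- **The field `nl`**: `Vn`, `Vq`, `Vf` and `Nq`, `Nf`: digits of the side path and of the target over
the deep path, `N0`: a part of `sd` which the record at `j` knows. -/
theorem nl_side (h0 : ∀ ω, 0 ≤ p ω) (hk : 0 ≤ κ) {β ω₀ : Type} {W : Ω → β} {N0 : Ω → ω₀}
    {Vn : Ω → θ₁} {Vq : Ω → θ₂} {Vf : Ω → θ₃} {Nq : Ω → ν₃} {Nf : Ω → ν₄}
    (m1 : MI p Rj Vf (fun ω => (Vn ω, W ω)) ≤ κ)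
    (m2 : MI p Rj (fun ω => (Vf ω, Nf ω)) (fun ω => ((Vq ω, Nq ω), W ω)) ≤ κ)
    (s1 : CH p sd (fun ω => ((Vn ω, N0 ω), W ω)) ≤ κ)
    (s2 : CH p (fun ω => (Vn ω, N0 ω)) (fun ω => (sd ω, W ω)) ≤ κ)
    (s3 : CH p Vn (fun ω => (Vq ω, W ω)) ≤ κ)
    (s4 : CH p Vq (fun ω => (Vf ω, W ω)) ≤ κ)
    (o1 : CH p N0 (fun ω => (Rj ω, (Vn ω, W ω))) ≤ κ)
    (o2 : CH p N0 (fun ω => ((Vq ω, Nq ω), W ω)) ≤ κ)
    (g1 : CH p N1 (fun ω => (sd ω, (Rj ω, W ω))) ≤ κ)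
    (g2 : CH p N1 (fun ω => ((Vq ω, Nq ω), (sd ω, W ω))) ≤ κ)
    (g3 : CH p Nq (fun ω => ((Vq ω, N1 ω), (sd ω, W ω))) ≤ κ)
    (g4 : CH p N2 (fun ω => ((Vf ω, Nf ω), (sd ω, W ω))) ≤ κ) :
    MI p Rj N2 (fun ω => (N1 ω, (sd ω, W ω))) ≤ 15 * κ := by
  -- (i)
  have i1 := MI_le_add h0 Rj N2 (fun ω => (Vf ω, Nf ω)) (fun ω => (N1 ω, (sd ω, W ω)))
  have i2 : CH p N2 (fun ω => ((Vf ω, Nf ω), (N1 ω, (sd ω, W ω)))) ≤
      CH p N2 (fun ω => ((Vf ω, Nf ω), (sd ω, W ω))) := CH_mono_cond h0 fun ω ν _ _ e => by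
    simp only [Prod.mk.injEq] at e ⊢
    tauto
  -- (ii)
  have i3 := MI_le_right h0 Rj (fun ω => (Vf ω, Nf ω)) Vq (fun ω => (N1 ω, (sd ω, W ω)))
  have i4 := MI_chain_right h0 Rj Vq (fun ω => (Vf ω, Nf ω)) (fun ω => (N1 ω, (sd ω, W ω)))
  -- (iii)
  have i5 := MI_le_left h0 Rj Vq N1 (fun ω => (sd ω, W ω))
  have i6 := MI_le_add' h0 (fun ω => (N1 ω, Rj ω)) Rj Vq (fun ω => (sd ω, W ω))
  have i7 : CH p (fun ω => (N1 ω, Rj ω)) (fun ω => (Rj ω, (sd ω, W ω))) ≤ κ + 0 := by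
    refine (CH_subadd h0 N1 Rj _).trans (add_le_add (le_trans (CH_mono_cond h0 ?_) g1)
      (le_of_eq (CH_eq_zero h0 fun _ _ _ _ e => (Prod.ext_iff.mp e).1)))
    intro ω ν _ _ e
    simp only [Prod.mk.injEq] at e ⊢
    tauto
  -- (iv)
  have j1 : CH p (fun ω => (sd ω, W ω)) (fun ω => (N0 ω, (Vn ω, W ω))) ≤ κ + 0 := by
    refine (CH_subadd h0 sd W _).trans (add_le_add (le_trans (CH_mono_cond h0
      fun ω ν _ _ e => by
        simp only [Prod.mk.injEq] at e ⊢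
        tauto) s1) (le_of_eq (CH_eq_zero h0 fun ω ν _ _ e => by
        simp only [Prod.mk.injEq] at e
        exact e.2.2)))
  have j2 : CH p (fun ω => (N0 ω, (Vn ω, W ω))) (fun ω => (sd ω, W ω)) ≤ κ + 0 := by
    have a1 := CH_le_add h0 (fun ω => (N0 ω, (Vn ω, W ω))) (fun ω => ((Vn ω, N0 ω), W ω))
      (fun ω => (sd ω, W ω))
    rw [CH_eq_zero h0 (X := fun ω => (N0 ω, (Vn ω, W ω)))
      (W := fun ω => (((Vn ω, N0 ω), W ω), (sd ω, W ω))) (fun ω ν _ _ e => by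
      simp only [Prod.mk.injEq] at e ⊢
      tauto)] at a1
    have a2 : CH p (fun ω => ((Vn ω, N0 ω), W ω)) (fun ω => (sd ω, W ω)) ≤ κ + 0 :=
      (CH_subadd h0 _ W _).trans (add_le_add s2
        (le_of_eq (CH_eq_zero h0 fun _ _ _ _ e => (Prod.ext_iff.mp e).2)))
    linarith
  have j3 := MI_few h0 Rj Vq j1 j2
  have j4 := MI_le_left h0 Rj Vq N0 (fun ω => (Vn ω, W ω))
  have j5 := MI_le_add' h0 (fun ω => (N0 ω, Rj ω)) Rj Vq (fun ω => (Vn ω, W ω))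
  have j6 : CH p (fun ω => (N0 ω, Rj ω)) (fun ω => (Rj ω, (Vn ω, W ω))) ≤ κ + 0 := by
    refine (CH_subadd h0 N0 Rj _).trans (add_le_add o1
      (le_of_eq (CH_eq_zero h0 fun _ _ _ _ e => (Prod.ext_iff.mp e).1)))
  have j7 := MI_le_add h0 Rj Vq Vf (fun ω => (Vn ω, W ω))
  have j8 : CH p Vq (fun ω => (Vf ω, (Vn ω, W ω))) ≤ CH p Vq (fun ω => (Vf ω, W ω)) :=
    CH_mono_cond h0 fun ω ν _ _ e => by
      simp only [Prod.mk.injEq] at e ⊢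
      tauto
  -- (v)
  have r1 : CH p (fun ω => (Vn ω, N0 ω)) (fun ω => ((Vq ω, Nq ω), W ω)) ≤ κ + κ := by
    refine (CH_subadd h0 Vn N0 _).trans (add_le_add (le_trans (CH_mono_cond h0
      fun ω ν _ _ e => by
        simp only [Prod.mk.injEq] at e ⊢
        exact ⟨e.1.1, e.2⟩) s3) o2)
  have t1 : CH p sd (fun ω => ((Vq ω, Nq ω), W ω)) ≤ (κ + κ) + κ :=
    CH_tr h0 sd (A := fun ω => (Vn ω, N0 ω)) (W' := fun ω => ((Vn ω, N0 ω), W ω)) r1 s1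
      (fun ω ν _ _ e => by
        simp only [Prod.mk.injEq] at e ⊢
        tauto)
  have t2 : CH p N1 (fun ω => (sd ω, ((Vq ω, Nq ω), W ω))) ≤ κ := le_trans (CH_mono_cond h0
    fun ω ν _ _ e => by
      simp only [Prod.mk.injEq] at e ⊢
      tauto) g2
  have t3 : CH p (fun ω => (N1 ω, sd ω)) (fun ω => ((Vq ω, Nq ω), W ω)) ≤ 4 * κ := by
    rw [CH_chain h0 N1 sd]
    linarith
  have t4 : CH p (fun ω => (Vq ω, (N1 ω, (sd ω, W ω)))) (fun ω => ((Vq ω, Nq ω), W ω)) ≤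
      4 * κ := by
    have a1 := CH_le_add h0 (fun ω => (Vq ω, (N1 ω, (sd ω, W ω)))) (fun ω => (N1 ω, sd ω))
      (fun ω => ((Vq ω, Nq ω), W ω))
    rw [CH_eq_zero h0 (X := fun ω => (Vq ω, (N1 ω, (sd ω, W ω))))
      (W := fun ω => ((N1 ω, sd ω), ((Vq ω, Nq ω), W ω))) (fun ω ν _ _ e => by
      simp only [Prod.mk.injEq] at e ⊢
      tauto)] at a1
    linarith
  have t5 : CH p (fun ω => ((Vq ω, Nq ω), W ω)) (fun ω => (Vq ω, (N1 ω, (sd ω, W ω)))) ≤ κ := by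
    have a1 := CH_le_add h0 (fun ω => ((Vq ω, Nq ω), W ω)) Nq
      (fun ω => (Vq ω, (N1 ω, (sd ω, W ω))))
    rw [CH_eq_zero h0 (X := fun ω => ((Vq ω, Nq ω), W ω))
      (W := fun ω => (Nq ω, (Vq ω, (N1 ω, (sd ω, W ω))))) (fun ω ν _ _ e => by
      simp only [Prod.mk.injEq] at e ⊢
      tauto)] at a1
    have a2 : CH p Nq (fun ω => (Vq ω, (N1 ω, (sd ω, W ω)))) ≤
        CH p Nq (fun ω => ((Vq ω, N1 ω), (sd ω, W ω))) := CH_mono_cond h0 fun ω ν _ _ e => by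
      simp only [Prod.mk.injEq] at e ⊢
      tauto
    linarith
  have t6 := MI_few h0 Rj (fun ω => (Vf ω, Nf ω)) t4 t5
  linarith

/-- **The deep path**: exact positions `XJ` and deep velocities `Dl`. -/
theorem ye_of {ξ₅ ξ₆ : Type} {XJ : Ω → ξ₅} {Dl : Ω → ξ₆} {Gf : ℝ} (h0 : ∀ ω, 0 ≤ p ω)
    (zr : CH p zw R' ≤ 2 * κ) (px : CH p Xp (fun ω => (R' ω, y ω)) ≤ κ)
    (gj : CH p XJ (fun ω => (Xp ω, (zw ω, y ω))) ≤ Gf + κ)
    (gx : Gf - κ ≤ CH p XJ (fun ω => (Xp ω, (R' ω, y ω))))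
    (dN : CH p Dl (fun ω => (XJ ω, (zw ω, y ω))) ≤ CH p Dl (fun ω => (XJ ω, (R' ω, y ω))) + κ)
    (uD : CH p Up (fun ω => (Dl ω, (XJ ω, (zw ω, y ω)))) ≤ κ) :
    CH p (fun ω => (XJ ω, Dl ω)) (fun ω => ((Xp ω, Up ω), (zw ω, y ω))) ≤
      CH p (fun ω => (XJ ω, Dl ω)) (fun ω => ((Xp ω, Up ω), (R' ω, y ω))) + 7 * κ := by
  -- the pair with the far velocities, in both conditions
  have key : ∀ {δ : Type} (A : Ω → δ),
      CH p (fun ω => (XJ ω, Dl ω)) (fun ω => ((Xp ω, Up ω), (A ω, y ω))) +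
        CH p Up (fun ω => (Xp ω, (A ω, y ω))) =
      CH p XJ (fun ω => (Xp ω, (A ω, y ω))) + CH p Dl (fun ω => (XJ ω, (Xp ω, (A ω, y ω)))) +
        CH p Up (fun ω => ((XJ ω, Dl ω), (Xp ω, (A ω, y ω)))) := by
    intro δ A
    have c1 := CH_chain h0 (fun ω => (XJ ω, Dl ω)) Up (fun ω => (Xp ω, (A ω, y ω)))
    have c2 := CH_chain h0 Up (fun ω => (XJ ω, Dl ω)) (fun ω => (Xp ω, (A ω, y ω)))
    have c3 : CH p (fun ω => ((XJ ω, Dl ω), Up ω)) (fun ω => (Xp ω, (A ω, y ω))) =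
        CH p (fun ω => (Up ω, (XJ ω, Dl ω))) (fun ω => (Xp ω, (A ω, y ω))) :=
      CH_congr h0 (fun ω ω' _ _ e => by
        simp only [Prod.mk.injEq] at e ⊢
        tauto) (fun ω ω' _ _ e => by
        simp only [Prod.mk.injEq] at e ⊢
        tauto) (fun _ _ _ _ e => e) (fun _ _ _ _ e => e)
    have c4 := CH_chain h0 Dl XJ (fun ω => (Xp ω, (A ω, y ω)))
    have c5 : CH p (fun ω => (XJ ω, Dl ω)) (fun ω => (Xp ω, (A ω, y ω))) =
        CH p (fun ω => (Dl ω, XJ ω)) (fun ω => (Xp ω, (A ω, y ω))) :=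
      CH_congr h0 (fun ω ω' _ _ e => by
        simp only [Prod.mk.injEq] at e ⊢
        tauto) (fun ω ω' _ _ e => by
        simp only [Prod.mk.injEq] at e ⊢
        tauto) (fun _ _ _ _ e => e) (fun _ _ _ _ e => e)
    have c6 : CH p (fun ω => (XJ ω, Dl ω)) (fun ω => (Up ω, (Xp ω, (A ω, y ω)))) =
        CH p (fun ω => (XJ ω, Dl ω)) (fun ω => ((Xp ω, Up ω), (A ω, y ω))) :=
      CH_congr h0 (fun ω ω' _ _ e => by
        simp only [Prod.mk.injEq] at e ⊢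
        tauto) (fun ω ω' _ _ e => by
        simp only [Prod.mk.injEq] at e ⊢
        tauto) (fun ω ω' _ _ e => by
        simp only [Prod.mk.injEq] at e ⊢
        tauto) (fun ω ω' _ _ e => by
        simp only [Prod.mk.injEq] at e ⊢
        tauto)
    linarith
  have k1 := key zw
  have k2 := key R'
  have a1 : CH p Dl (fun ω => (XJ ω, (Xp ω, (zw ω, y ω)))) ≤ CH p Dl (fun ω => (XJ ω, (zw ω, y ω))) :=
    CH_mono_cond h0 fun ω ν _ _ e => by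
      simp only [Prod.mk.injEq] at e ⊢
      tauto
  have a2 : CH p Up (fun ω => ((XJ ω, Dl ω), (Xp ω, (zw ω, y ω)))) ≤
      CH p Up (fun ω => (Dl ω, (XJ ω, (zw ω, y ω)))) := CH_mono_cond h0 fun ω ν _ _ e => by
    simp only [Prod.mk.injEq] at e ⊢
    tauto
  have b1 := CH_ge h0 Dl Xp (fun ω => (XJ ω, (R' ω, y ω)))
  have b2 : CH p Dl (fun ω => (Xp ω, (XJ ω, (R' ω, y ω)))) ≤
      CH p Dl (fun ω => (XJ ω, (Xp ω, (R' ω, y ω)))) := CH_mono_cond h0 fun ω ν _ _ e => by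
    simp only [Prod.mk.injEq] at e ⊢
    tauto
  have b3 : CH p Xp (fun ω => (XJ ω, (R' ω, y ω))) ≤ κ := le_trans (CH_mono_cond h0
    fun ω ν _ _ e => (Prod.ext_iff.mp e).2) px
  have b4 := CH_nonneg h0 Up (fun ω => ((XJ ω, Dl ω), (Xp ω, (R' ω, y ω))))
  have b5 : CH p Up (fun ω => (Xp ω, (R' ω, y ω))) ≤
      2 * κ + CH p Up (fun ω => (Xp ω, (zw ω, y ω))) :=
    CH_tr h0 Up (A := zw) (W' := fun ω => (Xp ω, (zw ω, y ω))) (le_trans (CH_mono_cond h0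
      fun ω ν _ _ e => by
        simp only [Prod.mk.injEq] at e
        exact e.2.1) zr) le_rfl (fun ω ω' _ _ e => by
        simp only [Prod.mk.injEq] at e ⊢
        tauto)
  linarith

/-- **The inputs from `VLaw2`** at the record `Ra`, with deep velocities `Dl`. -/
theorem VSide.of_V2 {ξ₅ ξ₆ ν₅ ν₆ ρ₅ : Type} {XJ : Ω → ξ₅} {Dl : Ω → ξ₆} {Gf : ℝ} {M1 : Ω → ν₅}
    {M2 : Ω → ν₆} {Rk : Ω → ρ₅} (h : VLaw2 p zw Rk Ra R' y Xq Xp Uq Up M1 M2 XJ Fv Gf κ)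
    (zj : CH p zw Rj ≤ κ) (ja : CH p Rj Ra ≤ κ) (xa : CH p Rx Ra ≤ κ)
    (sa : CH p sd (fun ω => ((Xq ω, Uq ω), (Ra ω, y ω))) ≤ κ)
    (n1 : CH p N1 (fun ω => ((Xq ω, Uq ω), (sd ω, (Ra ω, y ω)))) ≤ κ)
    (n2 : CH p N2 (fun ω => ((Xp ω, Up ω), (sd ω, (R' ω, y ω)))) ≤ κ)
    (dN : CH p Dl (fun ω => (XJ ω, (zw ω, y ω))) ≤ CH p Dl (fun ω => (XJ ω, (R' ω, y ω))) + κ)
    (uD : CH p Up (fun ω => (Dl ω, (XJ ω, (zw ω, y ω)))) ≤ κ)
    (nl : MI p Rj N2 (fun ω => (N1 ω, (sd ω, ((XJ ω, Dl ω), (zw ω, y ω))))) ≤ κ) :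
    VSide p zw Rj Rx Ra R' y Xq Xp Uq Up sd N1 N2 (fun ω => (XJ ω, Dl ω)) Fv (7 * κ) := by
  have h0 := h.h0
  have hk := h.κ0
  have zr : CH p zw R' ≤ 2 * κ := by
    have := CH_tr h0 zw (A := Ra) (W := R') (W' := Ra) h.xr h.zx fun _ _ _ _ e =>
      (Prod.ext_iff.mp e).1
    linarith
  have q1 : CH p Up (fun ω => ((XJ ω, Dl ω), (zw ω, y ω))) ≤ κ := le_trans (CH_mono_cond h0
    fun ω ν _ _ e => by
      simp only [Prod.mk.injEq] at e ⊢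
      tauto) uD
  have q2 : CH p Xp (fun ω => ((XJ ω, Dl ω), (zw ω, y ω))) ≤ κ := le_trans (CH_mono_cond h0
    fun ω ν _ _ e => by
      simp only [Prod.mk.injEq] at e ⊢
      tauto) h.jp
  have q3 : CH p Uq (fun ω => ((XJ ω, Dl ω), (zw ω, y ω))) ≤ κ + κ :=
    CH_tr h0 Uq (A := Up) (W' := Up) q1 h.uq fun _ _ _ _ e => (Prod.ext_iff.mp e).1
  have q4 : CH p Xq (fun ω => ((XJ ω, Dl ω), (zw ω, y ω))) ≤ κ + κ :=
    CH_tr h0 Xq (A := Xp) (W' := fun ω => (Xp ω, (zw ω, y ω))) q2 h.qp fun ω ν _ _ e => by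
      simp only [Prod.mk.injEq] at e ⊢
      tauto
  have q5 := CH_subadd h0 Xp Up (fun ω => ((XJ ω, Dl ω), (zw ω, y ω)))
  have q6 := CH_subadd h0 Xq Uq (fun ω => ((XJ ω, Dl ω), (zw ω, y ω)))
  have q7 := ye_of h0 zr h.px h.gj h.gx dN uD
  have v1 := h.zx
  have v2 := h.xr
  have v3 := h.uq
  have v4 := h.fr
  have v5 := h.fx
  have v6 := h.cn
  have v7 := h.qp
  have v8 := h.px
  have w1 : CH p (fun ω => (Xp ω, Up ω)) (fun ω => (sd ω, ((XJ ω, Dl ω), (zw ω, y ω)))) ≤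
      CH p (fun ω => (Xp ω, Up ω)) (fun ω => ((XJ ω, Dl ω), (zw ω, y ω))) :=
    CH_mono_cond h0 fun _ _ _ _ e => (Prod.ext_iff.mp e).2
  have w2 : CH p (fun ω => (Xq ω, Uq ω)) (fun ω => (sd ω, ((XJ ω, Dl ω), (zw ω, y ω)))) ≤
      CH p (fun ω => (Xq ω, Uq ω)) (fun ω => ((XJ ω, Dl ω), (zw ω, y ω))) :=
    CH_mono_cond h0 fun _ _ _ _ e => (Prod.ext_iff.mp e).2
  exact ⟨h0, by linarith, by linarith, by linarith, by linarith, by linarith, by linarith,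
    by linarith, by linarith, by linarith, by linarith, by linarith, by linarith, by linarith,
    by linarith, by linarith, by linarith, by linarith, by linarith, by linarith⟩

/-- A larger error. -/
theorem VSide.mono {κ' : ℝ}
    (h : VSide p zw Rj Rx Ra R' y Xq Xp Uq Up sd N1 N2 Ye Fv κ) (hk : κ ≤ κ') :
    VSide p zw Rj Rx Ra R' y Xq Xp Uq Up sd N1 N2 Ye Fv κ' := by
  obtain ⟨a1, a2, a3, a4, a5, a6, a7, a8, a9, b1, b2, b3, b4, b5, b6, b7, b8, b9, c1, c2⟩ := h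
  exact ⟨a1, by linarith, by linarith, by linarith, by linarith, by linarith, by linarith,
    by linarith, by linarith, by linarith, by linarith, by linarith, by linarith, by linarith,
    by linarith, by linarith, by linarith, by linarith, by linarith, by linarith⟩

/-- **The rows** of the target with a side path: `E` the exact positions of all the other
coordinates, `V` the near digits of the contact coordinates, `n1`, `n2` digits of the height of the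
target over the exact positions. -/
theorem row_side (h0 : ∀ ω, 0 ≤ p ω) {ε₁ ε₂ ε₃ ε₄ : Type} {E : Ω → ε₁} {V : Ω → ε₂} {n1 : Ω → ε₃}
    {n2 : Ω → ε₄} {R₀ e : ℝ}
    (hr : CH p n2 (fun ω => (n1 ω, (E ω, (zw ω, y ω)))) ≤ R₀)
    (h1 : CH p n1 (fun ω => (N1 ω, (E ω, (sd ω, (zw ω, y ω))))) ≤ e)
    (h2 : CH p N2 (fun ω => (n2 ω, (E ω, (sd ω, (zw ω, y ω))))) ≤ e)
    (hE : CH p E (fun ω => (V ω, (sd ω, (zw ω, y ω)))) ≤
      CH p E (fun ω => (V ω, (sd ω, (R' ω, y ω)))) + e)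
    (h3 : CH p (fun ω => (N2 ω, (N1 ω, zw ω))) (fun ω => (V ω, (sd ω, (R' ω, y ω)))) ≤ e) :
    CH p N2 (fun ω => (N1 ω, (V ω, (sd ω, (zw ω, y ω))))) ≤ R₀ + 4 * e := by
  obtain ⟨B, hB⟩ : ∃ B : Ω → _, B = fun ω => (N1 ω, (V ω, (sd ω, (zw ω, y ω)))) := ⟨_, rfl⟩
  obtain ⟨Z, hZ⟩ : ∃ Z : Ω → _, Z = fun ω => (V ω, (sd ω, (R' ω, y ω))) := ⟨_, rfl⟩
  rw [← hZ] at hE h3
  rw [← hB]
  have u1 := CH_chain h0 N2 E B
  have u2 := CH_chain h0 E N2 B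
  have u3 : CH p (fun ω => (N2 ω, E ω)) B = CH p (fun ω => (E ω, N2 ω)) B :=
    CH_congr h0 (fun ω ω' _ _ e => by
      simp only [Prod.mk.injEq] at e ⊢
      tauto) (fun ω ω' _ _ e => by
      simp only [Prod.mk.injEq] at e ⊢
      tauto) (fun _ _ _ _ e => e) (fun _ _ _ _ e => e)
  have u4 : CH p E B ≤ CH p E (fun ω => (V ω, (sd ω, (zw ω, y ω)))) :=
    CH_mono_cond h0 fun ω ν _ _ e => by
      rw [hB] at e
      exact (Prod.ext_iff.mp e).2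
  have u5 := CH_ge h0 E (fun ω => (N2 ω, (N1 ω, zw ω))) Z
  have u6 : CH p E (fun ω => ((N2 ω, (N1 ω, zw ω)), Z ω)) ≤ CH p E (fun ω => (N2 ω, B ω)) :=
    CH_mono_cond h0 fun ω ν _ _ e => by
      rw [hZ] at e
      rw [hB]
      simp only [Prod.mk.injEq] at e ⊢
      tauto
  -- the rows over the exact positions
  have v1 := CH_le_add h0 N2 n2 (fun ω => (E ω, B ω))
  have v2 : CH p N2 (fun ω => (n2 ω, (E ω, B ω))) ≤
      CH p N2 (fun ω => (n2 ω, (E ω, (sd ω, (zw ω, y ω))))) := CH_mono_cond h0 fun ω ν _ _ e => by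
    rw [hB] at e
    simp only [Prod.mk.injEq] at e ⊢
    tauto
  have v3 : CH p n2 (fun ω => (E ω, B ω)) ≤ e + R₀ := CH_tr h0 n2 (A := n1)
    (W' := fun ω => (n1 ω, (E ω, (zw ω, y ω)))) (le_trans (CH_mono_cond h0 fun ω ν _ _ e => by
      rw [hB] at e
      simp only [Prod.mk.injEq] at e ⊢
      tauto) h1) hr fun ω ν _ _ e => by
      rw [hB] at e
      simp only [Prod.mk.injEq] at e ⊢
      tauto
  linarith

end

end Pool.V0S
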