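import Pool.Agent.H87.V0S.Law

/-!
# The contact coordinates alone, and an alive code of the side path

`VB`: the inputs of the contact coordinates: `zw`, `Ra`, `R'` records, `Xq`, `Xp`, `Uq`, `Up` near and
far positions and velocities, `Ye` a deep path. `VB.side`: `VSide` from the data of the side path and
of the target. `VB.side_a`: the same with a code `Al` of the side path which is alive given the record
`Ra` and the near digits of the contact coordinates, but which no record sees. `Out`: the mutual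
informations of the event theorem; `VSide.out`, `VSide.out_a`.
-/

set_option autoImplicit false

namespace Pool.V0S

open Finset Real
open Pool.Agent.H49.Ent Pool.Agent.H32.Dense Pool.STK Pool.M5 Pool.PRM
open Pool.KVA (MI)
open Pool.V0F (VLaw2 CH_ge CH_tr)
open Pool.AVG57 (CH_pair_ctx MI_few)

section

variable {Ω : Type} [Fintype Ω] {p : Ω → ℝ}

variable {ζ ρ₁ ρ₂ ρ₃ ρ₄ υ ξ₁ ξ₂ ξ₃ ξ₄ σ ν₁ ν₂ η α : Type} {zw : Ω → ζ} {Rj : Ω → ρ₁}
  {Rx : Ω → ρ₂} {Ra : Ω → ρ₃} {R' : Ω → ρ₄} {y : Ω → υ} {Xq : Ω → ξ₁} {Xp : Ω → ξ₂} {Uq : Ω → ξ₃}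
  {Up : Ω → ξ₄} {sd : Ω → σ} {N1 : Ω → ν₁} {N2 : Ω → ν₂} {Ye : Ω → η} {Al : Ω → α} {Fv κ : ℝ}

/-- **The contact coordinates.** -/
structure VB (p : Ω → ℝ) (zw : Ω → ζ) (Ra : Ω → ρ₃) (R' : Ω → ρ₄) (y : Ω → υ) (Xq : Ω → ξ₁)
    (Xp : Ω → ξ₂) (Uq : Ω → ξ₃) (Up : Ω → ξ₄) (Ye : Ω → η) (Fv κ : ℝ) : Prop where
  h0 : ∀ ω, 0 ≤ p ω
  κ0 : 0 ≤ κ
  za : CH p zw Ra ≤ κ
  ar : CH p Ra R' ≤ κ
  uq : CH p Uq Up ≤ κ
  fr : CH p Up (fun ω => (zw ω, y ω)) ≤ CH p Up (fun ω => (R' ω, y ω)) + κ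
  fa : Fv - κ ≤ CH p Xp (fun ω => (Xq ω, (Ra ω, y ω)))
  cn : CH p Xp (fun ω => (Xq ω, (zw ω, y ω))) ≤ Fv + κ
  qp : CH p Xq (fun ω => (Xp ω, (zw ω, y ω))) ≤ κ
  px : CH p Xp (fun ω => (R' ω, y ω)) ≤ κ
  ye : CH p Ye (fun ω => ((Xp ω, Up ω), (zw ω, y ω))) ≤
    CH p Ye (fun ω => ((Xp ω, Up ω), (R' ω, y ω))) + κ
  ep : CH p (fun ω => (Xp ω, Up ω)) (fun ω => (Ye ω, (zw ω, y ω))) ≤ κ
  eq : CH p (fun ω => (Xq ω, Uq ω)) (fun ω => (Ye ω, (zw ω, y ω))) ≤ κ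

/-- **The mutual informations of the event theorem.** -/
structure Out (p : Ω → ℝ) (zw : Ω → ζ) (Rj : Ω → ρ₁) (Rx : Ω → ρ₂) (y : Ω → υ)
    (Xq : Ω → ξ₁) (Xp : Ω → ξ₂) (Uq : Ω → ξ₃) (Up : Ω → ξ₄) (sd : Ω → σ) (N1 : Ω → ν₁)
    (N2 : Ω → ν₂) (κ : ℝ) : Prop where
  mj : MI p Rj (fun ω => ((Xp ω, Up ω), N2 ω))
    (fun ω => (((Xq ω, Uq ω), N1 ω), (zw ω, (sd ω, y ω)))) ≤ κ
  mx : MI p Rx (fun ω => (Xp ω, Up ω)) (fun ω => ((Xq ω, Uq ω), (zw ω, (sd ω, y ω)))) ≤ κ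

namespace VB

/-- The inputs with the side path. -/
theorem side (h : VB p zw Ra R' y Xq Xp Uq Up Ye Fv κ) (zj : CH p zw Rj ≤ κ)
    (ja : CH p Rj Ra ≤ κ) (xa : CH p Rx Ra ≤ κ)
    (sa : CH p sd (fun ω => ((Xq ω, Uq ω), (Ra ω, y ω))) ≤ κ)
    (n1 : CH p N1 (fun ω => ((Xq ω, Uq ω), (sd ω, (Ra ω, y ω)))) ≤ κ)
    (n2 : CH p N2 (fun ω => ((Xp ω, Up ω), (sd ω, (R' ω, y ω)))) ≤ κ)
    (nl : MI p Rj N2 (fun ω => (N1 ω, (sd ω, (Ye ω, (zw ω, y ω))))) ≤ κ) :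
    VSide p zw Rj Rx Ra R' y Xq Xp Uq Up sd N1 N2 Ye Fv κ :=
  ⟨h.h0, h.κ0, zj, ja, xa, h.za, h.ar, h.uq, h.fr, h.fa, h.cn, h.qp, h.px, sa, n1, n2, h.ye,
    le_trans (CH_mono_cond h.h0 fun _ _ _ _ e => (Prod.ext_iff.mp e).2) h.ep,
    le_trans (CH_mono_cond h.h0 fun _ _ _ _ e => (Prod.ext_iff.mp e).2) h.eq, nl⟩

/-- The first record is few bits given the last one. -/
theorem zr (h : VB p zw Ra R' y Xq Xp Uq Up Ye Fv κ) : CH p zw R' ≤ κ + κ :=
  CH_tr h.h0 zw (A := Ra) (W := R') (W' := Ra) h.ar h.za fun _ _ _ _ e => (Prod.ext_iff.mp e).1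

/-- A larger error. -/
theorem mono {κ' : ℝ} (h : VB p zw Ra R' y Xq Xp Uq Up Ye Fv κ) (hk : κ ≤ κ') :
    VB p zw Ra R' y Xq Xp Uq Up Ye Fv κ' := by
  obtain ⟨a1, a2, a3, a4, a5, a6, a7, a8, a9, b1, b2, b3, b4⟩ := h
  exact ⟨a1, by linarith, by linarith, by linarith, by linarith, by linarith, by linarith,
    by linarith, by linarith, by linarith, by linarith, by linarith, by linarith⟩

/-- **The inputs with a side path which has an alive code** `Al`, a part of `sd`. -/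
theorem side_a (h : VB p zw Ra R' y Xq Xp Uq Up Ye Fv κ) (zj : CH p zw Rj ≤ κ)
    (ja : CH p Rj Ra ≤ κ) (xa : CH p Rx Ra ≤ κ)
    (a1 : CH p Al (fun ω => ((Xq ω, Up ω), (zw ω, y ω))) ≤
      CH p Al (fun ω => ((Xp ω, Up ω), (R' ω, y ω))) + κ)
    (a2 : CH p Al (fun ω => (Ye ω, (zw ω, y ω))) ≤ CH p Al (fun ω => (Ye ω, (R' ω, y ω))) + κ)
    (as : CH p Al (fun ω => (sd ω, (zw ω, y ω))) ≤ κ)
    (sa : CH p sd (fun ω => ((Xq ω, (Uq ω, Al ω)), (Ra ω, y ω))) ≤ κ)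
    (n1 : CH p N1 (fun ω => ((Xq ω, Uq ω), (sd ω, (Ra ω, y ω)))) ≤ κ)
    (n2 : CH p N2 (fun ω => ((Xp ω, Up ω), (sd ω, (R' ω, y ω)))) ≤ κ)
    (nl : MI p Rj N2 (fun ω => (N1 ω, (sd ω, (Ye ω, (zw ω, y ω))))) ≤ κ) :
    VSide p zw Rj Rx Ra R' (fun ω => (Xq ω, y ω)) Xq Xp (fun ω => (Uq ω, Al ω))
      (fun ω => (Up ω, Al ω)) sd N1 N2 Ye Fv (15 * κ) := by
  have h0 := h.h0
  have hk := h.κ0
  have zr := h.zr
  -- the near positions given the far ones and the last record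
  have xr : ∀ {δ : Type} (Z : Ω → δ), Det p Z (fun ω => (Xp ω, (R' ω, y ω))) →
      CH p Xq Z ≤ (κ + κ) + κ := fun Z hZ => CH_tr h0 Xq (A := zw)
    (W' := fun ω => (Xp ω, (zw ω, y ω))) (le_trans (CH_mono_cond h0 fun ω ν a b e =>
      (Prod.ext_iff.mp (Prod.ext_iff.mp (hZ ω ν a b e)).2).1) zr) h.qp fun ω ν a b e => by
      have e1 := hZ ω ν a b (Prod.ext_iff.mp e).2
      simp only [Prod.mk.injEq] at e e1 ⊢
      exact ⟨e1.1, e.1, e1.2.2⟩
  have hq' : CH p Xq (fun ω => (R' ω, y ω)) ≤ κ + ((κ + κ) + κ) :=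
    CH_tr h0 Xq (A := Xp) (W' := fun ω => (Xp ω, (R' ω, y ω))) h.px
      (xr _ fun _ _ _ _ e => e) fun ω ν _ _ e => e
  refine ⟨h0, by linarith, by linarith, by linarith, by linarith, by linarith [h.za],
    by linarith [h.ar], ?_, ?_, ?_, ?_, ?_, ?_, ?_, ?_, ?_, ?_, ?_, ?_, ?_⟩
  · -- uq
    refine (CH_subadd h0 Uq Al _).trans ?_
    have b1 : CH p Uq (fun ω => (Up ω, Al ω)) ≤ CH p Uq Up := CH_mono_cond h0
      fun _ _ _ _ e => (Prod.ext_iff.mp e).1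
    have b2 : CH p Al (fun ω => (Up ω, Al ω)) = 0 := CH_eq_zero h0
      fun _ _ _ _ e => (Prod.ext_iff.mp e).2
    have := h.uq
    linarith
  · -- fr
    have c1 : CH p (fun ω => (Up ω, Al ω)) (fun ω => (zw ω, (Xq ω, y ω))) ≤
        CH p Up (fun ω => (zw ω, y ω)) + CH p Al (fun ω => ((Xq ω, Up ω), (zw ω, y ω))) := by
      have d1 := Pool.OWN68.CH_chain2 h0 Up Al (fun ω => (zw ω, (Xq ω, y ω)))
      have d2 : CH p Up (fun ω => (zw ω, (Xq ω, y ω))) ≤ CH p Up (fun ω => (zw ω, y ω)) :=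
        CH_mono_cond h0 fun ω ν _ _ e => by
          simp only [Prod.mk.injEq] at e ⊢
          tauto
      have d3 : CH p Al (fun ω => (Up ω, (zw ω, (Xq ω, y ω)))) ≤
          CH p Al (fun ω => ((Xq ω, Up ω), (zw ω, y ω))) := CH_mono_cond h0 fun ω ν _ _ e => by
        simp only [Prod.mk.injEq] at e ⊢
        tauto
      linarith
    have c2 : CH p Up (fun ω => (R' ω, y ω)) + CH p Al (fun ω => ((Xp ω, Up ω), (R' ω, y ω))) ≤
        CH p (fun ω => (Up ω, Al ω)) (fun ω => (R' ω, (Xq ω, y ω))) + 7 * κ := by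
      have d1 := Pool.OWN68.CH_chain2 h0 Up Al (fun ω => (R' ω, (Xq ω, y ω)))
      have d2 := CH_ge h0 Up Xq (fun ω => (R' ω, y ω))
      have d3 : CH p Up (fun ω => (Xq ω, (R' ω, y ω))) ≤ CH p Up (fun ω => (R' ω, (Xq ω, y ω))) :=
        CH_mono_cond h0 fun ω ν _ _ e => by
          simp only [Prod.mk.injEq] at e ⊢
          tauto
      have d4 := CH_ge h0 Al Xq (fun ω => ((Xp ω, Up ω), (R' ω, y ω)))
      have d5 := xr (fun ω => ((Xp ω, Up ω), (R' ω, y ω))) fun ω ν _ _ e => by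
        simp only [Prod.mk.injEq] at e ⊢
        tauto
      have d6 : CH p Al (fun ω => (Xq ω, ((Xp ω, Up ω), (R' ω, y ω)))) ≤
          CH p Al (fun ω => (Up ω, (R' ω, (Xq ω, y ω)))) := CH_mono_cond h0 fun ω ν _ _ e => by
        simp only [Prod.mk.injEq] at e ⊢
        tauto
      linarith
    have := h.fr
    linarith
  · -- fa
    have c1 : CH p Xp (fun ω => (Xq ω, (Ra ω, y ω))) ≤
        CH p Xp (fun ω => (Xq ω, (Ra ω, (Xq ω, y ω)))) := CH_mono_cond h0 fun ω ν _ _ e => by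
      simp only [Prod.mk.injEq] at e ⊢
      tauto
    have := h.fa
    linarith
  · -- cn
    have c1 : CH p Xp (fun ω => (Xq ω, (zw ω, (Xq ω, y ω)))) ≤
        CH p Xp (fun ω => (Xq ω, (zw ω, y ω))) := CH_mono_cond h0 fun ω ν _ _ e => by
      simp only [Prod.mk.injEq] at e ⊢
      tauto
    have := h.cn
    linarith
  · -- qp
    rw [CH_eq_zero h0 fun ω ν _ _ e => by
      simp only [Prod.mk.injEq] at e
      exact e.2.2.1]
    linarith
  · -- px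
    have c1 : CH p Xp (fun ω => (R' ω, (Xq ω, y ω))) ≤ CH p Xp (fun ω => (R' ω, y ω)) :=
      CH_mono_cond h0 fun ω ν _ _ e => by
        simp only [Prod.mk.injEq] at e ⊢
        tauto
    have := h.px
    linarith
  · -- sa
    have c1 : CH p sd (fun ω => ((Xq ω, (Uq ω, Al ω)), (Ra ω, (Xq ω, y ω)))) ≤
        CH p sd (fun ω => ((Xq ω, (Uq ω, Al ω)), (Ra ω, y ω))) := CH_mono_cond h0
      fun ω ν _ _ e => by
        simp only [Prod.mk.injEq] at e ⊢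
        tauto
    linarith
  · -- n1
    have c1 : CH p N1 (fun ω => ((Xq ω, (Uq ω, Al ω)), (sd ω, (Ra ω, (Xq ω, y ω))))) ≤
        CH p N1 (fun ω => ((Xq ω, Uq ω), (sd ω, (Ra ω, y ω)))) := CH_mono_cond h0
      fun ω ν _ _ e => by
        simp only [Prod.mk.injEq] at e ⊢
        tauto
    linarith
  · -- n2
    have c1 : CH p N2 (fun ω => ((Xp ω, (Up ω, Al ω)), (sd ω, (R' ω, (Xq ω, y ω))))) ≤
        CH p N2 (fun ω => ((Xp ω, Up ω), (sd ω, (R' ω, y ω)))) := CH_mono_cond h0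
      fun ω ν _ _ e => by
        simp only [Prod.mk.injEq] at e ⊢
        tauto
    linarith
  · -- ye
    have c1 : CH p Ye (fun ω => ((Xp ω, (Up ω, Al ω)), (zw ω, (Xq ω, y ω)))) ≤
        CH p Ye (fun ω => (Al ω, ((Xp ω, Up ω), (zw ω, y ω)))) := CH_mono_cond h0
      fun ω ν _ _ e => by
        simp only [Prod.mk.injEq] at e ⊢
        tauto
    -- exchange
    have ex : ∀ {δ : Type} (Z : Ω → δ), CH p Ye Z + CH p Al (fun ω => (Ye ω, Z ω)) =
        CH p Al Z + CH p Ye (fun ω => (Al ω, Z ω)) := fun Z => by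
      have d1 := Pool.OWN68.CH_chain2 h0 Ye Al Z
      have d2 := Pool.OWN68.CH_chain2 h0 Al Ye Z
      have d3 : CH p (fun ω => (Ye ω, Al ω)) Z = CH p (fun ω => (Al ω, Ye ω)) Z :=
        CH_congr h0 (fun ω ω' _ _ e => by
          simp only [Prod.mk.injEq] at e ⊢
          tauto) (fun ω ω' _ _ e => by
          simp only [Prod.mk.injEq] at e ⊢
          tauto) (fun _ _ _ _ e => e) (fun _ _ _ _ e => e)
      linarith
    have x1 := ex (fun ω => ((Xp ω, Up ω), (zw ω, y ω)))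
    have x2 := ex (fun ω => ((Xp ω, Up ω), (R' ω, y ω)))
    have c2 : CH p Al (fun ω => (Ye ω, ((Xp ω, Up ω), (zw ω, y ω)))) ≤
        CH p Al (fun ω => (Ye ω, (zw ω, y ω))) := CH_mono_cond h0 fun ω ν _ _ e => by
      simp only [Prod.mk.injEq] at e ⊢
      tauto
    have c3 := CH_ge h0 Al (fun ω => (Xp ω, Up ω)) (fun ω => (Ye ω, (R' ω, y ω)))
    have c4 : CH p (fun ω => (Xp ω, Up ω)) (fun ω => (Ye ω, (R' ω, y ω))) ≤ (κ + κ) + κ :=
      CH_tr h0 _ (A := zw) (W' := fun ω => (Ye ω, (zw ω, y ω))) (le_trans (CH_mono_cond h0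
        fun ω ν _ _ e => (Prod.ext_iff.mp (Prod.ext_iff.mp e).2).1) zr) h.ep fun ω ν _ _ e => by
        simp only [Prod.mk.injEq] at e ⊢
        tauto
    have c5 : CH p Al (fun ω => ((Xp ω, Up ω), (Ye ω, (R' ω, y ω)))) ≤
        CH p Al (fun ω => (Ye ω, ((Xp ω, Up ω), (R' ω, y ω)))) := CH_mono_cond h0
      fun ω ν _ _ e => by
        simp only [Prod.mk.injEq] at e ⊢
        tauto
    have c6 : CH p Al (fun ω => ((Xp ω, Up ω), (R' ω, y ω))) ≤
        (κ + κ) + CH p Al (fun ω => ((Xp ω, Up ω), (zw ω, y ω))) :=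
      CH_tr h0 Al (A := zw) (W' := fun ω => ((Xp ω, Up ω), (zw ω, y ω)))
        (le_trans (CH_mono_cond h0 fun ω ν _ _ e => (Prod.ext_iff.mp
          (Prod.ext_iff.mp e).2).1) zr) le_rfl fun ω ν _ _ e => by
        simp only [Prod.mk.injEq] at e ⊢
        tauto
    have c7 := CH_ge h0 Ye Xq (fun ω => (Al ω, ((Xp ω, Up ω), (R' ω, y ω))))
    have c8 := xr (fun ω => (Al ω, ((Xp ω, Up ω), (R' ω, y ω)))) fun ω ν _ _ e => by
      simp only [Prod.mk.injEq] at e ⊢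
      tauto
    have c9 : CH p Ye (fun ω => (Xq ω, (Al ω, ((Xp ω, Up ω), (R' ω, y ω))))) ≤
        CH p Ye (fun ω => ((Xp ω, (Up ω, Al ω)), (R' ω, (Xq ω, y ω)))) := CH_mono_cond h0
      fun ω ν _ _ e => by
        simp only [Prod.mk.injEq] at e ⊢
        tauto
    have := h.ye
    linarith
  · -- ep
    have d1 : CH p (fun ω => (Xp ω, (Up ω, Al ω))) (fun ω => (sd ω, (Ye ω, (zw ω, (Xq ω, y ω))))) ≤
        CH p (fun ω => ((Xp ω, Up ω), Al ω)) (fun ω => (sd ω, (Ye ω, (zw ω, (Xq ω, y ω))))) :=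
      CH_mono_left h0 fun ω ν _ _ e => by
        simp only [Prod.mk.injEq] at e ⊢
        tauto
    have d2 := CH_subadd h0 (fun ω => (Xp ω, Up ω)) Al
      (fun ω => (sd ω, (Ye ω, (zw ω, (Xq ω, y ω)))))
    have d3 : CH p (fun ω => (Xp ω, Up ω)) (fun ω => (sd ω, (Ye ω, (zw ω, (Xq ω, y ω))))) ≤
        CH p (fun ω => (Xp ω, Up ω)) (fun ω => (Ye ω, (zw ω, y ω))) := CH_mono_cond h0
      fun ω ν _ _ e => by
        simp only [Prod.mk.injEq] at e ⊢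
        tauto
    have d4 : CH p Al (fun ω => (sd ω, (Ye ω, (zw ω, (Xq ω, y ω))))) ≤
        CH p Al (fun ω => (sd ω, (zw ω, y ω))) := CH_mono_cond h0 fun ω ν _ _ e => by
      simp only [Prod.mk.injEq] at e ⊢
      tauto
    have := h.ep
    linarith
  · -- eq
    have d1 : CH p (fun ω => (Xq ω, (Uq ω, Al ω))) (fun ω => (sd ω, (Ye ω, (zw ω, (Xq ω, y ω))))) ≤
        CH p (fun ω => ((Xq ω, Uq ω), Al ω)) (fun ω => (sd ω, (Ye ω, (zw ω, (Xq ω, y ω))))) :=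
      CH_mono_left h0 fun ω ν _ _ e => by
        simp only [Prod.mk.injEq] at e ⊢
        tauto
    have d2 := CH_subadd h0 (fun ω => (Xq ω, Uq ω)) Al
      (fun ω => (sd ω, (Ye ω, (zw ω, (Xq ω, y ω)))))
    have d3 : CH p (fun ω => (Xq ω, Uq ω)) (fun ω => (sd ω, (Ye ω, (zw ω, (Xq ω, y ω))))) ≤
        CH p (fun ω => (Xq ω, Uq ω)) (fun ω => (Ye ω, (zw ω, y ω))) := CH_mono_cond h0
      fun ω ν _ _ e => by
        simp only [Prod.mk.injEq] at e ⊢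
        tauto
    have d4 : CH p Al (fun ω => (sd ω, (Ye ω, (zw ω, (Xq ω, y ω))))) ≤
        CH p Al (fun ω => (sd ω, (zw ω, y ω))) := CH_mono_cond h0 fun ω ν _ _ e => by
      simp only [Prod.mk.injEq] at e ⊢
      tauto
    have := h.eq
    linarith
  · -- nl
    have d1 : CH p Xq (fun ω => (N1 ω, (sd ω, (Ye ω, (zw ω, y ω))))) ≤ κ := by
      have g1 : CH p Xq (fun ω => (N1 ω, (sd ω, (Ye ω, (zw ω, y ω))))) ≤
          CH p (fun ω => (Xq ω, Uq ω)) (fun ω => (N1 ω, (sd ω, (Ye ω, (zw ω, y ω))))) :=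
        CH_mono_left h0 fun ω ν _ _ e => by
          simp only [Prod.mk.injEq] at e ⊢
          tauto
      have g2 : CH p (fun ω => (Xq ω, Uq ω)) (fun ω => (N1 ω, (sd ω, (Ye ω, (zw ω, y ω))))) ≤
          CH p (fun ω => (Xq ω, Uq ω)) (fun ω => (Ye ω, (zw ω, y ω))) := CH_mono_cond h0
        fun ω ν _ _ e => by
          simp only [Prod.mk.injEq] at e ⊢
          tauto
      have := h.eq
      linarith
    have d2 := MI_few h0 Rj N2 (W := fun ω => (N1 ω, (sd ω, (Ye ω, (zw ω, (Xq ω, y ω))))))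
      (W' := fun ω => (N1 ω, (sd ω, (Ye ω, (zw ω, y ω))))) (e₁ := κ) (e₂ := 0) (by
        have g1 := CH_le_add h0 (fun ω => (N1 ω, (sd ω, (Ye ω, (zw ω, (Xq ω, y ω)))))) Xq
          (fun ω => (N1 ω, (sd ω, (Ye ω, (zw ω, y ω)))))
        rw [CH_eq_zero h0 (X := fun ω => (N1 ω, (sd ω, (Ye ω, (zw ω, (Xq ω, y ω))))))
          (W := fun ω => (Xq ω, (N1 ω, (sd ω, (Ye ω, (zw ω, y ω)))))) (fun ω ν _ _ e => by
          simp only [Prod.mk.injEq] at e ⊢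
          tauto)] at g1
        linarith) (le_of_eq (CH_eq_zero h0 fun ω ν _ _ e => by
        simp only [Prod.mk.injEq] at e ⊢
        tauto))
    linarith

end VB

/-- **The mutual informations.** -/
theorem VSide.out (h : VSide p zw Rj Rx Ra R' y Xq Xp Uq Up sd N1 N2 Ye Fv κ) :
    Out p zw Rj Rx y Xq Xp Uq Up sd N1 N2 (43 * κ) :=
  ⟨h.mj, by
    have h1 := h.mx
    have h2 := h.κ0
    linarith⟩

/-- More in the first place of the second variable. -/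
theorem MI_le_fst (h0 : ∀ ω, 0 ≤ p ω) {β γ δ : Type} (R : Ω → α) {X : Ω → β} {X' : Ω → γ}
    (W : Ω → δ) (h : Det p (fun ω => (X' ω, W ω)) X) : MI p R X W ≤ MI p R X' W := by
  have h1 := MI_le_add h0 R X X' W
  rw [CH_eq_zero h0 (X := X) (W := fun ω => (X' ω, W ω)) h] at h1
  linarith

/-- **The mutual informations** without the alive code and without the near positions in `y`. -/
theorem VSide.out_a (h : VSide p zw Rj Rx Ra R' (fun ω => (Xq ω, y ω)) Xq Xp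
      (fun ω => (Uq ω, Al ω)) (fun ω => (Up ω, Al ω)) sd N1 N2 Ye Fv κ)
    (as : CH p Al (fun ω => (sd ω, (zw ω, y ω))) ≤ κ) :
    Out p zw Rj Rx y Xq Xp Uq Up sd N1 N2 (44 * κ) := by
  have h0 := h.h0
  have hk := h.κ0
  constructor
  · have h1 := h.mj
    have h2 := MI_le_fst h0 Rj (X := fun ω => ((Xp ω, Up ω), N2 ω))
      (X' := fun ω => ((Xp ω, (Up ω, Al ω)), N2 ω))
      (fun ω => (((Xq ω, (Uq ω, Al ω)), N1 ω), (zw ω, (sd ω, (Xq ω, y ω)))))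
      (fun ω ν _ _ e => by
        simp only [Prod.mk.injEq] at e ⊢
        tauto)
    have h3 := MI_few h0 Rj (fun ω => ((Xp ω, Up ω), N2 ω))
      (W := fun ω => (((Xq ω, Uq ω), N1 ω), (zw ω, (sd ω, y ω))))
      (W' := fun ω => (((Xq ω, (Uq ω, Al ω)), N1 ω), (zw ω, (sd ω, (Xq ω, y ω)))))
      (e₁ := 0) (e₂ := κ) (le_of_eq (CH_eq_zero h0 fun ω ν _ _ e => by
        simp only [Prod.mk.injEq] at e ⊢
        tauto)) (by
        have g1 := CH_le_add h0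
          (fun ω => (((Xq ω, (Uq ω, Al ω)), N1 ω), (zw ω, (sd ω, (Xq ω, y ω))))) Al
          (fun ω => (((Xq ω, Uq ω), N1 ω), (zw ω, (sd ω, y ω))))
        rw [CH_eq_zero h0
          (X := fun ω => (((Xq ω, (Uq ω, Al ω)), N1 ω), (zw ω, (sd ω, (Xq ω, y ω)))))
          (W := fun ω => (Al ω, (((Xq ω, Uq ω), N1 ω), (zw ω, (sd ω, y ω)))))
          (fun ω ν _ _ e => by
          simp only [Prod.mk.injEq] at e ⊢
          tauto)] at g1
        have g2 : CH p Al (fun ω => (((Xq ω, Uq ω), N1 ω), (zw ω, (sd ω, y ω)))) ≤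
            CH p Al (fun ω => (sd ω, (zw ω, y ω))) := CH_mono_cond h0 fun ω ν _ _ e => by
          simp only [Prod.mk.injEq] at e ⊢
          tauto
        linarith)
    linarith
  · have h1 := h.mx
    have h2 := MI_le_fst h0 Rx (X := fun ω => (Xp ω, Up ω))
      (X' := fun ω => (Xp ω, (Up ω, Al ω)))
      (fun ω => ((Xq ω, (Uq ω, Al ω)), (zw ω, (sd ω, (Xq ω, y ω)))))
      (fun ω ν _ _ e => by
        simp only [Prod.mk.injEq] at e ⊢
        tauto)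
    have h3 := MI_few h0 Rx (fun ω => (Xp ω, Up ω))
      (W := fun ω => ((Xq ω, Uq ω), (zw ω, (sd ω, y ω))))
      (W' := fun ω => ((Xq ω, (Uq ω, Al ω)), (zw ω, (sd ω, (Xq ω, y ω)))))
      (e₁ := 0) (e₂ := κ) (le_of_eq (CH_eq_zero h0 fun ω ν _ _ e => by
        simp only [Prod.mk.injEq] at e ⊢
        tauto)) (by
        have g1 := CH_le_add h0
          (fun ω => ((Xq ω, (Uq ω, Al ω)), (zw ω, (sd ω, (Xq ω, y ω))))) Al
          (fun ω => ((Xq ω, Uq ω), (zw ω, (sd ω, y ω))))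
        rw [CH_eq_zero h0
          (X := fun ω => ((Xq ω, (Uq ω, Al ω)), (zw ω, (sd ω, (Xq ω, y ω)))))
          (W := fun ω => (Al ω, ((Xq ω, Uq ω), (zw ω, (sd ω, y ω)))))
          (fun ω ν _ _ e => by
          simp only [Prod.mk.injEq] at e ⊢
          tauto)] at g1
        have g2 : CH p Al (fun ω => ((Xq ω, Uq ω), (zw ω, (sd ω, y ω)))) ≤
            CH p Al (fun ω => (sd ω, (zw ω, y ω))) := CH_mono_cond h0 fun ω ν _ _ e => by
          simp only [Prod.mk.injEq] at e ⊢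
          tauto
        linarith)
    linarith

end

end Pool.V0S
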