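import Pool.Agent.H64.VS.Pcl
import Pool.Agent.H44.V0F.Ev3
import Pool.Agent.H97.V0F.Ac
import Pool.Agent.H87.V0S.Vb

/-!
# Closed gradients of a target with an arbitrary path and a side path, on one event

`SdE`: the inputs of the target on one event: `tp` the path of the target, a polynomial, function of
the line, `gg` its gradients, `sd` the side path; `N1 = ⌊tp T⌋`, `N2 = ⌊2 ^ X tp T⌋`. `vs_fin`: the
gradient is closed.
-/

set_option autoImplicit false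

namespace Pool.V0S

open Finset Real MvPolynomial
open Pool.Agent.H49.Ent Pool.Agent.H32.Dense
open Pool.STK hiding pr2
open Pool.KA Pool.KSAT Pool.K2S Pool.PB Pool.S6C
open Pool.GEN Pool.CHT Pool.CHX Pool.ISO Pool.LA91 Pool.AVG71 Pool.AVG5 Pool.D2F2 Pool.AVG57
open Pool.PB.Trl (rt rt_mem t_rt)
open Pool.KVA (MI)
open Pool.KAF (rs Pr)
open Pool.FS21 (oth)
open Pool.BFL (Pb)
open Pool.V0F (jh jv Vv th0 CH_ge CH_jh jet2_jh jet2_jv jhv_jet2 CH_tr mi_side cE0_le)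
open Pool.VS64 (adP GrdP PrP Mt Evp pp_clo adP_ti)
open Pool.LV64 (VD Vm)

variable {m J : ℕ}

/-- The moved places. -/
abbrev mv0 (r : ℕ) : Fin r → ℕ := fun l => l

/-- The context. -/
def ctx (F : Fam m J) (W : ℕ) {ζ σ : Type} (zw : F.Ω → ζ) (sd : F.Ω → σ) (ω : F.Ω) :
    ζ × ((F.ζ × ℕ) × σ) := (zw ω, ((slam F W ω).2, sd ω))

/-- **The inputs of the target** on one event `B`, for one law `p`. -/
structure SdE (F : Fam m J) (c : ℕ → Fin m) (r q w W X K : ℕ) (γ : ℕ → ℕ) (B : F.Ω → Prop)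
    (G₀ : PtT F → ℕ → MvPolynomial (Option (Fin m)) ℝ)
    (H : LnT F → ℕ → MvPolynomial (Option (Fin m)) ℝ) (gg : F.Ω → Fin r → ℝ)
    (tp : F.Ω → Polynomial ℝ) {ζ σ χ₁ χ₂ ρ₁ ρ₂ : Type} (zw : F.Ω → ζ) (sd : F.Ω → σ)
    (Cj : F.Ω → χ₁) (Cx : F.Ω → χ₂) (Rj : F.Ω → ρ₁) (Rx : F.Ω → ρ₂) (p : F.Ω → ℝ)
    (Nf Nn Nu : ℕ → ℕ → ℝ) (nb : ℕ → ℝ) (π₀ U Ur e : ℝ) : Prop where
  /-- the path of the target and the side path are functions of the line -/
  tL : Det p (slam F W) tp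
  sL : Det p (slam F W) sd
  dP : ∀ ω, 0 < p ω → (tp ω).natDegree ≤ K
  /-- the gradients -/
  grd : GrdP F c (mv0 r) (fun _ : Fin 1 => X) q W X γ U B G₀ (fun ω _ => gg ω) (fun ω _ => tp ω)
    (ctx F W zw sd) Cj Cx
  chj : CH p Cj Rj ≤ e
  chx : CH p Cx Rx ≤ e
  zx : CH p zw Rx ≤ e
  /-- the mutual informations -/
  out : Out p zw Rj Rx F.W (jh F c r w H fun l => Nn l 0) (jh F c r w H fun l => Nf l 0)
    (jv F c r w H fun l => Nn l 1) (jv F c r w H fun l => Nf l 1) sd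
    (fun ω => ⌊(tp ω).eval (rt F W ω)⌋) (fun ω => ⌊(2 : ℝ) ^ X * (tp ω).eval (rt F W ω)⌋) e
  /-- the codes of the target -/
  dj : CH p (fun ω (a : Fin K) => ⌊(2 : ℝ) ^ X * (tp ω).coeff a.succ⌋)
    (fun ω => ((jh F c r w H (fun l => Nf l 0) ω, jv F c r w H (fun l => Nf l 1) ω),
      (sd ω, (zw ω, F.W ω)))) ≤ e
  jt : CH p (fun ω (a : Fin (K + 1)) => ⌊(2 : ℝ) ^ X * (tp ω).coeff a⌋ / 2 ^ X)
    (fun ω => ((jh F c r w H (fun l => Nu l 0) ω, jv F c r w H (fun l => Nu l 1) ω),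
      (sd ω, (Rx ω, F.W ω)))) ≤ e
  /-- the far digits of the contact coordinates are free -/
  vf : r * (X * Real.log 2) - e ≤ CH p (Vv F c r w H fun l => nb l * J)
    (fun ω => ((jh F c r w H (fun l => Nn l 0) ω, jv F c r w H (fun l => Nn l 1) ω),
      (Rx ω, (sd ω, F.W ω))))
  /-- the row -/
  row : ∀ E : Set F.Ω, π₀ ≤ Pr p E → CH (rs p E)
    (fun ω => ⌊(2 : ℝ) ^ X * (tp ω).eval (rt F W ω)⌋)
    (fun ω => (⌊(tp ω).eval (rt F W ω)⌋, (Vv F c r w H (fun l => nb l * J) ω,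
      (sd ω, (zw ω, F.W ω))))) ≤ Ur

section

variable {F : Fam m J} {c : ℕ → Fin m} {r q w W X mm K : ℕ} {γ : ℕ → ℕ}
  {H : LnT F → ℕ → MvPolynomial (Option (Fin m)) ℝ} {p : F.Ω → ℝ}

theorem jetm_jhv (N : ℕ → ℕ → ℝ) :
    Det p (jetm F c (mv0 r) w H fun l => N l)
      (fun ω => (jh F c r w H (fun l => N l 0) ω, jv F c r w H (fun l => N l 1) ω)) := by
  intro ω ν _ _ e
  refine Prod.ext (show jh F c r w H (fun l => N l 0) ω = jh F c r w H (fun l => N l 0) ν from ?_)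
    (show jv F c r w H (fun l => N l 1) ω = jv F c r w H (fun l => N l 1) ν from ?_)
  · funext l j'
    unfold jh
    by_cases h : l < r ∧ j' = 0
    · rw [if_pos h, if_pos h]
      have e1 := congrFun e (⟨l, h.1⟩, 0)
      unfold jetm at e1
      simpa using e1
    · rw [if_neg h, if_neg h]
  · funext l
    unfold jv
    have e1 := congrFun e (l, 1)
    unfold jetm at e1
    simpa using e1

theorem jhv_jetm (N : ℕ → ℕ → ℝ) :
    Det p (fun ω => (jh F c r w H (fun l => N l 0) ω, jv F c r w H (fun l => N l 1) ω))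
      (jetm F c (mv0 r) w H fun l => N l) := by
  intro ω ν _ _ e
  have e1 : jh F c r w H (fun l => N l 0) ω = jh F c r w H (fun l => N l 0) ν :=
    (Prod.ext_iff.mp e).1
  have e2 : jv F c r w H (fun l => N l 1) ω = jv F c r w H (fun l => N l 1) ν :=
    (Prod.ext_iff.mp e).2
  funext i
  obtain ⟨l, a⟩ := i
  unfold jetm
  have ha : a = 0 ∨ a = 1 := by
    have := a.2
    rcases Nat.lt_or_ge (a : ℕ) 1 with h | h
    · left
      exact Fin.ext (by simpa using h)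
    · right
      exact Fin.ext (by
        have : (a : ℕ) = 1 := by omega
        simpa using this)
  rcases ha with rfl | rfl
  · have e3 := congrFun (congrFun e1 (l : ℕ)) 0
    unfold jh at e3
    rw [if_pos ⟨l.2, rfl⟩, if_pos ⟨l.2, rfl⟩] at e3
    simpa using e3
  · have e3 := congrFun e2 l
    unfold jv at e3
    simpa using e3

/-- The jets of `adM` and those of `adP`. -/
theorem jetm_jet2 (N : ℕ → ℕ → ℝ) :
    Det p (jetm F c (mv0 r) w H fun l => N l) (jet2 F c w H 0 r N) := by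
  intro ω ν hω hν e
  have e1 := jetm_jhv (c := c) (r := r) (w := w) (H := H) N ω ν hω hν e
  have e2 := jhv_jet2 (c := c) (r := r) (w := w) (H := H) (p := p) N ω ν hω hν e1
  rw [Nat.zero_add] at e2
  exact e2

variable {gg : F.Ω → Fin 1 → Fin r → ℝ} {tp : F.Ω → Fin 1 → Polynomial ℝ} {ζ : Type}
  {z : F.Ω → ζ} {Xt : Fin 1 → ℕ}

/-- The codes of the contact coordinates are those of `adM`. -/
theorem adP_acM (n : ℕ) (G : ℕ → PtT F → ℕ → MvPolynomial (Option (Fin m)) ℝ) (ω : F.Ω) :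
    (adP F c (mv0 r) Xt q w W X mm γ gg H tp z).ac K ω =
      (adM F c 0 r n q w W X mm γ G H z).ac K ω := by
  funext j a
  show ⌊(2 : ℝ) ^ (X + mm) * (Polynomial.C (2 ^ (γ (j : ℕ) + q)) *
      dv W (fun s (_ : Fin m) => H (upw w W s) (j : ℕ)) (c (j : ℕ)) (slam F W ω)).coeff a⌋ =
    ⌊(2 : ℝ) ^ (X + mm) * (Polynomial.C (2 ^ (γ (0 + (j : ℕ)) + q)) *
      dv W (fun s (_ : Fin m) => H (upw w W s) (0 + (j : ℕ))) (c (0 + (j : ℕ)))
        (slam F W ω)).coeff a⌋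
  rw [Nat.zero_add]

/-- **The codes of the contact coordinates** from the codes of order `≥ 2`. -/
theorem ac_va (r K : ℕ) : ∃ C : ℝ, 0 ≤ C ∧ ∀ {m J : ℕ} {F : Fam m J} {c : ℕ → Fin m}
    {q w W X mm D : ℕ} {γ : ℕ → ℕ} {H : LnT F → ℕ → MvPolynomial (Option (Fin m)) ℝ}
    {gg : F.Ω → Fin 1 → Fin r → ℝ} {tp : F.Ω → Fin 1 → Polynomial ℝ} {ζ σ : Type}
    {zw : F.Ω → ζ} {sd : F.Ω → σ} {Xt : Fin 1 → ℕ} {p : F.Ω → ℝ} {e : ℝ}, IsLaw p → w ≤ W →
    W ≤ J → (∀ s l, (H s l).totalDegree ≤ D) → D + 1 ≤ K → 0 ≤ e →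
    (∀ l < r, CH p (Pool.AVG71.cod F W 2 K (2 ^ (γ l + q + (X + mm))) (c l) (fun s => upw w W s)
      (fun s => H s l)) F.W ≤ e) →
    (∀ N : ℕ → ℕ → ℝ, (∀ l < r, ((γ l + q + (X + mm) : ℕ) : ℝ) ≤ N l 0 * J) →
      (∀ l < r, ((γ l + q + (X + mm) : ℕ) : ℝ) ≤ N l 1 * J + W) →
      CH p ((adP F c (mv0 r) Xt q w W X mm γ gg H tp (ctx F W zw sd)).ac K) (fun ω =>
        (jetm F c (mv0 r) w H (fun l => N l) ω, (rt F W ω, ctx F W zw sd ω))) ≤ r * e + C) ∧
    ∀ N : ℕ → ℕ → ℝ, (∀ l < r, ((γ l + q : ℕ) : ℝ) ≤ N l 0 * J) →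
      (∀ l < r, ((γ l + q + (X + mm) : ℕ) : ℝ) ≤ N l 1 * J + W) →
      CH p (fun ω => ((adP F c (mv0 r) Xt q w W X mm γ gg H tp (ctx F W zw sd)).v K ω).2)
        (fun ω => (jetm F c (mv0 r) w H (fun l => N l) ω, (rt F W ω, ctx F W zw sd ω))) ≤
          r * e + C := by
  obtain ⟨C, hC, h⟩ := Pool.V0F97.ac_stmt r K
  refine ⟨C, hC, ?_⟩
  intro m J F c q w W X mm D γ H gg tp ζ σ zw sd Xt p e hp hwW hW hH hK he hcod
  have h0 := hp.nonneg
  obtain ⟨b1, b2⟩ := h (n := 0) (G := fun _ _ _ => 0) (zw := ctx F W zw sd) hp hwW hW hH hK he hcod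
  have key : ∀ {N : ℕ → ℕ → ℝ}, Det p
      (fun ω => (jetm F c (mv0 r) w H (fun l => N l) ω, (rt F W ω, ctx F W zw sd ω)))
      (fun ω => (jet2 F c w H 0 r N ω,
        ((adM F c 0 r 0 q w W X mm γ (fun _ _ _ => 0) H (ctx F W zw sd)).th ω,
          (adM F c 0 r 0 q w W X mm γ (fun _ _ _ => 0) H (ctx F W zw sd)).z ω))) := by
    intro N ω ν hω hν e
    simp only [Prod.mk.injEq] at e
    obtain ⟨e1, e2, e3⟩ := e
    have e4 : (slam F W ω).2 = (slam F W ν).2 := (Prod.ext_iff.mp (Prod.ext_iff.mp e3).2).1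
    refine Prod.ext (jetm_jet2 (c := c) (r := r) (w := w) (H := H) N ω ν hω hν e1)
      (Prod.ext e2 (Prod.ext e3 (Prod.ext e4 ?_)))
    funext l
    exact l.elim0
  have hac : ∀ ω, (adP F c (mv0 r) Xt q w W X mm γ gg H tp (ctx F W zw sd)).ac K ω =
      (adM F c 0 r 0 q w W X mm γ (fun _ _ _ => 0) H (ctx F W zw sd)).ac K ω :=
    fun ω => adP_acM 0 _ ω
  constructor
  · intro N n0 n1
    refine le_trans ?_ (b1 N n0 n1)
    refine (CH_mono_left h0 fun ω ν _ _ e => ?_).trans (CH_mono_cond h0 key)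
    have e1 := (Prod.ext_iff.mp e).1
    rw [hac, hac]
    exact e1
  · intro N n0 n1
    refine le_trans ?_ (b2 N n0 n1)
    refine (CH_mono_left h0 fun ω ν _ _ e => ?_).trans (CH_mono_cond h0 key)
    have e1 : (fun j (a : Fin K) => (adM F c 0 r 0 q w W X mm γ (fun _ _ _ => 0) H
          (ctx F W zw sd)).ac K ω j a.succ,
        fun j => (adM F c 0 r 0 q w W X mm γ (fun _ _ _ => 0) H (ctx F W zw sd)).ac K ω j 0 /
          2 ^ (X + mm)) =
      (fun j (a : Fin K) => (adM F c 0 r 0 q w W X mm γ (fun _ _ _ => 0) H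
          (ctx F W zw sd)).ac K ν j a.succ,
        fun j => (adM F c 0 r 0 q w W X mm γ (fun _ _ _ => 0) H (ctx F W zw sd)).ac K ν j 0 /
          2 ^ (X + mm)) := (Prod.ext_iff.mp e).1
    show (fun j (a : Fin K) => (adP F c (mv0 r) Xt q w W X mm γ gg H tp (ctx F W zw sd)).ac K ω j
          a.succ,
        fun j => (adP F c (mv0 r) Xt q w W X mm γ gg H tp (ctx F W zw sd)).ac K ω j 0 /
          2 ^ (X + mm)) =
      (fun j (a : Fin K) => (adP F c (mv0 r) Xt q w W X mm γ gg H tp (ctx F W zw sd)).ac K ν j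
          a.succ,
        fun j => (adP F c (mv0 r) Xt q w W X mm γ gg H tp (ctx F W zw sd)).ac K ν j 0 /
          2 ^ (X + mm))
    rw [hac, hac]
    exact e1

/-- The near digits of the height are few bits given the upper digits of the coefficients. -/
theorem tn_few {Ω β : Type} [Fintype Ω] {p : Ω → ℝ} (hp : IsLaw p) {k K X : ℕ} (d : VD Ω β 1 k)
    (hX : d.Xp 0 = X) (hd : ∀ ω, 0 < p ω → (d.P ω 0).natDegree ≤ K)
    (hth : ∀ ω, 0 < p ω → 0 ≤ d.th ω ∧ d.th ω < 1) :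
    CH p (fun ω => ⌊(d.P ω 0).eval (d.th ω)⌋) (fun ω => (d.th ω, d.g K ω)) ≤
      Real.log (2 * ((K : ℝ) + 2) + 1) := by
  refine CH_pair_int hp _ _ (by positivity) fun ω ν hω hν e => ?_
  have e1 : d.th ω = d.th ν := (Prod.ext_iff.mp e).1
  have e2 : d.g K ω = d.g K ν := (Prod.ext_iff.mp e).2
  have e3 : d.nu K ω = d.nu K ν := (Prod.ext_iff.mp (Prod.ext_iff.mp e2).2).2
  have h1 := hth ω hω
  have hnu : ∀ (o : Ω) (a : Fin (K + 1)), (d.nu K o 0 a : ℝ) ≤ (d.P o 0).coeff a ∧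
      (d.P o 0).coeff a < d.nu K o 0 a + 1 := by
    intro o a
    have g1 : d.nu K o 0 a = ⌊(2 : ℝ) ^ X * (d.P o 0).coeff a⌋ / 2 ^ X := by
      unfold VD.nu VD.nc
      rw [hX]
    have g2 : (⌊(2 : ℝ) ^ X * (d.P o 0).coeff a⌋ / 2 ^ X : ℤ) = ⌊(d.P o 0).coeff a⌋ := by
      have g3 := Int.floor_div_natCast ((2 : ℝ) ^ X * (d.P o 0).coeff a) (2 ^ X)
      have g4 : (2 : ℝ) ^ X * (d.P o 0).coeff a / ((2 ^ X : ℕ) : ℝ) = (d.P o 0).coeff a := by
        push_cast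
        field_simp
      rw [g4] at g3
      push_cast at g3
      exact g3.symm
    rw [g1, g2]
    exact ⟨Int.floor_le _, Int.lt_floor_add_one _⟩
  have h2 : |(d.P ω 0).eval (d.th ω) - (d.P ν 0).eval (d.th ν)| ≤ K + 1 := by
    rw [← e1, AD.eval_fin (hd ω hω), AD.eval_fin (hd ν hν), ← Finset.sum_sub_distrib]
    refine (Finset.abs_sum_le_sum_abs _ _).trans ((Finset.sum_le_sum (g := fun _ => (1 : ℝ))
      fun a _ => ?_).trans (le_of_eq ?_))
    · rw [← sub_mul, abs_mul]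
      have b2 : |d.th ω ^ (a : ℕ)| ≤ 1 := by
        rw [abs_of_nonneg (pow_nonneg h1.1 _)]
        exact pow_le_one₀ h1.1 h1.2.le
      have b3 : |(d.P ω 0).coeff a - (d.P ν 0).coeff a| ≤ 1 := by
        have g1 := hnu ω a
        have g2 := hnu ν a
        rw [congrFun (congrFun e3 0) a] at g1
        rw [abs_le]
        constructor <;> linarith [g1.1, g1.2, g2.1, g2.2]
      calc _ ≤ (1 : ℝ) * 1 := mul_le_mul b3 b2 (abs_nonneg _) zero_le_one
        _ = 1 := one_mul 1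
    · rw [Finset.sum_const, Finset.card_univ, Fintype.card_fin, nsmul_eq_mul, mul_one]
      push_cast
      ring
  have h3 := floor_near' (x := (d.P ω 0).eval (d.th ω)) (y := (d.P ν 0).eval (d.th ν)) h2
  refine h3.trans (le_of_eq ?_)
  ring

end

/-- **Closed gradient of a target with an arbitrary path and a side path**, on one event. -/
theorem vs_fin (r K : ℕ) (hK : 1 ≤ K) {h x₀ σ₀ ε : ℝ} (hh : 0 < h) (hh1 : h ≤ 1) (hx : 0 < x₀)
    (hxh : x₀ < h) (hσ : 0 < σ₀) (hε : 0 < ε) :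
    ∃ ι π₀ C : ℝ, 0 < ι ∧ 0 < π₀ ∧ 0 ≤ C ∧ ∃ X₀ : ℕ,
      ∀ {m J : ℕ} {F : Fam m J} {c : ℕ → Fin m} {q w W X mm D : ℕ} {γ : ℕ → ℕ}
        {B : F.Ω → Prop} {G₀ : PtT F → ℕ → MvPolynomial (Option (Fin m)) ℝ}
        {H : LnT F → ℕ → MvPolynomial (Option (Fin m)) ℝ} {gg : F.Ω → Fin r → ℝ}
        {tp : F.Ω → Polynomial ℝ} {ζ σ χ₁ χ₂ ρ₁ ρ₂ : Type} {zw : F.Ω → ζ} {sd : F.Ω → σ}
        {Cj : F.Ω → χ₁} {Cx : F.Ω → χ₂} {Rj : F.Ω → ρ₁} {Rx : F.Ω → ρ₂} {p : F.Ω → ℝ}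
        {Nf Nn Nu Nv : ℕ → ℕ → ℝ} {nb : ℕ → ℝ} {U Ur e e₁ d ψ ε₀ : ℝ} {j₀ : ℕ},
        IsLaw p → (∀ ω, 0 < p ω → B ω) → w ≤ W → W + X ≤ J →
        (∀ s l, (H s l).totalDegree ≤ D) → D + 1 ≤ K →
        (∀ ω, B ω → ∀ l < r, G₀ (ptr F J ω) l = H (slam F w ω) l) → U + 1 ≤ 2 ^ mm →
        Det p (slam F W) zw →
        SdE F c r q w W X K γ B G₀ H gg tp zw sd Cj Cx Rj Rx p Nf Nn Nu nb π₀ U Ur e →
        (∀ l < r, Nn l 0 * J ≤ (γ l + q : ℕ)) →
        (∀ l < r, Nn l 1 * J + W ≤ (γ l + q + (X + mm) : ℕ)) →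
        (∀ l < r, Nu l 0 * J ≤ (γ l + q : ℕ)) →
        (∀ l < r, Nu l 1 * J + W ≤ (γ l + q + (X + mm) : ℕ)) →
        (∀ l < r, CH p (Pool.AVG71.cod F W 2 K (2 ^ (γ l + q + (X + mm))) (c l)
          (fun s => upw w W s) (fun s => H s l)) F.W ≤ e₁) →
        (∀ l < r, ((γ l + q + (X + mm) : ℕ) : ℝ) ≤ Nf l 0 * J) →
        (∀ l < r, ((γ l + q + (X + mm) : ℕ) : ℝ) ≤ Nf l 1 * J + W) →
        (∀ l < r, ((γ l + q : ℕ) : ℝ) ≤ Nv l 0 * J) →
        (∀ l < r, ((γ l + q + (X + mm) : ℕ) : ℝ) ≤ Nv l 1 * J + W) →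
        (∀ l, Nv l 1 = Nn l 1) → 0 ≤ d → (∀ l < r, (Nv l 0 - Nn l 0) * J ≤ d) →
        (∀ l < r, ((γ l + q + X : ℕ) : ℝ) ≤ nb l * J) →
        (∀ l < r, nb l * J ≤ (γ l + q + (X + mm) : ℕ)) →
        TimW F p W j₀ ε₀ ψ → X₀ ≤ X → 0 ≤ e₁ →
        e + r * (d * Real.log 2 + Real.log 5) + r * e₁ + C + ψ * J ≤ ι * X →
        (mm : ℝ) ≤ ι * X →
        Ur ≤ (1 - h) * X * Real.log 2 + ι * X →
        ∃ mu : LnT F → Fin r → Polynomial ℝ, (∀ s j, (mu s j).natDegree ≤ K) ∧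
          (∀ s j (u : ℝ), |(mu s j).eval u| ≤ (K + 1) * (|u| + 1) ^ K * (2 : ℝ) ^ (σ₀ * X)) ∧
          Pb p (fun ω => ∃ j, (2 : ℝ) ^ (-(x₀ * X)) <
            |gg ω j - (mu (slam F W ω) j).eval (rt F W ω)|) ≤ ε ∧
          ∀ Y : ℕ, (Y : ℝ) ≤ x₀ * X → ∀ j, CH p (fun ω => ⌊(2 : ℝ) ^ Y * gg ω j⌋)
            (fun ω => (rt F W ω, (adP F c (mv0 r) (fun _ : Fin 1 => X) q w W X mm γ
              (fun ω _ => gg ω) H (fun ω _ => tp ω) (ctx F W zw sd)).g K ω)) ≤ ε * X := by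
  classical
  obtain ⟨ι₀, π₀, hι₀, hπ₀, X1, Hm⟩ := pp_clo 1 r K hK hh hh1 hx hxh hσ hε
  obtain ⟨B₁, hB₁, hB⟩ := cE0_le r K
  obtain ⟨Ca, hCa, hac⟩ := ac_va r K
  have hl2 : 0 < Real.log 2 := Real.log_pos one_lt_two
  have hl5 : 0 < Real.log 5 := Real.log_pos (by norm_num)
  have hr0 : (0 : ℝ) ≤ r := Nat.cast_nonneg r
  have hlK : 0 ≤ Real.log (2 * ((K : ℝ) + 2) + 1) := Real.log_nonneg (by
    have : (0 : ℝ) ≤ K := Nat.cast_nonneg K
    linarith)
  obtain ⟨ι, hι⟩ : ∃ ι : ℝ, ι = ι₀ / (32 * (r + 2)) := ⟨_, rfl⟩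
  have hιp : 0 < ι := by rw [hι]; positivity
  have hι1 : 32 * (r + 2) * ι = ι₀ := by rw [hι]; field_simp
  have hι2 : 32 * ι ≤ ι₀ := by
    have h1 : 32 * ι * 1 ≤ 32 * ι * (r + 2) := mul_le_mul_of_nonneg_left (by linarith)
      (by positivity)
    linarith
  obtain ⟨X2, hX2⟩ := exists_nat_ge ((2 * B₁ + (2 + r) * cV K) / (ι₀ / 4))
  refine ⟨ι, π₀, Ca + Real.log (2 * ((K : ℝ) + 2) + 1), hιp, hπ₀, by positivity,
    max X1 (max X2 K), ?_⟩
  intro m J F c q w W X mm D γ B G₀ H gg tp ζ σ χ₁ χ₂ ρ₁ ρ₂ zw sd Cj Cx Rj Rx p Nf Nn Nu Nv nb U Ur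
    e e₁ d ψ ε₀ j₀ hp sup wW hWX deg DK cls mU zL S n0 n1 u0 u1 hc2 f0 f1 v0 v1 hv1 hd0 hv0 nb1 nb2
    T hX he1 he hmm hUr
  have h0 := hp.nonneg
  have hWJ : W ≤ J := by omega
  have hX0 : (0 : ℝ) ≤ X := Nat.cast_nonneg X
  have hXK : K ≤ X := (le_max_right _ _).trans ((le_max_right _ _).trans hX)
  have hXX1 : X1 ≤ X := (le_max_left _ _).trans hX
  have hXX2 : (X2 : ℝ) ≤ X := by
    exact_mod_cast (le_max_left _ _).trans ((le_max_right _ _).trans hX)
  have he0 : 0 ≤ e := (CH_nonneg h0 _ _).trans S.chj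
  have hψ : 0 ≤ ψ * J := by
    have h1 := T.mi (F.T1 W) (fun ω ν _ _ e => (Prod.ext_iff.mp (Prod.ext_iff.mp e).2).2)
      (fun _ _ _ _ e => e)
    refine le_trans ?_ h1
    rw [MI_eq h0]
    have := CH_mono_cond h0 (X := F.T) (W' := fun ω => (slam F W ω, F.T1 W ω)) (W := F.T1 W)
      (fun ω ν _ _ e => (Prod.ext_iff.mp e).2)
    linarith
  have hre1 : 0 ≤ r * e₁ := by positivity
  have hrd : 0 ≤ r * (d * Real.log 2 + Real.log 5) := by positivity
  obtain ⟨e', he'⟩ : ∃ e' : ℝ, e' = e + r * (d * Real.log 2 + Real.log 5) + r * e₁ +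
    (Ca + Real.log (2 * ((K : ℝ) + 2) + 1)) + ψ * J := ⟨_, rfl⟩
  rw [← he'] at he
  have hee : e ≤ e' := by rw [he']; linarith
  have hz : Det p (slam F W) (ctx F W zw sd) := fun ω ν a b hh => by
    unfold ctx
    rw [zL ω ν a b hh, S.sL ω ν a b hh, hh]
  have hzT : Det p (ctx F W zw sd) (F.T1 W) := fun ω ν _ _ hh =>
    (Prod.ext_iff.mp (Prod.ext_iff.mp (Prod.ext_iff.mp hh).2).1).2
  have htp : Det p (slam F W) (fun ω (_ : Fin 1) => tp ω) := fun ω ν a b hh => by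
    funext _
    exact S.tL ω ν a b hh
  have hth : ∀ ω, 0 ≤ rt F W ω ∧ rt F W ω < 1 := fun ω => by
    have h := tw_mem F hWJ ω
    rw [tw_rt F hWJ ω] at h
    exact h
  -- the time from the position in the window and the context
  have key1 : ∀ {ω ν : F.Ω}, rt F W ω = rt F W ν → ctx F W zw sd ω = ctx F W zw sd ν →
      zw ω = zw ν ∧ sd ω = sd ν ∧ F.W ω = F.W ν := by
    intro ω ν h1 h2
    obtain ⟨h3, h4⟩ := Prod.ext_iff.mp h2
    obtain ⟨h5, h6⟩ := Prod.ext_iff.mp h4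
    exact ⟨h3, h6, adM_T hWJ h1 h5⟩
  have key2 : ∀ {ω ν : F.Ω}, F.W ω = F.W ν → zw ω = zw ν → sd ω = sd ν →
      rt F W ω = rt F W ν ∧ ctx F W zw sd ω = ctx F W zw sd ν := by
    intro ω ν h1 h2 h3
    obtain ⟨h4, h5⟩ := Prod.ext_iff.mp h1
    have h4' : F.T ω = F.T ν := h4
    have h5' : F.Z ω = F.Z ν := h5
    refine ⟨?_, ?_⟩
    · rw [← tw_rt F hWJ, ← tw_rt F hWJ]
      exact tw_of_T F h4'
    · unfold ctx
      have h6 : (slam F W ω).2 = (slam F W ν).2 := by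
        show (F.Z ω, F.T1 W ω) = (F.Z ν, F.T1 W ν)
        unfold Fam.T1
        rw [h4', h5']
      rw [h2, h3, h6]
  obtain ⟨a1, a2⟩ := hac (F := F) (c := c) (q := q) (w := w) (W := W) (X := X) (mm := mm)
    (γ := γ) (H := H) (gg := fun ω _ => gg ω) (tp := fun ω _ => tp ω) (zw := zw) (sd := sd)
    (Xt := fun _ => X) hp wW hWJ deg DK he1 hc2
  have P : PrP F c (mv0 r) (fun _ : Fin 1 => X) q w W X mm D K γ B G₀ H (fun ω _ => gg ω)
      (fun ω _ => tp ω) (ctx F W zw sd) zw (fun ω => (sd ω, F.W ω)) Cj Cx Rj Rx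
      (Vm F c (mv0 r) w H fun l => nb l * J) (fun ω => ⌊(tp ω).eval (rt F W ω)⌋)
      (fun ω => ⌊(2 : ℝ) ^ X * (tp ω).eval (rt F W ω)⌋) p (fun l => Nf l) (fun l => Nn l)
      (fun l => Nn l) (fun l => Nu l) (fun l => Nv l) U (r * (X * Real.log 2)) e' :=
    { law := hp
      sup := sup
      wW := wW
      WJ := hWJ
      deg := deg
      dP := fun ω hω _ => S.dP ω hω
      DK := DK
      KX := by
        have h1 : (K : ℝ) ≤ 2 ^ K := by exact_mod_cast Nat.lt_two_pow_self.le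
        exact h1.trans (pow_le_pow_right₀ (by norm_num) (by omega))
      Xtm := fun _ => le_rfl
      cls := fun ω hω j => cls ω hω j j.2
      grd := S.grd
      mU := mU
      zT := hzT
      czy := by
        rw [CH_eq_zero h0 fun ω ν _ _ hh => by
          simp only [Prod.mk.injEq] at hh
          obtain ⟨b1, b2⟩ := key2 hh.2.2 hh.1 hh.2.1
          exact Prod.ext b1 b2]
        linarith
      cyz := by
        rw [CH_eq_zero h0 fun ω ν _ _ hh => by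
          simp only [Prod.mk.injEq] at hh
          obtain ⟨b1, b2, b3⟩ := key1 hh.1 hh.2
          exact Prod.ext b1 (Prod.ext b2 b3)]
        linarith
      ti := by
        have := adP_ti (c := c) (mv := mv0 r) (Xt := fun _ : Fin 1 => X) (q := q) (w := w)
          (X := X) (mm := mm) (γ := γ) (gg := fun ω _ => gg ω) (H := H) hp T hz htp hzT K
        rw [he']
        linarith
      mj := by
        have h1 := mi_side h0 Rj
          (A := fun ω => ((jh F c r w H (fun l => Nf l 0) ω, jv F c r w H (fun l => Nf l 1) ω),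
            ⌊(2 : ℝ) ^ X * (tp ω).eval (rt F W ω)⌋))
          (A' := fun ω => (jetm F c (mv0 r) w H (fun l => Nf l) ω,
            ⌊(2 : ℝ) ^ X * (tp ω).eval (rt F W ω)⌋)) (s := fun _ => ())
          (W := fun ω => (((jh F c r w H (fun l => Nn l 0) ω, jv F c r w H (fun l => Nn l 1) ω),
            ⌊(tp ω).eval (rt F W ω)⌋), (zw ω, (sd ω, F.W ω))))
          (W' := fun ω => ((jetm F c (mv0 r) w H (fun l => Nn l) ω,
            ⌊(tp ω).eval (rt F W ω)⌋), (zw ω, (sd ω, F.W ω)))) (e := 0)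
          (fun ω ν hω hν hh => by
            obtain ⟨b1, b2⟩ := Prod.ext_iff.mp (Prod.ext_iff.mp hh).1
            exact Prod.ext (jhv_jetm Nf ω ν hω hν b1) b2)
          (fun ω ν hω hν hh => by
            obtain ⟨b1, b2⟩ := Prod.ext_iff.mp hh
            obtain ⟨b3, b4⟩ := Prod.ext_iff.mp b1
            exact Prod.ext (Prod.ext (jetm_jhv Nn ω ν hω hν b3) b4) b2)
          (fun ω ν hω hν hh => by
            obtain ⟨b1, b2⟩ := Prod.ext_iff.mp (Prod.ext_iff.mp hh).1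
            exact Prod.ext (jetm_jhv Nf ω ν hω hν b1) b2)
          (fun ω ν hω hν hh => by
            obtain ⟨b1, b2⟩ := Prod.ext_iff.mp (Prod.ext_iff.mp hh).2
            obtain ⟨b3, b4⟩ := Prod.ext_iff.mp b1
            exact Prod.ext (Prod.ext (jhv_jetm Nn ω ν hω hν b3) b4) b2)
          (le_of_eq (CH_eq_zero h0 fun _ _ _ _ _ => rfl))
        have h2 := S.out.mj
        linarith
      mx := by
        have h1 := mi_side h0 Rx
          (A := fun ω => (jh F c r w H (fun l => Nf l 0) ω, jv F c r w H (fun l => Nf l 1) ω))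
          (A' := jetm F c (mv0 r) w H (fun l => Nf l)) (s := fun _ => ())
          (W := fun ω => ((jh F c r w H (fun l => Nn l 0) ω, jv F c r w H (fun l => Nn l 1) ω),
            (zw ω, (sd ω, F.W ω))))
          (W' := fun ω => (jetm F c (mv0 r) w H (fun l => Nn l) ω, (zw ω, (sd ω, F.W ω))))
          (e := 0)
          (fun ω ν hω hν hh => jhv_jetm Nf ω ν hω hν (Prod.ext_iff.mp hh).1)
          (fun ω ν hω hν hh => by
            obtain ⟨b1, b2⟩ := Prod.ext_iff.mp hh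
            exact Prod.ext (jetm_jhv Nn ω ν hω hν b1) b2)
          (fun ω ν hω hν hh => jetm_jhv Nf ω ν hω hν (Prod.ext_iff.mp hh).1)
          (fun ω ν hω hν hh => by
            obtain ⟨b1, b2⟩ := Prod.ext_iff.mp (Prod.ext_iff.mp hh).2
            exact Prod.ext (jhv_jetm Nn ω ν hω hν b1) b2)
          (le_of_eq (CH_eq_zero h0 fun _ _ _ _ _ => rfl))
        have h2 := S.out.mx
        linarith
      chj := S.chj.trans hee
      chx := S.chx.trans hee
      zx := S.zx.trans hee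
      n0 := fun j => n0 j j.2
      n1 := fun j => n1 j j.2
      x0 := fun j => n0 j j.2
      x1 := fun j => n1 j j.2
      u0 := fun j => u0 j j.2
      u1 := fun j => u1 j j.2
      tn := by
        have h1 := tn_few (K := K) hp (adP F c (mv0 r) (fun _ : Fin 1 => X) q w W X mm γ
          (fun ω _ => gg ω) H (fun ω _ => tp ω) (ctx F W zw sd)) (X := X) rfl S.dP
          (fun ω _ => hth ω)
        refine le_trans h1 ?_
        rw [he']
        linarith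
      tf := by
        rw [CH_eq_zero h0 fun ω ν _ _ hh => by
          funext _
          exact (Prod.ext_iff.mp (Prod.ext_iff.mp hh).1).2]
        linarith
      ac := by
        have := a1 Nf f0 f1
        rw [he']
        linarith
      va := by
        have := a2 Nv v0 v1
        rw [he']
        linarith
      dj := by
        refine le_trans ?_ (S.dj.trans hee)
        refine (CH_mono_left h0 fun ω ν _ _ hh => ?_).trans (CH_mono_cond h0
          fun ω ν hω hν hh => ?_)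
        · have b1 := (Prod.ext_iff.mp hh).1
          funext _ a
          exact congrFun b1 a
        · obtain ⟨b1, b2⟩ := Prod.ext_iff.mp hh
          obtain ⟨b3, b4⟩ := Prod.ext_iff.mp b2
          obtain ⟨b5, b6, b7⟩ := key1 b3 b4
          exact Prod.ext (jetm_jhv Nf ω ν hω hν b1) (Prod.ext b6 (Prod.ext b5 b7))
      jt := by
        refine le_trans ?_ (S.jt.trans hee)
        refine (CH_mono_left h0 fun ω ν _ _ hh => ?_).trans (CH_mono_cond h0
          fun ω ν hω hν hh => ?_)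
        · have b1 := (Prod.ext_iff.mp hh).1
          funext _ a
          exact congrFun b1 a
        · obtain ⟨b1, b2⟩ := Prod.ext_iff.mp hh
          obtain ⟨b8, b9⟩ := Prod.ext_iff.mp b2
          obtain ⟨b3, b4⟩ := Prod.ext_iff.mp b9
          obtain ⟨b5, b6, b7⟩ := key1 b3 b4
          exact Prod.ext (jetm_jhv Nu ω ν hω hν b1) (Prod.ext b6 (Prod.ext b8 b7))
      vf := by
        have h1 := S.vf
        have h2 := CH_ge h0 (Vv F c r w H fun l => nb l * J) (jh F c r w H fun l => Nv l 0)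
          (fun ω => ((jh F c r w H (fun l => Nn l 0) ω, jv F c r w H (fun l => Nn l 1) ω),
            (Rx ω, (sd ω, F.W ω))))
        have h3 := CH_jh hp hv0 hd0 (fun ω => ((jh F c r w H (fun l => Nn l 0) ω,
          jv F c r w H (fun l => Nn l 1) ω), (Rx ω, (sd ω, F.W ω)))) (fun ω ν _ _ e =>
            (Prod.ext_iff.mp (Prod.ext_iff.mp e).1).1)
        have h4 : CH p (Vv F c r w H fun l => nb l * J) (fun ω => (jh F c r w H (fun l => Nv l 0) ω,
            ((jh F c r w H (fun l => Nn l 0) ω, jv F c r w H (fun l => Nn l 1) ω),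
              (Rx ω, (sd ω, F.W ω))))) ≤
            CH p (Vm F c (mv0 r) w H fun l => nb l * J)
              (fun ω => (jetm F c (mv0 r) w H (fun l => Nv l) ω, (Rx ω, (sd ω, F.W ω)))) := by
          refine CH_mono_cond h0 fun ω ν hω hν hh => ?_
          simp only [Prod.mk.injEq] at hh
          have e1 : (fun l : ℕ => Nv l 1) = fun l => Nn l 1 := funext hv1
          refine Prod.ext (jhv_jetm Nv ω ν hω hν (Prod.ext hh.1 ?_)) (Prod.ext hh.2.2.1
            (Prod.ext hh.2.2.2.1 hh.2.2.2.2))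
          simp only [e1]
          exact hh.2.1.2
        rw [he']
        linarith }
  have hcE := (hB U mm S.grd.U0 (by linarith)).1
  have hEv : Evp 1 r K U e' ≤ ι₀ * X := by
    have h1 : 2 * B₁ + (2 + r) * cV K ≤ ι₀ / 4 * X := by
      have h2 := hX2.trans hXX2
      rw [div_le_iff₀ (by linarith)] at h2
      linarith
    have h3 : 8 * e' ≤ ι₀ / 4 * X := by
      have h4 : 32 * ι * X ≤ ι₀ * X := mul_le_mul_of_nonneg_right hι2 hX0
      linarith
    have h5 : 2 * ((r + 1) * (mm : ℝ)) ≤ ι₀ / 16 * X := by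
      have h6 : 2 * ((r : ℝ) + 2) * mm ≤ 2 * (r + 2) * (ι * X) :=
        mul_le_mul_of_nonneg_left hmm (by positivity)
      have h7 : 2 * ((r : ℝ) + 2) * (ι * X) = ι₀ / 16 * X := by
        rw [← hι1]
        ring
      have h8 : 2 * (((r : ℝ) + 1) * mm) ≤ 2 * (r + 2) * mm := by
        have : (0 : ℝ) ≤ mm := Nat.cast_nonneg mm
        linarith
      linarith
    have h9 : 0 ≤ ι₀ * X := by positivity
    unfold Evp
    push_cast
    linarith
  have hιX : ι * X ≤ ι₀ * X := mul_le_mul_of_nonneg_right (by linarith) hX0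
  obtain ⟨mu, m1, m2, m3, m4⟩ := Hm P (0 : Fin 1) (Qr := fun ω => (sd ω, (zw ω, F.W ω)))
    (Ur := Ur) (ψ := ψ) (ε₀ := ε₀) (j₀ := j₀) (fun j => nb1 j j.2) (fun j => nb2 j j.2)
    (fun ω _ u hu => absurd (Subsingleton.elim u 0) hu)
    (fun ω ν _ _ hh => by
      obtain ⟨b1, b2⟩ := Prod.ext_iff.mp hh
      obtain ⟨b3, b4⟩ := Prod.ext_iff.mp b2
      obtain ⟨b5, b6, b7⟩ := key1 b1 b3
      exact Prod.ext b6 (Prod.ext b5 b7))
    (fun E hE => by
      have hE0 : ∀ ω, 0 ≤ rs p E ω := fun ω => cond_nonneg h0 _ _ ω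
      refine le_trans ((CH_mono_cond hE0 (W := fun ω => (⌊(tp ω).eval (rt F W ω)⌋,
        (Vv F c r w H (fun l => nb l * J) ω, (sd ω, (zw ω, F.W ω)))))
        fun ω ν _ _ hh => ?_)) (S.row E hE)
      obtain ⟨b1, b2⟩ := Prod.ext_iff.mp hh
      obtain ⟨b3, b4⟩ := Prod.ext_iff.mp b1
      refine Prod.ext ?_ b2
      have g2 : ∀ x : ℝ, (⌊(2 : ℝ) ^ X * x⌋ / 2 ^ X : ℤ) = ⌊x⌋ := by
        intro x
        have g3 := Int.floor_div_natCast ((2 : ℝ) ^ X * x) (2 ^ X)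
        have g4 : (2 : ℝ) ^ X * x / ((2 ^ X : ℕ) : ℝ) = x := by
          push_cast
          field_simp
        rw [g4] at g3
        push_cast at g3
        exact g3.symm
      have b5 : (⌊(2 : ℝ) ^ X * (tp ω).eval (rt F W ω)⌋ / 2 ^ X : ℤ) =
        ⌊(2 : ℝ) ^ X * (tp ν).eval (rt F W ν)⌋ / 2 ^ X := b3
      rw [g2, g2] at b5
      exact b5)
    T hz htp hXX1 (by omega) (by
      have : ψ * J ≤ e' := by rw [he']; linarith
      linarith) (hmm.trans hιX) hEv (by linarith)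
  exact ⟨mu, m1, m2, m3, m4⟩

end Pool.V0S
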