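import Pool.Agent.H87.V0S.Sg

/-!
# The path of the target in a later window

`plW_trans`, `plW_mul`: a polynomial in the time of a window, written in later windows. `tpE_up`: the
path of the target in the window `W` is that of `W₁` written in `W`.
-/

set_option autoImplicit false

namespace Pool.V0S

open Finset Real MvPolynomial
open Pool.Agent.H49.Ent Pool.Agent.H32.Dense
open Pool.STK hiding pr2
open Pool.KA Pool.KSAT Pool.K2S Pool.PB Pool.S6C
open Pool.GEN Pool.CHT Pool.CHX Pool.ISO Pool.LA91 Pool.AVG71 Pool.AVG5 Pool.D2F2 Pool.AVG57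
open Pool.AVG66
open Pool.D2R (hgt gnh)
open Pool.PB.Trl (rt rt_mem t_rt)

variable {m J : ℕ}

theorem plW_ev (F : Fam m J) (w W : ℕ) (P : Polynomial ℝ) (ω : F.Ω) (τ : ℝ) :
    (plW F w W P ω).eval τ = P.eval (ofs F w W ω + 1 / 2 ^ (W - w) * τ) := by
  have h2 : (Polynomial.C (1 / 2 ^ (W - w) : ℝ) * Polynomial.X).eval τ = 1 / 2 ^ (W - w) * τ := by
    simp
  unfold plW
  rw [Polynomial.eval_comp, h2, Polynomial.taylor_eval, add_comm]

theorem plW_mul (F : Fam m J) (w W : ℕ) (P Q : Polynomial ℝ) (ω : F.Ω) :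
    plW F w W (P * Q) ω = plW F w W P ω * plW F w W Q ω := by
  refine Polynomial.funext fun τ => ?_
  rw [Polynomial.eval_mul, plW_ev, plW_ev, plW_ev, Polynomial.eval_mul]

theorem plW_C (F : Fam m J) (w W : ℕ) (a : ℝ) (ω : F.Ω) :
    plW F w W (Polynomial.C a) ω = Polynomial.C a := by
  refine Polynomial.funext fun τ => ?_
  rw [plW_ev, Polynomial.eval_C, Polynomial.eval_C]

theorem plW_sum (F : Fam m J) (w W : ℕ) {ι : Type} (s : Finset ι) (P : ι → Polynomial ℝ)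
    (ω : F.Ω) : plW F w W (∑ i ∈ s, P i) ω = ∑ i ∈ s, plW F w W (P i) ω := by
  refine Polynomial.funext fun τ => ?_
  rw [plW_ev, Polynomial.eval_finsetSum, Polynomial.eval_finsetSum]
  exact Finset.sum_congr rfl fun i _ => (plW_ev F w W (P i) ω τ).symm

theorem ofs_trans (F : Fam m J) {w W₁ W : ℕ} (h : w ≤ W₁) (h1 : W₁ ≤ W) (ω : F.Ω) :
    ofs F w W ω = ofs F w W₁ ω + 1 / 2 ^ (W₁ - w) * ofs F W₁ W ω := by
  have e1 : (2 : ℝ) ^ (W - w) = 2 ^ (W₁ - w) * 2 ^ (W - W₁) := by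
    rw [← pow_add]
    congr 1
    omega
  unfold ofs
  rw [e1]
  field_simp
  ring

theorem plW_trans (F : Fam m J) {w W₁ W : ℕ} (h : w ≤ W₁) (h1 : W₁ ≤ W) (P : Polynomial ℝ)
    (ω : F.Ω) : plW F W₁ W (plW F w W₁ P ω) ω = plW F w W P ω := by
  refine Polynomial.funext fun τ => ?_
  have e1 : (2 : ℝ) ^ (W - w) = 2 ^ (W₁ - w) * 2 ^ (W - W₁) := by
    rw [← pow_add]
    congr 1
    omega
  rw [plW_ev, plW_ev, plW_ev, ofs_trans F h h1, e1]
  congr 1
  field_simp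
  ring

section

variable {F : Fam m J} {c : ℕ → Fin m} {k i q w Wm W₁ W K Km YM D : ℕ} {N γ : ℕ → ℕ}
  {H : LnT F → ℕ → MvPolynomial (Option (Fin m)) ℝ} {mu : LnT F → ℕ → Polynomial ℝ}

theorem dv_upW (hw : w ≤ W₁) (h1 : W₁ ≤ W) (hW : W ≤ J) (l : ℕ) (ω : F.Ω) :
    dv W (fun s (_ : Fin m) => H (upw w W s) l) (c l) (slam F W ω) =
      plW F W₁ W (dv W₁ (fun s (_ : Fin m) => H (upw w W₁ s) l) (c l) (slam F W₁ ω)) ω := by
  have e1 := dv_up F (hw.trans h1) hW (fun s => H s l) (c l) ω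
  have e2 := dv_up F hw (h1.trans hW) (fun s => H s l) (c l) ω
  rw [e1, e2]
  exact (plW_trans F hw h1 _ ω).symm

/-- **The path of the target in a later window.** -/
theorem tpE_up (hw : w ≤ W₁) (hwm : Wm ≤ W₁) (h1 : W₁ ≤ W) (hW : W ≤ J) (ω : F.Ω) :
    tpE F c k i q w Wm K Km YM N γ H mu W ω =
      plW F W₁ W (tpE F c k i q w Wm K Km YM N γ H mu W₁ ω) ω := by
  unfold tpE
  rw [plW_sub, plW_mul, plW_C, plW_sum, dv_upW hw h1 hW]
  congr 1
  refine Finset.sum_congr rfl fun l _ => ?_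
  unfold RU rsu mcW
  rw [plW_mul, plW_sub, plW_mul, plW_mul, plW_C, dv_upW hw h1 hW, plW_trans F hwm h1,
    plW_trans F hw h1]

end

end Pool.V0S
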