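import Pool.Agent.H87.V0S.Ea
import Pool.Agent.H87.V0S.Nd
import Pool.Agent.H44.V0F.Ev2
import Pool.Agent.H44.V0F.Cla

/-!
# Near codes from near jets

`coef_of_jets`: the coefficients of a polynomial from its value, its derivative and its coefficients of
order at least two. `cdV`: the near codes of the slope-one places; `cdV_few`: they are few bits given
the near path; `nrP_few`: the near path is few bits given the near codes.
-/

set_option autoImplicit false

namespace Pool.V0S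

open Finset Real MvPolynomial
open Pool.Agent.H49.Ent Pool.Agent.H32.Dense
open Pool.STK hiding pr2
open Pool.KA Pool.KSAT Pool.K2S Pool.PB Pool.S6C
open Pool.GEN Pool.CHT Pool.CHX Pool.ISO Pool.LA91 Pool.AVG71 Pool.AVG5 Pool.D2F2 Pool.AVG57
open Pool.AVG66 Pool.V0F Pool.AVG96 Pool.RCD
open Pool.D2R (hgt gnh)
open Pool.PB.Trl (rt rt_mem t_rt)

/-- **The coefficients** from the value, the derivative and the higher coefficients. -/
theorem coef_of_jets {n : ℕ} {R : Polynomial ℝ} (hR : R.natDegree ≤ n + 1) {t C : ℝ}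
    (ht : 0 ≤ t ∧ t ≤ 1) (hC : 0 ≤ C) (h0 : |R.eval t| ≤ C) (h1 : |R.derivative.eval t| ≤ C)
    (h2 : ∀ a, 2 ≤ a → |R.coeff a| ≤ 1) (a : ℕ) :
    |R.coeff a| ≤ 2 * C + ((n : ℝ) + 1) * (n + 2) + 1 := by
  have hn0 : (0 : ℝ) ≤ n := Nat.cast_nonneg n
  have tp : ∀ b : ℕ, 0 ≤ t ^ b ∧ t ^ b ≤ 1 := fun b =>
    ⟨pow_nonneg ht.1 b, pow_le_one₀ ht.1 ht.2⟩
  -- the derivative
  have e1 : R.derivative.eval t = R.coeff 1 + ∑ b ∈ range n,
      R.coeff (b + 2) * ((b : ℝ) + 2) * t ^ (b + 1) := by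
    have hd : R.derivative.natDegree < n + 1 := by
      have := Polynomial.natDegree_derivative_le R
      omega
    rw [Polynomial.eval_eq_sum_range' hd, Finset.sum_range_succ']
    simp only [Polynomial.coeff_derivative, Nat.cast_zero, zero_add, mul_one, pow_zero]
    rw [add_comm]
    congr 1
    refine Finset.sum_congr rfl fun b _ => ?_
    push_cast
    ring
  have b1 : |∑ b ∈ range n, R.coeff (b + 2) * ((b : ℝ) + 2) * t ^ (b + 1)| ≤
      n * ((n : ℝ) + 1) := by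
    refine (Finset.abs_sum_le_sum_abs _ _).trans ?_
    refine (Finset.sum_le_sum (g := fun _ => (n : ℝ) + 1) fun b hb => ?_).trans (le_of_eq ?_)
    · rw [mem_range] at hb
      have hb' : (b : ℝ) + 1 ≤ n := by exact_mod_cast hb
      have hb0 : (0 : ℝ) ≤ b := Nat.cast_nonneg b
      rw [abs_mul, abs_mul, abs_of_nonneg (show (0 : ℝ) ≤ (b : ℝ) + 2 by linarith),
        abs_of_nonneg (tp (b + 1)).1]
      calc |R.coeff (b + 2)| * ((b : ℝ) + 2) * t ^ (b + 1) ≤ 1 * ((n : ℝ) + 1) * 1 := by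
            refine mul_le_mul (mul_le_mul (h2 _ (by omega)) (by linarith) (by linarith)
              (by norm_num)) (tp (b + 1)).2 (tp (b + 1)).1 (by linarith)
        _ = (n : ℝ) + 1 := by ring
    · rw [Finset.sum_const, card_range, nsmul_eq_mul]
  have c1 : |R.coeff 1| ≤ C + n * ((n : ℝ) + 1) := by
    have e2 : R.coeff 1 = R.derivative.eval t - ∑ b ∈ range n,
      R.coeff (b + 2) * ((b : ℝ) + 2) * t ^ (b + 1) := by rw [e1]; ring
    rw [e2]
    exact (abs_sub _ _).trans (add_le_add h1 b1)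
  -- the value
  have e3 : R.eval t = R.coeff 0 + (R.coeff 1 * t + ∑ b ∈ range n,
      R.coeff (b + 2) * t ^ (b + 2)) := by
    rw [Polynomial.eval_eq_sum_range' (show R.natDegree < n + 1 + 1 by omega),
      Finset.sum_range_succ', Finset.sum_range_succ']
    simp only [zero_add, pow_zero, mul_one, pow_one]
    ring
  have b2 : |∑ b ∈ range n, R.coeff (b + 2) * t ^ (b + 2)| ≤ n := by
    refine (Finset.abs_sum_le_sum_abs _ _).trans ?_
    refine (Finset.sum_le_sum (g := fun _ => (1 : ℝ)) fun b hb => ?_).trans (le_of_eq ?_)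
    · rw [abs_mul, abs_of_nonneg (tp (b + 2)).1]
      calc |R.coeff (b + 2)| * t ^ (b + 2) ≤ 1 * 1 :=
            mul_le_mul (h2 _ (by omega)) (tp (b + 2)).2 (tp (b + 2)).1 (by norm_num)
        _ = 1 := by ring
    · rw [Finset.sum_const, card_range, nsmul_eq_mul, mul_one]
  have c0 : |R.coeff 0| ≤ 2 * C + n * ((n : ℝ) + 1) + n := by
    have e4 : R.coeff 0 = R.eval t - (R.coeff 1 * t + ∑ b ∈ range n,
      R.coeff (b + 2) * t ^ (b + 2)) := by rw [e3]; ring
    rw [e4]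
    have h3 : |R.coeff 1 * t| ≤ C + n * ((n : ℝ) + 1) := by
      rw [abs_mul, abs_of_nonneg ht.1]
      calc |R.coeff 1| * t ≤ (C + n * ((n : ℝ) + 1)) * 1 :=
            mul_le_mul c1 ht.2 ht.1 (by positivity)
        _ = _ := mul_one _
    have h4 := abs_add_le (R.coeff 1 * t) (∑ b ∈ range n, R.coeff (b + 2) * t ^ (b + 2))
    have h5 := abs_sub (R.eval t) (R.coeff 1 * t + ∑ b ∈ range n, R.coeff (b + 2) * t ^ (b + 2))
    linarith
  have hnn : 0 ≤ (n : ℝ) * (n + 1) := by positivity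
  have hcc : ((n : ℝ) + 1) * (n + 2) = n * (n + 1) + 2 * n + 2 := by ring
  rcases Nat.lt_or_ge a 2 with ha | ha
  · interval_cases a
    · linarith
    · linarith
  · have := h2 a ha
    rw [hcc]
    linarith

/-! ### The near codes -/

variable {m J : ℕ}

/-- **The near codes** of the slope-one places in the window `W`. -/
noncomputable def cdV (F : Fam m J) (c : ℕ → Fin m) (k w W K : ℕ) (N : ℕ → ℕ)
    (H : LnT F → ℕ → MvPolynomial (Option (Fin m)) ℝ) (ω : F.Ω) (l : Fin k) (a : Fin (K + 1)) : ℤ :=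
  ⌊(2 : ℝ) ^ N l * (dv W (fun s (_ : Fin m) => H (upw w W s) l) (c l) (slam F W ω)).coeff a⌋

section

variable {F : Fam m J} {c : ℕ → Fin m} {k w W D : ℕ} {N : ℕ → ℕ}
  {H : LnT F → ℕ → MvPolynomial (Option (Fin m)) ℝ} {p : F.Ω → ℝ}

theorem cdV_slam {K : ℕ} : Det p (slam F W) (cdV F c k w W K N H) := by
  intro ω ν _ _ e
  funext l a
  unfold cdV
  rw [e]

theorem dvH_deg (hH : ∀ s l, (H s l).totalDegree ≤ D) (l : ℕ) (ω : F.Ω) :
    (dv W (fun s (_ : Fin m) => H (upw w W s) l) (c l) (slam F W ω)).natDegree ≤ D + 1 :=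
  natDegree_dv W (G := fun s (_ : Fin m) => H (upw w W s) l) (fun _ _ => hH _ _) _ _

theorem dv_val (hw : w ≤ W) (hW : W ≤ J) (l : ℕ) (ω : F.Ω) :
    (dv W (fun s (_ : Fin m) => H (upw w W s) l) (c l) (slam F W ω)).eval (rt F W ω) =
      ojet F (c l) 0 (H (slam F w ω) l) ω := by
  have h1 := Pool.V0C62.jt_upw F hw hW (V := LnT F) (fun s => s) (fun s => H s l) (c l) ω 0
  rw [Pool.AVG5.jt_zero] at h1
  rw [h1]
  simp

theorem dv_der (hw : w ≤ W) (hW : W ≤ J) (l : ℕ) (ω : F.Ω) :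
    (dv W (fun s (_ : Fin m) => H (upw w W s) l) (c l) (slam F W ω)).derivative.eval (rt F W ω) =
      ojet F (c l) 1 (H (slam F w ω) l) ω / 2 ^ W := by
  have h1 := Pool.V0C62.jt_upw F hw hW (V := LnT F) (fun s => s) (fun s => H s l) (c l) ω 1
  rw [Pool.AVG5.jt_one] at h1
  rw [h1]
  simp

theorem dig_sub {a x y : ℝ} (h : ⌊(2 : ℝ) ^ a * x⌋ = ⌊(2 : ℝ) ^ a * y⌋) :
    |x - y| ≤ 2 ^ (-a) := by
  have pa : (0 : ℝ) < 2 ^ a := Real.rpow_pos_of_pos two_pos _
  have f1 := Int.floor_le ((2 : ℝ) ^ a * x)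
  have f2 := Int.lt_floor_add_one ((2 : ℝ) ^ a * x)
  have f3 := Int.floor_le ((2 : ℝ) ^ a * y)
  have f4 := Int.lt_floor_add_one ((2 : ℝ) ^ a * y)
  rw [h] at f1 f2
  have h1 : |(2 : ℝ) ^ a * (x - y)| ≤ 1 := by
    rw [mul_sub, abs_le]
    constructor <;> linarith
  rw [abs_mul, abs_of_pos pa] at h1
  rw [Real.rpow_neg two_pos.le, ← one_div, le_div_iff₀ pa, mul_comm]
  exact h1

/-- The near codes of two samples with the same near path. -/
theorem cdV_pair (hw : w ≤ W) (hW : W ≤ J) (hH : ∀ s l, (H s l).totalDegree ≤ D)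
    {n v : ℕ → ℝ} {ω ν : F.Ω} {l : Fin k} (hn : (N l : ℝ) ≤ n l * J)
    (hv : (N l : ℝ) ≤ v l * J + W + 1) (ht : rt F W ω = rt F W ν)
    (e0 : jh F c k w H n ω = jh F c k w H n ν) (e1 : jv F c k w H v ω = jv F c k w H v ν)
    (e2 : Pool.AVG71.cod F W 2 (D + 1) (2 ^ N l) (c l) (fun s => upw w W s) (fun s => H s l) ω =
      Pool.AVG71.cod F W 2 (D + 1) (2 ^ N l) (c l) (fun s => upw w W s) (fun s => H s l) ν)
    (a : Fin (D + 1 + 1)) :
    |((cdV F c k w W (D + 1) N H ω l a : ℤ) : ℝ) - (cdV F c k w W (D + 1) N H ν l a : ℤ)| ≤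
      2 * 2 + ((D : ℝ) + 1) * (D + 2) + 1 + 1 := by
  obtain ⟨P, hP⟩ : ∃ P, P = dv W (fun s (_ : Fin m) => H (upw w W s) l) (c l) (slam F W ω) :=
    ⟨_, rfl⟩
  obtain ⟨Q, hQ⟩ : ∃ Q, Q = dv W (fun s (_ : Fin m) => H (upw w W s) l) (c l) (slam F W ν) :=
    ⟨_, rfl⟩
  have p2 : (0 : ℝ) < 2 ^ N l := by positivity
  have hlk : (l : ℕ) < k := l.isLt
  obtain ⟨R, hR⟩ : ∃ R, R = Polynomial.C ((2 : ℝ) ^ N l) * (P - Q) := ⟨_, rfl⟩
  have hRd : R.natDegree ≤ D + 1 := by
    rw [hR]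
    refine (Polynomial.natDegree_C_mul_le _ _).trans ((Polynomial.natDegree_sub_le _ _).trans
      (max_le ?_ ?_))
    · rw [hP]
      exact dvH_deg hH l ω
    · rw [hQ]
      exact dvH_deg hH l ν
  have hRc : ∀ b, R.coeff b = 2 ^ N l * P.coeff b - 2 ^ N l * Q.coeff b := fun b => by
    rw [hR, Polynomial.coeff_C_mul, Polynomial.coeff_sub]
    ring
  have hval : |R.eval (rt F W ω)| ≤ 2 := by
    have h1 := congrFun (congrFun e0 (l : ℕ)) 0
    unfold jh at h1
    rw [if_pos ⟨hlk, rfl⟩, if_pos ⟨hlk, rfl⟩] at h1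
    have h2 := dig_sub h1
    rw [hR, Polynomial.eval_mul, Polynomial.eval_C, Polynomial.eval_sub, hP, hQ, dv_val hw hW, ht,
      dv_val hw hW, abs_mul, abs_of_pos p2]
    calc _ ≤ (2 : ℝ) ^ N l * 2 ^ (-(n l * J)) := mul_le_mul_of_nonneg_left h2 p2.le
      _ = 2 ^ ((N l : ℝ) + -(n l * J)) := by
          rw [Real.rpow_add two_pos, Real.rpow_natCast]
      _ ≤ 2 ^ (1 : ℝ) := Real.rpow_le_rpow_of_exponent_le one_le_two (by linarith)
      _ = 2 := Real.rpow_one 2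
  have hder : |R.derivative.eval (rt F W ω)| ≤ 2 := by
    have h1 := congrFun e1 l
    unfold jv at h1
    have h2 := dig_sub h1
    rw [hR, Polynomial.derivative_C_mul, Polynomial.eval_mul, Polynomial.eval_C,
      Polynomial.derivative_sub, Polynomial.eval_sub, hP, hQ, dv_der hw hW, ht, dv_der hw hW,
      abs_mul, abs_of_pos p2, ← sub_div, abs_div, abs_of_pos (show (0 : ℝ) < 2 ^ W by positivity)]
    calc _ ≤ (2 : ℝ) ^ N l * (2 ^ (-(v l * J)) / 2 ^ W) :=
          mul_le_mul_of_nonneg_left (div_le_div_of_nonneg_right h2 (by positivity)) p2.le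
      _ = 2 ^ ((N l : ℝ) + (-(v l * J) - W)) := by
          rw [Real.rpow_add two_pos, Real.rpow_sub two_pos, Real.rpow_natCast, Real.rpow_natCast]
      _ ≤ 2 ^ (1 : ℝ) := Real.rpow_le_rpow_of_exponent_le one_le_two (by linarith)
      _ = 2 := Real.rpow_one 2
  have hhi : ∀ b, 2 ≤ b → |R.coeff b| ≤ 1 := by
    intro b hb
    rcases Nat.lt_or_ge (D + 1) b with h | h
    · rw [Polynomial.coeff_eq_zero_of_natDegree_lt (by omega), abs_zero]
      norm_num
    · have h1 := congrFun e2 ⟨b, by omega⟩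
      unfold Pool.AVG71.cod at h1
      rw [if_pos hb, if_pos hb] at h1
      rw [hRc]
      obtain ⟨x, hx⟩ : ∃ x, x = (2 : ℝ) ^ N l * P.coeff b := ⟨_, rfl⟩
      obtain ⟨y, hy⟩ : ∃ y, y = (2 : ℝ) ^ N l * Q.coeff b := ⟨_, rfl⟩
      have h2 : ⌊x⌋ = ⌊y⌋ := by
        rw [hx, hy, hP, hQ]
        exact h1
      rw [← hx, ← hy]
      have f1 := Int.floor_le x
      have f2 := Int.lt_floor_add_one x
      have f3 := Int.floor_le y
      have f4 := Int.lt_floor_add_one y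
      rw [h2] at f1 f2
      rw [abs_le]
      constructor <;> linarith
  have h5 := coef_of_jets (n := D) hRd (rt_mem F W ω) (C := 2) (by norm_num) hval hder hhi (a : ℕ)
  rw [hRc, hP, hQ] at h5
  unfold cdV
  exact fl_near h5

/-- **The near codes are few bits given the near path.** -/
theorem cdV_few (hp : IsLaw p) (hw : w ≤ W) (hW : W ≤ J) (hH : ∀ s l, (H s l).totalDegree ≤ D)
    {n v : ℕ → ℝ} (hn : ∀ l < k, (N l : ℝ) ≤ n l * J) (hv : ∀ l < k, (N l : ℝ) ≤ v l * J + W + 1)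
    {e : ℝ} (he : ∀ l < k, CH p (Pool.AVG71.cod F W 2 (D + 1) (2 ^ N l) (c l)
      (fun s => upw w W s) (fun s => H s l)) F.W ≤ e) {β : Type} {Z : F.Ω → β}
    (hZ : Det p Z (fun ω => ((jh F c k w H n ω, jv F c k w H v ω), F.W ω))) :
    CH p (cdV F c k w W (D + 1) N H) Z ≤ k * (e + ((D : ℝ) + 2) *
      Real.log (2 * (2 * 2 + ((D : ℝ) + 1) * (D + 2) + 1 + 1) + 1)) := by
  have h0 := hp.nonneg
  refine Pool.LV64.CH_pi h0 Z k (fun ω l => cdV F c k w W (D + 1) N H ω l) fun l => ?_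
  obtain ⟨C2, hC2⟩ : ∃ C2 : F.Ω → Fin (D + 1 + 1) → ℤ, C2 = Pool.AVG71.cod F W 2 (D + 1)
    (2 ^ N l) (c l) (fun s => upw w W s) (fun s => H s l) := ⟨_, rfl⟩
  have a1 := CH_le_add h0 (fun ω => cdV F c k w W (D + 1) N H ω l) C2 Z
  have a2 : CH p C2 Z ≤ e := by
    refine le_trans (CH_mono_cond h0 fun ω ν hω hν ee => ?_) (by rw [hC2]; exact he l l.isLt)
    exact (Prod.ext_iff.mp (hZ ω ν hω hν ee)).2
  have a3 := ch_vecn hp (n := D + 1 + 1) (fun ω => cdV F c k w W (D + 1) N H ω l)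
    (fun ω => (C2 ω, Z ω)) (D := 2 * 2 + ((D : ℝ) + 1) * (D + 2) + 1 + 1) (by positivity)
    fun ω ν hω hν ee a => by
      obtain ⟨e1, e2⟩ := Prod.ext_iff.mp ee
      have e3 := hZ ω ν hω hν e2
      simp only [Prod.mk.injEq] at e3
      obtain ⟨⟨g1, g2⟩, g3⟩ := e3
      refine cdV_pair hw hW hH (hn l l.isLt) (hv l l.isLt) ?_ g1 g2 ?_ a
      · have h1 : F.T ω = F.T ν := (Prod.ext_iff.mp g3).1
        unfold rt
        rw [h1]
      · rw [hC2] at e1
        exact e1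
  push_cast at a3
  have e4 : ((D : ℝ) + 1 + 1) = D + 2 := by ring
  rw [e4] at a3
  linarith

/-- The near path of two samples with the same near codes. -/
theorem nrP_pair (hw : w ≤ W) (hW : W ≤ J) (hH : ∀ s l, (H s l).totalDegree ≤ D)
    {ω ν : F.Ω} {l : Fin k} (ht : rt F W ω = rt F W ν)
    (e : cdV F c k w W (D + 1) N H ω = cdV F c k w W (D + 1) N H ν) :
    |ojet F (c l) 0 (H (slam F w ω) l) ω - ojet F (c l) 0 (H (slam F w ν) l) ν| ≤
      (D + 2) * (1 / 2 ^ N l) ∧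
    |ojet F (c l) 1 (H (slam F w ω) l) ω - ojet F (c l) 1 (H (slam F w ν) l) ν| ≤
      2 ^ W * ((D + 2) * (((D : ℝ) + 1) * (1 / 2 ^ N l))) := by
  obtain ⟨P, hP⟩ : ∃ P, P = dv W (fun s (_ : Fin m) => H (upw w W s) l) (c l) (slam F W ω) :=
    ⟨_, rfl⟩
  obtain ⟨Q, hQ⟩ : ∃ Q, Q = dv W (fun s (_ : Fin m) => H (upw w W s) l) (c l) (slam F W ν) :=
    ⟨_, rfl⟩
  have p2 : (0 : ℝ) < 2 ^ N l := by positivity
  have hPd : P.natDegree ≤ D + 1 := by rw [hP]; exact dvH_deg hH l ω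
  have hQd : Q.natDegree ≤ D + 1 := by rw [hQ]; exact dvH_deg hH l ν
  have hc : ∀ a, |(P - Q).coeff a| ≤ 1 / 2 ^ N l := by
    intro a
    rcases Nat.lt_or_ge (D + 1) a with h | h
    · rw [Polynomial.coeff_eq_zero_of_natDegree_lt (((Polynomial.natDegree_sub_le _ _).trans
        (max_le hPd hQd)).trans_lt h), abs_zero]
      positivity
    · have h1 := congrFun (congrFun e l) ⟨a, by omega⟩
      unfold cdV at h1
      rw [Polynomial.coeff_sub]
      obtain ⟨x, hx⟩ : ∃ x, x = P.coeff a := ⟨_, rfl⟩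
      obtain ⟨y, hy⟩ : ∃ y, y = Q.coeff a := ⟨_, rfl⟩
      have h2 : ⌊(2 : ℝ) ^ N l * x⌋ = ⌊(2 : ℝ) ^ N l * y⌋ := by
        rw [hx, hy, hP, hQ]
        exact h1
      have f1 := Int.floor_le ((2 : ℝ) ^ N l * x)
      have f2 := Int.lt_floor_add_one ((2 : ℝ) ^ N l * x)
      have f3 := Int.floor_le ((2 : ℝ) ^ N l * y)
      have f4 := Int.lt_floor_add_one ((2 : ℝ) ^ N l * y)
      rw [h2] at f1 f2
      have h3 : |(2 : ℝ) ^ N l * (x - y)| ≤ 1 := by
        rw [mul_sub, abs_le]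
        constructor <;> linarith
      rw [abs_mul, abs_of_pos p2] at h3
      rw [← hx, ← hy, le_div_iff₀ p2, mul_comm]
      exact h3
  have hth := rt_mem F W ω
  constructor
  · rw [← dv_val hw hW l ω, ← dv_val hw hW l ν, ← hP, ← hQ, ← ht, ← Polynomial.eval_sub]
    have h1 := eval_le_of ((Polynomial.natDegree_sub_le _ _).trans (max_le hPd hQd)) hth hc
    push_cast at h1
    have e4 : ((D : ℝ) + 1 + 1) = D + 2 := by ring
    rwa [e4] at h1
  · have g1 := dv_der (c := c) (H := H) hw hW l ω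
    have g2 := dv_der (c := c) (H := H) hw hW l ν
    rw [← hP, eq_div_iff (by positivity)] at g1
    rw [← hQ, eq_div_iff (by positivity)] at g2
    rw [← g1, ← g2, ← ht, ← sub_mul, abs_mul, abs_of_pos (show (0 : ℝ) < 2 ^ W by positivity),
      mul_comm, ← Polynomial.eval_sub, ← Polynomial.derivative_sub]
    refine mul_le_mul_of_nonneg_left ?_ (by positivity)
    have hd : (P - Q).derivative.natDegree ≤ D + 1 :=
      der_deg ((Polynomial.natDegree_sub_le _ _).trans (max_le hPd hQd))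
    have h1 := eval_le_of (U := ((D : ℝ) + 1) * (1 / 2 ^ N l)) hd hth fun a => by
      rw [Polynomial.coeff_derivative]
      rcases Nat.lt_or_ge a (D + 1) with ha | ha
      · rw [abs_mul, mul_comm]
        refine mul_le_mul ?_ (hc _) (abs_nonneg _) (by positivity)
        rw [abs_of_nonneg (by positivity)]
        have : (a : ℝ) + 1 ≤ D + 1 := by exact_mod_cast ha
        linarith
      · rw [Polynomial.coeff_eq_zero_of_natDegree_lt (((Polynomial.natDegree_sub_le _ _).trans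
          (max_le hPd hQd)).trans_lt (by omega))]
        simp only [zero_mul, abs_zero]
        positivity
    push_cast at h1
    have e4 : ((D : ℝ) + 1 + 1) = D + 2 := by ring
    rwa [e4] at h1

/-- Few digits of nearly known numbers. -/
theorem ch_dgn {Ω β : Type} [Fintype Ω] {p : Ω → ℝ} (hp : IsLaw p) (x : Ω → ℝ) (Z : Ω → β)
    {a d B : ℝ} (hd : 0 ≤ d) (hB : 0 ≤ B)
    (h : ∀ ω ν, 0 < p ω → 0 < p ν → Z ω = Z ν → |2 ^ a * (x ω - x ν)| ≤ B * 2 ^ d) :
    CH p (fun ω => ⌊(2 : ℝ) ^ a * x ω⌋) Z ≤ d * Real.log 2 + Real.log (2 * B + 3) := by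
  have p2 : (1 : ℝ) ≤ 2 ^ d := Real.one_le_rpow one_le_two hd
  have h1 := CH_pair_int hp (fun ω => ⌊(2 : ℝ) ^ a * x ω⌋) Z (D := B * 2 ^ d + 1) (by positivity)
    fun ω ν hω hν e => by
      refine fl_near ?_
      rw [← mul_sub]
      exact h ω ν hω hν e
  refine h1.trans ?_
  have h2 : 2 * (B * 2 ^ d + 1) + 1 ≤ 2 ^ d * (2 * B + 3) := by nlinarith
  refine (Real.log_le_log (by positivity) h2).trans (le_of_eq ?_)
  rw [Real.log_mul (by positivity) (by positivity), Real.log_rpow two_pos]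

/-- **The near path is few bits given the near codes.** -/
theorem nrP_few (hp : IsLaw p) (hw : w ≤ W) (hW : W ≤ J) (hH : ∀ s l, (H s l).totalDegree ≤ D)
    {n v : ℕ → ℝ} {d : ℝ} (hd : 0 ≤ d) (hn : ∀ l < k, n l * J ≤ N l + d)
    (hv : ∀ l < k, v l * J + W ≤ N l + d) {β : Type} {Z : F.Ω → β}
    (hZ : Det p Z (fun ω => (cdV F c k w W (D + 1) N H ω, F.W ω))) :
    CH p (fun ω => (jh F c k w H n ω, jv F c k w H v ω)) Z ≤
      k * (2 * (d * Real.log 2 + Real.log (2 * (((D : ℝ) + 1) * (D + 2)) + 3))) := by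
  have h0 := hp.nonneg
  have hrt : ∀ {ω ν : F.Ω}, F.W ω = F.W ν → rt F W ω = rt F W ν := by
    intro ω ν h
    have h1 : F.T ω = F.T ν := (Prod.ext_iff.mp h).1
    unfold rt
    rw [h1]
  have hD0 : (0 : ℝ) ≤ D := Nat.cast_nonneg D
  have b1 : CH p (jh F c k w H n) Z ≤ k * (d * Real.log 2 +
      Real.log (2 * (((D : ℝ) + 1) * (D + 2)) + 3)) := by
    have h1 : CH p (jh F c k w H n) Z ≤ CH p (fun ω (l : Fin k) =>
        ⌊(2 : ℝ) ^ (n l * J) * ojet F (c l) 0 (H (slam F w ω) l) ω⌋) Z := by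
      refine CH_mono_left h0 fun ω ν _ _ e => ?_
      have e1 := (Prod.ext_iff.mp e).1
      funext l j'
      unfold jh
      by_cases h : l < k ∧ j' = 0
      · rw [if_pos h, if_pos h]
        exact congrFun e1 ⟨l, h.1⟩
      · rw [if_neg h, if_neg h]
    refine h1.trans (Pool.LV64.CH_pi h0 Z k (fun ω (l : Fin k) =>
      ⌊(2 : ℝ) ^ (n l * J) * ojet F (c l) 0 (H (slam F w ω) l) ω⌋) fun l => ?_)
    refine ch_dgn hp (fun ω => ojet F (c l) 0 (H (slam F w ω) l) ω) Z hd (by positivity)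
      fun ω ν hω hν e => ?_
    have e1 := hZ ω ν hω hν e
    simp only [Prod.mk.injEq] at e1
    have h2 := (nrP_pair hw hW hH (c := c) (l := l) (hrt e1.2) e1.1).1
    rw [abs_mul, abs_of_pos (Real.rpow_pos_of_pos two_pos _)]
    refine (mul_le_mul_of_nonneg_left h2 (Real.rpow_pos_of_pos two_pos _).le).trans ?_
    have e2 : (2 : ℝ) ^ (n l * J) * (((D : ℝ) + 2) * (1 / 2 ^ N l)) =
        (D + 2) * 2 ^ (n l * J - N l) := by
      rw [Real.rpow_sub two_pos, Real.rpow_natCast]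
      ring
    rw [e2]
    refine mul_le_mul (by nlinarith) (Real.rpow_le_rpow_of_exponent_le one_le_two ?_)
      (Real.rpow_pos_of_pos two_pos _).le (by positivity)
    linarith [hn l l.isLt]
  have b2 : CH p (jv F c k w H v) Z ≤ k * (d * Real.log 2 +
      Real.log (2 * (((D : ℝ) + 1) * (D + 2)) + 3)) := by
    refine Pool.LV64.CH_pi h0 Z k (fun ω (l : Fin k) => jv F c k w H v ω l) fun l => ?_
    refine ch_dgn hp (fun ω => ojet F (c l) 1 (H (slam F w ω) l) ω) Z hd (by positivity)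
      fun ω ν hω hν e => ?_
    have e1 := hZ ω ν hω hν e
    simp only [Prod.mk.injEq] at e1
    have h2 := (nrP_pair hw hW hH (c := c) (l := l) (hrt e1.2) e1.1).2
    rw [abs_mul, abs_of_pos (Real.rpow_pos_of_pos two_pos _)]
    refine (mul_le_mul_of_nonneg_left h2 (Real.rpow_pos_of_pos two_pos _).le).trans ?_
    have e2 : (2 : ℝ) ^ (v l * J) * (2 ^ W * (((D : ℝ) + 2) * (((D : ℝ) + 1) *
        (1 / 2 ^ N l)))) = ((D + 1) * (D + 2)) * 2 ^ (v l * J + W - N l) := by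
      rw [Real.rpow_sub two_pos, Real.rpow_add two_pos, Real.rpow_natCast, Real.rpow_natCast]
      ring
    rw [e2]
    refine mul_le_mul_of_nonneg_left (Real.rpow_le_rpow_of_exponent_le one_le_two ?_)
      (by positivity)
    linarith [hv l l.isLt]
  have b3 := CH_subadd h0 (jh F c k w H n) (jv F c k w H v) Z
  linarith

end

end Pool.V0S
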