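import Pool.Agent.H87.V0S.Eb
import Pool.Agent.H62.OVN.Exh
import Pool.Agent.H45.K2.PLF

/-!
# Near codes from far codes, on most of an event

`mi_part`: mutual information on a part. `ch_partn`: bounded integers on most of an event. `nd_part`:
`nd_codes` if the coefficients are small only on most of the event.
-/

set_option autoImplicit false

namespace Pool.V0S

open Finset Real MvPolynomial
open Pool.Agent.H49.Ent Pool.Agent.H32.Dense Pool.STK Pool.KA Pool.KSAT Pool.K2S Pool.PB Pool.GEN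
open Pool.S6C Pool.LA91 Pool.OWN68 Pool.AJ18 Pool.AVG71
open Pool.PB.Trl (rt rt_mem t_rt)
open Pool.KVA (MI)

section

variable {Ω : Type} [Fintype Ω] {p : Ω → ℝ}

/-- **Mutual information on a part.** -/
theorem mi_part (hp : IsLaw p) {A B : Ω → Prop} (hBA : Sub B A) (hA : 0 < Pe p A)
    {α β γ : Type} (R : Ω → α) (V : Ω → β) (Z : Ω → γ) :
    Pe p B / Pe p A * MI (Pool.Agent.H49.Ent.cond p B True) R V Z ≤
      MI (Pool.Agent.H49.Ent.cond p A True) R V Z + Real.log 2 := by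
  classical
  obtain ⟨q, hq⟩ : ∃ q, q = Pool.Agent.H49.Ent.cond p A True := ⟨_, rfl⟩
  have hql : IsLaw q := by rw [hq]; exact isLaw_cond hp hA
  have h0 := hql.nonneg
  obtain ⟨D, hD⟩ : ∃ D : Ω → Bool, D = fun ω => decide (B ω) := ⟨_, rfl⟩
  have e2 := Piece.cond_cond (p := p) hBA hA.ne'
  rw [← hq] at e2
  have l1 : law q B True = Pe p B / Pe p A := by
    rw [hq]
    refine (Pe_cond (p := p) (A := A) B).trans ?_
    congr 1
    congr 1
    funext ω
    exact propext ⟨fun h' => h'.2, fun h' => ⟨hBA ω h', h'⟩⟩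
  have a1 := Pool.KJ.CH_two h0 R Z B
  have a2 := Pool.KJ.CH_two h0 R (fun ω => (V ω, Z ω)) B
  have a3 : CH q R (fun ω => ((V ω, Z ω), decide (B ω))) =
      CH q R (fun ω => (V ω, (Z ω, decide (B ω)))) :=
    CH_congr h0 (fun _ _ _ _ h => (Prod.ext_iff.1 h).1) (fun _ _ _ _ h => (Prod.ext_iff.1 h).1)
      (fun ω ν _ _ e => by
        simp only [Prod.mk.injEq] at e ⊢
        tauto) (fun ω ν _ _ e => by
        simp only [Prod.mk.injEq] at e ⊢
        tauto)
  have b1 : MI q R V (fun ω => (Z ω, D ω)) =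
      Pe p B / Pe p A * MI (Pool.Agent.H49.Ent.cond p B True) R V Z +
        law q B False * MI (Pool.Agent.H49.Ent.cond q B False) R V Z := by
    rw [Pool.M5.MI_eq h0, Pool.M5.MI_eq (by rw [← e2]; exact cond_nonneg h0 _ _),
      Pool.M5.MI_eq (cond_nonneg h0 _ _), hD]
    simp only
    rw [← a3, a1, a2, l1, e2]
    ring
  have b2 : 0 ≤ law q B False * MI (Pool.Agent.H49.Ent.cond q B False) R V Z :=
    mul_nonneg (law_nonneg h0 _ _) (Pool.M5.MI_nonneg (cond_nonneg h0 _ _) _ _ _)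
  have b3 := Pool.AVG57.MI_few h0 R V (W := fun ω => (Z ω, D ω)) (W' := Z) (e₁ := Real.log 2)
    (e₂ := 0) (by
      have g1 := CH_le_add h0 (fun ω => (Z ω, D ω)) D Z
      have g2 : CH q (fun ω => (Z ω, D ω)) (fun ω => (D ω, Z ω)) = 0 :=
        CH_eq_zero h0 fun ω ν _ _ e => by
          simp only [Prod.mk.injEq] at e ⊢
          tauto
      have g3 : CH q D Z ≤ Real.log 2 := by
        have h4 := CH_le_card h0 hql.sum_one D Z (fun _ => (univ : Finset Bool))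
          (fun ω _ => Finset.mem_univ _)
        refine h4.trans (le_of_eq ?_)
        simp only [Finset.card_univ, Fintype.card_bool, Nat.cast_ofNat]
        exact Ex_const hql.sum_one _
      linarith) (le_of_eq (CH_eq_zero h0 fun ω ν _ _ e => (Prod.ext_iff.mp e).1))
  rw [← hq]
  linarith

/-- Entropy on a part of mass at least one half. -/
theorem ch_half (hp : IsLaw p) {A B : Ω → Prop} (hBA : Sub B A) (hA : 0 < Pe p A)
    (hB : 1 / 2 * Pe p A ≤ Pe p B) {α β : Type} (X : Ω → α) (Y : Ω → β) :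
    CH (Pool.Agent.H49.Ent.cond p B True) X Y ≤
      2 * CH (Pool.Agent.H49.Ent.cond p A True) X Y := by
  have h1 := CH_event hp hBA hA X Y
  have h2 : 1 / 2 ≤ Pe p B / Pe p A := by
    rw [le_div_iff₀ hA]
    exact hB
  have hB0 : 0 < Pe p B := lt_of_lt_of_le (by positivity) hB
  have h3 := CH_nonneg (isLaw_cond hp hB0).nonneg X Y
  have h4 := mul_le_mul_of_nonneg_right h2 h3
  linarith

/-- Mutual information on a part of mass at least one half. -/
theorem mi_half (hp : IsLaw p) {A B : Ω → Prop} (hBA : Sub B A) (hA : 0 < Pe p A)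
    (hB : 1 / 2 * Pe p A ≤ Pe p B) {α β γ : Type} (R : Ω → α) (V : Ω → β) (Z : Ω → γ) :
    MI (Pool.Agent.H49.Ent.cond p B True) R V Z ≤
      2 * (MI (Pool.Agent.H49.Ent.cond p A True) R V Z + Real.log 2) := by
  have h1 := mi_part hp hBA hA R V Z
  have h2 : 1 / 2 ≤ Pe p B / Pe p A := by
    rw [le_div_iff₀ hA]
    exact hB
  have hB0 : 0 < Pe p B := lt_of_lt_of_le (by positivity) hB
  have h3 := Pool.M5.MI_nonneg (isLaw_cond hp hB0).nonneg R V Z
  have h4 := mul_le_mul_of_nonneg_right h2 h3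
  linarith

/-- **Bounded integers**, few on most of the event. -/
theorem ch_partn (hp : IsLaw p) {A B : Ω → Prop} (hBA : Sub B A) (hA : 0 < Pe p A) {η : ℝ}
    (hη : Pe p (fun ω => A ω ∧ ¬ B ω) ≤ η * Pe p A) {n : ℕ} (X : Ω → Fin n → ℤ) {γ : Type}
    (Y : Ω → γ) {U : ℝ} (hU : 0 ≤ U) (hX : ∀ ω, A ω → ∀ i, |(X ω i : ℝ)| ≤ U) :
    CH (Pool.Agent.H49.Ent.cond p A True) X Y ≤ Real.log 2 +
      CH (Pool.Agent.H49.Ent.cond p B True) X Y + η * (n * Real.log (2 * (2 * U) + 1)) := by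
  have h1 := Pool.OVN.CH_split hp hBA hA X Y
  have hlog : 0 ≤ Real.log (2 * (2 * U) + 1) := Real.log_nonneg (by linarith)
  have hBn := Pe_nonneg hp B
  have hCn := Pe_nonneg hp (fun ω => A ω ∧ ¬ B ω)
  have hBA' : Pe p B ≤ Pe p A := Pe_mono hp hBA
  -- the rest
  have a1 : Pe p (fun ω => A ω ∧ ¬ B ω) *
      CH (Pool.Agent.H49.Ent.cond p (fun ω => A ω ∧ ¬ B ω) True) X Y ≤
      η * Pe p A * (n * Real.log (2 * (2 * U) + 1)) := by
    rcases eq_or_lt_of_le hCn with h | h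
    · rw [← h, zero_mul]
      have h5 : 0 ≤ η * Pe p A := by rw [← h] at hη; exact hη
      positivity
    · have hcl := isLaw_cond hp h
      have h2 := ch_vecn hcl X Y (D := 2 * U) (by positivity) fun ω ν hω hν _ i => by
        have g1 : A ω := (of_cond_pos hω).1
        have g2 : A ν := (of_cond_pos hν).1
        have g3 := abs_sub (X ω i : ℝ) (X ν i)
        linarith [hX ω g1 i, hX ν g2 i]
      refine (mul_le_mul_of_nonneg_left h2 h.le).trans (mul_le_mul_of_nonneg_right hη ?_)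
      positivity
  have a2 : Pe p B * CH (Pool.Agent.H49.Ent.cond p B True) X Y ≤
      Pe p A * CH (Pool.Agent.H49.Ent.cond p B True) X Y := by
    rcases eq_or_lt_of_le hBn with h | h
    · rw [← h, zero_mul]
      exact mul_nonneg hA.le (CH_nonneg (cond_nonneg hp.nonneg _ _) X Y)
    · exact mul_le_mul_of_nonneg_right hBA' (CH_nonneg (isLaw_cond hp h).nonneg X Y)
  have a3 : Pe p A * CH (Pool.Agent.H49.Ent.cond p A True) X Y ≤ Pe p A * (Real.log 2 +
      CH (Pool.Agent.H49.Ent.cond p B True) X Y + η * (n * Real.log (2 * (2 * U) + 1))) := by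
    calc _ ≤ _ := h1
      _ ≤ Pe p A * Real.log 2 + Pe p A * CH (Pool.Agent.H49.Ent.cond p B True) X Y +
          η * Pe p A * (n * Real.log (2 * (2 * U) + 1)) := by linarith
      _ = _ := by ring
  exact le_of_mul_le_mul_left a3 hA

end

variable {m J : ℕ}

/-- **Near codes from far codes**, the coefficients being small on most of the event. -/
theorem nd_part (K : ℕ) (hK : 1 ≤ K) {ε : ℝ} (hε : 0 < ε) : ∃ δ : ℝ, 0 < δ ∧
    ∀ {w μ E : ℝ} (_ : 0 ≤ w) (_ : 0 < μ) (_ : w + 2 * μ ≤ 1) (_ : 0 ≤ E), ∃ J₀ : ℕ, ∀ J ≥ J₀,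
      ∀ {m : ℕ} (F : Fam m J) (A A' : F.Ω → Prop) (_ : Sub A' A) (_ : 0 < Pe F.p A) {η : ℝ}
      (_ : Pe F.p (fun ω => A ω ∧ ¬ A' ω) ≤ η * Pe F.p A) (_ : η ≤ 1 / 2)
      {tp : F.Ω → Polynomial ℝ} {ν ν' β ρ γ : Type} {Vn : F.Ω → ν} {Vc : F.Ω → ν'}
      {Vf : F.Ω → β} {Ra : F.Ω → ρ} {C : F.Ω → γ} {e : ℝ},
      Det (Pool.Agent.H49.Ent.cond F.p A True) (slam F ⌊w * J⌋₊) tp →
      Det (Pool.Agent.H49.Ent.cond F.p A True) (slam F ⌊w * J⌋₊) Vc →
      Det (Pool.Agent.H49.Ent.cond F.p A True) (slam F ⌊w * J⌋₊) C →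
      (∀ ω, A ω → (tp ω).natDegree ≤ K) →
      (∀ ω, A' ω → ∀ a, |(tp ω).coeff a| ≤ 2 ^ (μ * J)) →
      (∀ ω, A ω → ∀ a, |(tp ω).coeff a| ≤ 2 ^ (E * J)) →
      (J : ℝ) * Real.log 2 - δ * μ * J ≤
        CH (Pool.Agent.H49.Ent.cond F.p A' True) F.T (fun ω => (F.l ω, F.Z ω)) →
      CH (Pool.Agent.H49.Ent.cond F.p A True)
        (fun ω => ⌊(tp ω).derivative.eval (rt F ⌊w * J⌋₊ ω)⌋)
        (fun ω => (Vn ω, (Ra ω, (C ω, F.W ω)))) ≤ e →
      CH (Pool.Agent.H49.Ent.cond F.p A True)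
        (fun ω (i : Fin K) => ⌊(tp ω).coeff (i : ℕ).succ⌋)
        (fun ω => (Vf ω, (C ω, F.W ω))) ≤ e →
      MI (Pool.Agent.H49.Ent.cond F.p A True) Ra Vf (fun ω => (Vn ω, (C ω, F.W ω))) ≤ e →
      CH (Pool.Agent.H49.Ent.cond F.p A True) Vn (fun ω => (Vc ω, F.W ω)) ≤ e →
      CH (Pool.Agent.H49.Ent.cond F.p A True) Vc (fun ω => (Vn ω, F.W ω)) ≤ e →
      8 * (e + Real.log 2) ≤ δ * μ * J →
      CH (Pool.Agent.H49.Ent.cond F.p A True)
        (fun ω (i : Fin K) => ⌊(tp ω).coeff (i : ℕ).succ⌋)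
        (fun ω => (Vn ω, (C ω, F.W ω))) ≤ ε * μ * J + η * (K * ((E + 3) * J)) + e := by
  obtain ⟨δ, hδ, H⟩ := nd_codes K hK (ε := ε / 2) (by positivity)
  refine ⟨δ, hδ, ?_⟩
  intro w μ E hw hμ hwμ hE
  obtain ⟨J₁, H⟩ := H hw hμ hwμ
  obtain ⟨J₂, hJ₂⟩ := exists_nat_ge (Real.log 2 / (ε / 2 * μ) + 3)
  refine ⟨max J₁ J₂, ?_⟩
  intro J hJ m F A A' hAA hA η hη hη2 tp ν ν' β ρ γ Vn Vc Vf Ra C e hdt hdv hdc hdeg hb hbE htim
    hnat hfar hmi hvc hcv he
  have hl2 : 0 < Real.log 2 := Real.log_pos one_lt_two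
  have hl2' : Real.log 2 ≤ 1 := by
    have := Real.log_two_lt_d9
    linarith
  have hJ0 : (0 : ℝ) ≤ J := Nat.cast_nonneg J
  have hJ2 : Real.log 2 / (ε / 2 * μ) + 3 ≤ J :=
    hJ₂.trans (by exact_mod_cast (le_max_right _ _).trans hJ)
  have k1 : 0 ≤ Real.log 2 / (ε / 2 * μ) := by positivity
  have j1 : Real.log 2 ≤ ε / 2 * μ * J := by
    have h1 : Real.log 2 / (ε / 2 * μ) ≤ J := by linarith
    rwa [div_le_iff₀ (by positivity), mul_comm] at h1
  have j3 : (3 : ℝ) ≤ J := by linarith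
  have hp := F.isLaw
  have hcl := isLaw_cond hp hA
  have h0 := hcl.nonneg
  -- the part
  have hsum : Pe F.p A = Pe F.p A' + Pe F.p (fun ω => A ω ∧ ¬ A' ω) := by
    show law F.p A True = law F.p _ True + law F.p _ True
    unfold law
    rw [← Finset.sum_add_distrib]
    refine Finset.sum_congr rfl fun ω _ => ?_
    by_cases h3 : A ω
    · by_cases h4 : A' ω
      · simp [h3, h4]
      · simp [h3, h4]
    · have h4 : ¬ A' ω := fun h => h3 (hAA ω h)
      simp [h3, h4]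
  have hη2' : η * Pe F.p A ≤ 1 / 2 * Pe F.p A := mul_le_mul_of_nonneg_right hη2 hA.le
  have hhalf : 1 / 2 * Pe F.p A ≤ Pe F.p A' := by linarith
  have hA' : 0 < Pe F.p A' := lt_of_lt_of_le (by positivity) hhalf
  have hdet : ∀ {α β : Type} {X : F.Ω → α} {Y : F.Ω → β},
      Det (Pool.Agent.H49.Ent.cond F.p A True) X Y →
      Det (Pool.Agent.H49.Ent.cond F.p A' True) X Y := by
    intro α β X Y h ω ν hω hν e
    have g : ∀ ω, 0 < Pool.Agent.H49.Ent.cond F.p A' True ω →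
        0 < Pool.Agent.H49.Ent.cond F.p A True ω := by
      intro ω hω
      have g1 := of_cond_pos hω
      have g2 : 0 < F.p ω := by
        unfold Pool.Agent.H49.Ent.cond at hω
        rcases (lt_or_ge 0 (F.p ω)) with h5 | h5
        · exact h5
        · have h6 : F.p ω = 0 := le_antisymm h5 (hp.nonneg ω)
          rw [h6, zero_div, ite_self] at hω
          exact absurd hω (lt_irrefl _)
      unfold Pool.Agent.H49.Ent.cond
      rw [if_pos (by simp [hAA ω g1])]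
      exact div_pos g2 hA
    exact h ω ν (g ω hω) (g ν hν) e
  have c1 := H J ((le_max_left _ _).trans hJ) F A' hA' (tp := tp) (Vn := Vn) (Vc := Vc) (Vf := Vf)
    (Ra := Ra) (C := C) (e := 2 * (e + Real.log 2)) (hdet hdt) (hdet hdv) (hdet hdc)
    (fun ω hω => hdeg ω (hAA ω hω)) hb htim
    ((ch_half hp hAA hA hhalf _ _).trans (by linarith))
    ((ch_half hp hAA hA hhalf _ _).trans (by linarith))
    ((mi_half hp hAA hA hhalf _ _ _).trans (by linarith))
    ((ch_half hp hAA hA hhalf _ _).trans (by linarith)) (by linarith)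
  -- the whole event
  have pE : (1 : ℝ) ≤ 2 ^ (E * J) := Real.one_le_rpow one_le_two (by positivity)
  have c2 := ch_partn hp hAA hA hη (fun ω (i : Fin K) => ⌊(tp ω).coeff (i : ℕ).succ⌋)
    (fun ω => (Vc ω, (C ω, F.W ω))) (U := 2 ^ (E * J) + 1) (by positivity) fun ω hω i => by
      have g1 := abs_le.1 (hbE ω hω ((i : ℕ).succ))
      have g2 := Int.floor_le ((tp ω).coeff (i : ℕ).succ)
      have g3 := Int.lt_floor_add_one ((tp ω).coeff (i : ℕ).succ)
      rw [abs_le]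
      constructor <;> linarith [g1.1, g1.2]
  have c3 : Real.log (2 * (2 * (2 ^ (E * J) + 1)) + 1) ≤ (E + 3) * J := by
    have h1 : 2 * (2 * ((2 : ℝ) ^ (E * J) + 1)) + 1 ≤ 2 ^ (4 : ℝ) * 2 ^ (E * J) := by
      have : (2 : ℝ) ^ (4 : ℝ) = 16 := by norm_num
      rw [this]
      linarith
    rw [← Real.rpow_add two_pos] at h1
    refine (Real.log_le_log (by positivity) h1).trans ?_
    rw [Real.log_rpow two_pos]
    have h3 : (4 + E * J) * Real.log 2 ≤ 4 + E * J :=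
      mul_le_of_le_one_right (by positivity) hl2'
    nlinarith
  have hη0 : 0 ≤ η := by
    by_contra hcon
    have h1 := Pe_nonneg hp (fun ω => A ω ∧ ¬ A' ω)
    have h2 : η * Pe F.p A < 0 := mul_neg_of_neg_of_pos (not_le.1 hcon) hA
    linarith
  have c4 : η * (K * Real.log (2 * (2 * ((2 : ℝ) ^ (E * J) + 1)) + 1)) ≤
      η * (K * ((E + 3) * J)) :=
    mul_le_mul_of_nonneg_left (mul_le_mul_of_nonneg_left c3 (Nat.cast_nonneg K)) hη0
  -- the near path
  have d1 := CH_le_add h0 (fun ω (i : Fin K) => ⌊(tp ω).coeff (i : ℕ).succ⌋) Vc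
    (fun ω => (Vn ω, (C ω, F.W ω)))
  have d2 : CH (Pool.Agent.H49.Ent.cond F.p A True) Vc (fun ω => (Vn ω, (C ω, F.W ω))) ≤ e :=
    le_trans (CH_mono_cond h0 fun ω ν _ _ e => by
      simp only [Prod.mk.injEq] at e ⊢
      exact ⟨e.1, e.2.2⟩) hcv
  have d3 : CH (Pool.Agent.H49.Ent.cond F.p A True)
      (fun ω (i : Fin K) => ⌊(tp ω).coeff (i : ℕ).succ⌋)
      (fun ω => (Vc ω, (Vn ω, (C ω, F.W ω)))) ≤
      CH (Pool.Agent.H49.Ent.cond F.p A True)
        (fun ω (i : Fin K) => ⌊(tp ω).coeff (i : ℕ).succ⌋) (fun ω => (Vc ω, (C ω, F.W ω))) :=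
    CH_mono_cond h0 fun ω ν _ _ e => by
      simp only [Prod.mk.injEq] at e ⊢
      exact ⟨e.1, e.2.2⟩
  have e5 : ε * μ * J = ε / 2 * μ * J + ε / 2 * μ * J := by ring
  linarith

end Pool.V0S
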