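import Pool.Agent.H57.AVG.Av1
import Pool.Agent.H44.V0F.Ev1

/-!
# Arbitrary moved places: the closed gradient on one event

`Vm`: digits of the own heights of the moved places. `avm_ev`: the closed gradient of the target in
the directions of the moved places, from the inputs `PrG` and the rows of the own height of the
target. The other places are in the context.
-/

set_option autoImplicit false

namespace Pool.V0S

open Finset Real MvPolynomial
open Pool.Agent.H49.Ent Pool.Agent.H32.Dense Pool.STK Pool.KA Pool.KSAT Pool.K2S Pool.PB Pool.S6C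
open Pool.GEN Pool.CHT Pool.CHX Pool.ISO Pool.LA91 Pool.AVG71 Pool.AVG5 Pool.D2F2 Pool.AVG57
open Pool.PB.Trl (rt rt_mem t_rt)
open Pool.D2R (hgt)
open Pool.KVA (MI)
open Pool.KAF (rs Pr)
open Pool.BFL (Pb)

variable {m J : ℕ}

/-- The digits of the own heights of the moved places. -/
noncomputable def Vm (F : Fam m J) (c : ℕ → Fin m) {k : ℕ} (mv : Fin k → ℕ) (w : ℕ)
    (H : LnT F → ℕ → MvPolynomial (Option (Fin m)) ℝ) (Nb : Fin k → ℝ) (ω : F.Ω) (l : Fin k) : ℤ :=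
  ⌊(2 : ℝ) ^ Nb l * ojet F (c (mv l)) 0 (H (slam F w ω) (mv l)) ω⌋

section

variable {F : Fam m J} {c : ℕ → Fin m} {k : ℕ} {mv : Fin k → ℕ} {i q w W X mm : ℕ}
  {γ : ℕ → ℕ} {gg : F.Ω → Fin k → ℝ} {H : LnT F → ℕ → MvPolynomial (Option (Fin m)) ℝ}
  {ζ : Type} {z : F.Ω → ζ} {p : F.Ω → ℝ}

/-- The value of the own path of a moved place. -/
theorem adG_Aj (hwW : w ≤ W) (hW : W ≤ J) (ω : F.Ω) (j : Fin k) :
    ((adG F c mv i q w W X mm γ gg H z).A ω j).eval (rt F W ω) =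
      2 ^ (γ (mv j) + q) * ojet F (c (mv j)) 0 (H (slam F w ω) (mv j)) ω := by
  have h1 := jj_adG (c := c) (mv := mv) (i := i) (q := q) (X := X) (mm := mm) (γ := γ) (gg := gg)
    (H := H) (z := z) hwW hW ω (some j) 0
  have h2 : jj (adG F c mv i q w W X mm γ gg H z) ω (some j) 0 =
      ((adG F c mv i q w W X mm γ gg H z).A ω j).eval (rt F W ω) := jt_zero _ _
  rw [h2] at h1
  simpa using h1

/-- The value of the own path of the target. -/
theorem adG_Pj (hwW : w ≤ W) (hW : W ≤ J) (ω : F.Ω) :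
    ((adG F c mv i q w W X mm γ gg H z).P ω).eval (rt F W ω) =
      2 ^ (γ i + q) * ojet F (c i) 0 (H (slam F w ω) i) ω := by
  have h1 := jj_adG (c := c) (mv := mv) (i := i) (q := q) (X := X) (mm := mm) (γ := γ) (gg := gg)
    (H := H) (z := z) hwW hW ω none 0
  have h2 : jj (adG F c mv i q w W X mm γ gg H z) ω none 0 =
      ((adG F c mv i q w W X mm γ gg H z).P ω).eval (rt F W ω) := jt_zero _ _
  rw [h2] at h1
  simpa using h1

/-- The digits of the heights given the codes. -/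
theorem vm_h {K D : ℕ} (hp : IsLaw p) (hH : ∀ s l, (H s l).totalDegree ≤ D) (hK : D + 1 ≤ K)
    (hwW : w ≤ W) (hW : W ≤ J) {Nb : Fin k → ℝ}
    (hr : ∀ l, Nb l ≤ (γ (mv l) + q + (X + mm) : ℕ)) {𝓦 : Type} (Z : F.Ω → 𝓦)
    (hZ : ∀ ω ν, 0 < p ω → 0 < p ν → Z ω = Z ν → rt F W ω = rt F W ν ∧
      (adG F c mv i q w W X mm γ gg H z).Y K ω = (adG F c mv i q w W X mm γ gg H z).Y K ν ∧
      (adG F c mv i q w W X mm γ gg H z).g K ω = (adG F c mv i q w W X mm γ gg H z).g K ν) :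
    CH p (Vm F c mv w H Nb) Z ≤ k * cV K := by
  have hP := adG_pth (c := c) (mv := mv) (i := i) (q := q) (w := w) (X := X) (mm := mm) (γ := γ)
    (gg := gg) (z := z) hp hH hK hW
  refine ch_vec hp.nonneg Z k (Vm F c mv w H Nb) fun j => ?_
  refine CH_pair_int hp _ Z (by positivity) fun ω ν hω hν e => ?_
  obtain ⟨h1, h2, h3⟩ := hZ ω ν hω hν e
  have h4 := A_near (d := adG F c mv i q w W X mm γ gg H z) (K := K)
    (j := j) h1 (hP.th ω hω) (ac_of h2 h3) (hP.dA ω hω j) (hP.dA ν hν j)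
  have a1 : ((adG F c mv i q w W X mm γ gg H z).A ω j).eval
      ((adG F c mv i q w W X mm γ gg H z).th ω) =
      2 ^ (γ (mv j) + q) * ojet F (c (mv j)) 0 (H (slam F w ω) (mv j)) ω := adG_Aj hwW hW ω j
  have a2 : ((adG F c mv i q w W X mm γ gg H z).A ν j).eval
      ((adG F c mv i q w W X mm γ gg H z).th ν) =
      2 ^ (γ (mv j) + q) * ojet F (c (mv j)) 0 (H (slam F w ν) (mv j)) ν := adG_Aj hwW hW ν j
  have a3 : (2 : ℝ) ^ ((adG F c mv i q w W X mm γ gg H z).X +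
    (adG F c mv i q w W X mm γ gg H z).m) = 2 ^ (X + mm) := rfl
  rw [a1, a2, a3] at h4
  unfold Vm
  refine floor_near' ?_
  have p1 : (0 : ℝ) < 2 ^ (X + mm) := by positivity
  have p2 : (0 : ℝ) < 2 ^ (γ (mv j) + q) := by positivity
  have p3 : (0 : ℝ) < (2 : ℝ) ^ Nb j := Real.rpow_pos_of_pos two_pos _
  rw [← mul_sub, abs_mul, abs_of_pos p2] at h4
  rw [← mul_sub, abs_mul, abs_of_pos p3]
  have h5 : (2 : ℝ) ^ Nb j ≤ 2 ^ (γ (mv j) + q) * 2 ^ (X + mm) := by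
    rw [← pow_add, ← Real.rpow_natCast]
    exact Real.rpow_le_rpow_of_exponent_le one_le_two (hr j)
  rw [le_div_iff₀ p1] at h4
  calc _ ≤ 2 ^ (γ (mv j) + q) * 2 ^ (X + mm) *
        |ojet F (c (mv j)) 0 (H (slam F w ω) (mv j)) ω -
          ojet F (c (mv j)) 0 (H (slam F w ν) (mv j)) ν| :=
        mul_le_mul_of_nonneg_right h5 (abs_nonneg _)
    _ = 2 ^ (γ (mv j) + q) * |ojet F (c (mv j)) 0 (H (slam F w ω) (mv j)) ω -
        ojet F (c (mv j)) 0 (H (slam F w ν) (mv j)) ν| * 2 ^ (X + mm) := by ring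
    _ ≤ _ := h4

/-- The field `qv`. -/
theorem qv_m {U : ℝ} (hU : 0 ≤ U) (hwW : w ≤ W) (hW : W ≤ J) {Nb : Fin k → ℝ}
    (hr : ∀ l, ((γ (mv l) + q + X : ℕ) : ℝ) ≤ Nb l) {ω ν : F.Ω}
    (hb : ∀ j, |(adG F c mv i q w W X mm γ gg H z).bb ω j| ≤ U)
    (hV : Vm F c mv w H Nb ω = Vm F c mv w H Nb ν)
    (hT : (adG F c mv i q w W X mm γ gg H z).T ω = (adG F c mv i q w W X mm γ gg H z).T ν) :
    |((adG F c mv i q w W X mm γ gg H z).Q ω - Mh F c i w H (γ i + q + X) ω) -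
      ((adG F c mv i q w W X mm γ gg H z).Q ν - Mh F c i w H (γ i + q + X) ν)| ≤
      k * U + 1 := by
  have b1 : (adG F c mv i q w W X mm γ gg H z).bb ω =
      (adG F c mv i q w W X mm γ gg H z).bb ν := (Prod.ext_iff.mp hT).2
  have hv2 : ∀ j : Fin k, 2 ^ (γ (mv j) + q + X) *
      |ojet F (c (mv j)) 0 (H (slam F w ω) (mv j)) ω -
        ojet F (c (mv j)) 0 (H (slam F w ν) (mv j)) ν| ≤ 1 := by
    intro j
    have p1 : (0 : ℝ) < 2 ^ (γ (mv j) + q + X) := by positivity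
    have p3 : (0 : ℝ) < (2 : ℝ) ^ Nb j := Real.rpow_pos_of_pos two_pos _
    have hv := near_of_floor p3 (congrFun hV j)
    have h1 : (1 : ℝ) / 2 ^ Nb j ≤ 1 / 2 ^ (γ (mv j) + q + X) := by
      refine one_div_le_one_div_of_le p1 ?_
      rw [← Real.rpow_natCast]
      exact Real.rpow_le_rpow_of_exponent_le one_le_two (hr j)
    have h2 := hv.trans h1
    rw [le_div_iff₀ p1] at h2
    linarith
  have q1 : ∀ o : F.Ω, (adG F c mv i q w W X mm γ gg H z).Q o =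
      2 ^ (γ i + q + X) * ojet F (c i) 0 (H (slam F w o) i) o -
        ∑ j, (adG F c mv i q w W X mm γ gg H z).bb o j *
          (2 ^ (γ (mv j) + q + X) * ojet F (c (mv j)) 0 (H (slam F w o) (mv j)) o) := by
    intro o
    have e1 : (adG F c mv i q w W X mm γ gg H z).Q o =
        2 ^ X * (((adG F c mv i q w W X mm γ gg H z).P o).eval (rt F W o) -
          ∑ j, (adG F c mv i q w W X mm γ gg H z).bb o j *
            ((adG F c mv i q w W X mm γ gg H z).A o j).eval (rt F W o)) := rfl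
    rw [e1, adG_Pj hwW hW, mul_sub, Finset.mul_sum]
    congr 1
    · rw [pow_add _ (γ i + q) X]
      ring
    · refine Finset.sum_congr rfl fun j _ => ?_
      rw [adG_Aj hwW hW, pow_add _ (γ (mv j) + q) X]
      ring
  obtain ⟨b, hbe⟩ : ∃ b, b = (adG F c mv i q w W X mm γ gg H z).bb ω := ⟨_, rfl⟩
  rw [← hbe] at hb
  rw [q1 ω, q1 ν, ← b1, ← hbe]
  unfold Mh
  obtain ⟨x, hx⟩ : ∃ x, x = (2 : ℝ) ^ (γ i + q + X) * ojet F (c i) 0 (H (slam F w ω) i) ω :=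
    ⟨_, rfl⟩
  obtain ⟨x', hx'⟩ : ∃ x, x = (2 : ℝ) ^ (γ i + q + X) * ojet F (c i) 0 (H (slam F w ν) i) ν :=
    ⟨_, rfl⟩
  rw [← hx, ← hx']
  have f1 := Int.floor_le x
  have f2 := Int.lt_floor_add_one x
  have f3 := Int.floor_le x'
  have f4 := Int.lt_floor_add_one x'
  have h6 : |∑ j, b j * (2 ^ (γ (mv j) + q + X) * ojet F (c (mv j)) 0 (H (slam F w ω) (mv j)) ω) -
      ∑ j, b j * (2 ^ (γ (mv j) + q + X) * ojet F (c (mv j)) 0 (H (slam F w ν) (mv j)) ν)| ≤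
        k * U := by
    rw [← Finset.sum_sub_distrib]
    refine (Finset.abs_sum_le_sum_abs _ _).trans ((Finset.sum_le_sum (g := fun _ => U)
      fun j _ => ?_).trans (le_of_eq ?_))
    · rw [← mul_sub, ← mul_sub, abs_mul, abs_mul,
        abs_of_pos (by positivity : (0 : ℝ) < 2 ^ (γ (mv j) + q + X))]
      calc _ ≤ U * 1 := mul_le_mul (hb j) (hv2 j) (by positivity) hU
        _ = U := mul_one _
    · rw [Finset.sum_const, Finset.card_univ, Fintype.card_fin, nsmul_eq_mul]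
  have h7 := abs_le.mp h6
  rw [abs_le]
  constructor <;> linarith [h7.1, h7.2]

end

/-- **Closed gradient in the directions of the moved places**, on one event, general form. -/
theorem avm_ev (k K : ℕ) (cc ε : ℝ) (hcc : 0 < cc) (hε : 0 < ε) :
    ∃ (κ₂ κ π₀ ι ε₀ : ℝ) (k₁ j₀ X₀ : ℕ), 0 < κ₂ ∧ κ₂ ≤ 1 ∧ 0 < κ ∧ κ ≤ 1 ∧ 0 < π₀ ∧ 0 < ι ∧
      0 < ε₀ ∧
      ∀ {m J : ℕ} {F : Fam m J} {c : ℕ → Fin m} {mv : Fin k → ℕ} {i q w W X mm D : ℕ} {γ : ℕ → ℕ}
        {B : F.Ω → Prop} {G₀ : PtT F → ℕ → MvPolynomial (Option (Fin m)) ℝ}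
        {H : LnT F → ℕ → MvPolynomial (Option (Fin m)) ℝ} {gg : F.Ω → Fin k → ℝ}
        {ζ ζ' υ' χ₁ χ₂ ρ₁ ρ₂ : Type} {z : F.Ω → ζ} {zw : F.Ω → ζ'} {Yc : F.Ω → υ'}
        {Cj : F.Ω → χ₁} {Cx : F.Ω → χ₂} {Rj : F.Ω → ρ₁} {Rx : F.Ω → ρ₂} {Nb : Fin k → ℝ}
        {p : F.Ω → ℝ} {Nf Nn Nx Nu Nv : Fin k → ℕ → ℝ} {Mf Mn : ℕ → ℝ} {U Fv e : ℝ}
        (_ : PrG F c mv i q w W X mm D K γ B G₀ H gg z zw Yc Cj Cx Rj Rx (Vm F c mv w H Nb) p
          Nf Nn Nx Nu Nv Mf Mn U Fv e)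
        {Ur ψ : ℝ}, (∀ l, ((γ (mv l) + q + X : ℕ) : ℝ) ≤ Nb l) →
        (∀ l, Nb l ≤ (γ (mv l) + q + (X + mm) : ℕ)) →
        k * (X * Real.log 2) ≤ Fv →
        (∀ j : ℕ, (j + 1) * ⌊κ * X⌋₊ ≤ X → ∀ E : Set F.Ω, π₀ ≤ Pr p E →
          CH (rs p E) (Mh F c i w H (γ i + q + (j + 1) * ⌊κ * X⌋₊))
            (fun ω => (Mh F c i w H (γ i + q + j * ⌊κ * X⌋₊) ω, (Vm F c mv w H Nb ω,
              (F.T ω, z ω)))) ≤ Ur) →
        TimW F p W j₀ ε₀ ψ → Det p (slam F W) z → X₀ ≤ X → W + X ≤ J →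
        ψ * J ≤ ι * X * Real.log 2 → (mm : ℝ) ≤ ι * X →
        6 * (4 * e + cE0 k K U + k * cV K) ≤ ι * X →
        3 * (4 * e + cE0 k K U + k * cV K) + k * mm * Real.log 2 ≤ ι * X * Real.log 2 →
        Ur + cR k K (k * (U + 1) + 1) + (4 * (4 * e + cE0 k K U + k * cV K) +
          k * mm * Real.log 2 + Real.log 2) / π₀ ≤ (1 - cc) * ⌊κ * X⌋₊ * Real.log 2 →
        ∃ mu : LnT F → Fin k → Polynomial ℝ, (∀ s j, (mu s j).natDegree ≤ K) ∧
          (∀ s j (u : ℝ), |(mu s j).eval u| ≤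
            (K + 1) * (2 ^ k₁ * (|u| + 1)) ^ K * (2 : ℝ) ^ (ι * X)) ∧
          Pb p (fun ω => ∃ j : Fin k, (2 : ℝ) ^ (-(κ₂ * X)) <
            |gg ω j - (mu (slam F W ω) j).eval (rt F W ω)|) ≤ ε := by
  obtain ⟨κ₂, κ, π₀, ι, ε₀, k₁, j₀, X₀, a1, a2, a3, a4, a5, a6, a7, Hm⟩ :=
    avg_gen k K cc ε hcc hε
  refine ⟨κ₂, κ, π₀, ι, ε₀, k₁, j₀, X₀, a1, a2, a3, a4, a5, a6, a7, ?_⟩
  intro m J F c mv i q w W X mm D γ B G₀ H gg ζ ζ' υ' χ₁ χ₂ ρ₁ ρ₂ z zw Yc Cj Cx Rj Rx Nb p Nf Nn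
    Nx Nu Nv Mf Mn U Fv e P Ur ψ hN1 hN2 hNX hrow hT hz hX hJ hψ hmm n1 n2 n3
  have hp := P.law
  have h0 := hp.nonneg
  have hwW := P.wW
  have hW := P.WJ
  have hU := P.grd.U0
  have hl2 : 0 < Real.log 2 := Real.log_pos one_lt_two
  have hcV := cV_nonneg K
  have hk0 : (0 : ℝ) ≤ k := Nat.cast_nonneg k
  have hkcV : 0 ≤ k * cV K := mul_nonneg hk0 hcV
  have hbm : ∀ ω, 0 < p ω → ∀ j,
      |(adG F c mv i q w W X mm γ gg H z).bb ω j| ≤ U + 1 :=
    fun ω hω j => adG_bm P.grd (P.sup ω hω) j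
  exact Hm P (Ur := Ur) (Bq := k * (U + 1) + 1) (eV := k * cV K) (ψ := ψ)
    (M := Mh F c i w H (γ i + q + X)) (by positivity) hkcV
    (fun q' hq' hpos => by
      have s1 := CH_le_add hq'.nonneg (Vm F c mv w H Nb)
        ((adG F c mv i q w W X mm γ gg H z).Y K)
        (fun ω => ((adG F c mv i q w W X mm γ gg H z).T ω,
          (adG F c mv i q w W X mm γ gg H z).g K ω))
      have s2 := Pool.V0F.CH_Yk hq' (adG F c mv i q w W X mm γ gg H z) K
        (fun ω => ((adG F c mv i q w W X mm γ gg H z).T ω,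
          (adG F c mv i q w W X mm γ gg H z).g K ω))
      have s3 := vm_h (c := c) (mv := mv) (i := i) (γ := γ) (gg := gg) (z := z) hq' P.deg P.DK hwW
        hW hN2 (fun ω => ((adG F c mv i q w W X mm γ gg H z).Y K ω,
        ((adG F c mv i q w W X mm γ gg H z).T ω,
          (adG F c mv i q w W X mm γ gg H z).g K ω)))
        (fun ω ν _ _ e => by
          simp only [Prod.mk.injEq] at e
          exact ⟨(Prod.ext_iff.mp e.2.1).1, e.1, e.2.2⟩)
      have s4 : ((adG F c mv i q w W X mm γ gg H z).X : ℝ) = X := rfl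
      rw [s4] at s2
      linarith)
    (by
      have s3 := vm_h (c := c) (mv := mv) (i := i) (γ := γ) (gg := gg) (z := z) hp P.deg P.DK hwW
        hW hN2 (fun ω => ((adG F c mv i q w W X mm γ gg H z).Y K ω,
        (rt F W ω, (adG F c mv i q w W X mm γ gg H z).g K ω)))
        (fun ω ν _ _ e => by
          simp only [Prod.mk.injEq] at e
          exact ⟨e.2.1, e.1, e.2.2⟩)
      have e1 : k * X * Real.log 2 = k * (X * Real.log 2) := by ring
      linarith)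
    (fun ω ν hω _ hV hTT _ => qv_m (by linarith) hwW hW hN1 (hbm ω hω) hV hTT)
    (fun j hj E hE => by
      have hj1 : j * ⌊κ * X⌋₊ ≤ X := le_trans (Nat.mul_le_mul_right _ (Nat.le_succ j)) hj
      have r1 := hrow j hj E hE
      have r2 : (fun ω => Mh F c i w H (γ i + q + X) ω / 2 ^ (X - (j + 1) * ⌊κ * X⌋₊)) =
          Mh F c i w H (γ i + q + (j + 1) * ⌊κ * X⌋₊) := by
        funext ω
        exact Pool.V0F.mh_div hj ω
      have hE0 : 0 < law p (fun ω => ω ∈ E) True := lt_of_lt_of_le a5 hE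
      have hE' : IsLaw (rs p E) :=
        ⟨cond_nonneg h0 (fun ω => ω ∈ E) True, sum_cond p (fun ω => ω ∈ E) hE0.ne'⟩
      have hp' : ∀ ω, 0 < rs p E ω → 0 < p ω := fun ω hω => by
        by_contra hcon
        have h9 : p ω = 0 := le_antisymm (not_lt.1 hcon) (h0 ω)
        have h8 : rs p E ω = 0 := by
          show cond p (fun ω => ω ∈ E) True ω = 0
          unfold Pool.Agent.H49.Ent.cond
          split_ifs <;> simp [h9]
        rw [h8] at hω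
        exact lt_irrefl _ hω
      rw [r2]
      refine le_trans (CH_mono_cond hE'.nonneg fun ω ν hω hν e => ?_) r1
      simp only [Prod.mk.injEq] at e ⊢
      obtain ⟨e2, e3, e4, e5⟩ := e
      rw [Pool.V0F.mh_div hj1 ω, Pool.V0F.mh_div hj1 ν] at e2
      have z1 : z ω = z ν := (Prod.ext_iff.mp e5).1
      have z3 : F.T1 W ω = F.T1 W ν := P.zT ω ν (hp' ω hω) (hp' ν hν) z1
      have t2 : rt F W ω = rt F W ν := (Prod.ext_iff.mp e4).1
      exact ⟨e2, e3, (time_eq F hW z3 t2).1, z1⟩)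
    hT hz hX hJ hψ hmm n1 n2 n3

end Pool.V0S
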