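import Pool.Agent.H23.D2.V0g

/-!
# Points near a sample: the relative gradient and the second order expansion

`WDt`: the windows and the slopes. `fib_pt`: the natural components of `G (f n) i - G' i` at a sample
and at any point with the same time and near heights, with slack in the number of near digits.
-/

set_option autoImplicit false

namespace Pool.V0S

open Finset Real MvPolynomial
open Pool.Agent.H49.Ent Pool.Agent.H32.Dense Pool.STK Pool.KA Pool.KSAT Pool.K2S Pool.PB Pool.S6C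
open Pool.GEN Pool.CHT Pool.CHX Pool.ISO Pool.D2R

variable {m J : ℕ}

/-- **The windows and the slopes**: the places below `i` of slope at most `S`, the place `i` of slope
at least `b'`. -/
structure WDt (o : ℕ → ℝ) (lv : ℕ → ℕ → ℝ) (z : ℕ → ℕ → ℕ) (J N M : ℕ) (f jj : ℕ → ℕ)
    (n i Y : ℕ) (S b' : ℝ) : Prop where
  fN : ∀ k ≤ n, f k ≤ N
  st : ∀ k < n, jj k ≤ M ∧ z (f k) (jj k) = ⌊o (f (k + 1)) * J⌋₊ - ⌊o (f k) * J⌋₊ ∧
    o (f k) ≤ o (f (k + 1))
  nY : (n : ℝ) ≤ 2 ^ Y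
  lv1 : ∀ k < n, ∀ l ≤ i, (lv (f (k + 1)) l - lv (f k) l) * J ≤ Y ∧
    (lv (f k) l - lv (f (k + 1)) l) * J ≤ Y
  os : ∀ k < n, b' * ((o (f (k + 1)) - o (f k)) * J) ≤ Y
  sS : ∀ k k', k ≤ k' → k' ≤ n → ∀ l < i,
    (lv (f k') l - lv (f k) l) * J ≤ S * ((o (f k') - o (f k)) * J) + Y
  sb : ∀ k ≤ n, b' * ((o (f k) - o (f 0)) * J) ≤ (lv (f k) i - lv (f 0) i) * J + Y

/-- **A point near a sample.** -/
theorem fib_pt (D r : ℕ) : ∃ C : ℕ, 1 ≤ C ∧ ∀ {m J : ℕ} {F : Fam m J} {c : ℕ → Fin m}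
    {Dr N M : ℕ} {C₀ a Eb ηm : ℝ} {o η σ : ℕ → ℝ} {lv b : ℕ → ℕ → ℝ}
    {κ : ℝ} {z : ℕ → ℕ → ℕ} {B : F.Ω → Prop} {g₀ : ℕ → ℕ → ℕ}
    {G : ℕ → PtT F → ℕ → MvPolynomial (Option (Fin m)) ℝ}
    {H : ℕ → LnT F → ℕ → MvPolynomial (Option (Fin m)) ℝ}
    (_ : WinB F c r D Dr N M C₀ a Eb ηm o η σ lv b κ z B g₀ G H)
    {G' : PtT F → ℕ → MvPolynomial (Option (Fin m)) ℝ} {κ' : F.Ω → ℕ → ℝ}
    {f jj : ℕ → ℕ} {n i q X Y : ℕ} {S b' : ℝ},
    (∀ y l, (G' y l).totalDegree ≤ D) → (∀ y l, DepC c l (G' y l)) →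
    (∀ ω, B ω → G' (ptr F J ω) i = G (f 0) (ptr F J ω) i) →
    (∀ ω, B ω → ∀ l < i, ∀ b, NBx c (G (f 0) (ptr F J ω)) (g₀ (f 0)) ⌊o (f 0) * J⌋₊ (F.t ω) l b →
      |eval b (G' (ptr F J ω) l) + κ' ω l - eval b (G (f 0) (ptr F J ω) l)| ≤
        2 ^ Y / 2 ^ g₀ (f 0) l) →
    Set.InjOn c (Set.Iio (r + 1)) → i ≤ r → WDt o lv z J N M f jj n i Y S b' →
    C₀ * (ηm * J) ≤ Y → 3 ≤ Y → 0 ≤ S → S ≤ b' → 2 ≤ q →
    S * ((o (f n) - o (f 0)) * J) ≤ q + Y → (X : ℝ) ≤ q + Y →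
    (X : ℝ) ≤ q + (b' - 2 * S) * ((o (f n) - o (f 0)) * J) + Y →
    ∀ ω, B ω → ∀ y : Option (Fin m) → ℝ, y none = bt F ω none →
    (∀ j < i, |(y (some (c j)) - eval y (G' (ptr F J ω) j)) -
      (bt F ω (some (c j)) - eval (bt F ω) (G' (ptr F J ω) j))| ≤
        2 ^ 2 / 2 ^ (g₀ (f 0) j + q)) →
    (∀ j < i, |ncp c i (G' (ptr F J ω)) (G (f n) (ptr F J ω) i - G' (ptr F J ω) i) (bt F ω) j| ≤
      2 ^ (C * Y) * (2 ^ g₀ (f 0) j / 2 ^ g₀ (f 0) i)) ∧
    (∀ j < i, |ncp c i (G' (ptr F J ω)) (G (f n) (ptr F J ω) i - G' (ptr F J ω) i) y j -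
      ncp c i (G' (ptr F J ω)) (G (f n) (ptr F J ω) i - G' (ptr F J ω) i) (bt F ω) j| ≤
      2 ^ (C * Y) * (2 ^ g₀ (f 0) j / 2 ^ (g₀ (f 0) i + X))) ∧
    |(eval y (G (f n) (ptr F J ω) i - G' (ptr F J ω) i) -
      eval (bt F ω) (G (f n) (ptr F J ω) i - G' (ptr F J ω) i)) - ∑ j ∈ Finset.Ico 0 i,
        ncp c i (G' (ptr F J ω)) (G (f n) (ptr F J ω) i - G' (ptr F J ω) i) (bt F ω) j *
          ((y (some (c j)) - eval y (G' (ptr F J ω) j)) -
            (bt F ω (some (c j)) - eval (bt F ω) (G' (ptr F J ω) j)))| ≤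
      2 ^ (C * Y) / 2 ^ (g₀ (f 0) i + q + X) ∧
    ∀ ks ≤ n, (X : ℝ) ≤ (b' - S) * ((o (f ks) - o (f 0)) * J) + Y → ∀ j < i,
      |ncp c i (G' (ptr F J ω)) (G (f n) (ptr F J ω) i - G' (ptr F J ω) i) (bt F ω) j -
        ncp c i (G' (ptr F J ω)) (G (f ks) (ptr F J ω) i - G' (ptr F J ω) i) (bt F ω) j| ≤
      2 ^ (C * Y) * (2 ^ g₀ (f 0) j / 2 ^ (g₀ (f 0) i + X)) := by
  have hgt' := fun i : ℕ => grd_two D i
  choose Cg hCg using hgt'
  obtain ⟨C₂, hC₂⟩ : ∃ C₂ : ℕ, C₂ = ∑ i ∈ range (r + 1), Cg i := ⟨_, rfl⟩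
  refine ⟨13 * C₂ + 1, by omega, ?_⟩
  intro m J F c Dr N M C₀ a Eb ηm o η σ lv b κ z B g₀ G H W G' κ' f jj n i
    q X Y S b' hD' hP' hGi hGb hc hi V hY hY3 hS hSb hq2 hSq hXq hXn ω hω y hy0 hyh
  have hf := V.fN
  have hst := V.st
  have hn := V.nY
  have hlv := V.lv1
  have hos := V.os
  have hSl := V.sS
  have hbl := V.sb
  have hCi : Cg i ≤ C₂ := by
    rw [hC₂]
    exact Finset.single_le_sum (f := Cg) (fun _ _ => Nat.zero_le _)
      (Finset.mem_range.2 (Nat.lt_succ_of_le hi))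
  have hJ : (0 : ℝ) ≤ J := Nat.cast_nonneg J
  have hC1 := W.C1
  have hηm0 : 0 ≤ ηm := (W.hη (f 0) (hf 0 (Nat.zero_le n))).1.trans
    (W.hη (f 0) (hf 0 (Nat.zero_le n))).2
  have hY3R : (3 : ℝ) ≤ Y := by exact_mod_cast hY3
  have hηY : ηm * J ≤ Y := by
    have h1 : ηm * J ≤ C₀ * (ηm * J) := le_mul_of_one_le_left (mul_nonneg hηm0 hJ) hC1
    linarith
  have hb0 : 0 ≤ b' := hS.trans hSb
  have hci : Set.InjOn c (Set.Iio (i + 1)) := hc.mono fun y hy => by
    rw [Set.mem_Iio] at hy ⊢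
    omega
  have hfs : (2 : ℝ) ^ ⌊C₀ * (ηm * J)⌋₊ ≤ 2 ^ Y := pow_le_pow_right₀ (by norm_num) (by
    have h3 : (⌊C₀ * (ηm * J)⌋₊ : ℝ) ≤ Y :=
      (Nat.floor_le (mul_nonneg (by linarith) (mul_nonneg hηm0 hJ))).trans hY
    exact_mod_cast h3)
  -- the windows
  have homon : ∀ k k', k ≤ k' → k' ≤ n → o (f k) ≤ o (f k') := by
    intro k k' hk
    induction hk with
    | refl => exact fun _ => le_rfl
    | step h ih => exact fun hk' => (ih (by omega)).trans (hst _ (by omega)).2.2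
  obtain ⟨s, hs⟩ : ∃ s : ℕ → ℝ, s = fun k => (o (f k) - o (f 0)) * J := ⟨_, rfl⟩
  have hs0 : s 0 = 0 := by rw [hs]; show (o (f 0) - o (f 0)) * (J : ℝ) = 0; rw [sub_self, zero_mul]
  have hsm : ∀ k k', k ≤ k' → k' ≤ n → s k ≤ s k' := by
    intro k k' hk hk'
    rw [hs]
    exact mul_le_mul_of_nonneg_right (by linarith [homon k k' hk hk']) hJ
  have hsd : ∀ k k', (o (f k') - o (f k)) * J = s k' - s k := by
    intro k k'
    rw [hs]
    show _ = (o (f k') - o (f 0)) * (J : ℝ) - (o (f k) - o (f 0)) * J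
    ring
  have hsnn : ∀ k ≤ n, 0 ≤ s k := fun k hk => by
    rw [← hs0]
    exact hsm 0 k (Nat.zero_le k) hk
  have hSq' : S * s n ≤ q + Y := by
    have := hSq
    rw [hsd, hs0, sub_zero] at this
    exact this
  have hXn' : (X : ℝ) ≤ q + (b' - 2 * S) * s n + Y := by
    have := hXn
    rw [hsd, hs0, sub_zero] at this
    exact this
  have hSk : ∀ k ≤ n, S * s k ≤ q + Y := fun k hk =>
    (mul_le_mul_of_nonneg_left (hsm k n hk le_rfl) hS).trans hSq'
  -- the radii of the product boxes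
  obtain ⟨Rr, hRr⟩ : ∃ Rr : ℕ → ℕ, Rr = fun k => max 2 (q - ⌈S * s k⌉₊) := ⟨_, rfl⟩
  have hcl : ∀ k ≤ n, S * s k ≤ (⌈S * s k⌉₊ : ℝ) ∧ (⌈S * s k⌉₊ : ℝ) ≤ S * s k + 1 := by
    intro k hk
    exact ⟨Nat.le_ceil _, (Nat.ceil_lt_add_one (mul_nonneg hS (hsnn k hk))).le⟩
  have hR1 : ∀ k ≤ n, (Rr k : ℝ) ≤ q - S * s k + Y + 2 := fun k hk => by
    rw [hRr]
    show ((max 2 (q - ⌈S * s k⌉₊) : ℕ) : ℝ) ≤ _
    have h1 := hSk k hk
    rw [Nat.cast_max, max_le_iff]
    constructor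
    · push_cast
      linarith
    · rcases le_or_gt ⌈S * s k⌉₊ q with h | h
      · rw [Nat.cast_sub h]
        linarith [(hcl k hk).1]
      · rw [Nat.sub_eq_zero_of_le h.le]
        push_cast
        linarith
  have hR2 : ∀ k ≤ n, q - S * s k - 1 ≤ (Rr k : ℝ) := fun k hk => by
    rw [hRr]
    show _ ≤ ((max 2 (q - ⌈S * s k⌉₊) : ℕ) : ℝ)
    rw [Nat.cast_max]
    refine le_trans ?_ (le_max_right _ _)
    rcases le_or_gt ⌈S * s k⌉₊ q with h | h
    · rw [Nat.cast_sub h]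
      linarith [(hcl k hk).2]
    · rw [Nat.sub_eq_zero_of_le h.le]
      push_cast
      have h2 : (q : ℝ) < ⌈S * s k⌉₊ := by exact_mod_cast h
      linarith [(hcl k hk).2]
  have hRq : ∀ k, Rr k ≤ q := fun k => by
    rw [hRr]
    exact max_le hq2 (Nat.sub_le _ _)
  -- the levels
  obtain ⟨L, hL⟩ : ∃ L : ℕ → ℕ → ℝ, L = fun k l => lv (f k) l * J := ⟨_, rfl⟩
  have hLd : ∀ k k' l, (lv (f k') l - lv (f k) l) * J = L k' l - L k l := by
    intro k k' l
    rw [hL]
    show _ = lv (f k') l * (J : ℝ) - lv (f k) l * J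
    ring
  have hg : ∀ k ≤ n, ∀ l ≤ i, L k l - Y ≤ (g₀ (f k) l : ℝ) ∧ (g₀ (f k) l : ℝ) ≤ L k l := by
    intro k hk l hl
    obtain ⟨-, -, a1, a2⟩ := W.g_num (hf k hk) (show l ≤ r by omega)
    rw [hL]
    exact ⟨by
      show lv (f k) l * (J : ℝ) - Y ≤ _
      linarith, a2⟩
  obtain ⟨Xk, hXk⟩ : ∃ Xk : ℕ → ℕ → ℕ, Xk = fun k l =>
    min (⌊b (f k) l * J⌋₊ + (⌊o (f (k + 1)) * J⌋₊ - ⌊o (f k) * J⌋₊)) (g₀ (f (k + 1)) l) := ⟨_, rfl⟩
  have hXkn : ∀ k < n, ∀ l ≤ i, L (k + 1) l - 3 * Y ≤ (Xk k l : ℝ) := by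
    intro k hk l hl
    obtain ⟨a1, -⟩ := W.g_num (hf k hk.le) (show l ≤ r by omega)
    obtain ⟨a2, -⟩ := hg (k + 1) (by omega) l hl
    have h1 := (hlv k hk l hl).1
    rw [hLd] at h1
    have e1 : L k l = lv (f k) l * J := by rw [hL]
    rw [hXk]
    show _ ≤ ((min (⌊b (f k) l * J⌋₊ + (⌊o (f (k + 1)) * J⌋₊ - ⌊o (f k) * J⌋₊))
      (g₀ (f (k + 1)) l) : ℕ) : ℝ)
    rw [Nat.cast_min, le_min_iff]
    constructor
    · push_cast
      have h2 : (0 : ℝ) ≤ ((⌊o (f (k + 1)) * J⌋₊ - ⌊o (f k) * J⌋₊ : ℕ) : ℝ) := Nat.cast_nonneg _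
      linarith
    · linarith
  -- the chains
  obtain ⟨fm, hfm⟩ : ∃ fm : ℕ → ℕ, fm = fun k => f (min k n) := ⟨_, rfl⟩
  have hfe : ∀ k ≤ n, fm k = f k := fun k hk => by
    rw [hfm]
    show f (min k n) = f k
    rw [min_eq_left hk]
  have hfN : ∀ k, fm k ≤ N := fun k => by
    rw [hfm]
    exact hf _ (min_le_right _ _)
  have hfm0 : fm 0 = f 0 := hfe 0 (Nat.zero_le n)
  have h25 : (2 : ℝ) ^ Y ≤ 2 ^ (12 * Y) := pow_le_pow_right₀ (by norm_num) (by omega)
  obtain ⟨ψ, hψ⟩ : ∃ ψ : ℕ → ℕ → MvPolynomial (Option (Fin m)) ℝ, ψ = fun k l =>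
    Nat.casesOn k (G' (ptr F J ω) l) (fun k' => G (fm k') (ptr F J ω) l) := ⟨_, rfl⟩
  have hψ0 : ∀ l, ψ 0 l = G' (ptr F J ω) l := fun l => by rw [hψ]; rfl
  have hψs : ∀ k l, ψ (k + 1) l = G (fm k) (ptr F J ω) l := fun k l => by rw [hψ]
  obtain ⟨Q, hQ⟩ : ∃ Q : ℕ → ℕ → MvPolynomial (Option (Fin m)) ℝ, Q = fun k l =>
    Nat.casesOn k (if l < i then G' (ptr F J ω) l - G (fm 0) (ptr F J ω) l +
      MvPolynomial.C (κ' ω l) else 0)
      (fun k' => Gno (c l) J J (fun y => G (fm k') y l) (ptr F J ω) -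
        G (fm (k' + 1)) (ptr F J ω) l) := ⟨_, rfl⟩
  have hQ0 : ∀ l, Q 0 l = if l < i then G' (ptr F J ω) l - G (fm 0) (ptr F J ω) l +
      MvPolynomial.C (κ' ω l) else 0 := fun l => by rw [hQ]; rfl
  have hQs : ∀ k l, Q (k + 1) l = Gno (c l) J J (fun y => G (fm k) y l) (ptr F J ω) -
        G (fm (k + 1)) (ptr F J ω) l := fun k l => by rw [hQ]
  obtain ⟨gg, hgg⟩ : ∃ gg : ℕ → ℕ → ℕ, gg = fun k l =>
    Nat.casesOn k (g₀ (f 0) l) (fun k' => g₀ (fm k') l) := ⟨_, rfl⟩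
  have hggs : ∀ k l, gg (k + 1) l = g₀ (fm k) l := fun k l => by rw [hgg]
  obtain ⟨XX, hXX⟩ : ∃ XX : ℕ → ℕ → ℕ, XX = fun k l =>
    Nat.casesOn k (if l < i then g₀ (f 0) l else g₀ (f 0) l + q + X) (fun k' => Xk k' l) :=
    ⟨_, rfl⟩
  have hXX0 : ∀ l, XX 0 l = if l < i then g₀ (f 0) l else g₀ (f 0) l + q + X := fun l => by
    rw [hXX]
    rfl
  have hXXs : ∀ k l, XX (k + 1) l = Xk k l := fun k l => by rw [hXX]
  obtain ⟨kk, hkk⟩ : ∃ kk : ℕ → ℕ → ℝ, kk = fun k l =>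
    Nat.casesOn k (if l < i then κ' ω l else 0) (fun k' => ((ptr F J ω).1 (c l) : ℝ) / 2 ^ J -
        eval (bho J J (ptr F J ω)) (G (fm k') (ptr F J ω) l)) := ⟨_, rfl⟩
  have hkk0 : ∀ l, kk 0 l = if l < i then κ' ω l else 0 := fun l => by rw [hkk]; rfl
  have hkks : ∀ k l, kk (k + 1) l = ((ptr F J ω).1 (c l) : ℝ) / 2 ^ J -
        eval (bho J J (ptr F J ω)) (G (fm k) (ptr F J ω) l) := fun k l => by rw [hkk]
  have hfib : FibD c i D (n + 1) 0 q (12 * Y) ψ Q gg XX (g₀ (f 0)) Rr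
      (fun k => ⌊o (fm k) * J⌋₊) kk (bt F ω) := by
    have hD : ∀ k l, (G (fm k) (ptr F J ω) l).totalDegree ≤ D := fun k l =>
      (W.ev (fm k) (hfN k)).ball.degG _ l
    have hP : ∀ k l, DepC c l (G (fm k) (ptr F J ω) l) := fun k l =>
      (W.ev (fm k) (hfN k)).ball.depG _ l
    refine ⟨hci, fun k l => ?_, fun k l => ?_, fun k l => ?_,
      fun k l => ?_, fun k hk l hl => ?_, fun k hk l hl b hb => ?_,
      fun k hk l hl => ?_, fun k hk => ?_, fun k hk k' hk' => ?_, fun k hk => ?_,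
      ?_, fun k hk l hl hl0 => ?_, fun k hk k' hk' l hl hl0 => ?_⟩
    · cases k with
      | zero => rw [hψ0]; exact hD' _ l
      | succ k => rw [hψs]; exact hD k l
    · cases k with
      | zero => rw [hψ0]; exact hP' _ l
      | succ k => rw [hψs]; exact hP k l
    · cases k with
      | zero =>
        rw [hQ0]
        split_ifs
        · refine (totalDegree_add _ _).trans (max_le ((totalDegree_sub _ _).trans (max_le
            (hD' _ l) (hD 0 l))) ?_)
          rw [totalDegree_C]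
          exact Nat.zero_le _
        · rw [totalDegree_zero]
          exact Nat.zero_le _
      | succ k =>
        rw [hQs]
        exact (totalDegree_sub _ _).trans (max_le
          (deg_Gno (c l) (fun y => G (fm k) y l) (ptr F J ω) (hD k l)) (hD (k + 1) l))
    · intro b b' h1 h2
      cases k with
      | zero =>
        rw [hQ0]
        split_ifs
        · rw [map_add, map_add, map_sub, map_sub, hP' _ l b b' h1 h2, hP 0 l b b' h1 h2, eval_C,
            eval_C]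
        · rw [map_zero, map_zero]
      | succ k =>
        rw [hQs]
        rw [map_sub, map_sub, depC_Gno (c l) (fun y => G (fm k) y l) (ptr F J ω) (hP k l) b b' h1 h2,
          hP (k + 1) l b b' h1 h2]
    · cases k with
      | zero =>
        rw [hQ0, hψ0, hψs, hkk0]
        split_ifs with h0
        · rfl
        · have e : l = i := by omega
          subst e
          rw [hfm0, hGi ω hω, sub_self, map_zero, add_zero]
      | succ k =>
        rw [hQs, hψs, hψs, hkks]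
        unfold Gno
        ring
    · -- the boxes
      cases k with
      | zero =>
        rw [hQ0, hXX0]
        split_ifs with h0
        · have hb' : NBx c (G (fm 0) (ptr F J ω)) (g₀ (fm 0)) ⌊o (fm 0) * J⌋₊ (F.t ω) l b := by
            have e1 : ψ (0 + 1) = G (fm 0) (ptr F J ω) := by
              funext l'
              exact hψs 0 l'
            have e2 : gg (0 + 1) = g₀ (fm 0) := by
              funext l'
              exact hggs 0 l'
            rw [e1, e2] at hb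
            exact hb
          rw [hfm0] at hb' ⊢
          rw [map_add, map_sub, eval_C]
          have h1 := hGb ω hω l h0 b hb'
          have e : eval b (G' (ptr F J ω) l) - eval b (G (f 0) (ptr F J ω) l) + κ' ω l =
            eval b (G' (ptr F J ω) l) + κ' ω l - eval b (G (f 0) (ptr F J ω) l) := by ring
          rw [e]
          exact h1.trans (div_le_div_of_nonneg_right h25 (by positivity))
        · rw [map_zero, abs_zero]
          positivity
      | succ k =>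
        rw [hQs, map_sub, hXXs]
        have hb' : NBx c (G (fm (k + 1)) (ptr F J ω)) (g₀ (fm (k + 1))) ⌊o (fm (k + 1)) * J⌋₊
            (F.t ω) l b := by
          have e1 : ψ (k + 1 + 1) = G (fm (k + 1)) (ptr F J ω) := by
            funext l'
            exact hψs (k + 1) l'
          have e2 : gg (k + 1 + 1) = g₀ (fm (k + 1)) := by
            funext l'
            exact hggs (k + 1) l'
          rw [e1, e2] at hb
          exact hb
        have hk' : k < n := by omega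
        rw [hfe (k + 1) (by omega)] at hb' ⊢
        rw [hfe k hk'.le]
        have h1 := W.bal (f k) (hf k hk'.le) (f (k + 1)) (hf (k + 1) hk') (jj k) (hst k hk').1
          (Nat.floor_le_floor (mul_le_mul_of_nonneg_right (hst k hk').2.2 hJ)) (hst k hk').2.1 ω hω l
          (by omega) b hb'
        refine h1.trans ?_
        rw [hXk]
        exact div_le_div_of_nonneg_right (hfs.trans h25) (by positivity)
    · -- the positions
      rw [hψs, hggs, hfe k (by omega)]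
      have h1 := (W.ev (f k) (hf k (by omega))).ball.pos ω hω l (by omega)
      exact h1.trans (div_le_div_of_nonneg_right (one_le_pow₀ (by norm_num)) (by positivity))
    · exact hRq k
    · rw [hRr]
      show max 2 (q - ⌈S * s k⌉₊) ≤ max 2 (q - ⌈S * s k'⌉₊)
      have h2 : ⌈S * s k'⌉₊ ≤ ⌈S * s k⌉₊ := Nat.ceil_le_ceil
        (mul_le_mul_of_nonneg_left (hsm k' k hk' (by omega)) hS)
      exact max_le_max le_rfl (by omega)
    · rw [hRr]
      exact le_max_left _ _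
    · have h1 : ((n + 1 : ℕ) : ℝ) ≤ 2 ^ Y + 2 ^ Y := by
        push_cast
        have : (1 : ℝ) ≤ 2 ^ Y := one_le_pow₀ (by norm_num)
        linarith
      refine h1.trans ?_
      rw [← two_mul, ← pow_succ']
      exact pow_le_pow_right₀ (by norm_num) (by omega)
    · rw [hggs, hfe k (by omega)]
      have h1 := (hg k (by omega) l hl.le).2
      have h2 := (hg 0 (Nat.zero_le n) l hl.le).1
      have h3 := hR1 k (by omega)
      have h4 := hSl 0 k (by omega) (by omega) l hl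
      rw [hLd, hsd, hs0, sub_zero] at h4
      have h5 : ((g₀ (f k) l + Rr k : ℕ) : ℝ) ≤ ((g₀ (f 0) l + q + 12 * Y : ℕ) : ℝ) := by
        push_cast
        linarith
      exact_mod_cast h5
    · rw [hggs, hfe k (by omega)]
      have h1 := (hg k (by omega) l hl.le).2
      have h3 := hR1 k (by omega)
      have h3' := hR2 k' (by omega)
      cases k' with
      | zero =>
        rw [hXX0, if_pos hl]
        have h2 := (hg 0 (Nat.zero_le n) l hl.le).1
        have h4 := hSl 0 k (by omega) (by omega) l hl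
        rw [hLd, hsd, hs0, sub_zero] at h4
        rw [hs0, mul_zero, sub_zero] at h3'
        have h5 : ((g₀ (f k) l + Rr k : ℕ) : ℝ) ≤ ((g₀ (f 0) l + Rr 0 + 12 * Y : ℕ) : ℝ) := by
          push_cast
          linarith
        exact_mod_cast h5
      | succ k' =>
        rw [hXXs]
        have h2 := hXkn k' (by omega) l hl.le
        have h4 := hSl (k' + 1) k hk' (by omega) l hl
        rw [hLd, hsd] at h4
        have h5 : ((g₀ (f k) l + Rr k : ℕ) : ℝ) ≤ ((Xk k' l + Rr (k' + 1) + 12 * Y : ℕ) : ℝ) := by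
          push_cast
          linarith
        exact_mod_cast h5
  -- the numbers of the target
  have hb1 : ∀ k ≤ n, b' * s k ≤ L k i - L 0 i + Y := by
    intro k hk
    have h1 := hbl k hk
    rw [hLd, hsd, hs0, sub_zero] at h1
    exact h1
  have hX0i : XX 0 i = g₀ (f 0) i + q + X := by
    rw [hXX0, if_neg (lt_irrefl i)]
  have hm1 : ∀ k < n + 1, g₀ (f 0) i + q ≤ XX k i + Rr k + 12 * Y := by
    intro k hk
    cases k with
    | zero =>
      rw [hX0i]
      omega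
    | succ k =>
      rw [hXXs]
      have h1 := (hg 0 (Nat.zero_le n) i le_rfl).2
      have h2 := hXkn k (by omega) i le_rfl
      have h3 := hR2 (k + 1) (by omega)
      have h4 := hb1 (k + 1) (by omega)
      have h5 : S * s (k + 1) ≤ b' * s (k + 1) :=
        mul_le_mul_of_nonneg_right hSb (hsnn (k + 1) (by omega))
      have h6 : ((g₀ (f 0) i + q : ℕ) : ℝ) ≤ ((Xk k i + Rr (k + 1) + 12 * Y : ℕ) : ℝ) := by
        push_cast
        linarith
      exact_mod_cast h6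
  have hm2 : ∀ k < n + 1, g₀ (f 0) i + q + X ≤ XX k i + 2 * Rr k + 12 * Y := by
    intro k hk
    cases k with
    | zero =>
      rw [hX0i]
      omega
    | succ k =>
      rw [hXXs]
      have h1 := (hg 0 (Nat.zero_le n) i le_rfl).2
      have h2 := hXkn k (by omega) i le_rfl
      have h3 := hR2 (k + 1) (by omega)
      have h4 := hb1 (k + 1) (by omega)
      have h5 : (X : ℝ) ≤ q + (b' - 2 * S) * s (k + 1) + Y := by
        rcases le_or_gt 0 (b' - 2 * S) with h8 | h8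
        · have := mul_nonneg h8 (hsnn (k + 1) (by omega))
          linarith
        · have h9 : (b' - 2 * S) * s n ≤ (b' - 2 * S) * s (k + 1) :=
            mul_le_mul_of_nonpos_left (hsm (k + 1) n (by omega) le_rfl) h8.le
          linarith
      have h6 : ((g₀ (f 0) i + q + X : ℕ) : ℝ) ≤ ((Xk k i + 2 * Rr (k + 1) + 12 * Y : ℕ) : ℝ) := by
        push_cast
        have h11 : (b' - 2 * S) * s (k + 1) = b' * s (k + 1) - 2 * (S * s (k + 1)) := by ring
        linarith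
      exact_mod_cast h6
  -- the conclusion
  have hexp : Cg i * (12 * Y + 1) ≤ (13 * C₂ + 1) * Y := by
    calc Cg i * (12 * Y + 1) ≤ C₂ * (13 * Y) := Nat.mul_le_mul hCi (by omega)
      _ ≤ _ := by nlinarith
  have hEx : (2 : ℝ) ^ (Cg i * (12 * Y + 1)) ≤ 2 ^ ((13 * C₂ + 1) * Y) :=
    pow_le_pow_right₀ (by norm_num) hexp
  have h1 := hCg i (Y := X) hfib (y := y) hy0 (fun _ _ h => absurd h (Nat.not_lt_zero _))
    (fun j hj => by
      rw [hψ0]
      exact hyh j hj)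
  have hψf : ψ 0 = G' (ptr F J ω) := funext hψ0
  have en : ψ (n + 1) i = G (f n) (ptr F J ω) i := by rw [hψs, hfe n le_rfl]
  obtain ⟨k1, k2, k5⟩ := h1
  obtain ⟨k3, k4⟩ := k2 hm2
  have k1' := k1 hm1
  rw [en, hψf] at k1' k3 k4
  refine ⟨fun j hj => (k1' j hj (Nat.zero_le _)).trans (mul_le_mul_of_nonneg_right hEx
      (by positivity)),
    fun j hj => (k3 j hj (Nat.zero_le _)).trans (mul_le_mul_of_nonneg_right hEx (by positivity)),
    k4.trans (div_le_div_of_nonneg_right hEx (by positivity)), fun ks hks hX j hj => ?_⟩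
  have hm3 : ∀ k, ks + 1 ≤ k → k < n + 1 → g₀ (f 0) i + q + X ≤ XX k i + Rr k + 12 * Y := by
    intro k hkk hk
    cases k with
    | zero => omega
    | succ k =>
      rw [hXXs]
      have h1 := (hg 0 (Nat.zero_le n) i le_rfl).2
      have h2 := hXkn k (by omega) i le_rfl
      have h3 := hR2 (k + 1) (by omega)
      have h4 := hb1 (k + 1) (by omega)
      have h5 : (X : ℝ) ≤ (b' - S) * s ks + Y := by
        have := hX
        rw [hsd, hs0, sub_zero] at this
        exact this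
      have h7 : (b' - S) * s ks ≤ (b' - S) * s (k + 1) :=
        mul_le_mul_of_nonneg_left (hsm ks (k + 1) (by omega) (by omega)) (by linarith)
      have h8 : (b' - S) * s (k + 1) = b' * s (k + 1) - S * s (k + 1) := by ring
      have h6 : ((g₀ (f 0) i + q + X : ℕ) : ℝ) ≤ ((Xk k i + Rr (k + 1) + 12 * Y : ℕ) : ℝ) := by
        push_cast
        linarith
      exact_mod_cast h6
  have k5' := k5 (ks + 1) (by omega) hm3 j hj (Nat.zero_le _)
  have eks : ψ (ks + 1) i = G (f ks) (ptr F J ω) i := by rw [hψs, hfe ks hks]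
  rw [en, eks, hψf] at k5'
  exact k5'.trans (mul_le_mul_of_nonneg_right hEx (by positivity))

end Pool.V0S
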