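import Pool.Agent.H87.V0S.Gp1

/-!
# Followers: near heights and gradients

`WDs`: the windows and the slopes, the places `k ≤ l < i` (the followers) of slope `s`. `Frm`: the
frame: the charts of the followers and of the target are those of the window `f 0`. `fol_near`: the
heights of the followers are near if those of the places `< k` are near and the charts of the last
window are the same.
-/

set_option autoImplicit false

namespace Pool.V0S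

open Finset Real MvPolynomial
open Pool.Agent.H49.Ent Pool.Agent.H32.Dense Pool.STK Pool.KA Pool.KSAT Pool.K2S Pool.PB Pool.S6C
open Pool.GEN Pool.CHT Pool.CHX Pool.ISO Pool.D2R

variable {m J : ℕ}

/-- **The windows and the slopes with followers.** -/
structure WDs (o : ℕ → ℝ) (lv : ℕ → ℕ → ℝ) (z : ℕ → ℕ → ℕ) (J N M : ℕ) (f jj : ℕ → ℕ)
    (n k i Y : ℕ) (s σ' : ℝ) : Prop extends WDt o lv z J N M f jj n i Y s σ' where
  s0 : 0 ≤ s
  sσ : s ≤ σ'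
  sf : ∀ a ≤ n, ∀ l, k ≤ l → l < i →
    s * ((o (f a) - o (f 0)) * J) ≤ (lv (f a) l - lv (f 0) l) * J + Y

/-- **The frame.** -/
structure Frm (F : Fam m J) (c : ℕ → Fin m) (k i D Y : ℕ) (B : F.Ω → Prop)
    (G₁ : PtT F → ℕ → MvPolynomial (Option (Fin m)) ℝ) (g₁ : ℕ → ℕ) (a₁ : ℕ)
    (G' : PtT F → ℕ → MvPolynomial (Option (Fin m)) ℝ) (κ' : F.Ω → ℕ → ℝ) : Prop where
  deg : ∀ y l, (G' y l).totalDegree ≤ D
  dep : ∀ y l, DepC c l (G' y l)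
  eq : ∀ ω, B ω → ∀ l, k ≤ l → l ≤ i → G' (ptr F J ω) l = G₁ (ptr F J ω) l
  nr : ∀ ω, B ω → ∀ l < k, ∀ b, NBx c (G₁ (ptr F J ω)) g₁ a₁ (F.t ω) l b →
    |eval b (G' (ptr F J ω) l) + κ' ω l - eval b (G₁ (ptr F J ω) l)| ≤ 2 ^ Y / 2 ^ g₁ l

section

variable {o : ℕ → ℝ} {lv : ℕ → ℕ → ℝ} {z : ℕ → ℕ → ℕ} {N M : ℕ} {f jj : ℕ → ℕ}
  {n n' k i l Y Y' : ℕ} {S b' s σ' : ℝ}

theorem WDt.le (h : WDt o lv z J N M f jj n i Y S b') (hn : n' ≤ n) :
    WDt o lv z J N M f jj n' i Y S b' where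
  fN := fun k hk => h.fN k (hk.trans hn)
  st := fun k hk => h.st k (lt_of_lt_of_le hk hn)
  nY := le_trans (by exact_mod_cast hn) h.nY
  lv1 := fun k hk => h.lv1 k (lt_of_lt_of_le hk hn)
  os := fun k hk => h.os k (lt_of_lt_of_le hk hn)
  sS := fun k k' h1 h2 => h.sS k k' h1 (h2.trans hn)
  sb := fun k hk => h.sb k (hk.trans hn)

theorem WDt.mono (h : WDt o lv z J N M f jj n i Y S b') (hY : Y ≤ Y') :
    WDt o lv z J N M f jj n i Y' S b' := by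
  have hR : (Y : ℝ) ≤ Y' := by exact_mod_cast hY
  exact
    { fN := h.fN
      st := h.st
      nY := h.nY.trans (pow_le_pow_right₀ (by norm_num) hY)
      lv1 := fun k hk l hl => ⟨(h.lv1 k hk l hl).1.trans hR, (h.lv1 k hk l hl).2.trans hR⟩
      os := fun k hk => (h.os k hk).trans hR
      sS := fun k k' h1 h2 l hl => (h.sS k k' h1 h2 l hl).trans (by linarith)
      sb := fun k hk => (h.sb k hk).trans (by linarith) }

theorem WDt.ome (h : WDt o lv z J N M f jj n i Y S b') {a b : ℕ} (hab : a ≤ b) (hb : b ≤ n) :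
    o (f a) ≤ o (f b) := by
  induction hab with
  | refl => exact le_rfl
  | step hk ih => exact (ih (by omega)).trans (h.st _ (by omega)).2.2

theorem WDt.omeJ (h : WDt o lv z J N M f jj n i Y S b') {a b : ℕ} (hab : a ≤ b) (hb : b ≤ n) :
    0 ≤ (o (f b) - o (f a)) * J :=
  mul_nonneg (by linarith [h.ome hab hb]) (Nat.cast_nonneg J)

theorem WDs.le (h : WDs o lv z J N M f jj n k i Y s σ') (hn : n' ≤ n) :
    WDs o lv z J N M f jj n' k i Y s σ' where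
  toWDt := h.toWDt.le hn
  s0 := h.s0
  sσ := h.sσ
  sf := fun a ha => h.sf a (ha.trans hn)

theorem WDs.mono (h : WDs o lv z J N M f jj n k i Y s σ') (hY : Y ≤ Y') :
    WDs o lv z J N M f jj n k i Y' s σ' where
  toWDt := h.toWDt.mono hY
  s0 := h.s0
  sσ := h.sσ
  sf := fun a ha l h1 h2 => (h.sf a ha l h1 h2).trans (by
    have hR : (Y : ℝ) ≤ Y' := by exact_mod_cast hY
    linarith)

/-- A follower as a target. -/
theorem WDs.fol (h : WDs o lv z J N M f jj n k i Y s σ') (hkl : k ≤ l) (hli : l < i) :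
    WDt o lv z J N M f jj n l Y s s where
  fN := h.fN
  st := h.st
  nY := h.nY
  lv1 := fun k hk l' hl' => h.lv1 k hk l' (by omega)
  os := fun k hk => (mul_le_mul_of_nonneg_right h.sσ (h.omeJ (Nat.le_succ k) hk)).trans (h.os k hk)
  sS := fun k k' h1 h2 l' hl' => h.sS k k' h1 h2 l' (by omega)
  sb := fun a ha => h.sf a ha l hkl hli

end

section

variable {F : Fam m J} {c : ℕ → Fin m} {k i D Y Y' : ℕ} {B : F.Ω → Prop}
  {G₁ : PtT F → ℕ → MvPolynomial (Option (Fin m)) ℝ} {g₁ : ℕ → ℕ} {a₁ : ℕ}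
  {G' : PtT F → ℕ → MvPolynomial (Option (Fin m)) ℝ} {κ' : F.Ω → ℕ → ℝ}

theorem Frm.mono (h : Frm F c k i D Y B G₁ g₁ a₁ G' κ') (hY : Y ≤ Y') :
    Frm F c k i D Y' B G₁ g₁ a₁ G' κ' where
  deg := h.deg
  dep := h.dep
  eq := h.eq
  nr := fun ω hω l hl b hb => (h.nr ω hω l hl b hb).trans (div_le_div_of_nonneg_right
    (pow_le_pow_right₀ (by norm_num) hY) (by positivity))

/-- The frame is near the charts of the window. -/
theorem Frm.all (h : Frm F c k i D Y B G₁ g₁ a₁ G' κ') : ∀ ω, B ω → ∀ l < i, ∀ b,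
    NBx c (G₁ (ptr F J ω)) g₁ a₁ (F.t ω) l b →
    |eval b (G' (ptr F J ω) l) + (if l < k then κ' ω l else 0) -
      eval b (G₁ (ptr F J ω) l)| ≤ 2 ^ Y / 2 ^ g₁ l := by
  intro ω hω l hl b hb
  split_ifs with h0
  · exact h.nr ω hω l h0 b hb
  · rw [h.eq ω hω l (by omega) hl.le, add_zero, sub_self, abs_zero]
    positivity

end

/-- **A point near a sample**, for the targets `k ≤ l ≤ i` over the frame. -/
theorem pt_tg (D r : ℕ) : ∃ C : ℕ, 1 ≤ C ∧ ∀ {m J : ℕ} {F : Fam m J} {c : ℕ → Fin m}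
    {Dr N M : ℕ} {C₀ a Eb ηm : ℝ} {o η σ : ℕ → ℝ} {lv b : ℕ → ℕ → ℝ}
    {κ : ℝ} {z : ℕ → ℕ → ℕ} {B : F.Ω → Prop} {g₀ : ℕ → ℕ → ℕ}
    {G : ℕ → PtT F → ℕ → MvPolynomial (Option (Fin m)) ℝ}
    {H : ℕ → LnT F → ℕ → MvPolynomial (Option (Fin m)) ℝ}
    (_ : WinB F c r D Dr N M C₀ a Eb ηm o η σ lv b κ z B g₀ G H)
    {G' : PtT F → ℕ → MvPolynomial (Option (Fin m)) ℝ} {κ' : F.Ω → ℕ → ℝ}
    {f jj : ℕ → ℕ} {n k i l q X Y : ℕ} {S b' : ℝ},
    Frm F c k i D Y B (G (f 0)) (g₀ (f 0)) ⌊o (f 0) * J⌋₊ G' κ' →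
    Set.InjOn c (Set.Iio (r + 1)) → i ≤ r → k ≤ l → l ≤ i → WDt o lv z J N M f jj n l Y S b' →
    C₀ * (ηm * J) ≤ Y → 3 ≤ Y → 0 ≤ S → S ≤ b' → 2 ≤ q →
    S * ((o (f n) - o (f 0)) * J) ≤ q + Y → (X : ℝ) ≤ q + Y →
    (X : ℝ) ≤ q + (b' - 2 * S) * ((o (f n) - o (f 0)) * J) + Y →
    ∀ ω, B ω → ∀ y : Option (Fin m) → ℝ, y none = bt F ω none →
    (∀ j < l, |(y (some (c j)) - eval y (G' (ptr F J ω) j)) -
      (bt F ω (some (c j)) - eval (bt F ω) (G' (ptr F J ω) j))| ≤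
        2 ^ 2 / 2 ^ (g₀ (f 0) j + q)) →
    (∀ j < l, |ncp c l (G' (ptr F J ω)) (G (f n) (ptr F J ω) l - G' (ptr F J ω) l) (bt F ω) j| ≤
      2 ^ (C * Y) * (2 ^ g₀ (f 0) j / 2 ^ g₀ (f 0) l)) ∧
    (∀ j < l, |ncp c l (G' (ptr F J ω)) (G (f n) (ptr F J ω) l - G' (ptr F J ω) l) y j -
      ncp c l (G' (ptr F J ω)) (G (f n) (ptr F J ω) l - G' (ptr F J ω) l) (bt F ω) j| ≤
      2 ^ (C * Y) * (2 ^ g₀ (f 0) j / 2 ^ (g₀ (f 0) l + X))) ∧
    |(eval y (G (f n) (ptr F J ω) l - G' (ptr F J ω) l) -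
      eval (bt F ω) (G (f n) (ptr F J ω) l - G' (ptr F J ω) l)) - ∑ j ∈ Finset.Ico 0 l,
        ncp c l (G' (ptr F J ω)) (G (f n) (ptr F J ω) l - G' (ptr F J ω) l) (bt F ω) j *
          ((y (some (c j)) - eval y (G' (ptr F J ω) j)) -
            (bt F ω (some (c j)) - eval (bt F ω) (G' (ptr F J ω) j)))| ≤
      2 ^ (C * Y) / 2 ^ (g₀ (f 0) l + q + X) ∧
    ∀ ks ≤ n, (X : ℝ) ≤ (b' - S) * ((o (f ks) - o (f 0)) * J) + Y → ∀ j < l,
      |ncp c l (G' (ptr F J ω)) (G (f n) (ptr F J ω) l - G' (ptr F J ω) l) (bt F ω) j -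
        ncp c l (G' (ptr F J ω)) (G (f ks) (ptr F J ω) l - G' (ptr F J ω) l) (bt F ω) j| ≤
      2 ^ (C * Y) * (2 ^ g₀ (f 0) j / 2 ^ (g₀ (f 0) l + X)) := by
  obtain ⟨C, hC, h⟩ := fib_pt D r
  refine ⟨C, hC, ?_⟩
  intro m J F c Dr N M C₀ a Eb ηm o η σ lv b κ z B g₀ G H W G' κ' f jj n k i l q X Y S b' T hc hi
    hkl hli V hY hY3 hS hSb hq2 hSq hXq hXn ω hω y hy0 hyh
  exact h W (G' := G') (κ' := fun ω l => if l < k then κ' ω l else 0) T.deg T.dep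
    (fun ω hω => T.eq ω hω l hkl hli) (fun ω hω l' hl' => T.all ω hω l' (by omega)) hc
    (hli.trans hi) V hY hY3 hS hSb hq2 hSq hXq hXn ω hω y hy0 hyh

/-- The bound of the sum of the first order. -/
theorem sum_first {i e E Q : ℕ} {γ : ℕ → ℕ} {nc Δ : ℕ → ℝ}
    (h1 : ∀ j < i, |nc j| ≤ 2 ^ e * (2 ^ γ j / 2 ^ γ i))
    (h2 : ∀ j < i, |Δ j| ≤ 2 ^ E / 2 ^ (γ j + Q)) :
    |∑ j ∈ Finset.Ico 0 i, nc j * Δ j| ≤ i * (2 ^ (e + E) / 2 ^ (γ i + Q)) := by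
  refine (Finset.abs_sum_le_sum_abs _ _).trans ((Finset.sum_le_sum (g := fun _ =>
    (2 : ℝ) ^ (e + E) / 2 ^ (γ i + Q)) fun j hj => ?_).trans (le_of_eq ?_))
  · rw [Finset.mem_Ico] at hj
    rw [abs_mul]
    refine (mul_le_mul (h1 j hj.2) (h2 j hj.2) (abs_nonneg _) (by positivity)).trans
      (le_of_eq ?_)
    rw [pow_add, pow_add, pow_add]
    field_simp
  · rw [Finset.sum_const, Nat.card_Ico, nsmul_eq_mul, Nat.sub_zero]

end Pool.V0S
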