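import Pool.Agent.H87.V0S.Gp2

/-!
# Near heights of the followers

`fol_near`: the heights of the followers are near if those of the places `< k` are near and the
charts of the last window are the same. `fol_pos`: the positions over the last window of a point with
near heights.
-/

set_option autoImplicit false

namespace Pool.V0S

open Finset Real MvPolynomial
open Pool.Agent.H49.Ent Pool.Agent.H32.Dense Pool.STK Pool.KA Pool.KSAT Pool.K2S Pool.PB Pool.S6C
open Pool.GEN Pool.CHT Pool.CHX Pool.ISO Pool.D2R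

variable {m J : ℕ}

/-- **Near heights of the followers.** -/
theorem fol_near (D r : ℕ) : ∃ C : ℕ, 1 ≤ C ∧ ∀ {m J : ℕ} {F : Fam m J} {c : ℕ → Fin m}
    {Dr N M : ℕ} {C₀ a Eb ηm : ℝ} {o η σ : ℕ → ℝ} {lv b : ℕ → ℕ → ℝ}
    {κ : ℝ} {z : ℕ → ℕ → ℕ} {B : F.Ω → Prop} {g₀ : ℕ → ℕ → ℕ}
    {G : ℕ → PtT F → ℕ → MvPolynomial (Option (Fin m)) ℝ}
    {H : ℕ → LnT F → ℕ → MvPolynomial (Option (Fin m)) ℝ}
    (_ : WinB F c r D Dr N M C₀ a Eb ηm o η σ lv b κ z B g₀ G H)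
    {G' : PtT F → ℕ → MvPolynomial (Option (Fin m)) ℝ} {κ' : F.Ω → ℕ → ℝ}
    {f jj : ℕ → ℕ} {n k i q Y : ℕ} {s σ' : ℝ},
    Frm F c k i D Y B (G (f 0)) (g₀ (f 0)) ⌊o (f 0) * J⌋₊ G' κ' →
    Set.InjOn c (Set.Iio (r + 1)) → i ≤ r → WDs o lv z J N M f jj n k i Y s σ' →
    C₀ * (ηm * J) ≤ Y → 3 ≤ Y →
    s * ((o (f n) - o (f 0)) * J) ≤ q + Y → (q : ℝ) ≤ s * ((o (f n) - o (f 0)) * J) + Y →
    ∀ ω ν, B ω → B ν → F.t ω = F.t ν →
    (∀ l ≤ i, G' (ptr F J ω) l = G' (ptr F J ν) l) →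
    (∀ l ≤ i, G (f n) (ptr F J ω) l = G (f n) (ptr F J ν) l) →
    (∀ j < k, |hgt F c G' ω j - hgt F c G' ν j| ≤ 2 ^ 2 / 2 ^ (g₀ (f 0) j + q)) →
    ∀ l < i, |hgt F c G' ω l - hgt F c G' ν l| ≤ 2 ^ (C * Y) / 2 ^ (g₀ (f 0) l + q) := by
  obtain ⟨C, hC, hpt⟩ := pt_tg D r
  obtain ⟨A, hA⟩ : ∃ A : ℕ, A = 2 * C + r + 8 := ⟨_, rfl⟩
  have hA1 : 1 ≤ A := by omega
  refine ⟨A ^ (r + 1), Nat.one_le_pow _ _ (by omega), ?_⟩
  intro m J F c Dr N M C₀ a Eb ηm o η σ lv b κ z B g₀ G H W G' κ' f jj n k i q Y s σ' T hc hi V hY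
    hY3 hq1 hq2 ω ν hω hν ht hG' hGn hV0
  have hJ : (0 : ℝ) ≤ J := Nat.cast_nonneg J
  have hY3R : (3 : ℝ) ≤ Y := by exact_mod_cast hY3
  have hηm0 : 0 ≤ ηm := (W.hη (f 0) (V.fN 0 (Nat.zero_le n))).1.trans
    (W.hη (f 0) (V.fN 0 (Nat.zero_le n))).2
  have hηY : ηm * J ≤ Y := by
    have h1 : ηm * J ≤ C₀ * (ηm * J) := le_mul_of_one_le_left (mul_nonneg hηm0 hJ) W.C1
    linarith
  have key : ∀ l ≤ i, ∀ j < l, |hgt F c G' ω j - hgt F c G' ν j| ≤
      2 ^ (A ^ l * Y) / 2 ^ (g₀ (f 0) j + q) := by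
    intro l
    induction l with
    | zero => exact fun _ j hj => absurd hj (Nat.not_lt_zero j)
    | succ l ih =>
      intro hl j hj
      have hAl : A ^ (l + 1) = A ^ l * A := pow_succ A l
      have hAl1 : 1 ≤ A ^ l := Nat.one_le_pow _ _ (by omega)
      have hAl2 : A ^ l ≤ A ^ (l + 1) := Nat.pow_le_pow_right hA1 (Nat.le_succ l)
      rcases Nat.lt_or_ge j l with hjl | hjl
      · exact (ih (by omega) j hjl).trans (div_le_div_of_nonneg_right (pow_le_pow_right₀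
          (by norm_num) (Nat.mul_le_mul_right _ hAl2)) (by positivity))
      have hjl' : j = l := by omega
      subst hjl'
      rcases Nat.lt_or_ge j k with hjk | hjk
      · refine (hV0 j hjk).trans (div_le_div_of_nonneg_right (pow_le_pow_right₀ (by norm_num) ?_)
          (by positivity))
        nlinarith
      -- a follower
      have hji : j < i := by omega
      have hjr : j ≤ r := by omega
      obtain ⟨E, hE⟩ : ∃ E : ℕ, E = A ^ j * Y := ⟨_, rfl⟩
      have hYE : Y ≤ E := by rw [hE]; exact Nat.le_mul_of_pos_left _ (by omega)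
      have hE' : A ^ (j + 1) * Y = A * E := by rw [hE, hAl]; ring
      rw [hE']
      have ih' : ∀ j' < j, |hgt F c G' ω j' - hgt F c G' ν j'| ≤
          2 ^ E / 2 ^ (g₀ (f 0) j' + q) := by rw [hE]; exact ih (by omega)
      have eG : G' (ptr F J ω) j = G (f 0) (ptr F J ω) j := T.eq ω hω j hjk hji.le
      have eGν : G' (ptr F J ν) j = G (f 0) (ptr F J ν) j := T.eq ν hν j hjk hji.le
      rcases Nat.lt_or_ge q (E + 2) with hqE | hqE
      · -- few digits
        have h1 := (W.ev (f 0) (V.fN 0 (Nat.zero_le n))).ball.pos ω hω j (by omega)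
        have h2 := (W.ev (f 0) (V.fN 0 (Nat.zero_le n))).ball.pos ν hν j (by omega)
        have e1 : hgt F c G' ω j = F.x ω (c j) - eval (bt F ω) (G (f 0) (ptr F J ω) j) := by
          unfold hgt
          rw [eG]
        have e2 : hgt F c G' ν j = F.x ν (c j) - eval (bt F ν) (G (f 0) (ptr F J ν) j) := by
          unfold hgt
          rw [eGν]
        rw [e1, e2]
        refine (abs_sub _ _).trans ((add_le_add h1 h2).trans ?_)
        rw [← add_div, div_le_div_iff₀ (by positivity) (by positivity), pow_add]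
        have h3 : (2 : ℝ) ^ q ≤ 2 ^ (E + 2) := pow_le_pow_right₀ (by norm_num) hqE.le
        have h4 : (2 : ℝ) ^ (E + 3) ≤ 2 ^ (A * E) := pow_le_pow_right₀ (by norm_num) (by nlinarith)
        have h5 : (2 : ℝ) ^ (E + 3) = 2 * 2 ^ (E + 2) := by rw [pow_succ]; ring
        have h6 : (0 : ℝ) < 2 ^ g₀ (f 0) j := by positivity
        calc (1 + 1) * (2 ^ g₀ (f 0) j * 2 ^ q) = 2 ^ g₀ (f 0) j * (2 * (2 : ℝ) ^ q) := by ring
          _ ≤ 2 ^ g₀ (f 0) j * 2 ^ (A * E) := mul_le_mul_of_nonneg_left (by linarith) h6.le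
          _ = _ := by ring
      -- many digits
      obtain ⟨q', hq'⟩ : ∃ q' : ℕ, q' = q - E := ⟨_, rfl⟩
      have hqq : q' + E = q := by omega
      have hqqR : (q : ℝ) = q' + E := by rw [← hqq]; push_cast; ring
      obtain ⟨Y', hY'⟩ : ∃ Y' : ℕ, Y' = Y + E := ⟨_, rfl⟩
      have hY'R : (Y' : ℝ) = Y + E := by rw [hY']; push_cast; ring
      have hE0 : (0 : ℝ) ≤ E := Nat.cast_nonneg E
      have h1 := hpt W (G' := G') (κ' := κ') (f := f) (jj := jj) (n := n) (k := k) (i := i) (l := j)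
        (q := q') (X := 0) (Y := Y') (S := s) (b' := s) (T.mono (by omega)) hc hi hjk hji.le
        ((V.fol hjk hji).mono (by omega)) (by rw [hY'R]; linarith) (by omega) V.s0 le_rfl
        (by omega) (by rw [hY'R]; linarith) (by rw [hY'R]; push_cast; positivity)
        (by rw [hY'R]; push_cast; nlinarith) ω hω (bt F ν) ht.symm (fun j' hj' => by
          have h2 := ih' j' hj'
          rw [abs_sub_comm] at h2
          unfold hgt at h2
          rw [← hG' j' (by omega)] at h2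
          refine h2.trans ?_
          rw [← hqq, ← Nat.add_assoc, Nat.add_assoc, Nat.add_comm q' E, ← Nat.add_assoc]
          rw [div_le_div_iff₀ (by positivity) (by positivity), ← pow_add, ← pow_add]
          exact pow_le_pow_right₀ (by norm_num) (by omega))
      obtain ⟨k1, -, k3, -⟩ := h1
      obtain ⟨Ψ, hΨ⟩ : ∃ Ψ : MvPolynomial (Option (Fin m)) ℝ,
        Ψ = G (f n) (ptr F J ω) j - G' (ptr F J ω) j := ⟨_, rfl⟩
      rw [← hΨ] at k1 k3
      -- the first order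
      have k4 : |∑ j' ∈ Finset.Ico 0 j, ncp c j (G' (ptr F J ω)) Ψ (bt F ω) j' *
          ((bt F ν (some (c j')) - eval (bt F ν) (G' (ptr F J ω) j')) -
            (bt F ω (some (c j')) - eval (bt F ω) (G' (ptr F J ω) j')))| ≤
          j * (2 ^ (C * Y' + E) / 2 ^ (g₀ (f 0) j + q)) :=
        sum_first (γ := g₀ (f 0)) k1 fun j' hj' => by
          have h2 := ih' j' hj'
          rw [abs_sub_comm] at h2
          unfold hgt at h2
          rw [← hG' j' (by omega)] at h2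
          exact h2
      have k5 : |eval (bt F ν) Ψ - eval (bt F ω) Ψ| ≤
          (j + 1) * (2 ^ (C * Y' + E) / 2 ^ (g₀ (f 0) j + q)) := by
        have e1 : (2 : ℝ) ^ (C * Y') / 2 ^ (g₀ (f 0) j + q' + 0) =
            2 ^ (C * Y' + E) / 2 ^ (g₀ (f 0) j + q) := by
          rw [← hqq, Nat.add_zero, ← Nat.add_assoc, pow_add _ (C * Y'), pow_add _ (g₀ (f 0) j + q')]
          field_simp
        rw [e1] at k3
        have e2 : eval (bt F ν) Ψ - eval (bt F ω) Ψ = ((eval (bt F ν) Ψ - eval (bt F ω) Ψ) -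
            ∑ j' ∈ Finset.Ico 0 j, ncp c j (G' (ptr F J ω)) Ψ (bt F ω) j' *
          ((bt F ν (some (c j')) - eval (bt F ν) (G' (ptr F J ω) j')) -
            (bt F ω (some (c j')) - eval (bt F ω) (G' (ptr F J ω) j')))) +
            ∑ j' ∈ Finset.Ico 0 j, ncp c j (G' (ptr F J ω)) Ψ (bt F ω) j' *
          ((bt F ν (some (c j')) - eval (bt F ν) (G' (ptr F J ω) j')) -
            (bt F ω (some (c j')) - eval (bt F ω) (G' (ptr F J ω) j'))) := by ring
        rw [e2]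
        refine (abs_add_le _ _).trans ((add_le_add k3 k4).trans (le_of_eq (by ring)))
      -- the positions over the last window
      have p1 := (W.ev (f n) (V.fN n le_rfl)).ball.pos ω hω j (by omega)
      have p2 := (W.ev (f n) (V.fN n le_rfl)).ball.pos ν hν j (by omega)
      have hgn : g₀ (f 0) j + q ≤ g₀ (f n) j + 4 * Y := by
        obtain ⟨-, -, -, a2⟩ := W.g_num (V.fN 0 (Nat.zero_le n)) hjr
        obtain ⟨-, -, a3, -⟩ := W.g_num (V.fN n le_rfl) hjr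
        have a4 := V.sf n le_rfl j hjk hji
        have a5 : (lv (f n) j - lv (f 0) j) * J = lv (f n) j * J - lv (f 0) j * J := by ring
        rw [a5] at a4
        have a6 : ((g₀ (f 0) j + q : ℕ) : ℝ) ≤ ((g₀ (f n) j + 4 * Y : ℕ) : ℝ) := by
          push_cast
          linarith
        exact_mod_cast a6
      have p3 : ∀ v : ℝ, |v| ≤ 1 / 2 ^ g₀ (f n) j → |v| ≤ 2 ^ (4 * Y) / 2 ^ (g₀ (f 0) j + q) := by
        intro v hv
        refine hv.trans ?_
        rw [div_le_div_iff₀ (by positivity) (by positivity), one_mul, ← pow_add]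
        exact pow_le_pow_right₀ (by norm_num) (by omega)
      have e3 : hgt F c G' ω j - hgt F c G' ν j =
          (F.x ω (c j) - eval (bt F ω) (G (f n) (ptr F J ω) j)) -
            (F.x ν (c j) - eval (bt F ν) (G (f n) (ptr F J ν) j)) -
          (eval (bt F ν) Ψ - eval (bt F ω) Ψ) := by
        unfold hgt
        rw [hΨ, ← hG' j hji.le, ← hGn j hji.le, map_sub, map_sub]
        ring
      rw [e3]
      refine (abs_sub _ _).trans ((add_le_add ((abs_sub _ _).trans (add_le_add (p3 _ p1)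
        (p3 _ p2))) k5).trans ?_)
      rw [← mul_div_assoc, ← add_div, ← add_div]
      refine div_le_div_of_nonneg_right ?_ (by positivity)
      have hjr' : ((j : ℝ) + 1) ≤ 2 ^ (r + 1) := by
        have h1 : j + 1 ≤ r + 1 := by omega
        have h2 : r + 1 < 2 ^ (r + 1) := Nat.lt_two_pow_self
        exact_mod_cast h1.trans h2.le
      have h7 : ((j : ℝ) + 1) * 2 ^ (C * Y' + E) ≤ 2 ^ (r + 1 + (C * Y' + E)) := by
        rw [pow_add _ (r + 1)]
        exact mul_le_mul_of_nonneg_right hjr' (by positivity)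
      have h8 : (2 : ℝ) ^ (4 * Y) ≤ 2 ^ (r + 1 + (C * Y' + E) + 4 * Y) :=
        pow_le_pow_right₀ (by norm_num) (by omega)
      have h9 : (2 : ℝ) ^ (r + 1 + (C * Y' + E)) ≤ 2 ^ (r + 1 + (C * Y' + E) + 4 * Y) :=
        pow_le_pow_right₀ (by norm_num) (by omega)
      have h10 : 4 * (2 : ℝ) ^ (r + 1 + (C * Y' + E) + 4 * Y) ≤ 2 ^ (A * E) := by
        have e : 4 * (2 : ℝ) ^ (r + 1 + (C * Y' + E) + 4 * Y) =
            2 ^ (r + 1 + (C * Y' + E) + 4 * Y + 2) := by rw [pow_add _ _ 2]; ring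
        rw [e]
        refine pow_le_pow_right₀ (by norm_num) ?_
        rw [hY', hA]
        have h11 : C * (Y + E) ≤ C * (2 * E) := Nat.mul_le_mul_left _ (by omega)
        have h12 : (2 * C + r + 8) * E = C * (2 * E) + r * E + 8 * E := by ring
        have h13 : r ≤ r * E := Nat.le_mul_of_pos_right _ (by omega)
        omega
      have h14 : (0 : ℝ) < 2 ^ (r + 1 + (C * Y' + E) + 4 * Y) := by positivity
      linarith
  intro l hl
  refine (key (l + 1) (by omega) l (Nat.lt_succ_self l)).trans (div_le_div_of_nonneg_right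
    (pow_le_pow_right₀ (by norm_num) (Nat.mul_le_mul_right _ (Nat.pow_le_pow_right hA1
      (by omega)))) (by positivity))

/-- **The positions over the last window** of a point with near heights. -/
theorem fol_pos (D r : ℕ) : ∃ C : ℕ, 1 ≤ C ∧ ∀ {m J : ℕ} {F : Fam m J} {c : ℕ → Fin m}
    {Dr N M : ℕ} {C₀ a Eb ηm : ℝ} {o η σ : ℕ → ℝ} {lv b : ℕ → ℕ → ℝ}
    {κ : ℝ} {z : ℕ → ℕ → ℕ} {B : F.Ω → Prop} {g₀ : ℕ → ℕ → ℕ}
    {G : ℕ → PtT F → ℕ → MvPolynomial (Option (Fin m)) ℝ}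
    {H : ℕ → LnT F → ℕ → MvPolynomial (Option (Fin m)) ℝ}
    (_ : WinB F c r D Dr N M C₀ a Eb ηm o η σ lv b κ z B g₀ G H)
    {G' : PtT F → ℕ → MvPolynomial (Option (Fin m)) ℝ} {κ' : F.Ω → ℕ → ℝ}
    {f jj : ℕ → ℕ} {n k i q Y : ℕ} {s σ' : ℝ},
    Frm F c k i D Y B (G (f 0)) (g₀ (f 0)) ⌊o (f 0) * J⌋₊ G' κ' →
    Set.InjOn c (Set.Iio (r + 1)) → i ≤ r → WDs o lv z J N M f jj n k i Y s σ' →
    C₀ * (ηm * J) ≤ Y → 3 ≤ Y → 2 ≤ q → s * ((o (f n) - o (f 0)) * J) ≤ q + Y →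
    ∀ ν, B ν → ∀ y : Option (Fin m) → ℝ, y none = bt F ν none →
    (∀ j < i, |(y (some (c j)) - eval y (G' (ptr F J ν) j)) -
      (bt F ν (some (c j)) - eval (bt F ν) (G' (ptr F J ν) j))| ≤
        2 ^ 2 / 2 ^ (g₀ (f 0) j + q)) →
    ∀ l, k ≤ l → l < i →
      |y (some (c l)) - eval y (G (f n) (ptr F J ν) l)| ≤ 2 ^ (C * Y) / 2 ^ g₀ (f n) l := by
  obtain ⟨C, hC, hpt⟩ := pt_tg D r
  refine ⟨C + r + 10, by omega, ?_⟩
  intro m J F c Dr N M C₀ a Eb ηm o η σ lv b κ z B g₀ G H W G' κ' f jj n k i q Y s σ' T hc hi V hY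
    hY3 hq2 hq1 ν hν y hy0 hyh l hkl hli
  have hJ : (0 : ℝ) ≤ J := Nat.cast_nonneg J
  have hlr : l ≤ r := by omega
  have hY3R : (3 : ℝ) ≤ Y := by exact_mod_cast hY3
  have hηm0 : 0 ≤ ηm := (W.hη (f 0) (V.fN 0 (Nat.zero_le n))).1.trans
    (W.hη (f 0) (V.fN 0 (Nat.zero_le n))).2
  have hηY : ηm * J ≤ Y := by
    have h1 : ηm * J ≤ C₀ * (ηm * J) := le_mul_of_one_le_left (mul_nonneg hηm0 hJ) W.C1
    linarith
  have h1 := hpt W (G' := G') (κ' := κ') (f := f) (jj := jj) (n := n) (k := k) (i := i) (l := l)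
    (q := q) (X := 0) (Y := Y) (S := s) (b' := s) T hc hi hkl hli.le (V.fol hkl hli) hY hY3 V.s0
    le_rfl hq2 hq1 (by push_cast; positivity) (by push_cast; linarith) ν hν y hy0
    (fun j' hj' => hyh j' (by omega))
  obtain ⟨k1, -, k3, -⟩ := h1
  obtain ⟨Ψ, hΨ⟩ : ∃ Ψ : MvPolynomial (Option (Fin m)) ℝ,
    Ψ = G (f n) (ptr F J ν) l - G' (ptr F J ν) l := ⟨_, rfl⟩
  rw [← hΨ] at k1 k3
  have k4 : |∑ j' ∈ Finset.Ico 0 l, ncp c l (G' (ptr F J ν)) Ψ (bt F ν) j' *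
      ((y (some (c j')) - eval y (G' (ptr F J ν) j')) -
        (bt F ν (some (c j')) - eval (bt F ν) (G' (ptr F J ν) j')))| ≤
      l * (2 ^ (C * Y + 2) / 2 ^ (g₀ (f 0) l + q)) :=
    sum_first (γ := g₀ (f 0)) k1 fun j' hj' => hyh j' (by omega)
  have p1 := (W.ev (f n) (V.fN n le_rfl)).ball.pos ν hν l (by omega)
  have hgn : g₀ (f n) l ≤ g₀ (f 0) l + q + 4 * Y := by
    obtain ⟨-, -, a1, -⟩ := W.g_num (V.fN 0 (Nat.zero_le n)) hlr
    obtain ⟨-, -, -, a3⟩ := W.g_num (V.fN n le_rfl) hlr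
    have a4 := V.sS 0 n (Nat.zero_le n) le_rfl l hli
    have a5 : (lv (f n) l - lv (f 0) l) * J = lv (f n) l * J - lv (f 0) l * J := by ring
    rw [a5] at a4
    have a6 : (g₀ (f n) l : ℝ) ≤ ((g₀ (f 0) l + q + 4 * Y : ℕ) : ℝ) := by
      push_cast
      linarith
    exact_mod_cast a6
  have p2 : ∀ (v : ℝ) (e : ℕ), |v| ≤ 2 ^ e / 2 ^ (g₀ (f 0) l + q) →
      |v| ≤ 2 ^ (e + 4 * Y) / 2 ^ g₀ (f n) l := by
    intro v e hv
    refine hv.trans ?_
    rw [div_le_div_iff₀ (by positivity) (by positivity), ← pow_add, ← pow_add]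
    exact pow_le_pow_right₀ (by norm_num) (by omega)
  have e1 : y (some (c l)) - eval y (G (f n) (ptr F J ν) l) =
      (bt F ν (some (c l)) - eval (bt F ν) (G (f n) (ptr F J ν) l)) +
      ((y (some (c l)) - eval y (G' (ptr F J ν) l)) -
        (bt F ν (some (c l)) - eval (bt F ν) (G' (ptr F J ν) l))) -
      ((eval y Ψ - eval (bt F ν) Ψ) - ∑ j' ∈ Finset.Ico 0 l, ncp c l (G' (ptr F J ν)) Ψ
        (bt F ν) j' * ((y (some (c j')) - eval y (G' (ptr F J ν) j')) -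
        (bt F ν (some (c j')) - eval (bt F ν) (G' (ptr F J ν) j')))) -
      ∑ j' ∈ Finset.Ico 0 l, ncp c l (G' (ptr F J ν)) Ψ
        (bt F ν) j' * ((y (some (c j')) - eval y (G' (ptr F J ν) j')) -
        (bt F ν (some (c j')) - eval (bt F ν) (G' (ptr F J ν) j'))) := by
    rw [hΨ, map_sub, map_sub]
    ring
  have k4' : |∑ j' ∈ Finset.Ico 0 l, ncp c l (G' (ptr F J ν)) Ψ (bt F ν) j' *
      ((y (some (c j')) - eval y (G' (ptr F J ν) j')) -
        (bt F ν (some (c j')) - eval (bt F ν) (G' (ptr F J ν) j')))| ≤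
      2 ^ (r + (C * Y + 2)) / 2 ^ (g₀ (f 0) l + q) := by
    refine k4.trans ?_
    rw [← mul_div_assoc]
    refine div_le_div_of_nonneg_right ?_ (by positivity)
    rw [pow_add _ r]
    refine mul_le_mul_of_nonneg_right ?_ (by positivity)
    have h2 : r < 2 ^ r := Nat.lt_two_pow_self
    exact_mod_cast hlr.trans h2.le
  rw [e1]
  have q1 : |bt F ν (some (c l)) - eval (bt F ν) (G (f n) (ptr F J ν) l)| ≤
      2 ^ 0 / 2 ^ g₀ (f n) l := by
    rw [pow_zero]
    exact p1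
  have q2 := p2 _ 2 (hyh l hli)
  have q3 := p2 _ (C * Y) (by rw [Nat.add_zero] at k3; exact k3)
  have q4 := p2 _ (r + (C * Y + 2)) k4'
  refine (abs_sub _ _).trans ((add_le_add ((abs_sub _ _).trans (add_le_add ((abs_add_le _ _).trans
    (add_le_add q1 q2)) q3)) q4).trans ?_)
  rw [← add_div, ← add_div, ← add_div]
  refine div_le_div_of_nonneg_right ?_ (by positivity)
  obtain ⟨E, hE⟩ : ∃ E : ℕ, E = r + (C * Y + 2) + 4 * Y := ⟨_, rfl⟩
  have f1 : (2 : ℝ) ^ 0 ≤ 2 ^ E := pow_le_pow_right₀ (by norm_num) (by omega)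
  have f2 : (2 : ℝ) ^ (2 + 4 * Y) ≤ 2 ^ E := pow_le_pow_right₀ (by norm_num) (by omega)
  have f3 : (2 : ℝ) ^ (C * Y + 4 * Y) ≤ 2 ^ E := pow_le_pow_right₀ (by norm_num) (by omega)
  have f4 : (2 : ℝ) ^ (r + (C * Y + 2) + 4 * Y) ≤ 2 ^ E := pow_le_pow_right₀ (by norm_num)
    (by omega)
  have f5 : 4 * (2 : ℝ) ^ E ≤ 2 ^ ((C + r + 10) * Y) := by
    have e : 4 * (2 : ℝ) ^ E = 2 ^ (E + 2) := by rw [pow_add _ _ 2]; ring
    rw [e]
    refine pow_le_pow_right₀ (by norm_num) ?_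
    have e2 : (C + r + 10) * Y = C * Y + r * Y + 10 * Y := by ring
    have e3 : r ≤ r * Y := Nat.le_mul_of_pos_right _ (by omega)
    omega
  linarith

end Pool.V0S
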