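import Pool.Agent.H87.V0S.Gp3

/-!
# The relative gradient of the target at two samples

`gnh_all`: the relative gradient of `G (f n) i` over the frame, for all directions `j < i`: bound, and
the comparison of two samples with the same time, the same charts of the window `f ks` and near
heights of the places `< k`.
-/

set_option autoImplicit false

namespace Pool.V0S

open Finset Real MvPolynomial
open Pool.Agent.H49.Ent Pool.Agent.H32.Dense Pool.STK Pool.KA Pool.KSAT Pool.K2S Pool.PB Pool.S6C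
open Pool.GEN Pool.CHT Pool.CHX Pool.ISO Pool.D2R

variable {m J : ℕ}

theorem gnh_abs {i j e X : ℕ} {γ : ℕ → ℕ} {a : ℝ}
    (h : |a| ≤ 2 ^ e * (2 ^ γ j / 2 ^ (γ i + X))) : |2 ^ γ i / 2 ^ γ j * a| ≤ 2 ^ e / 2 ^ X := by
  rw [abs_mul, abs_of_nonneg (by positivity : (0 : ℝ) ≤ 2 ^ γ i / 2 ^ γ j)]
  refine (mul_le_mul_of_nonneg_left h (by positivity)).trans (le_of_eq ?_)
  rw [pow_add]
  field_simp

/-- **The relative gradient** at two samples. -/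
theorem gnh_all (D r : ℕ) : ∃ C : ℕ, 1 ≤ C ∧ ∀ {m J : ℕ} {F : Fam m J} {c : ℕ → Fin m}
    {Dr N M : ℕ} {C₀ a Eb ηm : ℝ} {o η σ : ℕ → ℝ} {lv b : ℕ → ℕ → ℝ}
    {κ : ℝ} {z : ℕ → ℕ → ℕ} {B : F.Ω → Prop} {g₀ : ℕ → ℕ → ℕ}
    {G : ℕ → PtT F → ℕ → MvPolynomial (Option (Fin m)) ℝ}
    {H : ℕ → LnT F → ℕ → MvPolynomial (Option (Fin m)) ℝ}
    (_ : WinB F c r D Dr N M C₀ a Eb ηm o η σ lv b κ z B g₀ G H)
    {G' : PtT F → ℕ → MvPolynomial (Option (Fin m)) ℝ} {κ' : F.Ω → ℕ → ℝ}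
    {f jj : ℕ → ℕ} {n ks k i q X Y : ℕ} {s σ' : ℝ},
    Frm F c k i D Y B (G (f 0)) (g₀ (f 0)) ⌊o (f 0) * J⌋₊ G' κ' →
    Set.InjOn c (Set.Iio (r + 1)) → i ≤ r → k ≤ i → WDs o lv z J N M f jj n k i Y s σ' →
    C₀ * (ηm * J) ≤ Y → 3 ≤ Y → ks ≤ n → 2 ≤ q →
    s * ((o (f n) - o (f 0)) * J) ≤ q + Y →
    (X : ℝ) ≤ s * ((o (f ks) - o (f 0)) * J) + Y →
    (X : ℝ) ≤ (σ' - s) * ((o (f ks) - o (f 0)) * J) + Y →
    (∀ ω, B ω → ∀ j < i, |gnh F c i (g₀ (f 0)) G' (G (f n)) ω j| ≤ 2 ^ (C * Y)) ∧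
    ∀ ω ν, B ω → B ν → F.t ω = F.t ν →
    (∀ l ≤ i, G' (ptr F J ω) l = G' (ptr F J ν) l) →
    (∀ l ≤ i, G (f ks) (ptr F J ω) l = G (f ks) (ptr F J ν) l) →
    (∀ j < k, |hgt F c G' ω j - hgt F c G' ν j| ≤ 2 ^ 2 / 2 ^ (g₀ (f 0) j + q)) →
    ∀ j < i, |gnh F c i (g₀ (f 0)) G' (G (f n)) ω j - gnh F c i (g₀ (f 0)) G' (G (f n)) ν j| ≤
      2 ^ (C * Y) / 2 ^ X := by
  obtain ⟨C, hC, hpt⟩ := pt_tg D r
  obtain ⟨C', hC', hfol⟩ := fol_near D r
  obtain ⟨A, hA⟩ : ∃ A : ℕ, A = 4 * C + 2 * C * C' + 2 * C' + 12 := ⟨_, rfl⟩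
  refine ⟨2 * A, by omega, ?_⟩
  intro m J F c Dr N M C₀ a Eb ηm o η σ lv b κ z B g₀ G H W G' κ' f jj n ks k i q X Y s σ' T hc hi
    hki V hY hY3 hks hq2 hq1 hX1 hX2
  have hJ : (0 : ℝ) ≤ J := Nat.cast_nonneg J
  have hY3R : (3 : ℝ) ≤ Y := by exact_mod_cast hY3
  have hs0 := V.s0
  have hsσ := V.sσ
  obtain ⟨sn, hsn⟩ : ∃ sn : ℝ, sn = (o (f n) - o (f 0)) * J := ⟨_, rfl⟩
  obtain ⟨sk, hsk⟩ : ∃ sk : ℝ, sk = (o (f ks) - o (f 0)) * J := ⟨_, rfl⟩
  have hskn : sk ≤ sn := by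
    rw [hsk, hsn]
    exact mul_le_mul_of_nonneg_right (by linarith [V.ome hks le_rfl]) hJ
  have hsk0 : 0 ≤ sk := by
    rw [hsk]
    exact V.omeJ (Nat.zero_le _) hks
  rw [← hsn] at hq1
  rw [← hsk] at hX1 hX2
  have e1 : s * sk ≤ s * sn := mul_le_mul_of_nonneg_left hskn hs0
  have e2 : (σ' - s) * sk ≤ (σ' - s) * sn := mul_le_mul_of_nonneg_left hskn (by linarith)
  -- the same sample
  have h3Y : ((3 * Y : ℕ) : ℝ) = 3 * Y := by push_cast; ring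
  have hself : ∀ ω, B ω → (∀ j < i, |ncp c i (G' (ptr F J ω))
      (G (f n) (ptr F J ω) i - G' (ptr F J ω) i) (bt F ω) j| ≤
        2 ^ (C * (3 * Y)) * (2 ^ g₀ (f 0) j / 2 ^ g₀ (f 0) i)) ∧
      ∀ j < i, |ncp c i (G' (ptr F J ω)) (G (f n) (ptr F J ω) i - G' (ptr F J ω) i) (bt F ω) j -
        ncp c i (G' (ptr F J ω)) (G (f ks) (ptr F J ω) i - G' (ptr F J ω) i) (bt F ω) j| ≤
        2 ^ (C * (3 * Y)) * (2 ^ g₀ (f 0) j / 2 ^ (g₀ (f 0) i + X)) := by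
    intro ω hω
    have h1 := hpt W (G' := G') (κ' := κ') (f := f) (jj := jj) (n := n) (k := k) (i := i) (l := i)
      (q := q) (X := X) (Y := 3 * Y) (S := s) (b' := σ') (T.mono (by omega)) hc hi hki le_rfl
      (V.toWDt.mono (by omega)) (by rw [h3Y]; linarith) (by omega) hs0 hsσ hq2
      (by rw [← hsn, h3Y]; linarith) (by rw [h3Y]; linarith)
      (by rw [← hsn, h3Y]; nlinarith) ω hω (bt F ω) rfl
      (fun j _ => by rw [sub_self, abs_zero]; positivity)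
    exact ⟨h1.1, fun j hj => h1.2.2.2 ks hks (by rw [← hsk, h3Y]; linarith) j hj⟩
  have hbd : ∀ ω, B ω → ∀ j < i, |gnh F c i (g₀ (f 0)) G' (G (f n)) ω j| ≤ 2 ^ (A * Y) := by
    intro ω hω j hj
    have h1 : |2 ^ g₀ (f 0) i / 2 ^ g₀ (f 0) j * ncp c i (G' (ptr F J ω))
        (G (f n) (ptr F J ω) i - G' (ptr F J ω) i) (bt F ω) j| ≤ 2 ^ (C * (3 * Y)) / 2 ^ 0 :=
      gnh_abs (X := 0) ((hself ω hω).1 j hj)
    rw [pow_zero, div_one] at h1
    refine h1.trans (pow_le_pow_right₀ (by norm_num) ?_)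
    have : C * (3 * Y) = 3 * C * Y := by ring
    rw [this]
    exact Nat.mul_le_mul_right _ (by rw [hA]; nlinarith)
  refine ⟨fun ω hω j hj => (hbd ω hω j hj).trans (pow_le_pow_right₀ (by norm_num)
    (Nat.mul_le_mul_right _ (by omega))), ?_⟩
  intro ω ν hω hν ht hG' hGk hV0 j hj
  -- the digits of the followers
  obtain ⟨qq, hqq⟩ : ∃ qq : ℕ, qq = min q ⌊s * sk⌋₊ := ⟨_, rfl⟩
  have hqq1 : qq ≤ q := by rw [hqq]; exact min_le_left _ _
  have hskk : 0 ≤ s * sk := mul_nonneg hs0 hsk0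
  have hqq2 : (qq : ℝ) ≤ s * sk := by
    rw [hqq]
    exact le_trans (by exact_mod_cast min_le_right q ⌊s * sk⌋₊) (Nat.floor_le hskk)
  have hqq3 : s * sk ≤ qq + Y + 1 := by
    rw [hqq, Nat.cast_min]
    rcases le_total (q : ℝ) (⌊s * sk⌋₊ : ℝ) with h | h
    · rw [min_eq_left h]
      linarith
    · rw [min_eq_right h]
      linarith [(Nat.lt_floor_add_one (s * sk)).le]
  obtain ⟨E, hE⟩ : ∃ E : ℕ, E = C' * (2 * Y) := ⟨_, rfl⟩
  have h2Y : ((2 * Y : ℕ) : ℝ) = 2 * Y := by push_cast; ring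
  rcases Nat.lt_or_ge qq (E + 2) with hqE | hqE
  · -- few digits
    have h1 := hbd ω hω j hj
    have h2 := hbd ν hν j hj
    have hXE : X ≤ E + 2 * Y + 3 := by
      have h3 : (qq : ℝ) ≤ E + 1 := by exact_mod_cast (by omega : qq ≤ E + 1)
      have h4 : (X : ℝ) ≤ ((E + 2 * Y + 3 : ℕ) : ℝ) := by
        push_cast
        linarith
      exact_mod_cast h4
    refine (abs_sub _ _).trans ((add_le_add h1 h2).trans ?_)
    rw [le_div_iff₀ (by positivity), ← two_mul, ← pow_succ', ← pow_add]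
    refine pow_le_pow_right₀ (by norm_num) ?_
    have h5 : 2 * A * Y = A * Y + A * Y := by ring
    have h6 : E + 2 * Y + 3 + 1 ≤ A * Y := by
      rw [hE, hA]
      have : (4 * C + 2 * C * C' + 2 * C' + 12) * Y = 4 * C * Y + 2 * C * C' * Y + C' * (2 * Y) +
        12 * Y := by ring
      rw [this]
      omega
    omega
  -- the followers are near
  have hf := hfol W (G' := G') (κ' := κ') (f := f) (jj := jj) (n := ks) (k := k) (i := i) (q := qq)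
    (Y := 2 * Y) (s := s) (σ' := σ') (T.mono (by omega)) hc hi ((V.le hks).mono (by omega))
    (by rw [h2Y]; linarith) (by omega) (by rw [← hsk, h2Y]; linarith)
    (by rw [← hsk, h2Y]; linarith) ω ν hω hν ht hG' hGk
    (fun j' hj' => (hV0 j' hj').trans (div_le_div_of_nonneg_left (by norm_num) (by positivity)
      (pow_le_pow_right₀ (by norm_num) (by omega))))
  rw [← hE] at hf
  obtain ⟨q', hq'⟩ : ∃ q' : ℕ, q' = qq - E := ⟨_, rfl⟩
  have hqqE : q' + E = qq := by omega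
  have hqqR : (qq : ℝ) = q' + E := by rw [← hqqE]; push_cast; ring
  obtain ⟨Y', hY'⟩ : ∃ Y' : ℕ, Y' = 4 * Y + E := ⟨_, rfl⟩
  have hY'R : (Y' : ℝ) = 4 * Y + E := by rw [hY']; push_cast; ring
  have hE0 : (0 : ℝ) ≤ E := Nat.cast_nonneg E
  have h1 := hpt W (G' := G') (κ' := κ') (f := f) (jj := jj) (n := ks) (k := k) (i := i) (l := i)
    (q := q') (X := X) (Y := Y') (S := s) (b' := σ') (T.mono (by omega)) hc hi hki le_rfl
    ((V.toWDt.le hks).mono (by omega)) (by rw [hY'R]; linarith) (by omega) hs0 hsσ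
    (by omega) (by rw [← hsk, hY'R]; linarith) (by rw [hY'R]; linarith)
    (by rw [← hsk, hY'R]; nlinarith) ω hω (bt F ν) ht.symm (fun j' hj' => by
      have h2 := hf j' hj'
      rw [abs_sub_comm] at h2
      unfold hgt at h2
      rw [← hG' j' hj'.le] at h2
      refine h2.trans ?_
      rw [← hqqE, ← Nat.add_assoc, Nat.add_assoc, Nat.add_comm q' E, ← Nat.add_assoc]
      rw [div_le_div_iff₀ (by positivity) (by positivity), ← pow_add, ← pow_add]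
      exact pow_le_pow_right₀ (by norm_num) (by omega))
  have k2 := h1.2.1 j hj
  -- the two samples over the window `ks`
  have e3 : ncp c i (G' (ptr F J ω)) (G (f ks) (ptr F J ω) i - G' (ptr F J ω) i) (bt F ν) j =
      ncp c i (G' (ptr F J ν)) (G (f ks) (ptr F J ν) i - G' (ptr F J ν) i) (bt F ν) j := by
    rw [hGk i le_rfl, hG' i le_rfl]
    exact ncp_charts (fun l hl => hG' l hl.le) _ _ _
  rw [e3] at k2
  have k3 := (hself ω hω).2 j hj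
  have k4 := (hself ν hν).2 j hj
  have g2 := gnh_abs k2
  have g3 := gnh_abs k3
  have g4 := gnh_abs k4
  have e4 : gnh F c i (g₀ (f 0)) G' (G (f n)) ω j - gnh F c i (g₀ (f 0)) G' (G (f n)) ν j =
      2 ^ g₀ (f 0) i / 2 ^ g₀ (f 0) j * (ncp c i (G' (ptr F J ω))
        (G (f n) (ptr F J ω) i - G' (ptr F J ω) i) (bt F ω) j -
        ncp c i (G' (ptr F J ω)) (G (f ks) (ptr F J ω) i - G' (ptr F J ω) i) (bt F ω) j) -
      2 ^ g₀ (f 0) i / 2 ^ g₀ (f 0) j * (ncp c i (G' (ptr F J ν))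
        (G (f n) (ptr F J ν) i - G' (ptr F J ν) i) (bt F ν) j -
        ncp c i (G' (ptr F J ν)) (G (f ks) (ptr F J ν) i - G' (ptr F J ν) i) (bt F ν) j) -
      2 ^ g₀ (f 0) i / 2 ^ g₀ (f 0) j * (ncp c i (G' (ptr F J ν))
        (G (f ks) (ptr F J ν) i - G' (ptr F J ν) i) (bt F ν) j -
        ncp c i (G' (ptr F J ω)) (G (f ks) (ptr F J ω) i - G' (ptr F J ω) i) (bt F ω) j) := by
    unfold gnh
    ring
  rw [e4]
  refine (abs_sub _ _).trans ((add_le_add ((abs_sub _ _).trans (add_le_add g3 g4)) g2).trans ?_)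
  rw [← add_div, ← add_div]
  refine div_le_div_of_nonneg_right ?_ (by positivity)
  have hCY : C * Y' = 4 * C * Y + 2 * C * C' * Y := by rw [hY', hE]; ring
  have f1 : (2 : ℝ) ^ (C * (3 * Y)) ≤ 2 ^ (C * Y') := pow_le_pow_right₀ (by norm_num) (by
    rw [hCY]
    nlinarith)
  have f2 : 4 * (2 : ℝ) ^ (C * Y') ≤ 2 ^ (2 * A * Y) := by
    have e : 4 * (2 : ℝ) ^ (C * Y') = 2 ^ (C * Y' + 2) := by rw [pow_add _ _ 2]; ring
    rw [e]
    refine pow_le_pow_right₀ (by norm_num) ?_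
    rw [hCY, hA]
    nlinarith
  linarith [show (0 : ℝ) ≤ 2 ^ (C * Y') by positivity]

end Pool.V0S
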