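import Pool.Agent.H87.V0S.Gp4

/-!
# The target over its followers, at two samples

`FlH`: the relative chart of the target is flat in the directions of the followers, over the last
window. `gfr_nx`: for two samples with the same time, the same charts and near heights of the places
`< k`, the height of the target minus the heights of the followers times their gradients is linear in
the heights of the places `< k`.
-/

set_option autoImplicit false

namespace Pool.V0S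

open Finset Real MvPolynomial
open Pool.Agent.H49.Ent Pool.Agent.H32.Dense Pool.STK Pool.KA Pool.KSAT Pool.K2S Pool.PB Pool.S6C
open Pool.GEN Pool.CHT Pool.CHX Pool.ISO Pool.D2R

variable {m J : ℕ}

/-- **Flatness** of the relative chart in the directions of the followers. -/
def FlH {m J : ℕ} (F : Fam m J) (c : ℕ → Fin m) (k i : ℕ) (B : F.Ω → Prop)
    (G' Gx : PtT F → ℕ → MvPolynomial (Option (Fin m)) ℝ) (gx : ℕ → ℕ) (Y₂ Y₃ : ℕ) : Prop :=
  ∀ ω, B ω → ∀ y : Option (Fin m) → ℝ, y none = bt F ω none →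
    (∀ j < k, y (some (c j)) = bt F ω (some (c j))) →
    (∀ l, k ≤ l → l < i → |y (some (c l)) - eval y (Gx (ptr F J ω) l)| ≤ 2 ^ Y₂ / 2 ^ gx l) →
    |(eval y (Gx (ptr F J ω) i - G' (ptr F J ω) i) -
      eval (bt F ω) (Gx (ptr F J ω) i - G' (ptr F J ω) i)) - ∑ l ∈ Finset.Ico k i,
        ncp c i (G' (ptr F J ω)) (Gx (ptr F J ω) i - G' (ptr F J ω) i) (bt F ω) l *
          ((y (some (c l)) - eval y (G' (ptr F J ω) l)) -
            (bt F ω (some (c l)) - eval (bt F ω) (G' (ptr F J ω) l)))| ≤ 2 ^ Y₃ / 2 ^ gx i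

/-- **The target over its followers.** -/
theorem gfr_nx (D r : ℕ) : ∃ C₁ C : ℕ, 1 ≤ C ∧ ∀ {m J : ℕ} {F : Fam m J} {c : ℕ → Fin m}
    {Dr N M : ℕ} {C₀ a Eb ηm : ℝ} {o η σ : ℕ → ℝ} {lv b : ℕ → ℕ → ℝ}
    {κ : ℝ} {z : ℕ → ℕ → ℕ} {B : F.Ω → Prop} {g₀ : ℕ → ℕ → ℕ}
    {G : ℕ → PtT F → ℕ → MvPolynomial (Option (Fin m)) ℝ}
    {H : ℕ → LnT F → ℕ → MvPolynomial (Option (Fin m)) ℝ}
    (_ : WinB F c r D Dr N M C₀ a Eb ηm o η σ lv b κ z B g₀ G H)
    {G' : PtT F → ℕ → MvPolynomial (Option (Fin m)) ℝ} {κ' : F.Ω → ℕ → ℝ}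
    {f jj : ℕ → ℕ} {n k i q qn X Xm Y Y₃ : ℕ} {s σ' : ℝ},
    Frm F c k i D Y B (G (f 0)) (g₀ (f 0)) ⌊o (f 0) * J⌋₊ G' κ' →
    Set.InjOn c (Set.Iio (r + 1)) → i ≤ r → k ≤ i → WDs o lv z J N M f jj n k i Y s σ' →
    C₀ * (ηm * J) ≤ Y → 3 ≤ Y → 2 ≤ q → qn ≤ q →
    s * ((o (f n) - o (f 0)) * J) ≤ qn + Y → (qn : ℝ) ≤ s * ((o (f n) - o (f 0)) * J) + Y →
    (q : ℝ) + X ≤ σ' * ((o (f n) - o (f 0)) * J) + Y → X ≤ qn + Y → q + X ≤ qn + Xm →
    FlH F c k i B G' (G (f n)) (g₀ (f n)) (C₁ * Y) Y₃ →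
    ∀ ω ν, B ω → B ν → F.t ω = F.t ν →
    (∀ l ≤ i, G' (ptr F J ω) l = G' (ptr F J ν) l) →
    (∀ l ≤ i, G (f n) (ptr F J ω) l = G (f n) (ptr F J ν) l) →
    (∀ j < k, |hgt F c G' ω j - hgt F c G' ν j| ≤ 2 ^ 2 / 2 ^ (g₀ (f 0) j + q)) →
    ∀ mm : ℕ → ℝ, (∀ l, k ≤ l → l < i →
      |gnh F c i (g₀ (f 0)) G' (G (f n)) ω l - mm l| ≤ 2 ^ Y₃ / 2 ^ Xm) →
    |2 ^ X * (2 ^ (g₀ (f 0) i + q) * ((hgt F c G' ω i - hgt F c G' ν i) - ∑ l ∈ Finset.Ico k i,
        2 ^ g₀ (f 0) l / 2 ^ g₀ (f 0) i * mm l * (hgt F c G' ω l - hgt F c G' ν l))) -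
      2 ^ X * ∑ j ∈ Finset.range k, gnh F c i (g₀ (f 0)) G' (G (f n)) ω j *
        (2 ^ (g₀ (f 0) j + q) * (hgt F c G' ω j - hgt F c G' ν j))| ≤ 2 ^ (C * Y + Y₃) := by
  obtain ⟨C, hC, hpt⟩ := pt_tg D r
  obtain ⟨C', hC', hfol⟩ := fol_near D r
  obtain ⟨C₁, hC₁, hpos⟩ := fol_pos D r
  obtain ⟨C₂, hC₂, hgn⟩ := gnh_all D r
  obtain ⟨A, hA⟩ : ∃ A : ℕ, A = 4 * C + C' + 3 * C₂ + 2 * r + 20 := ⟨_, rfl⟩
  refine ⟨C₁, A, by omega, ?_⟩
  intro m J F c Dr N M C₀ a Eb ηm o η σ lv b κ z B g₀ G H W G' κ' f jj n k i q qn X Xm Y Y₃ s σ' T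
    hc hi hki V hY hY3 hq2 hqn hq1 hq1' hqX hXq hXm hFl ω ν hω hν ht hG' hGn hV0 mm hmm
  have hJ : (0 : ℝ) ≤ J := Nat.cast_nonneg J
  have hY3R : (3 : ℝ) ≤ Y := by exact_mod_cast hY3
  have hqnR : (qn : ℝ) ≤ q := by exact_mod_cast hqn
  have hXqR : (X : ℝ) ≤ qn + Y := by exact_mod_cast hXq
  have hci : Set.InjOn c (Set.Iio i) := hc.mono fun y hy => by
    rw [Set.mem_Iio] at hy ⊢
    omega
  have hs0 := V.s0
  have hsσ := V.sσ
  have hηm0 : 0 ≤ ηm := (W.hη (f 0) (V.fN 0 (Nat.zero_le n))).1.trans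
    (W.hη (f 0) (V.fN 0 (Nat.zero_le n))).2
  have hηY : ηm * J ≤ Y := by
    have h1 : ηm * J ≤ C₀ * (ηm * J) := le_mul_of_one_le_left (mul_nonneg hηm0 hJ) W.C1
    linarith
  obtain ⟨sn, hsn⟩ : ∃ sn : ℝ, sn = (o (f n) - o (f 0)) * J := ⟨_, rfl⟩
  have hsn0 : 0 ≤ sn := by
    rw [hsn]
    exact V.omeJ (Nat.zero_le _) le_rfl
  rw [← hsn] at hq1 hq1' hqX
  -- the followers are near
  have hf := hfol W (G' := G') (κ' := κ') (f := f) (jj := jj) (n := n) (k := k) (i := i) (q := qn)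
    (Y := Y) (s := s) (σ' := σ') T hc hi V hY hY3 (by rw [← hsn]; exact hq1)
    (by rw [← hsn]; exact hq1') ω ν hω hν ht hG' hGn
    (fun j' hj' => (hV0 j' hj').trans (div_le_div_of_nonneg_left (by norm_num) (by positivity)
      (pow_le_pow_right₀ (by norm_num) (by omega))))
  -- the point
  obtain ⟨ψ, hψ⟩ : ∃ ψ : ℕ → MvPolynomial (Option (Fin m)) ℝ, ψ = G' (ptr F J ω) := ⟨_, rfl⟩
  have hψd : ∀ l, DepC c l (ψ l) := fun l => by rw [hψ]; exact T.dep _ l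
  have hψν : ∀ l ≤ i, ψ l = G' (ptr F J ν) l := fun l hl => by rw [hψ]; exact hG' l hl
  obtain ⟨e, he⟩ : ∃ e : Option (Fin m) → ℝ, ∀ l < i, e (some (c l)) = hgt F c G' ν l := by
    classical
    refine ⟨fun o => if h : ∃ l < i, o = some (c l) then hgt F c G' ν h.choose else 0, ?_⟩
    intro l hl
    have hex : ∃ l' < i, some (c l) = some (c l') := ⟨l, hl, rfl⟩
    obtain ⟨h1, h2⟩ := hex.choose_spec
    have h3 := hci (show l ∈ Set.Iio i from hl) (show hex.choose ∈ Set.Iio i from h1)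
      (Option.some_injective _ h2)
    show (if h : ∃ l' < i, some (c l) = some (c l') then hgt F c G' ν h.choose else 0) = _
    rw [dif_pos hex, ← h3]
  obtain ⟨p, hp⟩ : ∃ p : Option (Fin m) → ℝ, p = fpt c ψ k i (bt F ω) e := ⟨_, rfl⟩
  have hp0 : p none = bt F ω none := by rw [hp, fpt_none]
  have hp0' : p none = bt F ν none := hp0.trans ht
  have hpk : ∀ j < k, p (some (c j)) = bt F ω (some (c j)) := fun j hj => by
    rw [hp, fpt_lt hci e (by omega) hj]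
  have hpl : ∀ l, k ≤ l → l < i → p (some (c l)) - eval p (ψ l) = hgt F c G' ν l := by
    intro l hkl hli
    have h1 : p (some (c l)) = eval p (ψ l) + e (some (c l)) := by
      rw [hp]
      exact fpt_ge hci hψd e hli hkl
    rw [h1, he l hli]
    ring
  have hpj : ∀ j < k, p (some (c j)) - eval p (ψ j) = hgt F c G' ω j := by
    intro j hj
    have h1 : eval p (ψ j) = eval (bt F ω) (ψ j) := hψd j _ _ hp0 fun l hl => hpk l (by omega)
    rw [h1, hpk j hj, hψ]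
    rfl
  -- the heights of the point near those of `ν`
  have hpν : ∀ j < i, |(p (some (c j)) - eval p (G' (ptr F J ν) j)) -
      (bt F ν (some (c j)) - eval (bt F ν) (G' (ptr F J ν) j))| ≤
        2 ^ 2 / 2 ^ (g₀ (f 0) j + q) := by
    intro j hj
    have e1 : bt F ν (some (c j)) - eval (bt F ν) (G' (ptr F J ν) j) = hgt F c G' ν j := rfl
    rw [e1, ← hψν j hj.le]
    rcases Nat.lt_or_ge j k with h | h
    · rw [hpj j h]
      exact hV0 j h
    · rw [hpl j h hj, sub_self, abs_zero]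
      positivity
  have hq1q : s * sn ≤ q + Y := by linarith
  -- the positions over the last window
  have h3 := hpos W (G' := G') (κ' := κ') (f := f) (jj := jj) (n := n) (k := k) (i := i) (q := q)
    (Y := Y) (s := s) (σ' := σ') T hc hi V hY hY3 hq2 (by rw [← hsn]; exact hq1q) ν hν p hp0' hpν
  have h4 := hFl ω hω p hp0 hpk fun l hkl hli => by
    rw [hGn l hli.le]
    exact h3 l hkl hli
  -- the two steps
  obtain ⟨Ψ, hΨ⟩ : ∃ Ψ : MvPolynomial (Option (Fin m)) ℝ,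
    Ψ = G (f n) (ptr F J ω) i - G' (ptr F J ω) i := ⟨_, rfl⟩
  have hΨν : Ψ = G (f n) (ptr F J ν) i - G' (ptr F J ν) i := by
    rw [hΨ, hGn i le_rfl, hG' i le_rfl]
  rw [← hΨ, ← hψ] at h4
  have h4Y : ((4 * Y : ℕ) : ℝ) = 4 * Y := by push_cast; ring
  have h5 := hpt W (G' := G') (κ' := κ') (f := f) (jj := jj) (n := n) (k := k) (i := i) (l := i)
    (q := q) (X := X) (Y := 4 * Y) (S := s) (b' := σ') (T.mono (by omega)) hc hi hki le_rfl
    (V.toWDt.mono (by omega)) (by rw [h4Y]; linarith) (by omega) hs0 hsσ hq2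
    (by rw [← hsn, h4Y]; linarith) (by rw [h4Y]; linarith)
    (by rw [← hsn, h4Y]; nlinarith) ν hν p hp0' hpν
  have h6 := h5.2.2.1
  rw [← hΨν] at h6
  -- the gradients
  have h2Y : ((3 * Y : ℕ) : ℝ) = 3 * Y := by push_cast; ring
  have h7 := (hgn W (G' := G') (κ' := κ') (f := f) (jj := jj) (n := n) (ks := n) (k := k) (i := i)
    (q := q) (X := X) (Y := 3 * Y) (s := s) (σ' := σ') (T.mono (by omega)) hc hi hki
    (V.mono (by omega)) (by rw [h2Y]; linarith) (by omega) le_rfl hq2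
    (by rw [← hsn, h2Y]; linarith) (by rw [← hsn, h2Y]; linarith)
    (by rw [← hsn, h2Y]; nlinarith)).2 ω ν hω hν ht hG' hGn hV0
  -- the numbers
  have hgi : g₀ (f 0) i + q + X ≤ g₀ (f n) i + 4 * Y := by
    obtain ⟨-, -, -, a2⟩ := W.g_num (V.fN 0 (Nat.zero_le n)) hi
    obtain ⟨-, -, a3, -⟩ := W.g_num (V.fN n le_rfl) hi
    have a4 := V.sb n le_rfl
    rw [← hsn] at a4
    have a5 : (lv (f n) i - lv (f 0) i) * J = lv (f n) i * J - lv (f 0) i * J := by ring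
    rw [a5] at a4
    have a6 : ((g₀ (f 0) i + q + X : ℕ) : ℝ) ≤ ((g₀ (f n) i + 4 * Y : ℕ) : ℝ) := by
      push_cast
      linarith
    exact_mod_cast a6
  obtain ⟨L, hL⟩ : ∃ L : ℕ, L = g₀ (f 0) i + q + X := ⟨_, rfl⟩
  have hL0 : (0 : ℝ) < 2 ^ L := by positivity
  have hcv : ∀ (v : ℝ) (e : ℕ), |v| ≤ 2 ^ e / 2 ^ g₀ (f n) i → |2 ^ L * v| ≤ 2 ^ (e + 4 * Y) := by
    intro v e hv
    rw [abs_mul, abs_of_pos hL0]
    refine (mul_le_mul_of_nonneg_left hv hL0.le).trans ?_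
    rw [mul_div_assoc', div_le_iff₀ (by positivity), ← pow_add, ← pow_add]
    exact pow_le_pow_right₀ (by norm_num) (by omega)
  have p1 := (W.ev (f n) (V.fN n le_rfl)).ball.pos ω hω i (by omega)
  have p2 := (W.ev (f n) (V.fN n le_rfl)).ball.pos ν hν i (by omega)
  have q1 := hcv _ 0 (by rw [pow_zero]; exact p1)
  have q2 := hcv _ 0 (by rw [pow_zero]; exact p2)
  have q3 := hcv _ Y₃ h4
  -- the expansion around `ν`
  have q4 : |2 ^ L * ((eval p Ψ - eval (bt F ν) Ψ) - ∑ j ∈ Finset.range k,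
      ncp c i ψ Ψ (bt F ν) j * (hgt F c G' ω j - hgt F c G' ν j))| ≤ 2 ^ (C * (4 * Y)) := by
    have e1 : ∑ j ∈ Finset.Ico 0 i, ncp c i (G' (ptr F J ν)) Ψ (bt F ν) j *
        ((p (some (c j)) - eval p (G' (ptr F J ν) j)) -
            (bt F ν (some (c j)) - eval (bt F ν) (G' (ptr F J ν) j))) =
        ∑ j ∈ Finset.range k, ncp c i ψ Ψ (bt F ν) j * (hgt F c G' ω j - hgt F c G' ν j) := by
      rw [Finset.range_eq_Ico, ← Finset.sum_Ico_consecutive _ (Nat.zero_le k) hki]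
      have e2 : ∑ j ∈ Finset.Ico k i, ncp c i (G' (ptr F J ν)) Ψ (bt F ν) j *
        ((p (some (c j)) - eval p (G' (ptr F J ν) j)) -
            (bt F ν (some (c j)) - eval (bt F ν) (G' (ptr F J ν) j))) = 0 := by
        refine Finset.sum_eq_zero fun j hj => ?_
        rw [Finset.mem_Ico] at hj
        rw [← hψν j hj.2.le, hpl j hj.1 hj.2]
        have e3 : bt F ν (some (c j)) - eval (bt F ν) (ψ j) = hgt F c G' ν j := by
          rw [hψν j hj.2.le]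
          rfl
        rw [e3, sub_self, mul_zero]
      rw [e2, add_zero]
      refine Finset.sum_congr rfl fun j hj => ?_
      rw [Finset.mem_Ico] at hj
      rw [← hψν j (by omega), hpj j hj.2]
      have e3 : bt F ν (some (c j)) - eval (bt F ν) (ψ j) = hgt F c G' ν j := by
        rw [hψν j (by omega)]
        rfl
      rw [e3, ncp_charts (fun l hl => (hψν l (by omega)).symm) Ψ (bt F ν) j]
    rw [e1, ← hL] at h6
    rw [abs_mul, abs_of_pos hL0]
    exact (mul_le_mul_of_nonneg_left h6 hL0.le).trans (le_of_eq (by field_simp))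
  -- the exchange of the gradients of the places `< k`
  have q5 : |2 ^ L * ∑ j ∈ Finset.range k, (ncp c i ψ Ψ (bt F ν) j - ncp c i ψ Ψ (bt F ω) j) *
      (hgt F c G' ω j - hgt F c G' ν j)| ≤ 2 ^ (r + (C₂ * (3 * Y) + 2)) := by
    rw [Finset.mul_sum]
    refine (Finset.abs_sum_le_sum_abs _ _).trans ((Finset.sum_le_sum (g := fun _ =>
      (2 : ℝ) ^ (C₂ * (3 * Y) + 2)) fun j hj => ?_).trans ?_)
    · rw [Finset.mem_range] at hj
      have g1 := h7 j (by omega)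
      have g2 := hV0 j hj
      have e1 : gnh F c i (g₀ (f 0)) G' (G (f n)) ω j - gnh F c i (g₀ (f 0)) G' (G (f n)) ν j =
          2 ^ g₀ (f 0) i / 2 ^ g₀ (f 0) j * (ncp c i ψ Ψ (bt F ω) j - ncp c i ψ Ψ (bt F ν) j) := by
        unfold gnh
        rw [← hΨ, ← hψ, ← hΨν, ncp_charts (fun l hl => (hψν l (by omega)).symm) Ψ (bt F ν) j]
        ring
      have e2 : 2 ^ L * ((ncp c i ψ Ψ (bt F ν) j - ncp c i ψ Ψ (bt F ω) j) *
          (hgt F c G' ω j - hgt F c G' ν j)) =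
          -((gnh F c i (g₀ (f 0)) G' (G (f n)) ω j - gnh F c i (g₀ (f 0)) G' (G (f n)) ν j) *
            (hgt F c G' ω j - hgt F c G' ν j)) * 2 ^ (g₀ (f 0) j + q + X) := by
        rw [e1, hL, pow_add, pow_add, pow_add, pow_add]
        field_simp
        ring
      rw [e2, abs_mul, abs_neg, abs_mul, abs_of_pos (show (0 : ℝ) < 2 ^ (g₀ (f 0) j + q + X) by
        positivity)]
      refine (mul_le_mul_of_nonneg_right (mul_le_mul g1 g2 (abs_nonneg _) (by positivity))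
        (by positivity)).trans (le_of_eq ?_)
      rw [pow_add _ (g₀ (f 0) j + q), pow_add _ (C₂ * (3 * Y))]
      field_simp
    · rw [Finset.sum_const, Finset.card_range, nsmul_eq_mul, pow_add _ r]
      refine mul_le_mul_of_nonneg_right ?_ (by positivity)
      have h1 : k ≤ r := by omega
      have h2 : r < 2 ^ r := Nat.lt_two_pow_self
      exact_mod_cast h1.trans h2.le
  -- the gradients of the followers
  have q6 : |2 ^ L * ∑ l ∈ Finset.Ico k i, 2 ^ g₀ (f 0) l / 2 ^ g₀ (f 0) i *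
      (gnh F c i (g₀ (f 0)) G' (G (f n)) ω l - mm l) * (hgt F c G' ω l - hgt F c G' ν l)| ≤
      2 ^ (r + (Y₃ + C' * Y)) := by
    rw [Finset.mul_sum]
    refine (Finset.abs_sum_le_sum_abs _ _).trans ((Finset.sum_le_sum (g := fun _ =>
      (2 : ℝ) ^ (Y₃ + C' * Y)) fun l hl => ?_).trans ?_)
    · rw [Finset.mem_Ico] at hl
      have g1 := hmm l hl.1 hl.2
      have g2 := hf l hl.2
      have e2 : 2 ^ L * (2 ^ g₀ (f 0) l / 2 ^ g₀ (f 0) i *
          (gnh F c i (g₀ (f 0)) G' (G (f n)) ω l - mm l) * (hgt F c G' ω l - hgt F c G' ν l)) =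
          ((gnh F c i (g₀ (f 0)) G' (G (f n)) ω l - mm l) *
            (hgt F c G' ω l - hgt F c G' ν l)) * 2 ^ (g₀ (f 0) l + (q + X)) := by
        rw [hL, pow_add, pow_add, pow_add, pow_add]
        field_simp
      rw [e2, abs_mul, abs_mul, abs_of_pos (show (0 : ℝ) < 2 ^ (g₀ (f 0) l + (q + X)) by
        positivity)]
      refine (mul_le_mul_of_nonneg_right (mul_le_mul g1 g2 (abs_nonneg _) (by positivity))
        (by positivity)).trans ?_
      rw [div_mul_div_comm, ← pow_add, ← pow_add, div_mul_eq_mul_div, div_le_iff₀ (by positivity),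
        ← pow_add, ← pow_add]
      exact pow_le_pow_right₀ (by norm_num) (by omega)
    · rw [Finset.sum_const, Nat.card_Ico, nsmul_eq_mul, pow_add _ r]
      refine mul_le_mul_of_nonneg_right ?_ (by positivity)
      have h1 : i - k ≤ r := by omega
      have h2 : r < 2 ^ r := Nat.lt_two_pow_self
      exact_mod_cast h1.trans h2.le
  -- the assembly
  have e7 : ∀ l, 2 ^ g₀ (f 0) l / 2 ^ g₀ (f 0) i * gnh F c i (g₀ (f 0)) G' (G (f n)) ω l =
      ncp c i ψ Ψ (bt F ω) l := fun l => by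
    unfold gnh
    rw [← hΨ, ← hψ]
    field_simp
  have e8 : 2 ^ X * (2 ^ (g₀ (f 0) i + q) * ((hgt F c G' ω i - hgt F c G' ν i) -
        ∑ l ∈ Finset.Ico k i,
        2 ^ g₀ (f 0) l / 2 ^ g₀ (f 0) i * mm l * (hgt F c G' ω l - hgt F c G' ν l))) -
      2 ^ X * ∑ j ∈ Finset.range k, gnh F c i (g₀ (f 0)) G' (G (f n)) ω j *
        (2 ^ (g₀ (f 0) j + q) * (hgt F c G' ω j - hgt F c G' ν j)) =
      2 ^ L * (F.x ω (c i) - eval (bt F ω) (G (f n) (ptr F J ω) i)) -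
      2 ^ L * (F.x ν (c i) - eval (bt F ν) (G (f n) (ptr F J ν) i)) -
      2 ^ L * ((eval p Ψ - eval (bt F ω) Ψ) - ∑ l ∈ Finset.Ico k i,
        ncp c i ψ Ψ (bt F ω) l * ((p (some (c l)) - eval p (ψ l)) -
            (bt F ω (some (c l)) - eval (bt F ω) (ψ l)))) +
      2 ^ L * ((eval p Ψ - eval (bt F ν) Ψ) - ∑ j ∈ Finset.range k,
        ncp c i ψ Ψ (bt F ν) j * (hgt F c G' ω j - hgt F c G' ν j)) +
      2 ^ L * ∑ j ∈ Finset.range k, (ncp c i ψ Ψ (bt F ν) j - ncp c i ψ Ψ (bt F ω) j) *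
        (hgt F c G' ω j - hgt F c G' ν j) +
      2 ^ L * ∑ l ∈ Finset.Ico k i, 2 ^ g₀ (f 0) l / 2 ^ g₀ (f 0) i *
        (gnh F c i (g₀ (f 0)) G' (G (f n)) ω l - mm l) *
          (hgt F c G' ω l - hgt F c G' ν l) := by
    have s1 : 2 ^ X * ∑ j ∈ Finset.range k, gnh F c i (g₀ (f 0)) G' (G (f n)) ω j *
        (2 ^ (g₀ (f 0) j + q) * (hgt F c G' ω j - hgt F c G' ν j)) =
        2 ^ L * ∑ j ∈ Finset.range k, ncp c i ψ Ψ (bt F ω) j *
          (hgt F c G' ω j - hgt F c G' ν j) := by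
      rw [Finset.mul_sum, Finset.mul_sum]
      refine Finset.sum_congr rfl fun j _ => ?_
      rw [← e7 j, hL, pow_add, pow_add, pow_add]
      field_simp
    have s2 : ∑ l ∈ Finset.Ico k i, ncp c i ψ Ψ (bt F ω) l * ((p (some (c l)) - eval p (ψ l)) -
            (bt F ω (some (c l)) - eval (bt F ω) (ψ l))) =
        -∑ l ∈ Finset.Ico k i, ncp c i ψ Ψ (bt F ω) l *
          (hgt F c G' ω l - hgt F c G' ν l) := by
      rw [← Finset.sum_neg_distrib]
      refine Finset.sum_congr rfl fun l hl => ?_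
      rw [Finset.mem_Ico] at hl
      have e3 : bt F ω (some (c l)) - eval (bt F ω) (ψ l) = hgt F c G' ω l := by
        rw [hψ]
        rfl
      rw [hpl l hl.1 hl.2, e3]
      ring
    have s3 : ∑ l ∈ Finset.Ico k i, 2 ^ g₀ (f 0) l / 2 ^ g₀ (f 0) i *
        (gnh F c i (g₀ (f 0)) G' (G (f n)) ω l - mm l) * (hgt F c G' ω l - hgt F c G' ν l) =
        ∑ l ∈ Finset.Ico k i, ncp c i ψ Ψ (bt F ω) l * (hgt F c G' ω l - hgt F c G' ν l) -
        ∑ l ∈ Finset.Ico k i, 2 ^ g₀ (f 0) l / 2 ^ g₀ (f 0) i * mm l *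
          (hgt F c G' ω l - hgt F c G' ν l) := by
      rw [← Finset.sum_sub_distrib]
      refine Finset.sum_congr rfl fun l _ => ?_
      rw [← e7 l]
      ring
    have s4 : ∑ j ∈ Finset.range k, (ncp c i ψ Ψ (bt F ν) j - ncp c i ψ Ψ (bt F ω) j) *
        (hgt F c G' ω j - hgt F c G' ν j) =
        ∑ j ∈ Finset.range k, ncp c i ψ Ψ (bt F ν) j * (hgt F c G' ω j - hgt F c G' ν j) -
        ∑ j ∈ Finset.range k, ncp c i ψ Ψ (bt F ω) j * (hgt F c G' ω j - hgt F c G' ν j) := by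
      rw [← Finset.sum_sub_distrib]
      exact Finset.sum_congr rfl fun j _ => by ring
    have s5 : hgt F c G' ω i - hgt F c G' ν i =
        (F.x ω (c i) - eval (bt F ω) (G (f n) (ptr F J ω) i)) -
        (F.x ν (c i) - eval (bt F ν) (G (f n) (ptr F J ν) i)) +
        (eval (bt F ω) Ψ - eval (bt F ν) Ψ) := by
      have t1 : eval (bt F ω) Ψ = eval (bt F ω) (G (f n) (ptr F J ω) i) -
        eval (bt F ω) (G' (ptr F J ω) i) := by rw [hΨ, map_sub]
      have t2 : eval (bt F ν) Ψ = eval (bt F ν) (G (f n) (ptr F J ν) i) -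
        eval (bt F ν) (G' (ptr F J ν) i) := by rw [hΨν, map_sub]
      rw [t1, t2]
      unfold hgt
      ring
    rw [s1, s2, s3, s4, s5, hL, pow_add _ _ X]
    ring
  rw [e8]
  have hb : ∀ a₁ a₂ a₃ a₄ a₅ a₆ : ℝ, |a₁ - a₂ - a₃ + a₄ + a₅ + a₆| ≤
      |a₁| + |a₂| + |a₃| + |a₄| + |a₅| + |a₆| := fun a₁ a₂ a₃ a₄ a₅ a₆ =>
    (abs_add_le _ _).trans (add_le_add ((abs_add_le _ _).trans (add_le_add ((abs_add_le _ _).trans
      (add_le_add ((abs_sub _ _).trans (add_le_add (abs_sub _ _) le_rfl)) le_rfl)) le_rfl)) le_rfl)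
  refine (hb _ _ _ _ _ _).trans ?_
  obtain ⟨E, hE⟩ : ∃ E : ℕ, E = r + C₂ * (3 * Y) + C' * Y + C * (4 * Y) + 4 * Y + 2 + Y₃ :=
    ⟨_, rfl⟩
  have r1 : (2 : ℝ) ^ (0 + 4 * Y) ≤ 2 ^ E := pow_le_pow_right₀ (by norm_num) (by omega)
  have r3 : (2 : ℝ) ^ (Y₃ + 4 * Y) ≤ 2 ^ E := pow_le_pow_right₀ (by norm_num) (by omega)
  have r4 : (2 : ℝ) ^ (C * (4 * Y)) ≤ 2 ^ E := pow_le_pow_right₀ (by norm_num) (by omega)
  have r5 : (2 : ℝ) ^ (r + (C₂ * (3 * Y) + 2)) ≤ 2 ^ E :=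
    pow_le_pow_right₀ (by norm_num) (by omega)
  have r6 : (2 : ℝ) ^ (r + (Y₃ + C' * Y)) ≤ 2 ^ E := pow_le_pow_right₀ (by norm_num) (by omega)
  have r7 : 8 * (2 : ℝ) ^ E ≤ 2 ^ (A * Y + Y₃) := by
    have e : 8 * (2 : ℝ) ^ E = 2 ^ (E + 3) := by rw [pow_add _ _ 3]; ring
    rw [e]
    refine pow_le_pow_right₀ (by norm_num) ?_
    rw [hE, hA]
    have t1 : (4 * C + C' + 3 * C₂ + 2 * r + 20) * Y = C * (4 * Y) + C' * Y + C₂ * (3 * Y) +
      2 * (r * Y) + 20 * Y := by ring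
    have t2 : r ≤ r * Y := Nat.le_mul_of_pos_right _ (by omega)
    omega
  have r8 : (0 : ℝ) < 2 ^ E := by positivity
  linarith

end Pool.V0S
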