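import Pool.Agent.H87.V0S.Gp4

/-!
# The target over near followers

`gfq_nx`: the height of the target at two samples with the same charts of the window `f n`, in which
the followers have `q` digits: the first order expansion in all the heights, the gradients of the
followers replaced by near numbers. No condition of flatness.
-/

set_option autoImplicit false

namespace Pool.V0S

open Finset Real MvPolynomial
open Pool.Agent.H49.Ent Pool.Agent.H32.Dense Pool.STK Pool.KA Pool.KSAT Pool.K2S Pool.PB Pool.S6C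
open Pool.GEN Pool.CHT Pool.CHX Pool.ISO Pool.D2R

variable {m J : ℕ}

/-- **The target over near followers.** -/
theorem gfq_nx (D r : ℕ) : ∃ C : ℕ, 1 ≤ C ∧ ∀ {m J : ℕ} {F : Fam m J} {c : ℕ → Fin m}
    {Dr N M : ℕ} {C₀ a Eb ηm : ℝ} {o η σ : ℕ → ℝ} {lv b : ℕ → ℕ → ℝ}
    {κ : ℝ} {z : ℕ → ℕ → ℕ} {B : F.Ω → Prop} {g₀ : ℕ → ℕ → ℕ}
    {G : ℕ → PtT F → ℕ → MvPolynomial (Option (Fin m)) ℝ}
    {H : ℕ → LnT F → ℕ → MvPolynomial (Option (Fin m)) ℝ}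
    (_ : WinB F c r D Dr N M C₀ a Eb ηm o η σ lv b κ z B g₀ G H)
    {G' : PtT F → ℕ → MvPolynomial (Option (Fin m)) ℝ} {κ' : F.Ω → ℕ → ℝ}
    {f jj : ℕ → ℕ} {n k i q X Y Y₃ : ℕ} {s σ' : ℝ},
    Frm F c k i D Y B (G (f 0)) (g₀ (f 0)) ⌊o (f 0) * J⌋₊ G' κ' →
    Set.InjOn c (Set.Iio (r + 1)) → i ≤ r → k ≤ i → WDs o lv z J N M f jj n k i Y s σ' →
    C₀ * (ηm * J) ≤ Y → 3 ≤ Y → C * Y ≤ q →
    s * ((o (f n) - o (f 0)) * J) ≤ q + Y → (q : ℝ) ≤ s * ((o (f n) - o (f 0)) * J) + Y →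
    (q : ℝ) + X ≤ σ' * ((o (f n) - o (f 0)) * J) + Y → X ≤ q + Y →
    ∀ ω ν, B ω → B ν → F.t ω = F.t ν →
    (∀ l ≤ i, G' (ptr F J ω) l = G' (ptr F J ν) l) →
    (∀ l ≤ i, G (f n) (ptr F J ω) l = G (f n) (ptr F J ν) l) →
    (∀ j < k, |hgt F c G' ω j - hgt F c G' ν j| ≤ 2 ^ 2 / 2 ^ (g₀ (f 0) j + q)) →
    (∀ l < i, |hgt F c G' ω l - hgt F c G' ν l| ≤ 2 ^ (C * Y) / 2 ^ (g₀ (f 0) l + q)) ∧
    ∀ mm : ℕ → ℝ, (∀ l, k ≤ l → l < i →
      |gnh F c i (g₀ (f 0)) G' (G (f n)) ω l - mm l| ≤ 2 ^ Y₃ / 2 ^ X) →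
    |2 ^ X * (2 ^ (g₀ (f 0) i + q) * ((hgt F c G' ω i - hgt F c G' ν i) - ∑ l ∈ Finset.Ico k i,
        2 ^ g₀ (f 0) l / 2 ^ g₀ (f 0) i * mm l * (hgt F c G' ω l - hgt F c G' ν l))) -
      2 ^ X * ∑ j ∈ Finset.range k, gnh F c i (g₀ (f 0)) G' (G (f n)) ω j *
        (2 ^ (g₀ (f 0) j + q) * (hgt F c G' ω j - hgt F c G' ν j))| ≤ 2 ^ (C * Y + Y₃) := by
  obtain ⟨C, hC, hpt⟩ := pt_tg D r
  obtain ⟨C', hC', hfol⟩ := fol_near D r
  obtain ⟨A, hA⟩ : ∃ A : ℕ, A = 4 * C * (C' + 2) + 4 * C' + 2 * r + 20 := ⟨_, rfl⟩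
  refine ⟨A, by omega, ?_⟩
  intro m J F c Dr N M C₀ a Eb ηm o η σ lv b κ z B g₀ G H W G' κ' f jj n k i q X Y Y₃ s σ' T
    hc hi hki V hY hY3 hAq hq1 hq1' hqX hXq ω ν hω hν ht hG' hGn hV0
  have hJ : (0 : ℝ) ≤ J := Nat.cast_nonneg J
  have hY3R : (3 : ℝ) ≤ Y := by exact_mod_cast hY3
  have hXqR : (X : ℝ) ≤ q + Y := by exact_mod_cast hXq
  have hs0 := V.s0
  have hsσ := V.sσ
  have hηm0 : 0 ≤ ηm := (W.hη (f 0) (V.fN 0 (Nat.zero_le n))).1.trans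
    (W.hη (f 0) (V.fN 0 (Nat.zero_le n))).2
  have hηY : ηm * J ≤ Y := by
    have h1 : ηm * J ≤ C₀ * (ηm * J) := le_mul_of_one_le_left (mul_nonneg hηm0 hJ) W.C1
    linarith
  obtain ⟨sn, hsn⟩ : ∃ sn : ℝ, sn = (o (f n) - o (f 0)) * J := ⟨_, rfl⟩
  have hsn0 : 0 ≤ sn := by
    rw [hsn]
    exact V.omeJ (Nat.zero_le _) le_rfl
  rw [← hsn] at hq1 hq1' hqX
  have hf := hfol W (G' := G') (κ' := κ') (f := f) (jj := jj) (n := n) (k := k) (i := i) (q := q)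
    (Y := Y) (s := s) (σ' := σ') T hc hi V hY hY3 (by rw [← hsn]; exact hq1)
    (by rw [← hsn]; exact hq1') ω ν hω hν ht hG' hGn hV0
  obtain ⟨E, hE⟩ : ∃ E : ℕ, E = C' * Y := ⟨_, rfl⟩
  rw [← hE] at hf
  have hEA : E + 2 * r + 20 ≤ A * Y := by
    rw [hE, hA]
    nlinarith
  have hEq : E + 2 ≤ q := by omega
  refine ⟨fun l hl => (hf l hl).trans (div_le_div_of_nonneg_right (pow_le_pow_right₀ (by norm_num)
    (by omega)) (by positivity)), ?_⟩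
  intro mm hmm
  -- the larger unit
  obtain ⟨q', hq'⟩ : ∃ q' : ℕ, q = q' + E := ⟨q - E, by omega⟩
  obtain ⟨Y', hY'⟩ : ∃ Y' : ℕ, Y' = 4 * Y + 2 * E := ⟨_, rfl⟩
  have hqR : (q : ℝ) = q' + E := by rw [hq']; push_cast; ring
  have hY'R : (Y' : ℝ) = 4 * Y + 2 * E := by rw [hY']; push_cast; ring
  have hE0 : (0 : ℝ) ≤ E := Nat.cast_nonneg E
  have hX'R : ((X + E : ℕ) : ℝ) = X + E := by push_cast; ring
  obtain ⟨Ψ, hΨ⟩ : ∃ Ψ : MvPolynomial (Option (Fin m)) ℝ,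
    Ψ = G (f n) (ptr F J ω) i - G' (ptr F J ω) i := ⟨_, rfl⟩
  have h1 := hpt W (G' := G') (κ' := κ') (f := f) (jj := jj) (n := n) (k := k) (i := i) (l := i)
    (q := q') (X := X + E) (Y := Y') (S := s) (b' := σ') (T.mono (by omega)) hc hi hki le_rfl
    (V.toWDt.mono (by omega)) (by rw [hY'R]; linarith) (by omega) hs0 hsσ (by omega)
    (by rw [← hsn, hY'R]; linarith) (by rw [hX'R, hY'R]; linarith)
    (by rw [← hsn, hX'R, hY'R]; nlinarith) ω hω (bt F ν) ht.symm (fun j hj => by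
      have e1 : bt F ν (some (c j)) - eval (bt F ν) (G' (ptr F J ω) j) = hgt F c G' ν j := by
        rw [hG' j hj.le]
        rfl
      have e2 : bt F ω (some (c j)) - eval (bt F ω) (G' (ptr F J ω) j) = hgt F c G' ω j := rfl
      rw [e1, e2, abs_sub_comm]
      refine (hf j hj).trans ?_
      rw [div_le_div_iff₀ (by positivity) (by positivity), ← pow_add, ← pow_add]
      exact pow_le_pow_right₀ (by norm_num) (by omega))
  obtain ⟨-, -, h3, -⟩ := h1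
  rw [← hΨ] at h3
  obtain ⟨L, hL⟩ : ∃ L : ℕ, L = g₀ (f 0) i + q + X := ⟨_, rfl⟩
  have hL0 : (0 : ℝ) < 2 ^ L := by positivity
  have e1 : ∑ j ∈ Finset.Ico 0 i, ncp c i (G' (ptr F J ω)) Ψ (bt F ω) j *
        ((bt F ν (some (c j)) - eval (bt F ν) (G' (ptr F J ω) j)) -
            (bt F ω (some (c j)) - eval (bt F ω) (G' (ptr F J ω) j))) =
      -∑ j ∈ Finset.Ico 0 i, ncp c i (G' (ptr F J ω)) Ψ (bt F ω) j *
        (hgt F c G' ω j - hgt F c G' ν j) := by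
    rw [← Finset.sum_neg_distrib]
    refine Finset.sum_congr rfl fun j hj => ?_
    rw [Finset.mem_Ico] at hj
    have e1 : bt F ν (some (c j)) - eval (bt F ν) (G' (ptr F J ω) j) = hgt F c G' ν j := by
      rw [hG' j hj.2.le]
      rfl
    have e2 : bt F ω (some (c j)) - eval (bt F ω) (G' (ptr F J ω) j) = hgt F c G' ω j := rfl
    rw [e1, e2]
    ring
  rw [e1, show g₀ (f 0) i + q' + (X + E) = L by omega] at h3
  have q4 : |2 ^ L * ((eval (bt F ν) Ψ - eval (bt F ω) Ψ) + ∑ j ∈ Finset.Ico 0 i,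
      ncp c i (G' (ptr F J ω)) Ψ (bt F ω) j * (hgt F c G' ω j - hgt F c G' ν j))| ≤
      2 ^ (C * Y') := by
    rw [abs_mul, abs_of_pos hL0]
    refine (mul_le_mul_of_nonneg_left (le_trans (le_of_eq (by ring_nf)) h3) hL0.le).trans
      (le_of_eq (by field_simp))
  -- the residuals
  have hgi : g₀ (f 0) i + q + X ≤ g₀ (f n) i + 4 * Y := by
    obtain ⟨-, -, -, a2⟩ := W.g_num (V.fN 0 (Nat.zero_le n)) hi
    obtain ⟨-, -, a3, -⟩ := W.g_num (V.fN n le_rfl) hi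
    have a4 := V.sb n le_rfl
    rw [← hsn] at a4
    have a5 : (lv (f n) i - lv (f 0) i) * J = lv (f n) i * J - lv (f 0) i * J := by ring
    rw [a5] at a4
    have a6 : ((g₀ (f 0) i + q + X : ℕ) : ℝ) ≤ ((g₀ (f n) i + 4 * Y : ℕ) : ℝ) := by
      push_cast
      linarith
    exact_mod_cast a6
  have hcv : ∀ v : ℝ, |v| ≤ 1 / 2 ^ g₀ (f n) i → |2 ^ L * v| ≤ 2 ^ (4 * Y) := by
    intro v hv
    rw [abs_mul, abs_of_pos hL0]
    refine (mul_le_mul_of_nonneg_left hv hL0.le).trans ?_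
    rw [mul_div_assoc', div_le_iff₀ (by positivity), ← pow_add, mul_one]
    exact pow_le_pow_right₀ (by norm_num) (by omega)
  have q1 := hcv _ ((W.ev (f n) (V.fN n le_rfl)).ball.pos ω hω i (by omega))
  have q2 := hcv _ ((W.ev (f n) (V.fN n le_rfl)).ball.pos ν hν i (by omega))
  -- the gradients of the followers
  have q6 : |2 ^ L * ∑ l ∈ Finset.Ico k i, 2 ^ g₀ (f 0) l / 2 ^ g₀ (f 0) i *
      (gnh F c i (g₀ (f 0)) G' (G (f n)) ω l - mm l) * (hgt F c G' ω l - hgt F c G' ν l)| ≤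
      2 ^ (r + (Y₃ + E)) := by
    rw [Finset.mul_sum]
    refine (Finset.abs_sum_le_sum_abs _ _).trans ((Finset.sum_le_sum (g := fun _ =>
      (2 : ℝ) ^ (Y₃ + E)) fun l hl => ?_).trans ?_)
    · rw [Finset.mem_Ico] at hl
      have g1 := hmm l hl.1 hl.2
      have g2 := hf l hl.2
      have e2 : 2 ^ L * (2 ^ g₀ (f 0) l / 2 ^ g₀ (f 0) i *
          (gnh F c i (g₀ (f 0)) G' (G (f n)) ω l - mm l) * (hgt F c G' ω l - hgt F c G' ν l)) =
          ((gnh F c i (g₀ (f 0)) G' (G (f n)) ω l - mm l) *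
            (hgt F c G' ω l - hgt F c G' ν l)) * 2 ^ (g₀ (f 0) l + (q + X)) := by
        rw [hL, pow_add, pow_add, pow_add, pow_add]
        field_simp
      rw [e2, abs_mul, abs_mul, abs_of_pos (show (0 : ℝ) < 2 ^ (g₀ (f 0) l + (q + X)) by
        positivity)]
      refine (mul_le_mul_of_nonneg_right (mul_le_mul g1 g2 (abs_nonneg _) (by positivity))
        (by positivity)).trans (le_of_eq ?_)
      simp only [pow_add]
      field_simp
    · rw [Finset.sum_const, Nat.card_Ico, nsmul_eq_mul, pow_add _ r]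
      refine mul_le_mul_of_nonneg_right ?_ (by positivity)
      have h1 : i - k ≤ r := by omega
      have h2 : r < 2 ^ r := Nat.lt_two_pow_self
      exact_mod_cast h1.trans h2.le
  -- the assembly
  have e7 : ∀ l, 2 ^ g₀ (f 0) l / 2 ^ g₀ (f 0) i * gnh F c i (g₀ (f 0)) G' (G (f n)) ω l =
      ncp c i (G' (ptr F J ω)) Ψ (bt F ω) l := fun l => by
    unfold gnh
    rw [← hΨ]
    field_simp
  have s3 : ∑ l ∈ Finset.Ico k i, 2 ^ g₀ (f 0) l / 2 ^ g₀ (f 0) i *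
      (gnh F c i (g₀ (f 0)) G' (G (f n)) ω l - mm l) * (hgt F c G' ω l - hgt F c G' ν l) =
      ∑ l ∈ Finset.Ico k i, ncp c i (G' (ptr F J ω)) Ψ (bt F ω) l *
        (hgt F c G' ω l - hgt F c G' ν l) -
      ∑ l ∈ Finset.Ico k i, 2 ^ g₀ (f 0) l / 2 ^ g₀ (f 0) i * mm l *
        (hgt F c G' ω l - hgt F c G' ν l) := by
    rw [← Finset.sum_sub_distrib]
    refine Finset.sum_congr rfl fun l _ => ?_
    rw [← e7 l]
    ring
  have s1 : 2 ^ X * ∑ j ∈ Finset.range k, gnh F c i (g₀ (f 0)) G' (G (f n)) ω j *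
      (2 ^ (g₀ (f 0) j + q) * (hgt F c G' ω j - hgt F c G' ν j)) =
      2 ^ L * ∑ j ∈ Finset.range k, ncp c i (G' (ptr F J ω)) Ψ (bt F ω) j *
        (hgt F c G' ω j - hgt F c G' ν j) := by
    rw [Finset.mul_sum, Finset.mul_sum]
    refine Finset.sum_congr rfl fun j _ => ?_
    rw [← e7 j, hL, pow_add, pow_add, pow_add]
    field_simp
  have s4 : ∑ j ∈ Finset.Ico 0 i, ncp c i (G' (ptr F J ω)) Ψ (bt F ω) j *
        (hgt F c G' ω j - hgt F c G' ν j) =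
      ∑ j ∈ Finset.range k, ncp c i (G' (ptr F J ω)) Ψ (bt F ω) j *
        (hgt F c G' ω j - hgt F c G' ν j) +
      ∑ l ∈ Finset.Ico k i, ncp c i (G' (ptr F J ω)) Ψ (bt F ω) l *
        (hgt F c G' ω l - hgt F c G' ν l) := by
    rw [Finset.range_eq_Ico, Finset.sum_Ico_consecutive _ (Nat.zero_le k) hki]
  have e8 : 2 ^ X * (2 ^ (g₀ (f 0) i + q) * ((hgt F c G' ω i - hgt F c G' ν i) -
        ∑ l ∈ Finset.Ico k i,
        2 ^ g₀ (f 0) l / 2 ^ g₀ (f 0) i * mm l * (hgt F c G' ω l - hgt F c G' ν l))) -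
      2 ^ X * ∑ j ∈ Finset.range k, gnh F c i (g₀ (f 0)) G' (G (f n)) ω j *
        (2 ^ (g₀ (f 0) j + q) * (hgt F c G' ω j - hgt F c G' ν j)) =
      2 ^ L * (F.x ω (c i) - eval (bt F ω) (G (f n) (ptr F J ω) i)) -
      2 ^ L * (F.x ν (c i) - eval (bt F ν) (G (f n) (ptr F J ν) i)) -
      2 ^ L * ((eval (bt F ν) Ψ - eval (bt F ω) Ψ) + ∑ j ∈ Finset.Ico 0 i,
        ncp c i (G' (ptr F J ω)) Ψ (bt F ω) j * (hgt F c G' ω j - hgt F c G' ν j)) +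
      2 ^ L * ∑ l ∈ Finset.Ico k i, 2 ^ g₀ (f 0) l / 2 ^ g₀ (f 0) i *
        (gnh F c i (g₀ (f 0)) G' (G (f n)) ω l - mm l) *
          (hgt F c G' ω l - hgt F c G' ν l) := by
    rw [s1, s3, s4]
    have h5 : hgt F c G' ω i - hgt F c G' ν i =
        (F.x ω (c i) - eval (bt F ω) (G (f n) (ptr F J ω) i)) -
        (F.x ν (c i) - eval (bt F ν) (G (f n) (ptr F J ν) i)) -
        (eval (bt F ν) Ψ - eval (bt F ω) Ψ) := by
      have h6 : eval (bt F ν) Ψ = eval (bt F ν) (G (f n) (ptr F J ν) i) -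
          eval (bt F ν) (G' (ptr F J ν) i) := by
        rw [hΨ, map_sub, hGn i le_rfl, hG' i le_rfl]
      have h7 : eval (bt F ω) Ψ = eval (bt F ω) (G (f n) (ptr F J ω) i) -
          eval (bt F ω) (G' (ptr F J ω) i) := by
        rw [hΨ, map_sub]
      rw [h6, h7]
      unfold hgt
      ring
    rw [h5, hL, pow_add _ (g₀ (f 0) i + q) X]
    ring
  rw [e8]
  refine (abs_add_le _ _).trans ((add_le_add (abs_sub _ _) le_rfl).trans ?_)
  have b1 := (abs_sub (2 ^ L * (F.x ω (c i) - eval (bt F ω) (G (f n) (ptr F J ω) i)))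
    (2 ^ L * (F.x ν (c i) - eval (bt F ν) (G (f n) (ptr F J ν) i)))).trans (add_le_add q1 q2)
  have b2 : (2 : ℝ) ^ (4 * Y) ≤ 2 ^ (A * Y + Y₃ - 2) := pow_le_pow_right₀ (by norm_num) (by
    have : 4 * Y + 2 ≤ A * Y := by rw [hA]; nlinarith
    omega)
  have b3 : (2 : ℝ) ^ (C * Y') ≤ 2 ^ (A * Y + Y₃ - 2) := pow_le_pow_right₀ (by norm_num) (by
    have h1 : C * Y' = 4 * (C * Y) + 2 * (C * C' * Y) := by
      rw [hY', hE]
      ring
    have h2 : A * Y = 4 * (C * C' * Y) + 8 * (C * Y) + 4 * (C' * Y) + 2 * (r * Y) + 20 * Y := by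
      rw [hA]
      ring
    rw [h1, h2]
    omega)
  have b4 : (2 : ℝ) ^ (r + (Y₃ + E)) ≤ 2 ^ (A * Y + Y₃ - 2) := pow_le_pow_right₀ (by norm_num)
    (by omega)
  have b5 : (2 : ℝ) ^ (A * Y + Y₃) = 4 * 2 ^ (A * Y + Y₃ - 2) := by
    obtain ⟨v, hv⟩ : ∃ v : ℕ, A * Y + Y₃ = v + 2 := ⟨A * Y + Y₃ - 2, by omega⟩
    rw [hv, Nat.add_sub_cancel, pow_add]
    ring
  rw [b5]
  linarith

end Pool.V0S
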