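import Pool.Agent.H87.V0S.Gp6
import Pool.Agent.H66.AVG.Rln
import Pool.Agent.H83.VP.Sd

/-!
# The target over followers: path, value, side path

The places `k ≤ l < i` are the followers, the target is the height of the place `i` minus its closed
gradients along the followers times their heights over their rounded paths. `rnd`: a rounded
polynomial. `mcE`: the rounded gradient, a polynomial in the time of the window `Wm`. `tpE`: the path of
the target; `TVE`: its value; `sdE`: the side path (the codes of the followers and of the gradients).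
-/

set_option autoImplicit false

namespace Pool.V0S

open Finset Real MvPolynomial
open Pool.Agent.H49.Ent Pool.Agent.H32.Dense
open Pool.STK hiding pr2
open Pool.KA Pool.KSAT Pool.K2S Pool.PB Pool.S6C
open Pool.GEN Pool.CHT Pool.CHX Pool.ISO Pool.LA91 Pool.AVG71 Pool.AVG5 Pool.D2F2 Pool.AVG57
open Pool.AVG66
open Pool.D2R (hgt gnh)
open Pool.PB.Trl (rt rt_mem t_rt)

variable {m J : ℕ}

/-! ### A rounded polynomial -/

/-- The codes of a polynomial in units `2 ^ -N`. -/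
noncomputable def rcd (N K : ℕ) (P : Polynomial ℝ) (a : Fin (K + 1)) : ℤ :=
  ⌊(2 : ℝ) ^ N * P.coeff (a : ℕ)⌋

/-- The rounded polynomial. -/
noncomputable def rnd (N K : ℕ) (P : Polynomial ℝ) : Polynomial ℝ :=
  ∑ a : Fin (K + 1), Polynomial.C ((rcd N K P a : ℝ) / 2 ^ N) * Polynomial.X ^ (a : ℕ)

section

variable {N K : ℕ} {P Q : Polynomial ℝ}

theorem rnd_deg : (rnd N K P).natDegree ≤ K := by
  unfold rnd
  refine Polynomial.natDegree_sum_le_of_forall_le _ _ fun a _ => ?_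
  refine (Polynomial.natDegree_C_mul_X_pow_le _ _).trans ?_
  have := a.isLt
  omega

theorem rnd_coeff (a : Fin (K + 1)) : (rnd N K P).coeff (a : ℕ) = (rcd N K P a : ℝ) / 2 ^ N := by
  unfold rnd
  rw [Polynomial.finsetSum_coeff, Finset.sum_eq_single a]
  · rw [Polynomial.coeff_C_mul_X_pow, if_pos rfl]
  · intro b _ hb
    rw [Polynomial.coeff_C_mul_X_pow, if_neg]
    intro h
    exact hb (Fin.ext h.symm)
  · intro h
    exact absurd (mem_univ _) h

theorem rnd_of (h : rcd N K P = rcd N K Q) : rnd N K P = rnd N K Q := by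
  unfold rnd
  rw [h]

theorem rnd_near (hP : P.natDegree ≤ K) (a : ℕ) : |(P - rnd N K P).coeff a| ≤ 1 / 2 ^ N := by
  rw [Polynomial.coeff_sub]
  rcases Nat.lt_or_ge K a with h | h
  · rw [Polynomial.coeff_eq_zero_of_natDegree_lt (hP.trans_lt h),
      Polynomial.coeff_eq_zero_of_natDegree_lt (rnd_deg.trans_lt h), sub_self, abs_zero]
    positivity
  · have h1 := rnd_coeff (N := N) (P := P) ⟨a, Nat.lt_succ_of_le h⟩
    simp only at h1
    rw [h1]
    unfold rcd
    simp only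
    have p : (0 : ℝ) < 2 ^ N := by positivity
    have f1 := Int.floor_le ((2 : ℝ) ^ N * P.coeff a)
    have f2 := Int.lt_floor_add_one ((2 : ℝ) ^ N * P.coeff a)
    have e1 : P.coeff a - (⌊(2 : ℝ) ^ N * P.coeff a⌋ : ℝ) / 2 ^ N =
        ((2 : ℝ) ^ N * P.coeff a - ⌊(2 : ℝ) ^ N * P.coeff a⌋) / 2 ^ N := by
      field_simp
    rw [e1, abs_div, abs_of_pos p, abs_of_nonneg (by linarith)]
    exact div_le_div_of_nonneg_right (by linarith) p.le

theorem rnd_eval (hP : P.natDegree ≤ K) {θ : ℝ} (hθ : 0 ≤ θ ∧ θ ≤ 1) :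
    |P.eval θ - (rnd N K P).eval θ| ≤ (K + 1) * (1 / 2 ^ N) := by
  rw [← Polynomial.eval_sub]
  exact eval_le_of ((Polynomial.natDegree_sub_le _ _).trans (max_le hP rnd_deg)) hθ
    (rnd_near hP)

theorem rnd_abs {U : ℝ} (hU : ∀ a, |P.coeff a| ≤ U) (a : ℕ) : |(rnd N K P).coeff a| ≤ U + 1 := by
  rcases Nat.lt_or_ge K a with h | h
  · rw [Polynomial.coeff_eq_zero_of_natDegree_lt (rnd_deg.trans_lt h), abs_zero]
    linarith [(abs_nonneg _).trans (hU 0)]
  · have h1 := rnd_coeff (N := N) (P := P) ⟨a, Nat.lt_succ_of_le h⟩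
    simp only at h1
    rw [h1]
    unfold rcd
    simp only
    have p : (1 : ℝ) ≤ 2 ^ N := one_le_pow₀ (by norm_num)
    have p0 : (0 : ℝ) < 2 ^ N := by positivity
    have f1 := Int.floor_le ((2 : ℝ) ^ N * P.coeff a)
    have f2 := Int.lt_floor_add_one ((2 : ℝ) ^ N * P.coeff a)
    have f3 := abs_le.1 (hU a)
    rw [abs_le, le_div_iff₀ p0, div_le_iff₀ p0]
    constructor <;> nlinarith [f3.1, f3.2]

end

/-! ### The target -/

/-- The rounded gradient. -/
noncomputable def mcE (F : Fam m J) (Wm Km YM : ℕ) (mu : LnT F → ℕ → Polynomial ℝ) (l : ℕ)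
    (ω : F.Ω) : Polynomial ℝ := rnd YM Km (mu (slam F Wm ω) l)

/-- The rounded gradient in the time of the window `W`. -/
noncomputable def mcW (F : Fam m J) (Wm Km YM W : ℕ) (mu : LnT F → ℕ → Polynomial ℝ) (l : ℕ)
    (ω : F.Ω) : Polynomial ℝ := plW F Wm W (mcE F Wm Km YM mu l ω) ω

/-- **The path of the target.** -/
noncomputable def tpE (F : Fam m J) (c : ℕ → Fin m) (k i q w Wm K Km YM : ℕ) (N γ : ℕ → ℕ)
    (H : LnT F → ℕ → MvPolynomial (Option (Fin m)) ℝ) (mu : LnT F → ℕ → Polynomial ℝ) (W : ℕ)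
    (ω : F.Ω) : Polynomial ℝ :=
  Polynomial.C (2 ^ (γ i + q)) * dv W (fun s (_ : Fin m) => H (upw w W s) i) (c i) (slam F W ω) -
    ∑ l ∈ Finset.Ico k i, RU F c l q w W K (N l) γ H (mcW F Wm Km YM W mu l) ω

/-- **The value of the target.** -/
noncomputable def TVE (F : Fam m J) (c : ℕ → Fin m) (k i q w Wm K Km YM : ℕ) (N γ : ℕ → ℕ)
    (H : LnT F → ℕ → MvPolynomial (Option (Fin m)) ℝ) (mu : LnT F → ℕ → Polynomial ℝ)
    (G₀ : PtT F → ℕ → MvPolynomial (Option (Fin m)) ℝ) (ω : F.Ω) : ℝ :=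
  2 ^ (γ i + q) * hgt F c G₀ ω i - ∑ l ∈ Finset.Ico k i,
    (mcE F Wm Km YM mu l ω).eval (rt F Wm ω) * (2 ^ (γ l + q) *
      (hgt F c G₀ ω l - (pru F c l w K (N l) H ω).eval (rt F w ω)))

/-- **The side path**: the codes of the followers and of the gradients. -/
noncomputable def sdE (F : Fam m J) (c : ℕ → Fin m) (k i w Wm K Km YM : ℕ) (N : ℕ → ℕ)
    (H : LnT F → ℕ → MvPolynomial (Option (Fin m)) ℝ) (mu : LnT F → ℕ → Polynomial ℝ) (ω : F.Ω) :
    (ℕ → Fin (K + 1) → ℤ) × (ℕ → Fin (Km + 1) → ℤ) :=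
  (fun l a => if k ≤ l ∧ l < i then cod F w (fun s => H s l) (c l) (N l) 0 K ω a else 0,
    fun l a => if k ≤ l ∧ l < i then rcd YM Km (mu (slam F Wm ω) l) a else 0)

section

variable {F : Fam m J} {c : ℕ → Fin m} {k i q w Wm W K Km YM D : ℕ} {N γ : ℕ → ℕ}
  {H : LnT F → ℕ → MvPolynomial (Option (Fin m)) ℝ} {mu : LnT F → ℕ → Polynomial ℝ}
  {G₀ : PtT F → ℕ → MvPolynomial (Option (Fin m)) ℝ} {B : F.Ω → Prop}

theorem slam_up' (hw : w ≤ W) (hW : W ≤ J) {ω ν : F.Ω} (e : slam F W ω = slam F W ν) :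
    slam F w ω = slam F w ν := by
  rw [← upw_slam F hw hW ω, ← upw_slam F hw hW ν, e]

theorem T1_slam {ω ν : F.Ω} (e : slam F W ω = slam F W ν) : F.T1 W ω = F.T1 W ν :=
  (Prod.ext_iff.mp (Prod.ext_iff.mp e).2).2

theorem mcW_slam (p : F.Ω → ℝ) (hw : Wm ≤ W) (hW : W ≤ J) (l : ℕ) :
    Det p (slam F W) (mcW F Wm Km YM W mu l) := by
  intro ω ν _ _ e
  unfold mcW mcE
  rw [slam_up' hw hW e, plW_of F hw hW _ (T1_slam e)]

theorem mcW_deg (l : ℕ) (ω : F.Ω) : (mcW F Wm Km YM W mu l ω).natDegree ≤ Km :=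
  plW_deg F rnd_deg ω

/-- The path of the target is a function of the line. -/
theorem tpE_slam (p : F.Ω → ℝ) (hw : w ≤ W) (hwm : Wm ≤ W) (hW : W ≤ J) :
    Det p (slam F W) (tpE F c k i q w Wm K Km YM N γ H mu W) := by
  intro ω ν hω hν e
  have h : ∀ l, RU F c l q w W K (N l) γ H (mcW F Wm Km YM W mu l) ω =
      RU F c l q w W K (N l) γ H (mcW F Wm Km YM W mu l) ν := fun l =>
    RU_slam p hw hW (mcW_slam p hwm hW l) ω ν hω hν e
  unfold tpE
  rw [e, Finset.sum_congr rfl fun l _ => h l]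

theorem tpE_deg (hw : w ≤ W) (hW : W ≤ J) (hH : ∀ s l, (H s l).totalDegree ≤ D)
    (hK : D + 1 ≤ K) (ω : F.Ω) :
    (tpE F c k i q w Wm K Km YM N γ H mu W ω).natDegree ≤ Km + K := by
  unfold tpE
  refine (Polynomial.natDegree_sub_le _ _).trans (max_le ?_ ?_)
  · exact (Polynomial.natDegree_C_mul_le _ _).trans (((natDegree_dv W
      (G := fun s (_ : Fin m) => H (upw w W s) i) (fun s _ => hH _ _) _ _).trans hK).trans
        (by omega))
  · exact Polynomial.natDegree_sum_le_of_forall_le _ _ fun l _ =>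
      RU_deg hw hW hH hK (mcW_deg l ω)

/-- The value of the path of the target. -/
theorem tpE_eval (hw : w ≤ W) (hwm : Wm ≤ W) (hW : W ≤ J) {ω : F.Ω}
    (hc : ∀ l, k ≤ l → l ≤ i → G₀ (ptr F J ω) l = H (slam F w ω) l) (hki : k ≤ i) :
    (tpE F c k i q w Wm K Km YM N γ H mu W ω).eval (rt F W ω) =
      TVE F c k i q w Wm K Km YM N γ H mu G₀ ω := by
  have h1 : ∀ l, k ≤ l → l ≤ i → (Polynomial.C (2 ^ (γ l + q)) *
      dv W (fun s (_ : Fin m) => H (upw w W s) l) (c l) (slam F W ω)).eval (rt F W ω) =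
      2 ^ (γ l + q) * hgt F c G₀ ω l := by
    intro l hl hli
    rw [dvW_ojet hw hW, hgt_ojet (hw.trans hW) (hc l hl hli)]
  unfold tpE TVE
  rw [Polynomial.eval_sub, h1 i hki le_rfl, Polynomial.eval_finsetSum]
  congr 1
  refine Finset.sum_congr rfl fun l hl => ?_
  rw [Finset.mem_Ico] at hl
  unfold RU mcW rsu
  rw [Polynomial.eval_mul, plW_eval F hwm hW, Polynomial.eval_sub, h1 l hl.1 hl.2.le,
    Polynomial.eval_mul, Polynomial.eval_C, plW_eval F hw hW]
  ring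

/-- The side path is a function of the line. -/
theorem sdE_slam (p : F.Ω → ℝ) (hw : w ≤ W) (hwm : Wm ≤ W) (hW : W ≤ J) :
    Det p (slam F W) (sdE F c k i w Wm K Km YM N H mu) := by
  intro ω ν _ _ e
  have e1 := slam_up' hw hW e
  have e2 := slam_up' hwm hW e
  unfold sdE
  refine Prod.ext ?_ ?_
  · funext l a
    simp only
    split_ifs
    · unfold Pool.AVG57.cod
      rw [e1]
    · rfl
  · funext l a
    simp only
    rw [e2]

theorem sdE_of {ω ν : F.Ω} (e : sdE F c k i w Wm K Km YM N H mu ω =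
    sdE F c k i w Wm K Km YM N H mu ν) {l : ℕ} (hl : k ≤ l) (hli : l < i) :
    pru F c l w K (N l) H ω = pru F c l w K (N l) H ν ∧
      mcE F Wm Km YM mu l ω = mcE F Wm Km YM mu l ν := by
  obtain ⟨e1, e2⟩ := Prod.ext_iff.mp e
  have e3 := congrFun e1 l
  have e4 := congrFun e2 l
  unfold sdE at e3 e4
  simp only [hl, hli, and_self, if_true] at e3 e4
  refine ⟨pru_of ?_, rnd_of ?_⟩
  · funext a
    exact congrFun e3 a
  · funext a
    exact congrFun e4 a

/-- The value of the target at two samples with the same time and side path. -/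
theorem TVE_sub (hw : w ≤ J) (hwm : Wm ≤ J) {ω ν : F.Ω} (ht : F.t ω = F.t ν)
    (e : sdE F c k i w Wm K Km YM N H mu ω = sdE F c k i w Wm K Km YM N H mu ν) :
    TVE F c k i q w Wm K Km YM N γ H mu G₀ ω - TVE F c k i q w Wm K Km YM N γ H mu G₀ ν =
      2 ^ (γ i + q) * ((hgt F c G₀ ω i - hgt F c G₀ ν i) - ∑ l ∈ Finset.Ico k i,
        2 ^ γ l / 2 ^ γ i * (mcE F Wm Km YM mu l ω).eval (rt F Wm ω) *
          (hgt F c G₀ ω l - hgt F c G₀ ν l)) := by
  have hT := T_of_t F ht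
  have r1 := rt_of F hw hT
  have r2 := rt_of F hwm hT
  unfold TVE
  have e1 : ∑ l ∈ Finset.Ico k i, (mcE F Wm Km YM mu l ν).eval (rt F Wm ν) * (2 ^ (γ l + q) *
      (hgt F c G₀ ν l - (pru F c l w K (N l) H ν).eval (rt F w ν))) =
      ∑ l ∈ Finset.Ico k i, (mcE F Wm Km YM mu l ω).eval (rt F Wm ω) * (2 ^ (γ l + q) *
      (hgt F c G₀ ν l - (pru F c l w K (N l) H ω).eval (rt F w ω))) := by
    refine Finset.sum_congr rfl fun l hl => ?_
    rw [Finset.mem_Ico] at hl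
    obtain ⟨a1, a2⟩ := sdE_of e hl.1 hl.2
    rw [a1, a2, r1, r2]
  rw [e1, mul_sub, Finset.mul_sum]
  have e2 : ∑ l ∈ Finset.Ico k i, 2 ^ (γ i + q) * (2 ^ γ l / 2 ^ γ i *
      (mcE F Wm Km YM mu l ω).eval (rt F Wm ω) * (hgt F c G₀ ω l - hgt F c G₀ ν l)) =
      ∑ l ∈ Finset.Ico k i, (mcE F Wm Km YM mu l ω).eval (rt F Wm ω) * (2 ^ (γ l + q) *
        (hgt F c G₀ ω l - (pru F c l w K (N l) H ω).eval (rt F w ω))) -
      ∑ l ∈ Finset.Ico k i, (mcE F Wm Km YM mu l ω).eval (rt F Wm ω) * (2 ^ (γ l + q) *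
        (hgt F c G₀ ν l - (pru F c l w K (N l) H ω).eval (rt F w ω))) := by
    rw [← Finset.sum_sub_distrib]
    refine Finset.sum_congr rfl fun l _ => ?_
    rw [pow_add, pow_add]
    field_simp
    ring
  rw [e2]
  ring

end

end Pool.V0S
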